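import Pool.Agent.T2h98.KU.Stm
import Pool.Agent.T2h98.QD.Poi3

/-! Cauchy sums (KCAU). -/

set_option autoImplicit false
set_option linter.unusedSectionVars false

open scoped BigOperators Topology ComplexConjugate
open MeasureTheory Filter Set

namespace Pool.Agent.T2h98.KU

open Pool.Agent.W788.MFP.Four (T NN adj)
open Pool.Agent.W788.BK (cr)
open Pool.Agent.T2h98.QD

namespace Kcau

open Pool.Agent.T2h98.QD.Poi0

section general

variable {Ψ ΨL : ℝ → ℂ} {C3 D u Γ E E' r : ℝ}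

theorem mainH (hΨ : Continuous Ψ) (hΨL : Continuous ΨL) (hC3 : 0 ≤ C3) (hD : 0 ≤ D)
    (hu : 0 ≤ u) (h1 : ∀ s, ‖ΨL s - Ψ s‖ ≤ D * (Real.exp (Γ / 4 * |s|) * u))
    (h2 : ∀ s, ‖Ψ s‖ ≤ C3 * (1 + ‖s‖) ^ (-(3 / 2) : ℝ)) {M : ℝ} (hM : ∀ s, ‖ΨL s‖ ≤ M)
    (hΓ : 0 < Γ) (hE : |E - E'| < r) (hΓr : Γ < r) :
    ‖(∫ s in Ioi (0 : ℝ), ((A 0 Γ s : ℝ) : ℂ) *
        (Complex.exp (((E' * s : ℝ) : ℂ) * Complex.I) * ΨL (-s))) -
      ∫ s in Ioi (0 : ℝ), Complex.exp (((E * s : ℝ) : ℂ) * Complex.I) * Ψ (-s)‖ ≤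
      16 * D * (u / Γ) + 3 * C3 * r ^ (1 / 4 : ℝ) * I54 := by
  have hr0 : 0 < r := hΓ.trans hΓr
  have n1 : ∀ x : ℝ, ‖Complex.exp ((x : ℂ) * Complex.I)‖ = 1 := Complex.norm_exp_ofReal_mul_I
  have c1 : Continuous fun s : ℝ => Complex.exp (((E' * s : ℝ) : ℂ) * Complex.I) := by fun_prop
  have c2 : Continuous fun s : ℝ => Complex.exp (((E * s : ℝ) : ℂ) * Complex.I) := by fun_prop
  have c3 : Continuous fun s : ℝ => ΨL (-s) := hΨL.comp continuous_neg
  have c4 : Continuous fun s : ℝ => Ψ (-s) := hΨ.comp continuous_neg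
  have i1 : Integrable fun s : ℝ => ((A 0 Γ s : ℝ) : ℂ) *
      (Complex.exp (((E' * s : ℝ) : ℂ) * Complex.I) * ΨL (-s)) :=
    A_int_mul le_rfl zero_le_one hΓ (c1.mul c3) (M := M) fun s => by
      rw [norm_mul, n1, one_mul]; exact hM (-s)
  have i2 : Integrable fun s : ℝ => Complex.exp (((E * s : ℝ) : ℂ) * Complex.I) * Ψ (-s) := by
    refine Integrable.mono' ((int_pow (p := 3 / 2) (by norm_num)).const_mul C3)
      (c2.mul c4).aestronglyMeasurable (ae_of_all _ fun s => ?_)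
    rw [norm_mul, n1, one_mul]
    have := h2 (-s)
    rwa [norm_neg] at this
  rw [← integral_sub i1.integrableOn i2.integrableOn]
  have i3 : Integrable fun s : ℝ => (2 * D * u) * Real.exp (-(Γ / 4 * |s|)) +
      (3 * C3 * r ^ (1 / 4 : ℝ)) * (1 + ‖s‖) ^ (-(5 / 4) : ℝ) :=
    (((exp_abs_int (b := Γ / 4) (by linarith)).1).const_mul _).add
      ((int_pow (p := 5 / 4) (by norm_num)).const_mul _)
  have hb : ∀ s : ℝ, ‖((A 0 Γ s : ℝ) : ℂ) *
      (Complex.exp (((E' * s : ℝ) : ℂ) * Complex.I) * ΨL (-s)) -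
      Complex.exp (((E * s : ℝ) : ℂ) * Complex.I) * Ψ (-s)‖ ≤
      (2 * D * u) * Real.exp (-(Γ / 4 * |s|)) +
      (3 * C3 * r ^ (1 / 4 : ℝ)) * (1 + ‖s‖) ^ (-(5 / 4) : ℝ) := by
    intro s
    have hA0 := A_nonneg (β := 0) le_rfl hΓ s
    have e : ((A 0 Γ s : ℝ) : ℂ) *
        (Complex.exp (((E' * s : ℝ) : ℂ) * Complex.I) * ΨL (-s)) -
        Complex.exp (((E * s : ℝ) : ℂ) * Complex.I) * Ψ (-s) =
        ((A 0 Γ s : ℝ) : ℂ) * (Complex.exp (((E' * s : ℝ) : ℂ) * Complex.I) *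
          (ΨL (-s) - Ψ (-s))) +
        ((((A 0 Γ s - 1 : ℝ) : ℂ)) * Complex.exp (((E' * s : ℝ) : ℂ) * Complex.I) +
          (Complex.exp (((E' * s : ℝ) : ℂ) * Complex.I) -
            Complex.exp (((E * s : ℝ) : ℂ) * Complex.I))) * Ψ (-s) := by
      push_cast; ring
    rw [e]
    refine (norm_add_le _ _).trans (add_le_add ?_ ?_)
    · rw [norm_mul, norm_mul, n1, one_mul, Complex.norm_real, Real.norm_eq_abs,
        abs_of_nonneg hA0]
      have e3 : Real.exp (-(Γ / 2 * |s|)) * Real.exp (Γ / 4 * |s|) =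
          Real.exp (-(Γ / 4 * |s|)) := by
        rw [← Real.exp_add]
        congr 1
        ring
      have h1' := h1 (-s)
      rw [abs_neg] at h1'
      calc A 0 Γ s * ‖ΨL (-s) - Ψ (-s)‖ ≤
            (2 * Real.exp (-(Γ / 2 * |s|))) * (D * (Real.exp (Γ / 4 * |s|) * u)) :=
            mul_le_mul (A_le zero_le_one hΓ s) h1' (norm_nonneg _) (by positivity)
        _ = (2 * D * u) * (Real.exp (-(Γ / 2 * |s|)) * Real.exp (Γ / 4 * |s|)) := by ring
        _ = _ := by rw [e3]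
    · rw [norm_mul]
      have h3 : ‖(((A 0 Γ s - 1 : ℝ) : ℂ)) * Complex.exp (((E' * s : ℝ) : ℂ) * Complex.I) +
          (Complex.exp (((E' * s : ℝ) : ℂ) * Complex.I) -
            Complex.exp (((E * s : ℝ) : ℂ) * Complex.I))‖ ≤
          3 * (r ^ (1 / 4 : ℝ) * (1 + ‖s‖) ^ (1 / 4 : ℝ)) := by
        refine (norm_add_le _ _).trans ?_
        rw [norm_mul, n1, mul_one, Complex.norm_real, Real.norm_eq_abs]
        have a1 := A_sub (β := 0) le_rfl zero_le_one hΓ s
        have a2 := phase_sub E E' (-s)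
        have e5 : ∀ x : ℝ, -(x * -s) = x * s := fun x => by ring
        rw [e5, e5, abs_neg] at a2
        have q1 : (Γ * |s|) ^ (1 / 4 : ℝ) ≤ r ^ (1 / 4 : ℝ) * (1 + ‖s‖) ^ (1 / 4 : ℝ) := by
          rw [← Real.mul_rpow hr0.le (by positivity)]
          apply Real.rpow_le_rpow (by positivity) _ (by norm_num)
          rw [Real.norm_eq_abs]
          have := abs_nonneg s
          nlinarith
        have q2 : (|E - E'| * |s|) ^ (1 / 4 : ℝ) ≤ r ^ (1 / 4 : ℝ) * (1 + ‖s‖) ^ (1 / 4 : ℝ) := by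
          rw [← Real.mul_rpow hr0.le (by positivity)]
          apply Real.rpow_le_rpow (by positivity) _ (by norm_num)
          rw [Real.norm_eq_abs]
          have := abs_nonneg s
          have := abs_nonneg (E - E')
          nlinarith
        linarith
      have hs1 : (0 : ℝ) < 1 + ‖s‖ := by positivity
      have h2' := h2 (-s)
      rw [norm_neg] at h2'
      calc _ ≤ (3 * (r ^ (1 / 4 : ℝ) * (1 + ‖s‖) ^ (1 / 4 : ℝ))) *
            (C3 * (1 + ‖s‖) ^ (-(3 / 2) : ℝ)) :=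
            mul_le_mul h3 h2' (norm_nonneg _) (by positivity)
        _ = (3 * C3 * r ^ (1 / 4 : ℝ)) * ((1 + ‖s‖) ^ (1 / 4 : ℝ) * (1 + ‖s‖) ^ (-(3 / 2) : ℝ)) := by
            ring
        _ = _ := by
            rw [← Real.rpow_add hs1]
            norm_num
  refine (norm_integral_le_of_norm_le i3.integrableOn (ae_of_all _ hb)).trans ?_
  refine (setIntegral_le_integral i3 (ae_of_all _ fun s => ?_)).trans ?_
  · change (0 : ℝ) ≤ (2 * D * u) * Real.exp (-(Γ / 4 * |s|)) +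
      (3 * C3 * r ^ (1 / 4 : ℝ)) * (1 + ‖s‖) ^ (-(5 / 4) : ℝ)
    positivity
  rw [integral_add (((exp_abs_int (b := Γ / 4) (by linarith)).1).const_mul _)
      ((int_pow (p := 5 / 4) (by norm_num)).const_mul _), integral_const_mul, integral_const_mul,
      (exp_abs_int (b := Γ / 4) (by linarith)).2]
  have hI : ∫ s : ℝ, (1 + ‖s‖) ^ (-(5 / 4) : ℝ) = I54 := rfl
  rw [hI]
  refine add_le_add (le_of_eq ?_) le_rfl
  field_simp
  ring

/-- the imaginary part of the boundary value -/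
theorem imH (hΨ : Continuous Ψ) (h2 : ∀ s, ‖Ψ s‖ ≤ C3 * (1 + ‖s‖) ^ (-(3 / 2) : ℝ))
    (hconj : ∀ s, Ψ (-s) = conj (Ψ s)) (E : ℝ) :
    (Complex.I * ∫ s in Ioi (0 : ℝ), Complex.exp (((E * s : ℝ) : ℂ) * Complex.I) * Ψ (-s)).im =
      Real.pi * (((2 * Real.pi : ℝ) : ℂ)⁻¹ *
        ∫ s : ℝ, Complex.exp (((-(E * s) : ℝ) : ℂ) * Complex.I) * Ψ s).re := by
  set f : ℝ → ℂ := fun s => Complex.exp (((-(E * s) : ℝ) : ℂ) * Complex.I) * Ψ s with hf
  set J : ℂ := ∫ s in Ioi (0 : ℝ), Complex.exp (((E * s : ℝ) : ℂ) * Complex.I) * Ψ (-s) with hJ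
  have n1 : ∀ x : ℝ, ‖Complex.exp ((x : ℂ) * Complex.I)‖ = 1 := Complex.norm_exp_ofReal_mul_I
  have hint : Integrable f := by
    have c2 : Continuous fun s : ℝ => Complex.exp (((-(E * s) : ℝ) : ℂ) * Complex.I) := by
      fun_prop
    refine Integrable.mono' ((int_pow (p := 3 / 2) (by norm_num)).const_mul C3)
      (c2.mul hΨ).aestronglyMeasurable (ae_of_all _ fun s => ?_)
    rw [norm_mul, n1, one_mul]
    exact h2 s
  have h3 : ∫ s, f s = (∫ s in Iic (0 : ℝ), f s) + ∫ s in Ioi (0 : ℝ), f s :=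
    (intervalIntegral.integral_Iic_add_Ioi hint.integrableOn hint.integrableOn).symm
  have h4 : ∫ s in Iic (0 : ℝ), f s = J := by
    have := integral_comp_neg_Ioi (0 : ℝ) f
    rw [neg_zero] at this
    rw [← this, hJ]
    apply integral_congr_ae
    refine ae_of_all _ fun s => ?_
    simp only [hf]
    congr 3
    push_cast
    ring
  have h5 : ∫ s in Ioi (0 : ℝ), f s = conj J := by
    rw [hJ, ← integral_conj]
    apply integral_congr_ae
    refine ae_of_all _ fun s => ?_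
    simp only [hf]
    rw [map_mul, hconj, Complex.conj_conj, ← Complex.exp_conj, map_mul, Complex.conj_I,
      Complex.conj_ofReal]
    congr 2
    push_cast
    ring
  have h6 : ((2 * Real.pi : ℝ) : ℂ)⁻¹ = (((2 * Real.pi)⁻¹ : ℝ) : ℂ) := by push_cast; rfl
  rw [h3, h4, h5, h6, Complex.re_ofReal_mul, Complex.add_re, Complex.conj_re]
  simp only [Complex.mul_im, Complex.I_re, Complex.I_im]
  have := Real.pi_pos.ne'
  field_simp
  ring

end general

section means

variable {d L : ℕ} [NeZero L]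

/-- the mean over the momenta -/
lemma mean_eqH (c : Fin d → ZMod L → ℝ) {Γ E' : ℝ} (hΓ : 0 < Γ) :
    ((NN d L : ℝ) : ℂ)⁻¹ * ∑ k : T d L, ((∏ i, c i (k i) : ℝ) : ℂ) *
      (((adj k - E' : ℝ) : ℂ) - (Γ : ℂ) * Complex.I)⁻¹ =
    Complex.I * ∫ s in Ioi (0 : ℝ), ((A 0 Γ s : ℝ) : ℂ) *
      (Complex.exp (((E' * s : ℝ) : ℂ) * Complex.I) * ∏ i, mn (c i) (-s)) := by
  have ha : ∀ k : T d L, 0 < ((Γ : ℂ) + ((adj k - E' : ℝ) : ℂ) * Complex.I).re := by
    intro k
    simpa using hΓ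
  have h1 : ∀ s ∈ Ioi (0 : ℝ), ((A 0 Γ s : ℝ) : ℂ) *
      (Complex.exp (((E' * s : ℝ) : ℂ) * Complex.I) * ∏ i, mn (c i) (-s)) =
      ((NN d L : ℝ) : ℂ)⁻¹ * ∑ k : T d L, ((∏ i, c i (k i) : ℝ) : ℂ) *
      ((1 + 0 * (s : ℂ)) *
        Complex.exp (-(((Γ : ℂ) + ((adj k - E' : ℝ) : ℂ) * Complex.I) * s))) := by
    intro s hs
    have hs0 : 0 < s := hs
    have h2 : ∏ i, mn (c i) (-s) = ((NN d L : ℝ) : ℂ)⁻¹ *
        ∑ k : T d L, ∏ i, (((c i (k i) : ℝ) : ℂ) *
        Complex.exp (((2 * (-s) * cr (k i) : ℝ) : ℂ) * Complex.I)) := by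
      unfold mn
      rw [Finset.prod_mul_distrib, Finset.prod_const, Finset.card_univ, Fintype.card_fin,
        Finset.prod_univ_sum, Fintype.piFinset_univ]
      congr 1
      unfold NN
      push_cast
      rw [inv_pow]
    have hA : ((A 0 Γ s : ℝ) : ℂ) = Complex.exp (-((Γ : ℂ) * s)) := by
      unfold A
      rw [abs_of_pos hs0]
      push_cast
      ring
    rw [h2, hA, Finset.mul_sum, Finset.mul_sum, Finset.mul_sum, Finset.mul_sum]
    apply Finset.sum_congr rfl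
    intro k _
    rw [Finset.prod_mul_distrib, ← Complex.exp_sum]
    have e : Complex.exp (-(((Γ : ℂ) + ((adj k - E' : ℝ) : ℂ) * Complex.I) * s)) =
        Complex.exp (-((Γ : ℂ) * s)) * (Complex.exp (((E' * s : ℝ) : ℂ) * Complex.I) *
        Complex.exp (∑ i, ((2 * (-s) * cr (k i) : ℝ) : ℂ) * Complex.I)) := by
      rw [← Complex.exp_add, ← Complex.exp_add]
      congr 1
      rw [← Finset.sum_mul]
      have e2 : (∑ i, ((2 * (-s) * cr (k i) : ℝ) : ℂ)) = -((adj k : ℝ) : ℂ) * s := by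
        rw [adj_sum]
        push_cast
        rw [neg_mul, Finset.sum_mul, ← Finset.sum_neg_distrib]
        apply Finset.sum_congr rfl
        intro i _
        ring
      rw [e2]
      push_cast
      ring
    rw [e]
    push_cast
    ring
  rw [setIntegral_congr_fun measurableSet_Ioi h1, integral_const_mul, integral_finsetSum _
    (fun k _ => ((half 1 0 (ha k)).1).const_mul _)]
  rw [mul_left_comm]
  congr 1
  rw [Finset.mul_sum]
  apply Finset.sum_congr rfl
  intro k _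
  rw [integral_const_mul, (half 1 0 (ha k)).2]
  have h0 : (Γ : ℂ) + ((adj k - E' : ℝ) : ℂ) * Complex.I ≠ 0 := by
    intro h
    have := ha k
    rw [h] at this
    simp at this
  have h3 : ((adj k - E' : ℝ) : ℂ) - (Γ : ℂ) * Complex.I ≠ 0 := by
    intro h
    have := congrArg Complex.im h
    simp at this
    linarith
  have h4 : (((adj k - E' : ℝ) : ℂ) - (Γ : ℂ) * Complex.I)⁻¹ =
      Complex.I * (1 / ((Γ : ℂ) + ((adj k - E' : ℝ) : ℂ) * Complex.I)) := by
    rw [inv_eq_iff_eq_inv, mul_inv, one_div, inv_inv, Complex.inv_I]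
    linear_combination (((adj k - E' : ℝ) : ℂ)) * Complex.I_sq
  rw [h4]
  ring

end means

lemma jb_conj (s : ℝ) : jb (-s) = conj (jb s) := by
  unfold jb
  rw [map_mul, map_inv₀, Complex.conj_ofReal]
  congr 1
  rw [intervalIntegral.integral_of_le (by linarith [Real.pi_pos]),
    intervalIntegral.integral_of_le (by linarith [Real.pi_pos]), ← integral_conj]
  apply integral_congr_ae
  refine ae_of_all _ fun k => ?_
  simp only
  rw [← Complex.exp_conj, map_mul, Complex.conj_I, Complex.conj_ofReal]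
  congr 1
  push_cast
  ring

lemma kb_conj (s : ℝ) : kb (-s) = conj (kb s) := by
  unfold kb
  rw [map_mul, map_inv₀, Complex.conj_ofReal]
  congr 1
  rw [intervalIntegral.integral_of_le (by linarith [Real.pi_pos]),
    intervalIntegral.integral_of_le (by linarith [Real.pi_pos]), ← integral_conj]
  apply integral_congr_ae
  refine ae_of_all _ fun k => ?_
  simp only
  rw [map_mul, Complex.conj_ofReal, ← Complex.exp_conj, map_mul, Complex.conj_I,
    Complex.conj_ofReal]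
  congr 2
  push_cast
  ring

end Kcau

open Pool.Agent.T2h98.QD.Poi0 Kcau in
/-- **Cauchy sums** -/
theorem kcau (hb : T_BES) (hj : T_JL3) : T_KCAU := by
  obtain ⟨C, hC, hB⟩ := hb
  obtain ⟨C', hC', hJ⟩ := hj
  intro d hd
  have hd1 : (1 : ℝ) ≤ d := by exact_mod_cast (by omega : 1 ≤ d)
  have decay : ∀ s : ℝ, (C / Real.sqrt (1 + |s|)) ^ 3 = C ^ 3 * (1 + ‖s‖) ^ (-(3 / 2) : ℝ) := by
    intro s
    have h0 : (0 : ℝ) ≤ 1 + |s| := by positivity
    rw [div_pow, Real.sqrt_eq_rpow, ← Real.rpow_natCast ((1 + |s|) ^ (1 / 2 : ℝ)),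
      ← Real.rpow_mul h0, div_eq_mul_inv, ← Real.rpow_neg h0, Real.norm_eq_abs]
    norm_num
  have dec1 : ∀ s, ‖jb s ^ d‖ ≤ C ^ 3 * (1 + ‖s‖) ^ (-(3 / 2) : ℝ) := by
    intro s
    rw [norm_pow, ← decay]
    calc ‖jb s‖ ^ d ≤ ‖jb s‖ ^ 3 := pow_le_pow_of_le_one (norm_nonneg _) (jb_norm s) hd
      _ ≤ (C / Real.sqrt (1 + |s|)) ^ 3 := pow_le_pow_left₀ (norm_nonneg _) (hB s).1 3
  have dec2 : ∀ s, ‖kb s * jb s ^ (d - 1)‖ ≤ C ^ 3 * (1 + ‖s‖) ^ (-(3 / 2) : ℝ) := by
    intro s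
    rw [norm_mul, norm_pow]
    have h0 : (1 : ℝ) ≤ 1 + |s| := by linarith [abs_nonneg s]
    have h1 : ‖jb s‖ ^ (d - 1) ≤ ‖jb s‖ ^ 2 :=
      pow_le_pow_of_le_one (norm_nonneg _) (jb_norm s) (by omega)
    have h2 : ‖jb s‖ ^ 2 ≤ (C / Real.sqrt (1 + |s|)) ^ 2 :=
      pow_le_pow_left₀ (norm_nonneg _) (hB s).1 2
    have h3 : C / (1 + |s|) ≤ C / Real.sqrt (1 + |s|) := by
      apply div_le_div_of_nonneg_left hC.le (by positivity)
      rw [Real.sqrt_le_left (by positivity)]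
      nlinarith
    calc ‖kb s‖ * ‖jb s‖ ^ (d - 1) ≤ (C / Real.sqrt (1 + |s|)) *
          (C / Real.sqrt (1 + |s|)) ^ 2 :=
          mul_le_mul ((hB s).2.trans h3) (h1.trans h2) (by positivity) (by positivity)
      _ = (C / Real.sqrt (1 + |s|)) ^ 3 := by ring
      _ = _ := decay s
  refine ⟨fun E => ⟨?_, ?_⟩, ?_⟩
  · exact imH (Ψ := fun s => jb s ^ d) (jb_cont.pow d) dec1
      (fun s => by rw [jb_conj, map_pow]) E
  · exact imH (Ψ := fun s => kb s * jb s ^ (d - 1)) (kb_cont.mul (jb_cont.pow _)) dec2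
      (fun s => by rw [jb_conj, kb_conj, map_mul, map_pow]) E
  intro θ η hθ hη
  set D : ℝ := 4 * d * (C' + 8) with hD
  have hD0 : 0 < D := by positivity
  obtain ⟨r₀, hr₀, htail⟩ := Poi3.tail hθ (η := η / 2 / (16 * D)) (by positivity)
  have hI := I54_nonneg
  set K3 : ℝ := 3 * C ^ 3 * I54 + 1 with hK3
  have hK0 : 0 < K3 := by positivity
  refine ⟨min 1 (min r₀ ((η / 2 / K3) ^ 4)), by positivity, ?_⟩
  set r : ℝ := min 1 (min r₀ ((η / 2 / K3) ^ 4)) with hr
  have hr1 : r ≤ 1 := min_le_left _ _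
  have hr2 : r ≤ r₀ := (min_le_right _ _).trans (min_le_left _ _)
  have hr0 : 0 < r := by positivity
  have hr3 : 3 * C ^ 3 * r ^ (1 / 4 : ℝ) * I54 ≤ η / 2 := by
    have h1 : r ≤ (η / 2 / K3) ^ 4 := (min_le_right _ _).trans (min_le_right _ _)
    have h2 : r ^ (1 / 4 : ℝ) ≤ η / 2 / K3 := by
      calc r ^ (1 / 4 : ℝ) ≤ ((η / 2 / K3) ^ 4) ^ (1 / 4 : ℝ) :=
            Real.rpow_le_rpow hr0.le h1 (by norm_num)
        _ = η / 2 / K3 := by
            rw [← Real.rpow_natCast, ← Real.rpow_mul (by positivity)]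
            norm_num
    have h3 : 3 * C ^ 3 * I54 ≤ K3 := by rw [hK3]; linarith
    calc 3 * C ^ 3 * r ^ (1 / 4 : ℝ) * I54 = (3 * C ^ 3 * I54) * r ^ (1 / 4 : ℝ) := by ring
      _ ≤ K3 * (η / 2 / K3) := by gcongr
      _ = η / 2 := by field_simp
  intro E E' Γ L _ hE hΓ hΓr hLr
  have hL : (0 : ℝ) < L := by exact_mod_cast Nat.pos_of_ne_zero (NeZero.ne L)
  have hcr : ∀ j : ZMod L, |cr j| ≤ 1 := by
    intro j
    unfold cr
    refine (Complex.abs_re_le_norm _).trans ?_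
    rw [ZMod.stdAddChar_apply]
    exact (Circle.norm_coe _).le
  -- the functions
  set jL : ℝ → ℂ := mn (fun _ : ZMod L => (1 : ℝ)) with hjL
  set kL : ℝ → ℂ := mn (fun j : ZMod L => 4 * (1 - cr j ^ 2)) with hkL
  have jL_norm : ∀ s, ‖jL s‖ ≤ 1 := mn_norm _ (fun j => by simp)
  have kL_norm : ∀ s, ‖kL s‖ ≤ 4 := mn_norm _ (fun j => by
    have h1 := hcr j
    rw [abs_le] at h1
    rw [abs_le]
    constructor <;> nlinarith)
  -- the exponentially small factor
  set u : ℝ := Real.exp (-(Γ * L / 64)) with hu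
  have hu0 : 0 < u := Real.exp_pos _
  have hΓ1 : Γ ≤ 1 := by linarith
  have hhalf : (1 / 2 : ℝ) ^ L ≤ u := by
    have h1 : (1 / 2 : ℝ) ≤ Real.exp (-(1 / 64)) := by
      have := Real.add_one_le_exp (-(1 / 64) : ℝ)
      linarith
    calc (1 / 2 : ℝ) ^ L ≤ Real.exp (-(1 / 64)) ^ L := pow_le_pow_left₀ (by norm_num) h1 L
      _ = Real.exp (-(L / 64)) := by
          rw [← Real.exp_nat_mul]
          congr 1
          ring
      _ ≤ u := by
          rw [hu]
          apply Real.exp_le_exp.2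
          have : Γ * L ≤ 1 * L := mul_le_mul_of_nonneg_right hΓ1 hL.le
          linarith
  have hpos1 : ∀ s : ℝ, 1 ≤ Real.exp (Γ / 4 * |s|) := fun s => Real.one_le_exp (by positivity)
  have hgen : ∀ (s : ℝ) (z : ℂ), (16 * |s| ≤ L → ‖z‖ ≤ C' * (1 / 2) ^ L) → ‖z‖ ≤ 8 →
      ‖z‖ ≤ (C' + 8) * (Real.exp (Γ / 4 * |s|) * u) := by
    intro s z h1 h2
    have h3 := hpos1 s
    rcases le_or_gt (16 * |s|) (L : ℝ) with h | h
    · calc ‖z‖ ≤ C' * (1 / 2) ^ L := h1 h
        _ ≤ C' * (1 * u) := by rw [one_mul]; gcongr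
        _ ≤ (C' + 8) * (Real.exp (Γ / 4 * |s|) * u) := by gcongr; linarith
    · have h4 : 1 ≤ Real.exp (Γ / 4 * |s|) * u := by
        rw [hu, ← Real.exp_add]
        apply Real.one_le_exp
        have h5 : Γ * L ≤ Γ * (16 * |s|) := mul_le_mul_of_nonneg_left h.le hΓ.le
        linarith
      nlinarith
  have jsub : ∀ s, ‖jL s - jb s‖ ≤ (C' + 8) * (Real.exp (Γ / 4 * |s|) * u) := by
    intro s
    refine hgen s _ (fun hs => ?_) ?_
    · have h1 := (hJ L s hs).1
      rw [hjL]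
      unfold mn
      simpa using h1
    · refine (norm_sub_le _ _).trans ?_
      have := jL_norm s
      have := jb_norm s
      linarith
  have ksub : ∀ s, ‖kL s - kb s‖ ≤ (C' + 8) * (Real.exp (Γ / 4 * |s|) * u) := by
    intro s
    refine hgen s _ (fun hs => (hJ L s hs).2) ?_
    refine (norm_sub_le _ _).trans ?_
    have := kL_norm s
    have := kb_norm s
    linarith
  have hmain : 16 * D * (u / Γ) ≤ η / 2 := by
    have h1 := htail Γ hΓ (hΓr.trans_le hr2)
    have h2 : Γ ^ (-θ) ≤ Γ * L := by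
      have h3 : 1 ≤ Γ ^ (1 + θ) * L := by
        rw [div_le_iff₀ hL] at hLr
        exact hLr
      have h4 : Γ ^ (1 + θ) = Γ * Γ ^ θ := by
        rw [Real.rpow_add hΓ, Real.rpow_one]
      have h5 : 0 < Γ ^ θ := Real.rpow_pos_of_pos hΓ _
      rw [Real.rpow_neg hΓ.le, inv_le_iff_one_le_mul₀ h5]
      rw [h4] at h3
      linarith
    have h6 : u / Γ ≤ η / 2 / (16 * D) := by
      refine le_trans ?_ h1
      apply div_le_div_of_nonneg_right _ hΓ.le
      rw [hu]
      apply Real.exp_le_exp.2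
      linarith
    rw [le_div_iff₀ (by positivity)] at h6
    linarith
  have key : ∀ (Ψ ΨL : ℝ → ℂ) (x : ℂ), Continuous Ψ → Continuous ΨL →
      (∀ s, ‖ΨL s - Ψ s‖ ≤ D * (Real.exp (Γ / 4 * |s|) * u)) →
      (∀ s, ‖Ψ s‖ ≤ C ^ 3 * (1 + ‖s‖) ^ (-(3 / 2) : ℝ)) → (∀ s, ‖ΨL s‖ ≤ 4) →
      x = Complex.I * (∫ s in Ioi (0 : ℝ), ((A 0 Γ s : ℝ) : ℂ) *
        (Complex.exp (((E' * s : ℝ) : ℂ) * Complex.I) * ΨL (-s))) →
      ‖x - Complex.I * ∫ s in Ioi (0 : ℝ),
        Complex.exp (((E * s : ℝ) : ℂ) * Complex.I) * Ψ (-s)‖ ≤ η := by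
    intro Ψ ΨL x c1 c2 g1 g2 g3 hx
    have h1 := mainH c1 c2 (by positivity) hD0.le hu0.le g1 g2 g3 hΓ hE hΓr
    rw [hx, ← mul_sub, norm_mul, Complex.norm_I, one_mul]
    linarith
  constructor
  · -- the density of states
    refine key (fun s => jb s ^ d) (fun s => ∏ _i : Fin d, jL s) _ (jb_cont.pow d)
      (continuous_finsetProd _ fun _ _ => mn_cont _) ?_ dec1 ?_ ?_
    · intro s
      simp only [Finset.prod_const, Finset.card_univ, Fintype.card_fin]
      have h1 := pow_sub_le (jL_norm s) (jb_norm s) d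
      have h2 := jsub s
      calc ‖jL s ^ d - jb s ^ d‖ ≤ d * ((C' + 8) * (Real.exp (Γ / 4 * |s|) * u)) := h1.trans (by gcongr)
        _ ≤ (4 * d) * ((C' + 8) * (Real.exp (Γ / 4 * |s|) * u)) := by gcongr; linarith
        _ = D * (Real.exp (Γ / 4 * |s|) * u) := by rw [hD]; ring
    · intro s
      simp only [Finset.prod_const, Finset.card_univ, Fintype.card_fin]
      rw [norm_pow]
      exact (pow_le_one₀ (norm_nonneg _) (jL_norm s)).trans (by norm_num)
    · have h1 := mean_eqH (L := L) (d := d) (fun _ _ => (1 : ℝ)) (E' := E') hΓ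
      rw [← h1]
      congr 1
      apply Finset.sum_congr rfl
      intro k _
      simp
  · -- the squared velocity
    intro i
    have hprod : ∀ s, ∏ i' : Fin d, mn (fun j : ZMod L => if i' = i then 4 * (1 - cr j ^ 2) else 1)
        s = kL s * jL s ^ (d - 1) := by
      intro s
      rw [← Finset.mul_prod_erase Finset.univ _ (Finset.mem_univ i)]
      have h1 : mn (fun j : ZMod L => if i = i then 4 * (1 - cr j ^ 2) else 1) s = kL s := by
        rw [hkL]
        simp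
      have h2 : ∏ i' ∈ Finset.univ.erase i,
          mn (fun j : ZMod L => if i' = i then 4 * (1 - cr j ^ 2) else 1) s =
          ∏ _i' ∈ Finset.univ.erase i, jL s := by
        apply Finset.prod_congr rfl
        intro i' hi'
        rw [Finset.mem_erase] at hi'
        simp only [if_neg hi'.1, hjL]
      rw [h1, h2, Finset.prod_const, Finset.card_erase_of_mem (Finset.mem_univ i),
        Finset.card_univ, Fintype.card_fin]
    refine key (fun s => kb s * jb s ^ (d - 1)) (fun s => kL s * jL s ^ (d - 1)) _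
      (kb_cont.mul (jb_cont.pow _)) ((mn_cont _).mul ((mn_cont _).pow _)) ?_ dec2 ?_ ?_
    · intro s
      have h1 := pow_sub_le (jL_norm s) (jb_norm s) (d - 1)
      have h2 := jsub s
      have h3 := ksub s
      have e : kL s * jL s ^ (d - 1) - kb s * jb s ^ (d - 1) =
          (kL s - kb s) * jL s ^ (d - 1) + kb s * (jL s ^ (d - 1) - jb s ^ (d - 1)) := by ring
      have hd2 : ((d - 1 : ℕ) : ℝ) = d - 1 := by
        rw [Nat.cast_sub (by omega)]; simp
      rw [hd2] at h1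
      have h4 : ‖jL s ^ (d - 1)‖ ≤ 1 := by
        rw [norm_pow]; exact pow_le_one₀ (norm_nonneg _) (jL_norm s)
      have hX0 : 0 ≤ (C' + 8) * (Real.exp (Γ / 4 * |s|) * u) := by positivity
      rw [e]
      calc ‖(kL s - kb s) * jL s ^ (d - 1) + kb s * (jL s ^ (d - 1) - jb s ^ (d - 1))‖
          ≤ ‖kL s - kb s‖ * ‖jL s ^ (d - 1)‖ + ‖kb s‖ * ‖jL s ^ (d - 1) - jb s ^ (d - 1)‖ := by
            refine (norm_add_le _ _).trans ?_
            rw [norm_mul, norm_mul]
        _ ≤ ((C' + 8) * (Real.exp (Γ / 4 * |s|) * u)) * 1 + 4 * ((d - 1) * ((C' + 8) * (Real.exp (Γ / 4 * |s|) * u))) := by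
            gcongr
            · exact kb_norm s
            · refine h1.trans ?_
              apply mul_le_mul_of_nonneg_left h2
              linarith
        _ ≤ (4 * d) * ((C' + 8) * (Real.exp (Γ / 4 * |s|) * u)) := by nlinarith
        _ = D * (Real.exp (Γ / 4 * |s|) * u) := by rw [hD]; ring
    · intro s
      rw [norm_mul, norm_pow]
      have h4 : ‖jL s‖ ^ (d - 1) ≤ 1 := pow_le_one₀ (norm_nonneg _) (jL_norm s)
      have := kL_norm s
      have := norm_nonneg (kL s)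
      have h5 : 0 ≤ ‖jL s‖ ^ (d - 1) := by positivity
      nlinarith
    · have h1 := mean_eqH (L := L) (d := d)
        (fun i' j => if i' = i then 4 * (1 - cr j ^ 2) else 1) (E' := E') hΓ
      simp only [hprod] at h1
      rw [← h1]
      congr 1
      apply Finset.sum_congr rfl
      intro k _
      rw [Finset.prod_ite_eq' Finset.univ i (fun i' => 4 * (1 - cr (k i') ^ 2)),
        if_pos (Finset.mem_univ i)]

end Pool.Agent.T2h98.KU
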