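import Pool.Agent.T2h98.KU.Stm
import Pool.Agent.T2h98.QD.Calc

/-! Task KCONC: concentration of the Kubo-Greenwood expression. -/

set_option autoImplicit false
set_option linter.unusedSectionVars false

open scoped BigOperators Matrix Topology
open MeasureTheory ProbabilityTheory Filter

namespace Pool.Agent.T2h98.KU

open Pool.Agent.W788.MFP.Four (T e NN adj K)
open Pool.Agent.W788.BK (nsq hs PP JJ hi Low cr nsq_nonneg)
open Pool.Agent.T2h98.QD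
open Pool.Agent.T2h98.AC (TX RX mX sy Rb Fk)
open Pool.Agent.W240.BK (BC BM)

variable {d L : ℕ} [NeZero L]

theorem ey_apply (R S : Matrix (T d L) (T d L) ℂ) (y p q : T d L) :
    (R * EY y * S) p q = R p y * S y q := by
  rw [Matrix.mul_apply]
  simp only [EY, Matrix.mul_diagonal]
  rw [Finset.sum_eq_single y]
  · simp
  · intro k _ hk
    simp [Pi.single_apply, hk]
  · intro h
    exact absurd (Finset.mem_univ y) h

theorem md_re (hR : T_KR) (b : Bool) (E ε σ : ℝ) (hε : 0 < ε) :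
    MD (fun V : T d L → ℝ => RE b E ε σ V)
      (fun y V => -((σ : ℂ) • (RE b E ε σ V * EY y * RE b E ε σ V))) := by
  obtain ⟨-, -, -, -, -, h6, h7, h8, -⟩ := hR d L b E ε σ hε
  intro p q
  have hb : ∀ x y : T d L, BC fun V : T d L → ℝ => RE b E ε σ V x y := fun x y =>
    ⟨h7 x y, ε⁻¹, fun V => h6 V x y⟩
  refine ⟨hb p q, fun y => ?_, fun y V => ?_⟩
  · have := BC.neg' (((BC.const (m := T d L) (σ : ℂ)).mul ((hb p y).mul (hb y q))))
    refine BC.congr' this fun V => ?_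
    dsimp only
    rw [Matrix.neg_apply, Matrix.smul_apply, ey_apply, smul_eq_mul]
  · have := h8 V y p q
    dsimp only
    rw [Matrix.neg_apply, Matrix.smul_apply, ey_apply, smul_eq_mul]
    exact this

theorem tr_ey (M : Matrix (T d L) (T d L) ℂ) (y : T d L) :
    (EY y * M).trace = M y y := by
  rw [Matrix.trace]
  simp only [Matrix.diag_apply, EY, Matrix.diagonal_mul]
  rw [Finset.sum_eq_single y]
  · simp
  · intro k _ hk
    simp [Pi.single_apply, hk]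
  · intro h
    exact absurd (Finset.mem_univ y) h

/-- the trace of the product -/
noncomputable def TT (j i : Fin d) (b₁ b₂ : Bool) (E₁ E₂ ε σ : ℝ) (V : T d L → ℝ) : ℂ :=
  (vv j * RE b₁ E₁ ε σ V * vv i * RE b₂ E₂ ε σ V).trace

/-- its derivative -/
noncomputable def DT (j i : Fin d) (b₁ b₂ : Bool) (E₁ E₂ ε σ : ℝ) (y : T d L)
    (V : T d L → ℝ) : ℂ :=
  -((σ : ℂ) * (((RE b₁ E₁ ε σ V * (vv i * (RE b₂ E₂ ε σ V * vv j))) * RE b₁ E₁ ε σ V :
      Matrix (T d L) (T d L) ℂ) y y +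
    ((RE b₂ E₂ ε σ V * (vv j * (RE b₁ E₁ ε σ V * vv i))) * RE b₂ E₂ ε σ V :
      Matrix (T d L) (T d L) ℂ) y y))

theorem gd_tt (hR : T_KR) (j i : Fin d) (b₁ b₂ : Bool) (E₁ E₂ ε σ : ℝ) (hε : 0 < ε) :
    GD (fun V : T d L → ℝ => TT j i b₁ b₂ E₁ E₂ ε σ V)
      (fun y V => DT j i b₁ b₂ E₁ E₂ ε σ y V) := by
  have h1 := md_re (d := d) (L := L) hR b₁ E₁ ε σ hε
  have h2 := md_re (d := d) (L := L) hR b₂ E₂ ε σ hε
  have h3 := ((((MD.const (m := T d L) (vv (L := L) j)).mul h1).mul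
    (MD.const (m := T d L) (vv (L := L) i))).mul h2).trace
  refine GD.congr' h3 fun y V => ?_
  obtain ⟨A, hA⟩ : ∃ A, A = RE (d := d) (L := L) b₁ E₁ ε σ V := ⟨_, rfl⟩
  obtain ⟨B, hB⟩ : ∃ B, B = RE (d := d) (L := L) b₂ E₂ ε σ V := ⟨_, rfl⟩
  obtain ⟨v, hv⟩ : ∃ v, v = vv (d := d) (L := L) j := ⟨_, rfl⟩
  obtain ⟨w, hw⟩ : ∃ w, w = vv (d := d) (L := L) i := ⟨_, rfl⟩
  simp only [DT]
  rw [← hA, ← hB, ← hv, ← hw]
  have e1 : ((0 * A + v * -((σ : ℂ) • (A * EY y * A))) * w + v * A * 0) * B +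
      v * A * w * -((σ : ℂ) • (B * EY y * B)) =
      -((σ : ℂ) • (v * (A * (EY y * (A * (w * B)))) + v * (A * (w * (B * (EY y * B)))))) := by
    simp only [zero_mul, zero_add, mul_zero, add_zero, mul_neg, neg_mul, Matrix.mul_smul,
      Matrix.smul_mul, smul_add, neg_add, Matrix.mul_assoc]
  have e1' : (fun y V => ((((0 : Matrix (T d L) (T d L) ℂ) * A + v * -((σ : ℂ) • (A * EY y * A))) *
      w + v * A * 0) * B + v * A * w * -((σ : ℂ) • (B * EY y * B))).trace) y V =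
      -((σ : ℂ) * ((A * (w * (B * v)) * A) y y + (B * (v * (A * w)) * B) y y)) := by
    simp only [e1]
    rw [Matrix.trace_neg, Matrix.trace_smul, Matrix.trace_add, smul_eq_mul]
    congr 2
    congr 1
    · rw [← tr_ey (A * (w * (B * v)) * A) y]
      rw [show v * (A * (EY y * (A * (w * B)))) = (v * A) * (EY y * (A * (w * B))) by
        simp only [Matrix.mul_assoc], Matrix.trace_mul_comm]
      simp only [Matrix.mul_assoc]
    · rw [← tr_ey (B * (v * (A * w)) * B) y]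
      rw [show v * (A * (w * (B * (EY y * B)))) = (v * (A * (w * B))) * (EY y * B) by
        simp only [Matrix.mul_assoc], Matrix.trace_mul_comm]
      simp only [Matrix.mul_assoc]
  rw [← e1']

theorem nsq_re (hR : T_KR) (b : Bool) (E ε σ : ℝ) (hε : 0 < ε) (V : T d L → ℝ)
    (f : T d L → ℂ) : nsq (RE b E ε σ V *ᵥ f) ≤ nsq f / ε ^ 2 :=
  (hR d L b E ε σ hε).2.2.2.2.1 V f

theorem nsq_prod (hR : T_KR) (hV : T_KV) (j i : Fin d) (b₁ b₂ : Bool) (E₁ E₂ ε σ : ℝ)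
    (hε : 0 < ε) (V : T d L → ℝ) (f : T d L → ℂ) :
    nsq ((RE b₁ E₁ ε σ V * (vv i * (RE b₂ E₂ ε σ V * vv j)) : Matrix (T d L) (T d L) ℂ) *ᵥ f) ≤
      16 / ε ^ 4 * nsq f := by
  rw [← Matrix.mulVec_mulVec, ← Matrix.mulVec_mulVec, ← Matrix.mulVec_mulVec]
  have h1 := nsq_re hR b₁ E₁ ε σ hε V (vv i *ᵥ (RE b₂ E₂ ε σ V *ᵥ (vv j *ᵥ f)))
  have h2 := (hV d L i).2.2.1 (RE b₂ E₂ ε σ V *ᵥ (vv j *ᵥ f))
  have h3 := nsq_re hR b₂ E₂ ε σ hε V (vv j *ᵥ f)
  have h4 := (hV d L j).2.2.1 f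
  have he : 0 < ε ^ 2 := by positivity
  calc _ ≤ _ := h1
    _ ≤ (4 * (4 * nsq f / ε ^ 2)) / ε ^ 2 := by
      apply div_le_div_of_nonneg_right _ he.le
      refine h2.trans ?_
      have := h3.trans (div_le_div_of_nonneg_right h4 he.le)
      linarith
    _ = _ := by
      field_simp
      ring

theorem diag_le (hR : T_KR) (hV : T_KV) (j i : Fin d) (b₁ b₂ : Bool) (E₁ E₂ ε σ : ℝ)
    (hε : 0 < ε) (V : T d L → ℝ) (y : T d L) :
    ‖((RE b₁ E₁ ε σ V * (vv i * (RE b₂ E₂ ε σ V * vv j))) * RE b₁ E₁ ε σ V :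
      Matrix (T d L) (T d L) ℂ) y y‖ ^ 2 ≤
      16 / ε ^ 4 * ((RE false E₁ ε σ V y y).im / ε) := by
  obtain ⟨M, hM⟩ : ∃ M, M = (RE b₁ E₁ ε σ V * (vv i * (RE b₂ E₂ ε σ V * vv j)) :
    Matrix (T d L) (T d L) ℂ) := ⟨_, rfl⟩
  have h1 : ‖(M * RE b₁ E₁ ε σ V) y y‖ ^ 2 ≤ nsq (M *ᵥ (RE b₁ E₁ ε σ V *ᵥ dl y)) := by
    rw [Matrix.mulVec_mulVec]
    have h2 : ((M * RE b₁ E₁ ε σ V) *ᵥ dl y) y = (M * RE b₁ E₁ ε σ V) y y := by
      simp [dl, Matrix.mulVec_single_one]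
    rw [← h2]
    exact Finset.single_le_sum (f := fun x => ‖((M * RE b₁ E₁ ε σ V) *ᵥ dl y) x‖ ^ 2)
      (fun x _ => by positivity) (Finset.mem_univ y)
  have h3 := nsq_prod hR hV j i b₁ b₂ E₁ E₂ ε σ hε V (RE b₁ E₁ ε σ V *ᵥ dl y)
  have h4 := (hR d L b₁ E₁ ε σ hε).2.2.2.1 V (dl y)
  have h5 : (star (dl y) ⬝ᵥ (RE false E₁ ε σ V *ᵥ dl y)) = RE false E₁ ε σ V y y := by
    simp [dl, Matrix.mulVec_single_one]
  rw [h5] at h4
  have h6 : nsq (RE b₁ E₁ ε σ V *ᵥ dl y) = (RE false E₁ ε σ V y y).im / ε := by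
    rw [← h4]
    field_simp
  rw [← hM] at h3 ⊢
  rw [h6] at h3
  exact h1.trans h3

theorem sum_dt (hR : T_KR) (hV : T_KV) (j i : Fin d) (b₁ b₂ : Bool) (E₁ E₂ ε σ : ℝ)
    (hε : 0 < ε) (V : T d L → ℝ) :
    ∑ y, ‖DT j i b₁ b₂ E₁ E₂ ε σ y V‖ ^ 2 ≤ 32 * σ ^ 2 / ε ^ 5 *
      ∑ y, ((RE false E₁ ε σ V y y).im + (RE false E₂ ε σ V y y).im) := by
  rw [Finset.mul_sum]
  refine Finset.sum_le_sum fun y _ => ?_
  have h1 := diag_le hR hV j i b₁ b₂ E₁ E₂ ε σ hε V y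
  have h2 := diag_le hR hV i j b₂ b₁ E₂ E₁ ε σ hε V y
  obtain ⟨u, hu⟩ : ∃ u, u = ((RE b₁ E₁ ε σ V * (vv i * (RE b₂ E₂ ε σ V * vv j))) *
    RE b₁ E₁ ε σ V : Matrix (T d L) (T d L) ℂ) y y := ⟨_, rfl⟩
  obtain ⟨w, hw⟩ : ∃ w, w = ((RE b₂ E₂ ε σ V * (vv j * (RE b₁ E₁ ε σ V * vv i))) *
    RE b₂ E₂ ε σ V : Matrix (T d L) (T d L) ℂ) y y := ⟨_, rfl⟩
  rw [← hu] at h1
  rw [← hw] at h2
  have h3 : ‖DT j i b₁ b₂ E₁ E₂ ε σ y V‖ = |σ| * ‖u + w‖ := by
    rw [DT, ← hu, ← hw, norm_neg, norm_mul, Complex.norm_real, Real.norm_eq_abs]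
  rw [h3, mul_pow, sq_abs]
  have h4 : ‖u + w‖ ^ 2 ≤ 2 * (‖u‖ ^ 2 + ‖w‖ ^ 2) := by
    have := norm_add_le u w
    have h0 := norm_nonneg (u + w)
    have : ‖u + w‖ ^ 2 ≤ (‖u‖ + ‖w‖) ^ 2 := pow_le_pow_left₀ h0 this 2
    nlinarith [sq_nonneg (‖u‖ - ‖w‖)]
  calc σ ^ 2 * ‖u + w‖ ^ 2 ≤ σ ^ 2 * (2 * (16 / ε ^ 4 * ((RE false E₁ ε σ V y y).im / ε) +
      16 / ε ^ 4 * ((RE false E₂ ε σ V y y).im / ε))) := by
        apply mul_le_mul_of_nonneg_left _ (sq_nonneg σ)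
        linarith
    _ = _ := by
      field_simp
      ring

theorem fq_eq (j i : Fin d) (E₁ E₂ ε σ : ℝ) (V : T d L → ℝ) : Fq j i E₁ E₂ ε σ V =
    (-(1 / 4) * ((NN d L : ℝ) : ℂ)⁻¹) * (TT j i false false E₁ E₂ ε σ V -
      TT j i false true E₁ E₂ ε σ V - (TT j i true false E₁ E₂ ε σ V -
      TT j i true true E₁ E₂ ε σ V)) := by
  have hI : (2 * Complex.I)⁻¹ * (2 * Complex.I)⁻¹ = -(1 / 4 : ℂ) := by
    rw [← mul_inv]
    have : (2 * Complex.I) * (2 * Complex.I) = -4 := by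
      rw [show (2 * Complex.I) * (2 * Complex.I) = 4 * (Complex.I * Complex.I) by ring,
        Complex.I_mul_I]
      ring
    rw [this]
    norm_num
  simp only [Fq, IR, TT]
  simp only [Matrix.mul_smul, Matrix.smul_mul, Matrix.trace_smul, smul_eq_mul]
  simp only [Matrix.mul_sub, Matrix.sub_mul, Matrix.trace_sub]
  rw [← hI]
  ring

/-- the Kubo-Greenwood expression is bounded and continuous -/
theorem bc_fq (hR : T_KR) (j i : Fin d) (E₁ E₂ ε σ : ℝ) (hε : 0 < ε) :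
    BC fun V : T d L → ℝ => Fq j i E₁ E₂ ε σ V := by
  have g11 := gd_tt (d := d) (L := L) hR j i false false E₁ E₂ ε σ hε
  have g12 := gd_tt (d := d) (L := L) hR j i false true E₁ E₂ ε σ hε
  have g21 := gd_tt (d := d) (L := L) hR j i true false E₁ E₂ ε σ hε
  have g22 := gd_tt (d := d) (L := L) hR j i true true E₁ E₂ ε σ hε
  exact BC.congr' ((GD.const (m := T d L) (-(1 / 4) * ((NN d L : ℝ) : ℂ)⁻¹)).mul
    ((g11.sub g12).sub (g21.sub g22))).bF fun V => fq_eq j i E₁ E₂ ε σ V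

theorem kconc (hR : T_KR) (hV : T_KV) (hP : T_POIN) (hinv : T_INV) : T_KCONC := by
  intro d L _ j i E₁ E₂ ε σ g hε hm1 hm2
  have hN : (0 : ℝ) < NN d L := by
    unfold NN
    have : (0 : ℝ) < (L : ℝ) := by exact_mod_cast Nat.pos_of_ne_zero (NeZero.ne L)
    positivity
  obtain ⟨c, hc⟩ : ∃ c : ℂ, c = -(1 / 4) * ((NN d L : ℝ) : ℂ)⁻¹ := ⟨_, rfl⟩
  have hF : ∀ V : T d L → ℝ, Fq j i E₁ E₂ ε σ V = c * (TT j i false false E₁ E₂ ε σ V -
      TT j i false true E₁ E₂ ε σ V - (TT j i true false E₁ E₂ ε σ V -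
      TT j i true true E₁ E₂ ε σ V)) := by
    intro V
    rw [hc]
    exact fq_eq j i E₁ E₂ ε σ V
  have g11 := gd_tt (d := d) (L := L) hR j i false false E₁ E₂ ε σ hε
  have g12 := gd_tt (d := d) (L := L) hR j i false true E₁ E₂ ε σ hε
  have g21 := gd_tt (d := d) (L := L) hR j i true false E₁ E₂ ε σ hε
  have g22 := gd_tt (d := d) (L := L) hR j i true true E₁ E₂ ε σ hε
  have gF := (GD.const (m := T d L) c).mul ((g11.sub g12).sub (g21.sub g22))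
  obtain ⟨D, hD⟩ : ∃ D : T d L → (T d L → ℝ) → ℂ, D = fun y V =>
    c * (DT j i false false E₁ E₂ ε σ y V -
      DT j i false true E₁ E₂ ε σ y V - (DT j i true false E₁ E₂ ε σ y V -
      DT j i true true E₁ E₂ ε σ y V)) := ⟨_, rfl⟩
  have gF' : GD (fun V : T d L → ℝ => Fq j i E₁ E₂ ε σ V) D := by
    have e1 : (fun V : T d L → ℝ => Fq j i E₁ E₂ ε σ V) = fun V =>
      c * (TT j i false false E₁ E₂ ε σ V -
      TT j i false true E₁ E₂ ε σ V - (TT j i true false E₁ E₂ ε σ V -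
      TT j i true true E₁ E₂ ε σ V)) := funext hF
    rw [e1]
    refine gF.congr' fun y V => ?_
    rw [hD]
    simp
  refine ⟨gF'.bF.1, ?_⟩
  have hbim : ∀ (E : ℝ) (y : T d L), BC fun V : T d L → ℝ => RE false E ε σ V y y :=
    fun E y => ⟨(hR d L false E ε σ hε).2.2.2.2.2.2.1 y y, ε⁻¹,
      fun V => (hR d L false E ε σ hε).2.2.2.2.2.1 V y y⟩
  obtain ⟨G, hG⟩ : ∃ G : (T d L → ℝ) → ℝ, G = fun V => 32 * σ ^ 2 / (NN d L ^ 2 * ε ^ 5) *
    ∑ y, ((RE false E₁ ε σ V y y).im + (RE false E₂ ε σ V y y).im) := ⟨_, rfl⟩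
  have hGR : RC G := by
    rw [hG]
    exact (RC.const _).mul (RC.sum _ fun y _ => (RC.im (hbim E₁ y)).add (RC.im (hbim E₂ y)))
  have hDG : ∀ V, ∑ y, ‖D y V‖ ^ 2 ≤ G V := by
    intro V
    have s11 := sum_dt (d := d) (L := L) hR hV j i false false E₁ E₂ ε σ hε V
    have s12 := sum_dt (d := d) (L := L) hR hV j i false true E₁ E₂ ε σ hε V
    have s21 := sum_dt (d := d) (L := L) hR hV j i true false E₁ E₂ ε σ hε V
    have s22 := sum_dt (d := d) (L := L) hR hV j i true true E₁ E₂ ε σ hε V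
    have hcn : ‖c‖ ^ 2 = 1 / 16 / NN d L ^ 2 := by
      rw [hc, norm_mul, norm_neg, norm_inv, Complex.norm_real, Real.norm_eq_abs,
        abs_of_pos hN]
      norm_num
      field_simp
      norm_num
    have h1 : ∀ y, ‖D y V‖ ^ 2 ≤ 1 / 16 / NN d L ^ 2 * (4 *
        (‖DT j i false false E₁ E₂ ε σ y V‖ ^ 2 + ‖DT j i false true E₁ E₂ ε σ y V‖ ^ 2 +
        ‖DT j i true false E₁ E₂ ε σ y V‖ ^ 2 + ‖DT j i true true E₁ E₂ ε σ y V‖ ^ 2)) := by
      intro y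
      rw [hD]
      simp only
      rw [norm_mul, mul_pow, hcn]
      apply mul_le_mul_of_nonneg_left _ (by positivity)
      obtain ⟨a, ha⟩ : ∃ a, a = DT j i false false E₁ E₂ ε σ y V := ⟨_, rfl⟩
      obtain ⟨b, hb⟩ : ∃ b, b = DT j i false true E₁ E₂ ε σ y V := ⟨_, rfl⟩
      obtain ⟨p, hp⟩ : ∃ p, p = DT j i true false E₁ E₂ ε σ y V := ⟨_, rfl⟩
      obtain ⟨q, hq⟩ : ∃ q, q = DT j i true true E₁ E₂ ε σ y V := ⟨_, rfl⟩
      rw [← ha, ← hb, ← hp, ← hq]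
      have n1 : ‖a - b - (p - q)‖ ≤ ‖a‖ + ‖b‖ + ‖p‖ + ‖q‖ := by
        have t1 := norm_sub_le (a - b) (p - q)
        have t2 := norm_sub_le a b
        have t3 := norm_sub_le p q
        linarith
      have n2 : ‖a - b - (p - q)‖ ^ 2 ≤ (‖a‖ + ‖b‖ + ‖p‖ + ‖q‖) ^ 2 :=
        pow_le_pow_left₀ (norm_nonneg _) n1 2
      nlinarith [sq_nonneg (‖a‖ - ‖b‖), sq_nonneg (‖a‖ - ‖p‖), sq_nonneg (‖a‖ - ‖q‖),
        sq_nonneg (‖b‖ - ‖p‖), sq_nonneg (‖b‖ - ‖q‖), sq_nonneg (‖p‖ - ‖q‖)]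
    refine (Finset.sum_le_sum fun y _ => h1 y).trans ?_
    rw [← Finset.mul_sum, ← Finset.mul_sum, Finset.sum_add_distrib, Finset.sum_add_distrib,
      Finset.sum_add_distrib]
    obtain ⟨S, hS⟩ : ∃ S, S = ∑ y, ((RE false E₁ ε σ V y y).im +
      (RE false E₂ ε σ V y y).im) := ⟨_, rfl⟩
    rw [← hS] at s11 s12 s21 s22
    rw [hG]
    simp only
    rw [← hS]
    calc _ ≤ 1 / 16 / NN d L ^ 2 * (4 * (4 * (32 * σ ^ 2 / ε ^ 5 * S))) := by
          apply mul_le_mul_of_nonneg_left _ (by positivity)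
          linarith
      _ = _ := by
          field_simp
          ring
  have h2 := var_le_of hP gF' hGR hDG
  have h3 : ∀ (E : ℝ) (y : T d L), ∫ V, (RE false E ε σ V y y).im ∂(GP (T d L)) =
      (me d L false E ε σ).im := by
    intro E y
    have h4 : ∫ V, RE (d := d) (L := L) false E ε σ V y y ∂(GP (T d L)) =
        me d L false E ε σ := by
      obtain ⟨h5, -⟩ := hinv d L y
      have h6 := h5 fun V => RE false E ε σ V 0 0
      simp only [(hR d L false E ε σ hε).2.2.2.2.2.2.2.2.1, zero_add] at h6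
      exact h6
    rw [← h4]
    exact integral_im ((hbim E y).integrable _)
  have h4 : ∫ V, G V ∂(GP (T d L)) = 32 * σ ^ 2 / (NN d L ^ 2 * ε ^ 5) *
      (NN d L * ((me d L false E₁ ε σ).im + (me d L false E₂ ε σ).im)) := by
    rw [hG, integral_const_mul]
    congr 1
    rw [integral_finsetSum _ fun y _ => ((RC.im (hbim E₁ y)).add (RC.im (hbim E₂ y))).integrable]
    have : ∀ y : T d L, ∫ V, ((RE false E₁ ε σ V y y).im + (RE false E₂ ε σ V y y).im)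
        ∂(GP (T d L)) = (me d L false E₁ ε σ).im + (me d L false E₂ ε σ).im := by
      intro y
      rw [integral_add (RC.im (hbim E₁ y)).integrable (RC.im (hbim E₂ y)).integrable, h3, h3]
    simp only [this, Finset.sum_const, Finset.card_univ, nsmul_eq_mul]
    congr 1
    unfold NN
    simp [T, ZMod.card]
  rw [h4] at h2
  refine h2.trans ?_
  have i1 := (Complex.abs_im_le_norm (me d L false E₁ ε σ)).trans hm1
  have i2 := (Complex.abs_im_le_norm (me d L false E₂ ε σ)).trans hm2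
  have i3 := (le_abs_self (me d L false E₁ ε σ).im).trans i1
  have i4 := (le_abs_self (me d L false E₂ ε σ).im).trans i2
  have hg : 0 ≤ g := by
    have := norm_nonneg (me d L false E₁ ε σ)
    linarith
  calc _ ≤ 32 * σ ^ 2 / (NN d L ^ 2 * ε ^ 5) * (NN d L * (2 * g + 2 * g)) := by
        apply mul_le_mul_of_nonneg_left _ (by positivity)
        apply mul_le_mul_of_nonneg_left _ hN.le
        linarith
    _ = 128 * σ ^ 2 * g / (NN d L * ε ^ 5) := by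
        field_simp
        ring
    _ ≤ _ := by
        apply div_le_div_of_nonneg_right _ (by positivity)
        nlinarith [mul_nonneg (sq_nonneg σ) hg]

end Pool.Agent.T2h98.KU
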