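import Pool.Agent.T2h98.KU.Stm

/-! The mean of the Kubo-Greenwood expression. -/

set_option autoImplicit false
set_option linter.unusedSectionVars false

open scoped BigOperators Matrix Topology
open MeasureTheory ProbabilityTheory Filter

namespace Pool.Agent.T2h98.KU

open Pool.Agent.W788.MFP.Four (T e NN adj K)
open Pool.Agent.W788.BK (nsq hs PP JJ hi Low cr)
open Pool.Agent.T2h98.QD
open Pool.Agent.T2h98.AC (TX RX mX sy Rb Fk)

namespace KEFP

/-- bounded continuous functions -/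
def BC {α : Type} [TopologicalSpace α] (f : α → ℂ) : Prop := Continuous f ∧ ∃ C : ℝ, ∀ V, ‖f V‖ ≤ C

section bc

variable {α : Type} [TopologicalSpace α]

theorem BC.const (c : ℂ) : BC (fun _ : α => c) := ⟨continuous_const, ‖c‖, fun _ => le_rfl⟩

theorem BC.add {f g : α → ℂ} (hf : BC f) (hg : BC g) : BC (fun V => f V + g V) := by
  obtain ⟨hf1, C, hC⟩ := hf
  obtain ⟨hg1, D, hD⟩ := hg
  exact ⟨hf1.add hg1, C + D, fun V => (norm_add_le _ _).trans (add_le_add (hC V) (hD V))⟩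

theorem BC.mul {f g : α → ℂ} (hf : BC f) (hg : BC g) : BC (fun V => f V * g V) := by
  obtain ⟨hf1, C, hC⟩ := hf
  obtain ⟨hg1, D, hD⟩ := hg
  refine ⟨hf1.mul hg1, C * D, fun V => ?_⟩
  rw [norm_mul]
  exact mul_le_mul (hC V) (hD V) (norm_nonneg _) ((norm_nonneg _).trans (hC V))

theorem BC.sum {ι : Type} (s : Finset ι) {f : ι → α → ℂ} (hf : ∀ i ∈ s, BC (f i)) :
    BC (fun V => ∑ i ∈ s, f i V) := by
  classical
  induction s using Finset.induction_on with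
  | empty => simpa using BC.const (α := α) 0
  | insert a s ha ih =>
    simp only [Finset.sum_insert ha]
    exact (hf a (Finset.mem_insert_self a s)).add (ih fun i hi => hf i (Finset.mem_insert_of_mem hi))

theorem BC.matmul {n : Type} [Fintype n] {A B : α → Matrix n n ℂ} (hA : ∀ x y, BC (fun V => A V x y))
    (hB : ∀ x y, BC (fun V => B V x y)) (x y : n) : BC (fun V => (A V * B V) x y) := by
  simp only [Matrix.mul_apply]
  exact BC.sum _ fun i _ => (hA x i).mul (hB i y)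

end bc

theorem BC.integrable {m : Type} [Fintype m] {f : (m → ℝ) → ℂ} (hf : BC f) : Integrable f (GP m) := by
  obtain ⟨h1, C, hC⟩ := hf
  have : IsProbabilityMeasure (GP m) := by
    unfold GP PP
    infer_instance
  exact Integrable.of_bound h1.aestronglyMeasurable C (Filter.Eventually.of_forall hC)

variable {d L : ℕ} [NeZero L]

theorem RE_true (hR : T_KR) (E : ℝ) {ε : ℝ} (σ : ℝ) (hε : 0 < ε) (V : T d L → ℝ) :
    RE true E ε σ V = (RE false E ε σ V)ᴴ := by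
  have h1 := (hR d L true E ε σ hε).1 V
  have h2 := (hR d L false E ε σ hε).1 V
  simp only [cond_true, cond_false] at h1 h2
  rw [h1, h2]

theorem me_true (hR : T_KR) (E : ℝ) {ε : ℝ} (σ : ℝ) (hε : 0 < ε) :
    me d L true E ε σ = (starRingEnd ℂ) (me d L false E ε σ) := by
  have h1 := (hR d L true E ε σ hε).2.2.2.2.2.2.2.2.2.2
  have h2 := (hR d L false E ε σ hε).2.2.2.2.2.2.2.2.2.2
  simp only [cond_true, cond_false] at h1 h2
  rw [h1, h2]
  rfl

theorem bc_RE (hR : T_KR) (b : Bool) (E : ℝ) {ε : ℝ} (σ : ℝ) (hε : 0 < ε) (x y : T d L) :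
    BC (fun V : T d L → ℝ => RE b E ε σ V x y) := by
  obtain ⟨-, -, -, -, -, h1, h2, -⟩ := hR d L b E ε σ hε
  exact ⟨h2 x y, ε⁻¹, fun V => h1 V x y⟩

theorem bc_Tk (hR : T_KR) (b : Bool) (j i : Fin d) (E₁ E₂ : ℝ) {ε : ℝ} (σ : ℝ) (hε : 0 < ε) :
    BC (fun V : T d L → ℝ => Tk b j i E₁ E₂ ε σ V) := by
  unfold Tk
  refine (BC.const _).mul ?_
  simp only [Matrix.trace, Matrix.diag_apply]
  refine BC.sum _ fun x _ => ?_
  exact BC.matmul (A := fun V => vv j * RE false E₁ ε σ V * vv i) (B := fun V => RE b E₂ ε σ V)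
    (BC.matmul (A := fun V => vv j * RE false E₁ ε σ V) (B := fun _ => vv i)
      (BC.matmul (A := fun _ => vv j) (B := fun V => RE false E₁ ε σ V) (fun x y => BC.const _)
        (bc_RE hR false E₁ σ hε))
      (fun x y => BC.const _)) (bc_RE hR b E₂ σ hε) x x

theorem conj_tr (A B R P : Matrix (T d L) (T d L) ℂ) (hA : Aᴴ = A) (hB : Bᴴ = B) :
    (starRingEnd ℂ) ((B * R * A * P).trace) = (A * Rᴴ * B * Pᴴ).trace := by
  have h : ((B * R * A * P)ᴴ).trace = (starRingEnd ℂ) ((B * R * A * P).trace) :=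
    Matrix.trace_conjTranspose (B * R * A * P)
  rw [← h, Matrix.conjTranspose_mul, Matrix.conjTranspose_mul, Matrix.conjTranspose_mul, hA, hB,
    Matrix.trace_mul_comm]
  simp only [Matrix.mul_assoc]

theorem conj_Tk (hR : T_KR) (hV : T_KV) (b : Bool) (j i : Fin d) (E₁ E₂ : ℝ) {ε : ℝ} (σ : ℝ)
    (hε : 0 < ε) (V : T d L → ℝ) : (starRingEnd ℂ) (Tk b i j E₁ E₂ ε σ V) =
      ((NN d L : ℝ) : ℂ)⁻¹ * (vv j * (RE false E₁ ε σ V)ᴴ * vv i * (RE b E₂ ε σ V)ᴴ).trace := by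
  have h1 : (vv (L := L) j)ᴴ = vv j := (hV d L j).2.1
  have h2 : (vv (L := L) i)ᴴ = vv i := (hV d L i).2.1
  unfold Tk
  rw [map_mul, map_inv₀, Complex.conj_ofReal, conj_tr _ _ _ _ h1 h2]

theorem Fq_eq (hR : T_KR) (hV : T_KV) (j i : Fin d) (E₁ E₂ : ℝ) {ε : ℝ} (σ : ℝ)
    (hε : 0 < ε) (V : T d L → ℝ) : Fq j i E₁ E₂ ε σ V =
      (1 / 4) * (Tk true j i E₁ E₂ ε σ V + (starRingEnd ℂ) (Tk true i j E₁ E₂ ε σ V) -
        Tk false j i E₁ E₂ ε σ V - (starRingEnd ℂ) (Tk false i j E₁ E₂ ε σ V)) := by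
  rw [conj_Tk hR hV true j i E₁ E₂ σ hε V, conj_Tk hR hV false j i E₁ E₂ σ hε V]
  unfold Fq Tk IR
  rw [RE_true hR E₁ σ hε V, RE_true hR E₂ σ hε V, Matrix.conjTranspose_conjTranspose]
  set R₁ := RE false E₁ ε σ V
  set R₂ := RE false E₂ ε σ V
  set A : Matrix (T d L) (T d L) ℂ := vv j
  set B : Matrix (T d L) (T d L) ℂ := vv i
  have h1 : A * ((2 * Complex.I)⁻¹ • (R₁ - R₁ᴴ)) * B * ((2 * Complex.I)⁻¹ • (R₂ - R₂ᴴ)) =
      ((2 * Complex.I)⁻¹ * (2 * Complex.I)⁻¹) •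
        (A * R₁ * B * R₂ - A * R₁ * B * R₂ᴴ - A * R₁ᴴ * B * R₂ + A * R₁ᴴ * B * R₂ᴴ) := by
    rw [Matrix.mul_smul, Matrix.mul_smul, Matrix.smul_mul, Matrix.smul_mul, smul_smul]
    congr 1
    noncomm_ring
  have h2 : (2 * Complex.I)⁻¹ * (2 * Complex.I)⁻¹ = -(1 / 4 : ℂ) := by
    rw [← mul_inv]
    have : 2 * Complex.I * (2 * Complex.I) = -4 := by
      have := Complex.I_mul_I
      linear_combination 4 * this
    rw [this]
    norm_num
  rw [h1, h2, Matrix.trace_smul, Matrix.trace_add, Matrix.trace_sub, Matrix.trace_sub, smul_eq_mul]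
  ring

theorem be_true (hR : T_KR) (E : ℝ) {ε : ℝ} (σ : ℝ) (hε : 0 < ε) (k : T d L) :
    be true E ε σ k = (starRingEnd ℂ) (be false E ε σ k) := by
  unfold be
  rw [me_true hR E σ hε, map_inv₀, map_sub, map_mul, map_pow, Complex.conj_ofReal]
  congr 2
  unfold xb
  simp only [cond_true, cond_false, map_sub, map_mul, Complex.conj_ofReal, Complex.conj_I]
  push_cast
  ring

theorem be_im (E ε σ : ℝ) (k : T d L) : (be false E ε σ k).im =
    Ga d L E ε σ / ((adj k - Es d L E ε σ) ^ 2 + Ga d L E ε σ ^ 2) := by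
  have h1 : xb false E ε k - (σ : ℂ) ^ 2 * me d L false E ε σ =
      ((adj k - Es d L E ε σ : ℝ) : ℂ) - ((Ga d L E ε σ : ℝ) : ℂ) * Complex.I := by
    unfold xb Es Ga
    simp only [cond_false]
    have h2 := Complex.re_add_im (me d L false E ε σ)
    push_cast
    linear_combination -(σ : ℂ) ^ 2 * h2.symm
  unfold be
  rw [h1, Complex.inv_im, Complex.normSq_apply]
  simp only [Complex.sub_re, Complex.sub_im, Complex.mul_re, Complex.mul_im, Complex.ofReal_re,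
    Complex.ofReal_im, Complex.I_re, Complex.I_im]
  ring_nf

theorem sn_sq (q : ZMod L) : sn q ^ 2 = 1 - cr q ^ 2 := by
  unfold sn cr
  have h1 : ‖(ZMod.stdAddChar q : ℂ)‖ = 1 := AddChar.norm_apply _ _
  have h2 := Complex.normSq_eq_norm_sq (ZMod.stdAddChar q : ℂ)
  rw [h1, Complex.normSq_apply] at h2
  nlinarith

end KEFP

open KEFP

theorem kef (hR : T_KR) (hV : T_KV) (hRef : T_KREF) : T_KEF := by
  intro d L _ j i E₁ E₂ ε σ r hε hr hT
  have hi1 := fun b j i => BC.integrable (bc_Tk (d := d) (L := L) hR b j i E₁ E₂ σ hε)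
  have hi2 : ∀ b j i, Integrable (fun V : T d L → ℝ => (starRingEnd ℂ) (Tk b j i E₁ E₂ ε σ V))
      (GP (T d L)) := by
    intro b j i
    obtain ⟨h1, C, hC⟩ := bc_Tk (d := d) (L := L) hR b j i E₁ E₂ σ hε
    exact BC.integrable ⟨Complex.continuous_conj.comp h1, C, fun V => by
      rw [RCLike.norm_conj]; exact hC V⟩
  have h1 : ∫ V, Fq j i E₁ E₂ ε σ V ∂(GP (T d L)) =
      (1 / 4) * (∫ V, Tk true j i E₁ E₂ ε σ V ∂(GP (T d L)) +
        (starRingEnd ℂ) (∫ V, Tk true i j E₁ E₂ ε σ V ∂(GP (T d L))) -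
        ∫ V, Tk false j i E₁ E₂ ε σ V ∂(GP (T d L)) -
        (starRingEnd ℂ) (∫ V, Tk false i j E₁ E₂ ε σ V ∂(GP (T d L)))) := by
    have i1 := hi1 true j i
    have i2 := hi2 true i j
    have i3 := hi1 false j i
    have i4 := hi2 false i j
    have i12 : Integrable (fun V : T d L → ℝ => Tk true j i E₁ E₂ ε σ V +
      (starRingEnd ℂ) (Tk true i j E₁ E₂ ε σ V)) (GP (T d L)) := i1.add i2
    have i123 : Integrable (fun V : T d L → ℝ => Tk true j i E₁ E₂ ε σ V +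
      (starRingEnd ℂ) (Tk true i j E₁ E₂ ε σ V) - Tk false j i E₁ E₂ ε σ V) (GP (T d L)) :=
      i12.sub i3
    calc ∫ V, Fq j i E₁ E₂ ε σ V ∂(GP (T d L))
        = ∫ V, (1 / 4 : ℂ) * (Tk true j i E₁ E₂ ε σ V + (starRingEnd ℂ) (Tk true i j E₁ E₂ ε σ V) -
        Tk false j i E₁ E₂ ε σ V - (starRingEnd ℂ) (Tk false i j E₁ E₂ ε σ V)) ∂(GP (T d L)) :=
          integral_congr_ae (Filter.Eventually.of_forall fun V => Fq_eq hR hV j i E₁ E₂ σ hε V)
      _ = _ := by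
        rw [integral_const_mul, integral_sub i123 i4, integral_sub i12 i3, integral_add i1 i2,
          integral_conj, integral_conj]
  have h2 : (if j = i then
    ((((NN d L)⁻¹ * ∑ k : T d L, 4 * (1 - cr (k i) ^ 2) *
      ((Ga d L E₁ ε σ / ((adj k - Es d L E₁ ε σ) ^ 2 + Ga d L E₁ ε σ ^ 2)) *
      (Ga d L E₂ ε σ / ((adj k - Es d L E₂ ε σ) ^ 2 + Ga d L E₂ ε σ ^ 2))) : ℝ)) : ℂ)
    else 0) = (1 / 4) * (tk d L true j i E₁ E₂ ε σ +
        (starRingEnd ℂ) (tk d L true i j E₁ E₂ ε σ) - tk d L false j i E₁ E₂ ε σ -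
        (starRingEnd ℂ) (tk d L false i j E₁ E₂ ε σ)) := by
    split_ifs with hji
    · subst hji
      have h3 : ∀ b, tk d L b j j E₁ E₂ ε σ = ((NN d L : ℝ) : ℂ)⁻¹ * ∑ k : T d L,
          ((4 * (1 - cr (k j) ^ 2) : ℝ) : ℂ) * (be false E₁ ε σ k * be b E₂ ε σ k) := by
        intro b
        unfold tk
        congr 1
        refine Finset.sum_congr rfl fun k _ => ?_
        rw [← sn_sq]
        push_cast
        ring
      have h4 : ∀ b, (starRingEnd ℂ) (tk d L b j j E₁ E₂ ε σ) = ((NN d L : ℝ) : ℂ)⁻¹ * ∑ k : T d L,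
          ((4 * (1 - cr (k j) ^ 2) : ℝ) : ℂ) * ((starRingEnd ℂ) (be false E₁ ε σ k) *
            (starRingEnd ℂ) (be b E₂ ε σ k)) := by
        intro b
        rw [h3, map_mul, map_inv₀, Complex.conj_ofReal, map_sum]
        congr 1
        refine Finset.sum_congr rfl fun k _ => ?_
        rw [map_mul, map_mul, Complex.conj_ofReal]
      rw [h4, h4, h3, h3, ← mul_add, ← mul_sub, ← mul_sub, ← Finset.sum_add_distrib,
        ← Finset.sum_sub_distrib, ← Finset.sum_sub_distrib]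
      push_cast
      rw [Finset.mul_sum, Finset.mul_sum, Finset.mul_sum]
      refine Finset.sum_congr rfl fun k _ => ?_
      rw [be_true hR E₂ σ hε k, Complex.conj_conj]
      have e1 : be false E₁ ε σ k - (starRingEnd ℂ) (be false E₁ ε σ k) =
          2 * ((be false E₁ ε σ k).im : ℂ) * Complex.I := by
        rw [Complex.sub_conj]
        push_cast
        ring
      have e2 : be false E₂ ε σ k - (starRingEnd ℂ) (be false E₂ ε σ k) =
          2 * ((be false E₂ ε σ k).im : ℂ) * Complex.I := by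
        rw [Complex.sub_conj]
        push_cast
        ring
      rw [be_im] at e1 e2
      push_cast at e1 e2
      have e3 := Complex.I_mul_I
      set N' : ℂ := ((NN d L : ℝ) : ℂ)⁻¹
      set c' : ℂ := 4 * (1 - (cr (k j) : ℂ) ^ 2)
      set g₁ : ℂ := (Ga d L E₁ ε σ : ℂ) / (((adj k : ℂ) - Es d L E₁ ε σ) ^ 2 +
        (Ga d L E₁ ε σ : ℂ) ^ 2)
      set g₂ : ℂ := (Ga d L E₂ ε σ : ℂ) / (((adj k : ℂ) - Es d L E₂ ε σ) ^ 2 +
        (Ga d L E₂ ε σ : ℂ) ^ 2)
      linear_combination (1 / 4 * N' * c') *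
        (be false E₂ ε σ k - (starRingEnd ℂ) (be false E₂ ε σ k)) * e1 +
        (1 / 4 * N' * c') * (2 * g₁ * Complex.I) * e2 + (N' * c' * g₁ * g₂) * e3
    · have h5 : ∀ b, tk d L b j i E₁ E₂ ε σ = 0 := fun b =>
        (hRef d L j i b E₁ E₂ ε σ hε).2.2 (Ne.symm hji)
      have h6 : ∀ b, tk d L b i j E₁ E₂ ε σ = 0 := fun b =>
        (hRef d L i j b E₁ E₂ ε σ hε).2.2 hji
      rw [h5, h5, h6, h6]
      simp
  rw [h1, h2]
  have a1 := hT true j i
  have a2 := hT true i j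
  have a3 := hT false j i
  have a4 := hT false i j
  set I1 := ∫ V, Tk true j i E₁ E₂ ε σ V ∂(GP (T d L))
  set I2 := ∫ V, Tk true i j E₁ E₂ ε σ V ∂(GP (T d L))
  set I3 := ∫ V, Tk false j i E₁ E₂ ε σ V ∂(GP (T d L))
  set I4 := ∫ V, Tk false i j E₁ E₂ ε σ V ∂(GP (T d L))
  have a2' : ‖(starRingEnd ℂ) (I2 - tk d L true i j E₁ E₂ ε σ)‖ ≤ r := by
    rw [RCLike.norm_conj]; exact a2
  have a4' : ‖(starRingEnd ℂ) (I4 - tk d L false i j E₁ E₂ ε σ)‖ ≤ r := by
    rw [RCLike.norm_conj]; exact a4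
  have e : 1 / 4 * (I1 + (starRingEnd ℂ) I2 - I3 - (starRingEnd ℂ) I4) -
      1 / 4 * (tk d L true j i E₁ E₂ ε σ + (starRingEnd ℂ) (tk d L true i j E₁ E₂ ε σ) -
        tk d L false j i E₁ E₂ ε σ - (starRingEnd ℂ) (tk d L false i j E₁ E₂ ε σ)) =
      (1 / 4 : ℂ) * ((I1 - tk d L true j i E₁ E₂ ε σ) +
        (starRingEnd ℂ) (I2 - tk d L true i j E₁ E₂ ε σ) -
        (I3 - tk d L false j i E₁ E₂ ε σ) -
        (starRingEnd ℂ) (I4 - tk d L false i j E₁ E₂ ε σ)) := by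
    rw [map_sub, map_sub]
    ring
  rw [e, norm_mul]
  have h7 : ‖(1 / 4 : ℂ)‖ = 1 / 4 := by norm_num
  rw [h7]
  have h8 := norm_sub_le ((I1 - tk d L true j i E₁ E₂ ε σ) +
        (starRingEnd ℂ) (I2 - tk d L true i j E₁ E₂ ε σ) -
        (I3 - tk d L false j i E₁ E₂ ε σ))
        ((starRingEnd ℂ) (I4 - tk d L false i j E₁ E₂ ε σ))
  have h9 := norm_sub_le ((I1 - tk d L true j i E₁ E₂ ε σ) +
        (starRingEnd ℂ) (I2 - tk d L true i j E₁ E₂ ε σ))
        (I3 - tk d L false j i E₁ E₂ ε σ)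
  have h10 := norm_add_le (I1 - tk d L true j i E₁ E₂ ε σ)
        ((starRingEnd ℂ) (I2 - tk d L true i j E₁ E₂ ε σ))
  linarith

end Pool.Agent.T2h98.KU
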