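import Pool.Agent.T2h98.KU.Stm
import Pool.Agent.T2h98.QD.MoA

/-! The Kubo-Greenwood formula in terms of the eigenvectors (KEIG). -/

set_option autoImplicit false
set_option linter.unusedSectionVars false

open scoped BigOperators Matrix Topology
open MeasureTheory ProbabilityTheory Filter

namespace Pool.Agent.T2h98.KU

open Pool.Agent.W788.MFP.Four (T e NN adj K)
open Pool.Agent.W788.BK (nsq hs PP JJ hi Low cr)
open Pool.Agent.T2h98.QD
open Pool.Agent.T2h98.AC (TX RX mX sy Rb Fk)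

namespace KEIGh

variable {d L : ℕ} [NeZero L]

/-- the matrix with the columns `u a` -/
noncomputable def UM (u : T d L → T d L → ℂ) : Matrix (T d L) (T d L) ℂ :=
  Matrix.of fun x a => u a x

theorem UM_star_mul (u : T d L → T d L → ℂ) (A : Matrix (T d L) (T d L) ℂ) (c a : T d L) :
    ((UM u)ᴴ * A * UM u : Matrix (T d L) (T d L) ℂ) c a = star (u c) ⬝ᵥ (A *ᵥ u a) := by
  rw [Matrix.mul_assoc, Matrix.mul_apply]
  rfl

theorem UM_unit (u : T d L → T d L → ℂ)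
    (h : ∀ a c, star (u a) ⬝ᵥ u c = if a = c then 1 else 0) :
    (UM u)ᴴ * UM u = 1 ∧ UM u * (UM u)ᴴ = 1 := by
  have h1 : (UM u)ᴴ * UM u = 1 := by
    ext a c
    rw [Matrix.mul_apply, Matrix.one_apply, ← h a c]
    rfl
  exact ⟨h1, mul_eq_one_comm.1 h1⟩

/-- the shift of the energy -/
noncomputable def sh (b : Bool) (E ε : ℝ) : ℂ :=
  (E : ℂ) + (((bif b then -ε else ε : ℝ)) : ℂ) * Complex.I

theorem TX_eq (b : Bool) (E ε σ : ℝ) (V : T d L → ℝ) :
    TX (xb b E ε) σ V = HT σ V - (sh b E ε) • (1 : Matrix (T d L) (T d L) ℂ) := by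
  unfold TX HT
  rw [← mo_one, mo_smul, add_sub_right_comm, mo_sub]
  congr 2
  funext k
  unfold xb sh
  push_cast
  ring

theorem TX_mul (b : Bool) (E ε σ : ℝ) (V : T d L → ℝ) (u : T d L → T d L → ℂ) (w : T d L → ℝ)
    (hu : ∀ a, HT σ V *ᵥ u a = (w a : ℂ) • u a) :
    TX (xb b E ε) σ V * UM u = UM u * Matrix.diagonal fun a => (w a : ℂ) - sh b E ε := by
  rw [TX_eq, Matrix.sub_mul, Matrix.smul_mul, Matrix.one_mul]
  ext x a
  rw [Matrix.mul_diagonal, Matrix.sub_apply, Matrix.smul_apply]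
  have h1 : (HT σ V * UM u : Matrix (T d L) (T d L) ℂ) x a = (w a : ℂ) * u a x := by
    have := congrFun (hu a) x
    rw [Pi.smul_apply, smul_eq_mul] at this
    rw [← this]
    rfl
  rw [h1]
  change (w a : ℂ) * u a x - sh b E ε * u a x = u a x * ((w a : ℂ) - sh b E ε)
  ring

theorem sh_ne (b : Bool) (E ε : ℝ) (hε : 0 < ε) (w : ℝ) : (w : ℂ) - sh b E ε ≠ 0 := by
  intro h
  have := congrArg Complex.im h
  unfold sh at this
  cases b <;> simp at this <;> linarith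

theorem RE_eq (b : Bool) (E ε σ : ℝ) (hε : 0 < ε) (V : T d L → ℝ) (u : T d L → T d L → ℂ)
    (w : T d L → ℝ) (hu : ∀ a, HT σ V *ᵥ u a = (w a : ℂ) • u a)
    (ho : ∀ a c, star (u a) ⬝ᵥ u c = if a = c then 1 else 0)
    (hR : RE b E ε σ V * TX (xb b E ε) σ V = 1) :
    RE b E ε σ V = UM u * (Matrix.diagonal fun a => ((w a : ℂ) - sh b E ε)⁻¹) * (UM u)ᴴ := by
  have h1 := TX_mul b E ε σ V u w hu
  have h2 : UM u = RE b E ε σ V * (UM u * Matrix.diagonal fun a => (w a : ℂ) - sh b E ε) := by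
    rw [← h1, ← Matrix.mul_assoc, hR, Matrix.one_mul]
  have h3 : UM u * (Matrix.diagonal fun a => ((w a : ℂ) - sh b E ε)⁻¹) =
      RE b E ε σ V * UM u := by
    conv_lhs => rw [h2]
    rw [Matrix.mul_assoc, Matrix.mul_assoc, Matrix.diagonal_mul_diagonal]
    have h4 : (fun a : T d L => ((w a : ℂ) - sh b E ε) * ((w a : ℂ) - sh b E ε)⁻¹) =
        fun _ => 1 := by
      funext a
      exact mul_inv_cancel₀ (sh_ne b E ε hε (w a))
    rw [h4, Matrix.diagonal_one, Matrix.mul_one]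
  rw [h3, Matrix.mul_assoc, (UM_unit u ho).2, Matrix.mul_one]

theorem IR_eq (E ε σ : ℝ) (hε : 0 < ε) (V : T d L → ℝ) (u : T d L → T d L → ℂ)
    (w : T d L → ℝ) (hu : ∀ a, HT σ V *ᵥ u a = (w a : ℂ) • u a)
    (ho : ∀ a c, star (u a) ⬝ᵥ u c = if a = c then 1 else 0)
    (hR : ∀ b, RE b E ε σ V * TX (xb b E ε) σ V = 1) :
    IR E ε σ V = UM u * (Matrix.diagonal fun a => ((ε / ((w a - E) ^ 2 + ε ^ 2) : ℝ) : ℂ)) *
      (UM u)ᴴ := by
  unfold IR
  rw [RE_eq false E ε σ hε V u w hu ho (hR false), RE_eq true E ε σ hε V u w hu ho (hR true),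
    ← Matrix.sub_mul, ← Matrix.mul_sub, Matrix.diagonal_sub, ← Matrix.smul_mul, ← Matrix.mul_smul,
    ← Matrix.diagonal_smul]
  congr 3
  funext a
  rw [Pi.smul_apply, smul_eq_mul]
  have h1 := sh_ne false E ε hε (w a)
  have h2 := sh_ne true E ε hε (w a)
  have h3 : ((w a : ℂ) - sh false E ε) * ((w a : ℂ) - sh true E ε) =
      (((w a - E) ^ 2 + ε ^ 2 : ℝ) : ℂ) := by
    unfold sh
    simp only [cond_false, cond_true]
    push_cast
    linear_combination (-(ε : ℂ) ^ 2) * Complex.I_sq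
  have h4 : (((w a - E) ^ 2 + ε ^ 2 : ℝ) : ℂ) ≠ 0 := by
    rw [← h3]
    exact mul_ne_zero h1 h2
  have h5 : (2 * Complex.I : ℂ) ≠ 0 := mul_ne_zero two_ne_zero Complex.I_ne_zero
  have h6 : ((w a : ℂ) - sh true E ε) - ((w a : ℂ) - sh false E ε) = 2 * Complex.I * ε := by
    unfold sh
    simp only [cond_false, cond_true]
    push_cast
    ring
  rw [inv_sub_inv h1 h2, h6, h3, Complex.ofReal_div]
  field_simp

end KEIGh

open KEIGh

theorem keig (hR : T_KR) : T_KEIG := by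
  intro d L _ j i E₁ E₂ ε σ hε V u w hu ho
  have h1 := IR_eq E₁ ε σ hε V u w hu ho fun b => ((hR d L b E₁ ε σ hε).2.1 V).2
  have h2 := IR_eq E₂ ε σ hε V u w hu ho fun b => ((hR d L b E₂ ε σ hε).2.1 V).2
  unfold Fq
  congr 1
  set D1 : T d L → ℂ := fun a => ((ε / ((w a - E₁) ^ 2 + ε ^ 2) : ℝ) : ℂ) with hD1
  set D2 : T d L → ℂ := fun a => ((ε / ((w a - E₂) ^ 2 + ε ^ 2) : ℝ) : ℂ) with hD2
  have h3 : (vv j * IR E₁ ε σ V * vv i * IR E₂ ε σ V).trace =
      (((UM u)ᴴ * vv j * UM u) * Matrix.diagonal D1 * (((UM u)ᴴ * vv i * UM u) *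
        Matrix.diagonal D2)).trace := by
    rw [h1, h2]
    have : vv j * (UM u * Matrix.diagonal D1 * (UM u)ᴴ) * vv i *
        (UM u * Matrix.diagonal D2 * (UM u)ᴴ) = (vv j * UM u * Matrix.diagonal D1 *
        ((UM u)ᴴ * vv i * UM u * Matrix.diagonal D2)) * (UM u)ᴴ := by
      simp only [Matrix.mul_assoc]
    rw [this, Matrix.trace_mul_comm]
    simp only [Matrix.mul_assoc]
  rw [h3]
  unfold Matrix.trace
  have h4 : ∀ c, Matrix.diag (((UM u)ᴴ * vv j * UM u) * Matrix.diagonal D1 *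
      (((UM u)ᴴ * vv i * UM u) * Matrix.diagonal D2)) c = ∑ a, (star (u c) ⬝ᵥ (vv j *ᵥ u a)) *
      (star (u a) ⬝ᵥ (vv i *ᵥ u c)) *
      ((ε / ((w a - E₁) ^ 2 + ε ^ 2) * (ε / ((w c - E₂) ^ 2 + ε ^ 2)) : ℝ) : ℂ) := by
    intro c
    rw [Matrix.diag_apply, Matrix.mul_apply]
    refine Finset.sum_congr rfl fun a _ => ?_
    rw [Matrix.mul_diagonal, Matrix.mul_diagonal, UM_star_mul, UM_star_mul, hD1, hD2]
    push_cast
    ring
  simp only [h4]
  exact Finset.sum_comm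

end Pool.Agent.T2h98.KU
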