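import Pool.Agent.T2h98.KU.KREA
import Pool.Agent.T2h98.KU.KCONC

/-! Task KFIN: the conclusion for samples. -/

set_option autoImplicit false
set_option linter.unusedSectionVars false

open scoped BigOperators Matrix Topology
open MeasureTheory ProbabilityTheory Filter

namespace Pool.Agent.T2h98.KU

open Pool.Agent.W788.MFP.Four (T e NN adj K)
open Pool.Agent.W788.BK (nsq hs PP JJ hi Low cr)
open Pool.Agent.T2h98.QD
open Pool.Agent.T2h98.AC (TX RX mX sy Rb Fk)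

/-- Chebyshev -/
theorem cheb {m : Type} [Fintype m] (F : (m → ℝ) → ℂ) (hF : Continuous F) (c : ℂ) (x v : ℝ)
    (hx : 0 < x) (hi : Integrable (fun V => ‖F V - c‖ ^ 2) (GP m))
    (hv : ∫ V, ‖F V - c‖ ^ 2 ∂(GP m) ≤ v) :
    MeasurableSet {V : m → ℝ | ‖F V - c‖ ≤ x} ∧
      1 - v / x ^ 2 ≤ (GP m).real {V : m → ℝ | ‖F V - c‖ ≤ x} := by
  have hm : MeasurableSet {V : m → ℝ | ‖F V - c‖ ≤ x} :=
    (isClosed_le (hF.sub continuous_const).norm continuous_const).measurableSet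
  refine ⟨hm, ?_⟩
  have h1 := mul_meas_ge_le_integral_of_nonneg (μ := GP m)
    (f := fun V => ‖F V - c‖ ^ 2) (Filter.Eventually.of_forall fun V => by positivity) hi (x ^ 2)
  have h2 : (GP m).real {V : m → ℝ | ‖F V - c‖ ≤ x}ᶜ ≤
      (GP m).real {V : m → ℝ | x ^ 2 ≤ ‖F V - c‖ ^ 2} := by
    refine measureReal_mono ?_ (measure_ne_top _ _)
    intro V hV
    simp only [Set.mem_compl_iff, Set.mem_setOf_eq, not_le] at hV ⊢
    exact pow_le_pow_left₀ hx.le hV.le 2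
  have h3 : (GP m).real {V : m → ℝ | ‖F V - c‖ ≤ x}ᶜ =
      1 - (GP m).real {V : m → ℝ | ‖F V - c‖ ≤ x} := by
    rw [measureReal_compl hm, probReal_univ]
  have hx2 : 0 < x ^ 2 := by positivity
  have h4 : (GP m).real {V : m → ℝ | x ^ 2 ≤ ‖F V - c‖ ^ 2} ≤ v / x ^ 2 := by
    rw [le_div_iff₀ hx2]
    have := h1.trans hv
    rw [mul_comm]
    exact this
  linarith

theorem kfin (hR : T_KR) (hL : T_KLIM) (hC : T_KCONC) (hG : T_KGE) (hD : T_DOS) :
    T_KFIN := by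
  intro κ d hd h hh0 hh a ha c A η hc hA hη
  obtain ⟨-, huc⟩ := dn_uc hD d hd
  have hev := hL κ d hd h hh0 hh a ha c A (η / 2) hc hA (by positivity)
  obtain ⟨m0, hm0, hm1, hev2⟩ := hG κ d hd h hh0 hh a ha (c / 2) (1 / 4) (by positivity)
    (by norm_num) le_rfl
  obtain ⟨r2, hr2, hdn⟩ := huc (c / 2) (by positivity)
  have hd3 : (3 : ℝ) ≤ d := by exact_mod_cast hd
  have hexp : (3 / 10 : ℝ) + ((-2 - a) * d + (2 + h) * 5) ≤ -(1 / 100) + 6 := by
    by_cases hd' : d = 3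
    · rw [if_pos hd'] at hh
      rw [hd']
      push_cast
      nlinarith
    · rw [if_neg hd'] at hh
      have h4 : (4 : ℝ) ≤ d := by
        have : 4 ≤ d := by omega
        exact_mod_cast this
      nlinarith
  filter_upwards [hev, hev2, self_mem_nhdsWithin, ev_lt (x := 1) one_pos,
    ev_sq (x := r2 / A) (by positivity),
    ev_pow (p := 3 / 10) (x := η ^ 3 / 800) (by norm_num) (by positivity)] with
    σ h1 h2 h3 h4 h5 h6
  have hσ : 0 < σ := h3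
  have hσ2 : 0 < σ ^ 2 := by positivity
  intro L _ hL1 hL2 ε hε1 hε2 E ν hEc hν j i
  have hε0 : 0 < ε := lt_of_lt_of_le (Real.rpow_pos_of_pos hσ _) hε1
  have h7 := h1 L hL1 hL2 ε hε1 hε2 E ν hEc hν j i
  obtain ⟨δ, t, Q, g, p0, Ω, hg, h8⟩ := h2 L hL1 hL2
  obtain ⟨hP, hS, h9⟩ := h8 ε hε1 hε2
  obtain ⟨E₂, hE₂⟩ : ∃ E₂ : ℝ, E₂ = E + ν * σ ^ 2 := ⟨_, rfl⟩
  rw [← hE₂] at h7 ⊢
  have hd2 : |E₂ - E| < r2 := by
    rw [hE₂, add_sub_cancel_left, abs_mul, abs_of_pos hσ2]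
    have := mul_le_mul_of_nonneg_right hν hσ2.le
    rw [lt_div_iff₀ hA] at h5
    linarith
  have hE2c : c / 2 ≤ dn d E₂ := by
    have := (abs_lt.1 (hdn E₂ E hd2)).1
    linarith
  have hme1 := (h9 E (by linarith)).1.h1
  have hme2 := (h9 E₂ hE2c).1.h1
  obtain ⟨hcont, hvar⟩ := hC d L j i E E₂ ε σ g hε0 hme1 hme2
  obtain ⟨c0, hc0⟩ : ∃ c0 : ℂ, c0 = ∫ V, Fq j i E E₂ ε σ V ∂(GP (T d L)) := ⟨_, rfl⟩
  rw [← hc0] at hvar h7
  have hg0 : 0 ≤ g := by
    have := norm_nonneg (me d L false E ε σ)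
    linarith
  have hN : (0 : ℝ) < NN d L := by
    unfold NN
    have : (0 : ℝ) < (L : ℝ) := by exact_mod_cast Nat.pos_of_ne_zero (NeZero.ne L)
    positivity
  obtain ⟨v, hv⟩ : ∃ v : ℝ, v = 200 * σ ^ 2 * g / (NN d L * ε ^ 5) := ⟨_, rfl⟩
  rw [← hv] at hvar
  obtain ⟨x, hx⟩ : ∃ x : ℝ, x = η / (2 * σ ^ 2) := ⟨_, rfl⟩
  have hx0 : 0 < x := by rw [hx]; positivity
  obtain ⟨C, hCb⟩ := (bc_fq (d := d) (L := L) hR j i E E₂ ε σ hε0).2
  have hint : Integrable (fun V : T d L → ℝ => ‖Fq j i E E₂ ε σ V - c0‖ ^ 2) (GP (T d L)) := by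
    refine Integrable.of_bound ((hcont.sub continuous_const).norm.pow 2).aestronglyMeasurable
      ((C + ‖c0‖) ^ 2) (Filter.Eventually.of_forall fun V => ?_)
    rw [Real.norm_eq_abs, abs_of_nonneg (by positivity)]
    exact pow_le_pow_left₀ (norm_nonneg _)
      ((norm_sub_le _ _).trans (by linarith [hCb V])) 2
  obtain ⟨hmeas, hprob⟩ := cheb _ hcont c0 x v hx0 hint hvar
  refine ⟨_, hmeas, ?_, ?_⟩
  · refine le_trans ?_ hprob
    have hvx : v / x ^ 2 ≤ η := by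
      have e1 : v / x ^ 2 = 800 * g * σ ^ 6 / (NN d L * ε ^ 5 * η ^ 2) := by
        rw [hv, hx]
        field_simp
        ring
      rw [e1, div_le_iff₀ (by positivity)]
      have e2 : g * σ ^ 6 ≤ σ ^ (3 / 10 : ℝ) * (NN d L * ε ^ 5) := by
        have hLp : 0 < σ ^ (-2 - a) := Real.rpow_pos_of_pos hσ _
        have f1 : (σ ^ (-2 - a)) ^ d ≤ NN d L := by
          unfold NN
          exact pow_le_pow_left₀ hLp.le hL1 d
        have f2 : (σ ^ (2 + h)) ^ 5 ≤ ε ^ 5 :=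
          pow_le_pow_left₀ (Real.rpow_nonneg hσ.le _) hε1 5
        calc g * σ ^ 6 ≤ σ ^ (-(1 / 100) : ℝ) * σ ^ 6 :=
              mul_le_mul_of_nonneg_right hg (by positivity)
          _ = σ ^ (-(1 / 100) + 6 : ℝ) := by
              rw [← Real.rpow_natCast σ 6, ← Real.rpow_add hσ]
              norm_num
          _ ≤ σ ^ ((3 / 10 : ℝ) + ((-2 - a) * d + (2 + h) * (5 : ℕ))) := by
              apply Real.rpow_le_rpow_of_exponent_ge hσ h4.le
              push_cast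
              linarith
          _ = σ ^ (3 / 10 : ℝ) * ((σ ^ (-2 - a)) ^ d * (σ ^ (2 + h)) ^ 5) := by
              rw [← Real.rpow_natCast (σ ^ (-2 - a)) d, ← Real.rpow_natCast (σ ^ (2 + h)) 5,
                ← Real.rpow_mul hσ.le, ← Real.rpow_mul hσ.le, ← Real.rpow_add hσ,
                ← Real.rpow_add hσ]
          _ ≤ _ := by
              apply mul_le_mul_of_nonneg_left _ (Real.rpow_nonneg hσ.le _)
              exact mul_le_mul f1 f2 (by positivity) hN.le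
      have e3 : σ ^ (3 / 10 : ℝ) * (NN d L * ε ^ 5) ≤ η ^ 3 / 800 * (NN d L * ε ^ 5) :=
        mul_le_mul_of_nonneg_right h6.le (by positivity)
      have e4 : η * (NN d L * ε ^ 5 * η ^ 2) = 800 * (η ^ 3 / 800 * (NN d L * ε ^ 5)) := by ring
      rw [e4]
      linarith
    linarith
  · intro V hV
    simp only [Set.mem_setOf_eq] at hV
    obtain ⟨W, hW⟩ : ∃ W : ℂ, W = (if j = i then ((2 * Real.pi *
      (Real.pi * dn d E + ε / σ ^ 2) * dw d E /
        (ν ^ 2 + 4 * (Real.pi * dn d E + ε / σ ^ 2) ^ 2) : ℝ) : ℂ) else 0) := ⟨_, rfl⟩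
    rw [← hW] at h7 ⊢
    have e1 : (σ : ℂ) ^ 2 * Fq j i E E₂ ε σ V - W =
        (σ : ℂ) ^ 2 * (Fq j i E E₂ ε σ V - c0) + ((σ : ℂ) ^ 2 * c0 - W) := by ring
    rw [e1]
    refine (norm_add_le _ _).trans ?_
    have e3 : ‖(σ : ℂ) ^ 2 * (Fq j i E E₂ ε σ V - c0)‖ ≤ η / 2 := by
      rw [norm_mul, norm_pow, Complex.norm_real, Real.norm_eq_abs, sq_abs]
      have := mul_le_mul_of_nonneg_left hV hσ2.le
      have e4 : σ ^ 2 * x = η / 2 := by
        rw [hx]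
        field_simp
      linarith
    linarith

end Pool.Agent.T2h98.KU
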