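import Pool.Agent.T2h98.KU.Stm

/-! Good energies. -/

set_option autoImplicit false
set_option linter.unusedSectionVars false

open scoped BigOperators Matrix Topology
open MeasureTheory ProbabilityTheory Filter

namespace Pool.Agent.T2h98.KU

open Pool.Agent.W788.MFP.Four (T e NN adj K)
open Pool.Agent.W788.BK (nsq hs PP JJ hi Low cr)
open Pool.Agent.T2h98.QD
open Pool.Agent.T2h98.AC (TX RX mX sy Rb Fk)

theorem kge (hS : T_KSCAL) (hI : T_KIMS) (hF : T_FIN3) (hR : T_KR) : T_KGE := by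
  intro κ d hd h hh hh2 a ha c ζ hc hζ hζ4
  have hpi := Real.pi_pos
  have hpc : 0 < Real.pi * c / 2 := by positivity
  refine ⟨min 1 (Real.pi * c / 2), lt_min one_pos hpc, min_le_left _ _, ?_⟩
  set m0 := min 1 (Real.pi * c / 2) with hm0
  have hm00 : 0 < m0 := lt_min one_pos hpc
  have hm01 : m0 ≤ 1 := min_le_left _ _
  have hm0c : m0 ≤ Real.pi * c / 2 := min_le_right _ _
  have hh3 : h < (if d = 3 then 1 else 2) / (2 + 1 / 2) := by
    refine hh2.trans ?_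
    split_ifs <;> norm_num
  filter_upwards [hS κ d hd h hh hh2 a ha m0 ζ hm00 hm01 hζ hζ4,
    hI κ d hd h a hh hh3 ha c (min ζ (Real.pi * c / 2)) hc (lt_min hζ hpc)] with σ h1 h2
  intro L _ hL1 hL2
  obtain ⟨δ, t, Q, g, p0, Ω, hg, hg1, hpar⟩ := h1 L hL1 hL2
  refine ⟨δ, t, Q, g, p0, Ω, hg1, fun ε he1 he2 => ?_⟩
  obtain ⟨hP, hSm⟩ := hpar ε he1 he2
  refine ⟨hP, hSm, fun E hE => ?_⟩
  have hε := hP.hε
  have hσ := hP.hσ
  have hG1 := hP.hg1
  have hQ1 := hP.hQ1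
  have hme : me d L false E ε σ = mT d L σ E ε := (hR d L false E ε σ hε).2.2.2.2.2.2.2.2.2.2
  have h3 := h2 L hL1 hL2 ε he1 he2 E hE
  have h4 : |(mT d L σ E ε).im - Real.pi * dn d E| ≤ Real.pi * c / 2 := h3.trans (min_le_right _ _)
  have h5 : |(mT d L σ E ε).im - Real.pi * dn d E| ≤ ζ := h3.trans (min_le_left _ _)
  have h6 : m0 ≤ (mT d L σ E ε).im := by
    have h7 := (abs_le.1 h4).1
    have h8 : Real.pi * c ≤ Real.pi * dn d E := mul_le_mul_of_nonneg_left hE hpi.le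
    linarith
  have hGa : m0 * σ ^ 2 ≤ Ga d L E ε σ := by
    unfold Ga
    rw [hme]
    have : m0 * σ ^ 2 ≤ σ ^ 2 * (mT d L σ E ε).im := by
      rw [mul_comm]
      exact mul_le_mul_of_nonneg_left h6 (by positivity)
    linarith
  have hgs := hg (Es d L E ε σ) (Ga d L E ε σ) hGa
  have hε1 : ε ≤ 1 := by
    have : σ ^ 2 ≤ 1 := pow_le_one₀ hσ.le hP.hσ1
    linarith [hP.hεσ]
  have hV : ParV d L σ E δ ε t Q g p0 Ω :=
    { hσ := hP.hσ
      hσ1 := hP.hσ1
      hε := hP.hε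
      hεδ := hP.hεσ.trans hP.hσδ
      hδ1 := hP.hδ1
      ht := hP.ht
      hσt := hP.hσt
      hQ1 := hP.hQ1
      hQ := hP.hQ E
      hg1 := hP.hg1
      hg := hP.hg
      hp0 := hP.hp0
      hp := hP.hp.trans (pow_le_pow_of_le_one hε.le hε1 (by norm_num))
      hΩ := hP.hΩ
      hP := hP.hP
      hgood := fun ξ hξ w => hP.hgood ξ hξ E w }
  have hS2 : Small2 σ ε δ Q g ζ 0 := by
    refine ⟨hP.hεσ, hP.hσδ, hζ4, ?_, ?_⟩
    · rw [Real.rpow_zero, mul_one]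
      have k1 := hSm.k1
      set Lam := σ ^ 2 * Q * (δ / ε) ^ 2 with hLam
      have hLam0 : 0 ≤ Lam := by positivity
      have hs1 : 1 ≤ σ ^ 2 / ε := by
        rw [le_div_iff₀ hε, one_mul]
        exact hP.hεσ
      have e1 : 10000 * Lam * g ^ 3 ≤ 10 ^ 7 * Lam * (σ ^ 2 / ε) * g ^ 4 := by
        calc 10000 * Lam * g ^ 3 = 10000 * Lam * 1 * (g ^ 3 * 1) := by ring
          _ ≤ 10 ^ 7 * Lam * (σ ^ 2 / ε) * (g ^ 3 * g) := by
            gcongr
            norm_num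
          _ = _ := by ring
      have e2 : m0 ^ 3 * ζ ^ 2 ≤ ζ := by
        calc m0 ^ 3 * ζ ^ 2 ≤ 1 * ζ ^ 2 :=
              mul_le_mul_of_nonneg_right (pow_le_one₀ hm00.le hm01) (by positivity)
          _ ≤ ζ := by nlinarith
      linarith
    · have := hSm.k2
      have : 0 ≤ σ ^ 2 * g := by positivity
      linarith
  have h9 := hF d L σ E δ ε t Q g p0 ζ 0 Ω hV hS2 le_rfl (Es d L E ε σ) (Ga d L E ε σ)
    (by unfold Es; rw [hme]) (by unfold Ga; rw [hme]) hgs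
  have h10 : ‖me d L false E ε σ‖ ≤ 2 * g := by
    rw [hme]
    exact h9.2.1
  refine ⟨⟨h10, hGa, ?_, hgs⟩, ?_⟩
  · unfold Ga
    have h11 : (me d L false E ε σ).im ≤ 2 * g := (Complex.im_le_norm _).trans h10
    have h12 : σ ^ 2 * (me d L false E ε σ).im ≤ σ ^ 2 * (2 * g) :=
      mul_le_mul_of_nonneg_left h11 (by positivity)
    have := hSm.k3
    have := hP.hεσ
    linarith
  · rw [hme]
    exact h5

end Pool.Agent.T2h98.KU
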