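import Pool.Agent.T2h98.KU.KREA

/-! Task KLIM: the limit of the mean of the Kubo-Greenwood expression. -/

set_option autoImplicit false
set_option linter.unusedSectionVars false

open scoped BigOperators Matrix Topology
open MeasureTheory ProbabilityTheory Filter

namespace Pool.Agent.T2h98.KU

open Pool.Agent.W788.MFP.Four (T e NN adj K)
open Pool.Agent.W788.BK (nsq hs PP JJ hi Low cr)
open Pool.Agent.T2h98.QD
open Pool.Agent.T2h98.AC (TX RX mX sy Rb Fk)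

theorem klim (hG : T_KGE) (hRE : T_KRE) (hM : T_KMAIN) (hE : T_KEF) (hL : T_KLOR) (hD : T_DOS)
    (hC : T_KCAU) : T_KLIM := by
  intro κ d hd h hh0 hh a ha c A η hc hA hη
  obtain ⟨⟨B, hB⟩, huc⟩ := dn_uc hD d hd
  have hpi := Real.pi_pos
  obtain ⟨A', hA'⟩ : ∃ A' : ℝ, A' = max (max (Real.pi * B + 1) A) (Real.pi * c) := ⟨_, rfl⟩
  have hA1 : Real.pi * B + 1 ≤ A' := by
    rw [hA']; exact (le_max_left _ _).trans (le_max_left _ _)
  have hA2 : A ≤ A' := by rw [hA']; exact (le_max_right _ _).trans (le_max_left _ _)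
  have hA3 : Real.pi * c ≤ A' := by rw [hA']; exact le_max_right _ _
  obtain ⟨r, hr, hL'⟩ := hL d hd (a / 2) (Real.pi * c) A' (η / 2) (by positivity)
    (by positivity) hA3 (by positivity)
  obtain ⟨ζ, hζ⟩ : ∃ ζ : ℝ, ζ = min (1 / 4) (min (η / 2) (r / 2)) := ⟨_, rfl⟩
  have hζ0 : 0 < ζ := by
    rw [hζ]
    exact lt_min (by norm_num) (lt_min (by positivity) (by positivity))
  have hζ1 : ζ ≤ 1 / 4 := by rw [hζ]; exact min_le_left _ _
  have hζ2 : ζ ≤ η / 2 := by rw [hζ]; exact (min_le_right _ _).trans (min_le_left _ _)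
  have hζ3 : ζ ≤ r / 2 := by rw [hζ]; exact (min_le_right _ _).trans (min_le_right _ _)
  obtain ⟨m0, hm0, hm1, hev⟩ := hG κ d hd h hh0 hh a ha (c / 2) ζ (by positivity) hζ0 hζ1
  have hev2 := hRE κ d hd h hh0 hh a ha (c / 2) (r / 4) (by positivity) (by positivity)
  obtain ⟨r1, hr1, hcn⟩ := cn_uc hC d hd (r / 2) (by positivity)
  obtain ⟨r2, hr2, hdn⟩ := huc (min (c / 2) (r / (2 * Real.pi)))
    (lt_min (by positivity) (by positivity))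
  filter_upwards [hev, hev2, self_mem_nhdsWithin, ev_sq (x := r) hr,
    ev_sq (x := r1 / A) (by positivity), ev_sq (x := r2 / A) (by positivity),
    ev_sq (x := r / (2 * A)) (by positivity)] with σ h1 h1' h2 h3 h4 h5 h6
  have hσ : 0 < σ := h2
  have hσ2 : 0 < σ ^ 2 := by positivity
  intro L _ hL1 hL2 ε hε1 hε2 E ν hEc hν j i
  have hε0 : 0 < ε := lt_of_lt_of_le (Real.rpow_pos_of_pos hσ _) hε1
  obtain ⟨E₂, hE₂⟩ : ∃ E₂ : ℝ, E₂ = E + ν * σ ^ 2 := ⟨_, rfl⟩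
  rw [← hE₂]
  have hdist : |E₂ - E| ≤ A * σ ^ 2 := by
    rw [hE₂, add_sub_cancel_left, abs_mul, abs_of_pos hσ2]
    exact mul_le_mul_of_nonneg_right hν hσ2.le
  have hd1 : |E₂ - E| < r1 := by
    refine hdist.trans_lt ?_
    rw [lt_div_iff₀ hA] at h4
    linarith
  have hd2 : |E₂ - E| < r2 := by
    refine hdist.trans_lt ?_
    rw [lt_div_iff₀ hA] at h5
    linarith
  have hd3 : |E₂ - E| < r / 2 := by
    refine hdist.trans_lt ?_
    rw [lt_div_iff₀ (by positivity)] at h6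
    linarith
  have hdnd := hdn E₂ E hd2
  have hdn1 : |dn d E₂ - dn d E| < c / 2 := hdnd.trans_le (min_le_left _ _)
  have hdn2 : |dn d E₂ - dn d E| < r / (2 * Real.pi) := hdnd.trans_le (min_le_right _ _)
  have hE2c : c / 2 ≤ dn d E₂ := by
    have := (abs_lt.1 hdn1).1
    linarith
  have hE1c : c / 2 ≤ dn d E := by linarith
  obtain ⟨δ, t, Q, g, p0, Ω, hg, h7⟩ := h1 L hL1 hL2
  obtain ⟨hP, hS, h8⟩ := h7 ε hε1 hε2
  obtain ⟨hGE1, hi1⟩ := h8 E hE1c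
  obtain ⟨hGE2, hi2⟩ := h8 E₂ hE2c
  have hm := hM d L σ δ ε t Q g p0 m0 ζ E E₂ Ω hP hS hGE1 hGE2
  have hz0 : 0 ≤ ζ / σ ^ 2 := by positivity
  have hF := hE d L j i E E₂ ε σ (ζ / σ ^ 2) hε0 hz0 hm
  have hk2 := hS.k2
  obtain ⟨m1, hm1'⟩ : ∃ m1, m1 = me d L false E ε σ := ⟨_, rfl⟩
  obtain ⟨m2, hm2'⟩ : ∃ m2, m2 = me d L false E₂ ε σ := ⟨_, rfl⟩
  have c1 := h1' L hL1 hL2 ε hε1 hε2 E hE1c
  have c2 := h1' L hL1 hL2 ε hε1 hε2 E₂ hE2c
  have c3 := hcn E₂ E hd1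
  have b1 : |m1.re| ≤ 2 * g := by
    rw [hm1']; exact (Complex.abs_re_le_norm _).trans hGE1.h1
  have b2 : |m2.re| ≤ 2 * g := by
    rw [hm2']; exact (Complex.abs_re_le_norm _).trans hGE2.h1
  have hEs1 : Es d L E ε σ = E + σ ^ 2 * m1.re := by rw [hm1']; rfl
  have hEs2 : Es d L E₂ ε σ = E₂ + σ ^ 2 * m2.re := by rw [hm2']; rfl
  have hGa1 : Ga d L E ε σ = ε + σ ^ 2 * m1.im := by rw [hm1']; rfl
  have hGa2 : Ga d L E₂ ε σ = ε + σ ^ 2 * m2.im := by rw [hm2']; rfl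
  rw [← hm1'] at hi1 c1
  rw [← hm2'] at hi2 c2
  have q1 : |E - Es d L E ε σ| < r := by
    rw [hEs1, show E - (E + σ ^ 2 * m1.re) = -(σ ^ 2 * m1.re) by ring, abs_neg, abs_mul,
      abs_of_pos hσ2]
    have := mul_le_mul_of_nonneg_left b1 hσ2.le
    nlinarith
  have q2 : |E - Es d L E₂ ε σ| < r := by
    rw [hEs2, show E - (E₂ + σ ^ 2 * m2.re) = -((E₂ - E) + σ ^ 2 * m2.re) by ring, abs_neg]
    have e1 := abs_add_le (E₂ - E) (σ ^ 2 * m2.re)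
    have e2 : |σ ^ 2 * m2.re| = σ ^ 2 * |m2.re| := by rw [abs_mul, abs_of_pos hσ2]
    have := mul_le_mul_of_nonneg_left b2 hσ2.le
    nlinarith
  obtain ⟨γ, hγ⟩ : ∃ γ : ℝ, γ = Real.pi * dn d E + ε / σ ^ 2 := ⟨_, rfl⟩
  have hεσ : ε / σ ^ 2 ≤ 1 := by
    rw [div_le_one hσ2]
    exact hε2
  have hεσ0 : 0 < ε / σ ^ 2 := by positivity
  have hγ1 : Real.pi * c ≤ γ := by
    rw [hγ]
    have := mul_le_mul_of_nonneg_left hEc hpi.le
    linarith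
  have hγ2 : γ ≤ A' := by
    rw [hγ]
    have := mul_le_mul_of_nonneg_left (hB E) hpi.le
    linarith
  have hsγ : σ ^ 2 * γ = σ ^ 2 * (Real.pi * dn d E) + ε := by
    rw [hγ]
    field_simp
  have q3 : |Ga d L E ε σ - σ ^ 2 * γ| ≤ r * σ ^ 2 := by
    rw [hGa1, hsγ, show ε + σ ^ 2 * m1.im - (σ ^ 2 * (Real.pi * dn d E) + ε) =
      σ ^ 2 * (m1.im - Real.pi * dn d E) by ring, abs_mul, abs_of_pos hσ2]
    have := mul_le_mul_of_nonneg_left hi1 hσ2.le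
    nlinarith
  have q4 : |Ga d L E₂ ε σ - σ ^ 2 * γ| ≤ r * σ ^ 2 := by
    rw [hGa2, hsγ, show ε + σ ^ 2 * m2.im - (σ ^ 2 * (Real.pi * dn d E) + ε) =
      σ ^ 2 * ((m2.im - Real.pi * dn d E₂) + Real.pi * (dn d E₂ - dn d E)) by ring, abs_mul,
      abs_of_pos hσ2]
    have e1 := abs_add_le (m2.im - Real.pi * dn d E₂) (Real.pi * (dn d E₂ - dn d E))
    have e2 : |Real.pi * (dn d E₂ - dn d E)| ≤ r / 2 := by
      rw [abs_mul, abs_of_pos hpi]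
      have := mul_le_mul_of_nonneg_left hdn2.le hpi.le
      have e3 : Real.pi * (r / (2 * Real.pi)) = r / 2 := by
        field_simp
      linarith
    have e4 : |(m2.im - Real.pi * dn d E₂) + Real.pi * (dn d E₂ - dn d E)| ≤ r := by linarith
    have := mul_le_mul_of_nonneg_left e4 hσ2.le
    linarith
  have q5 : |Es d L E₂ ε σ - Es d L E ε σ - σ ^ 2 * ν| ≤ r * σ ^ 2 := by
    rw [hEs1, hEs2, hE₂, show E + ν * σ ^ 2 + σ ^ 2 * m2.re - (E + σ ^ 2 * m1.re) - σ ^ 2 * ν =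
      σ ^ 2 * (m2.re - m1.re) by ring, abs_mul, abs_of_pos hσ2]
    have e1 : |m2.re - m1.re| ≤ r := by
      have e2 : |(m2 - m1).re| ≤ ‖m2 - m1‖ := Complex.abs_re_le_norm _
      rw [Complex.sub_re] at e2
      have e3 : m2 - m1 = (m2 - cn d E₂) + (cn d E₂ - cn d E) - (m1 - cn d E) := by ring
      have e4 : ‖m2 - m1‖ ≤ r / 4 + r / 2 + r / 4 := by
        rw [e3]
        refine (norm_sub_le _ _).trans ?_
        have := norm_add_le (m2 - cn d E₂) (cn d E₂ - cn d E)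
        linarith
      linarith
    have := mul_le_mul_of_nonneg_left e1 hσ2.le
    linarith
  have q6 : 1 / (L : ℝ) ≤ (σ ^ 2) ^ (1 + a / 2) := by
    refine (inv_L hσ hL1).trans (le_of_eq ?_)
    rw [← Real.rpow_natCast σ 2, ← Real.rpow_mul hσ.le]
    congr 1
    push_cast
    ring
  by_cases hji : j = i
  · rw [if_pos hji] at hF
    rw [if_pos hji]
    have hl := hL' L E (Es d L E ε σ) (Es d L E₂ ε σ) (Ga d L E ε σ) (Ga d L E₂ ε σ) (σ ^ 2) γ ν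
      hσ2 h3 q1 q2 hγ1 hγ2 (hν.trans hA2) q3 q4 q5 q6 i
    rw [← hγ]
    obtain ⟨S, hS'⟩ : ∃ S : ℝ, S = (NN d L)⁻¹ * ∑ k : T d L, 4 * (1 - cr (k i) ^ 2) *
      ((Ga d L E ε σ / ((adj k - Es d L E ε σ) ^ 2 + Ga d L E ε σ ^ 2)) *
      (Ga d L E₂ ε σ / ((adj k - Es d L E₂ ε σ) ^ 2 + Ga d L E₂ ε σ ^ 2))) := ⟨_, rfl⟩
    rw [← hS'] at hF hl
    obtain ⟨I0, hI0⟩ : ∃ I0 : ℂ, I0 = ∫ V, Fq j i E E₂ ε σ V ∂(GP (T d L)) := ⟨_, rfl⟩
    rw [← hI0] at hF ⊢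
    obtain ⟨W, hW⟩ : ∃ W : ℝ, W = 2 * Real.pi * γ * dw d E / (ν ^ 2 + 4 * γ ^ 2) := ⟨_, rfl⟩
    rw [← hW] at hl ⊢
    have e1 : (σ : ℂ) ^ 2 * I0 - (W : ℂ) = (σ : ℂ) ^ 2 * (I0 - (S : ℂ)) +
        ((σ ^ 2 * S - W : ℝ) : ℂ) := by
      push_cast
      ring
    rw [e1]
    refine (norm_add_le _ _).trans ?_
    have e2 : ‖((σ ^ 2 * S - W : ℝ) : ℂ)‖ ≤ η / 2 := by
      rw [Complex.norm_real, Real.norm_eq_abs]
      exact hl
    have e3 : ‖(σ : ℂ) ^ 2 * (I0 - (S : ℂ))‖ ≤ ζ := by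
      rw [norm_mul, norm_pow, Complex.norm_real, Real.norm_eq_abs, sq_abs]
      have := mul_le_mul_of_nonneg_left hF hσ2.le
      have e4 : σ ^ 2 * (ζ / σ ^ 2) = ζ := by field_simp
      linarith
    linarith
  · rw [if_neg hji] at hF
    rw [if_neg hji, sub_zero]
    rw [sub_zero] at hF
    rw [norm_mul, norm_pow, Complex.norm_real, Real.norm_eq_abs, sq_abs]
    have := mul_le_mul_of_nonneg_left hF hσ2.le
    have e4 : σ ^ 2 * (ζ / σ ^ 2) = ζ := by field_simp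
    linarith

end Pool.Agent.T2h98.KU
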