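import Pool.Agent.T2h98.KU.Stm

/-! Products of two Lorentz functions (KLOR). -/

set_option autoImplicit false
set_option linter.unusedSectionVars false

open scoped BigOperators Topology ComplexConjugate
open MeasureTheory Filter Set

namespace Pool.Agent.T2h98.KU

open Pool.Agent.W788.MFP.Four (T NN adj)
open Pool.Agent.W788.BK (cr)
open Pool.Agent.T2h98.QD

namespace Klor

variable {d L : ℕ} [NeZero L]

/-- Cauchy sums -/
noncomputable def S (L : ℕ) [NeZero L] (i : Fin d) (z : ℂ) : ℂ := ((NN d L : ℝ) : ℂ)⁻¹ *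
  ∑ k : T d L, ((4 * (1 - cr (k i) ^ 2) : ℝ) : ℂ) * (((adj k : ℝ) : ℂ) - z)⁻¹

/-- sums of products -/
noncomputable def P (L : ℕ) [NeZero L] (i : Fin d) (z w : ℂ) : ℂ := ((NN d L : ℝ) : ℂ)⁻¹ *
  ∑ k : T d L, ((4 * (1 - cr (k i) ^ 2) : ℝ) : ℂ) *
    ((((adj k : ℝ) : ℂ) - z)⁻¹ * (((adj k : ℝ) : ℂ) - w)⁻¹)

lemma ne {z : ℂ} (hz : z.im ≠ 0) (x : ℝ) : ((x : ℝ) : ℂ) - z ≠ 0 := by
  intro h
  have := congrArg Complex.im h
  simp at this
  exact hz this

lemma S_deriv (i : Fin d) {z : ℂ} (hz : z.im ≠ 0) :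
    HasDerivAt (S L i) (P L i z z) z := by
  unfold S P
  apply HasDerivAt.const_mul
  apply HasDerivAt.fun_sum
  intro k _
  apply HasDerivAt.const_mul
  have h1 : HasDerivAt (fun w : ℂ => ((adj k : ℝ) : ℂ) - w) (-1) z := by
    simpa using (hasDerivAt_id z).const_sub ((adj k : ℝ) : ℂ)
  have h2 := h1.inv (ne hz _)
  refine h2.congr_deriv ?_
  have := ne hz (adj k)
  field_simp

lemma P_mul (i : Fin d) {z w : ℂ} (hz : z.im ≠ 0) (hw : w.im ≠ 0) :
    P L i z w * (z - w) = S L i z - S L i w := by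
  unfold S P
  rw [← mul_sub, ← Finset.sum_sub_distrib, mul_assoc, Finset.sum_mul]
  congr 1
  apply Finset.sum_congr rfl
  intro k _
  have h1 := ne hz (adj k)
  have h2 := ne hw (adj k)
  field_simp
  ring

/-- the second product is small -/
lemma AB (i : Fin d) {c z₁ z₂ : ℂ} {ρ η : ℝ} (hρ : 0 < ρ) (h1 : ρ < z₁.im) (h2 : ρ < z₂.im)
    (hS : ∀ z ∈ segment ℝ z₁ z₂, ∀ w ∈ Metric.sphere z ρ, ‖S L i w - c‖ ≤ η) :
    ‖P L i z₁ z₂‖ ≤ η / ρ := by
  have him : ∀ z ∈ segment ℝ z₁ z₂, ρ < z.im := fun z hz =>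
    (convex_halfSpace_im_gt ρ).segment_subset h1 h2 hz
  have hz1 : z₁.im ≠ 0 := by linarith
  have hz2 : z₂.im ≠ 0 := by linarith
  have hD : ∀ w : ℂ, w.im ≠ 0 → HasDerivAt (fun w => S L i w - c) (P L i w w) w := fun w hw =>
    (S_deriv i hw).sub_const c
  have hd : ∀ z ∈ segment ℝ z₁ z₂, ‖deriv (fun w => S L i w - c) z‖ ≤ η / ρ := by
    intro z hz
    apply Complex.norm_deriv_le_of_forall_mem_sphere_norm_le hρ _ (hS z hz)
    apply DifferentiableOn.diffContOnCl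
    rw [closure_ball z hρ.ne']
    intro w hw
    have hw1 : w.im ≠ 0 := by
      have h3 := him z hz
      have h4 := Complex.abs_im_le_norm (w - z)
      rw [Metric.mem_closedBall, dist_eq_norm] at hw
      rw [Complex.sub_im] at h4
      have h5 := (abs_le.1 (h4.trans hw)).1
      linarith
    exact (hD w hw1).differentiableAt.differentiableWithinAt
  by_cases h : z₁ = z₂
  · subst h
    have h3 := hd z₁ (left_mem_segment ℝ _ _)
    rw [(hD z₁ hz1).deriv] at h3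
    exact h3
  · have h4 := Convex.norm_image_sub_le_of_norm_deriv_le (f := fun w => S L i w - c) (C := η / ρ)
      (s := segment ℝ z₁ z₂) (fun z hz => (hD z (by linarith [him z hz])).differentiableAt)
      hd (convex_segment z₁ z₂) (right_mem_segment ℝ _ _) (left_mem_segment ℝ _ _)
    have h5 : P L i z₁ z₂ = (S L i z₁ - c - (S L i z₂ - c)) / (z₁ - z₂) := by
      rw [eq_div_iff (sub_ne_zero.2 h), P_mul i hz1 hz2]
      ring
    have h6 : 0 < ‖z₁ - z₂‖ := norm_pos_iff.2 (sub_ne_zero.2 h)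
    rw [h5, norm_div, div_le_iff₀ h6]
    exact h4

lemma conj_S (i : Fin d) (z : ℂ) : S L i (conj z) = conj (S L i z) := by
  unfold S
  rw [map_mul, map_sum, map_inv₀, Complex.conj_ofReal]
  congr 1
  apply Finset.sum_congr rfl
  intro k _
  rw [map_mul, map_inv₀, map_sub, Complex.conj_ofReal, Complex.conj_ofReal]

lemma S_eq (i : Fin d) (z : ℂ) : S L i z = ((NN d L : ℝ) : ℂ)⁻¹ * ∑ k : T d L,
    ((4 * (1 - cr (k i) ^ 2) : ℝ) : ℂ) *
    (((adj k - z.re : ℝ) : ℂ) - (z.im : ℂ) * Complex.I)⁻¹ := by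
  unfold S
  congr 1
  apply Finset.sum_congr rfl
  intro k _
  congr 2
  conv_lhs => rw [← Complex.re_add_im z]
  push_cast
  ring

lemma im_inv (x : ℝ) (z : ℂ) : ((((x : ℝ) : ℂ) - z)⁻¹).im = z.im / ((x - z.re) ^ 2 + z.im ^ 2) := by
  rw [Complex.inv_im, Complex.normSq_apply]
  simp only [Complex.sub_im, Complex.sub_re, Complex.ofReal_re, Complex.ofReal_im]
  congr 1
  · ring
  · ring

lemma real_eq (i : Fin d) (z₁ z₂ : ℂ) : (NN d L)⁻¹ * ∑ k : T d L, 4 * (1 - cr (k i) ^ 2) *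
      ((z₁.im / ((adj k - z₁.re) ^ 2 + z₁.im ^ 2)) * (z₂.im / ((adj k - z₂.re) ^ 2 + z₂.im ^ 2))) =
    (1 / 2) * (P L i z₁ (conj z₂)).re - (1 / 2) * (P L i z₁ z₂).re := by
  have h0 : ((NN d L : ℝ) : ℂ)⁻¹ = (((NN d L)⁻¹ : ℝ) : ℂ) := by push_cast; rfl
  unfold P
  rw [h0, Complex.re_ofReal_mul, Complex.re_ofReal_mul, Complex.re_sum, Complex.re_sum]
  have h1 : ∀ k : T d L, 4 * (1 - cr (k i) ^ 2) *
      ((z₁.im / ((adj k - z₁.re) ^ 2 + z₁.im ^ 2)) * (z₂.im / ((adj k - z₂.re) ^ 2 + z₂.im ^ 2))) =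
      1 / 2 * (((4 * (1 - cr (k i) ^ 2) : ℝ) : ℂ) *
        ((((adj k : ℝ) : ℂ) - z₁)⁻¹ * (((adj k : ℝ) : ℂ) - conj z₂)⁻¹)).re -
      1 / 2 * (((4 * (1 - cr (k i) ^ 2) : ℝ) : ℂ) *
        ((((adj k : ℝ) : ℂ) - z₁)⁻¹ * (((adj k : ℝ) : ℂ) - z₂)⁻¹)).re := by
    intro k
    have e : (((adj k : ℝ) : ℂ) - conj z₂)⁻¹ = conj ((((adj k : ℝ) : ℂ) - z₂)⁻¹) := by
      rw [map_inv₀, map_sub, Complex.conj_ofReal]
    rw [e, Complex.re_ofReal_mul, Complex.re_ofReal_mul, Complex.mul_re, Complex.mul_re,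
      Complex.conj_re, Complex.conj_im, ← im_inv, ← im_inv]
    ring
  simp_rw [h1]
  rw [Finset.sum_sub_distrib, ← Finset.mul_sum, ← Finset.mul_sum]
  ring

lemma scal {X X0 D D0 : ℂ} {c0 η M r : ℝ} (hc : 0 < c0) (hD : c0 ≤ ‖D‖) (hD0 : 2 * c0 ≤ ‖D0‖)
    (hX : ‖X - X0‖ ≤ 2 * η) (hX0 : ‖X0‖ ≤ M) (hDD : ‖D - D0‖ ≤ 3 * r) :
    ‖X / D - X0 / D0‖ ≤ 2 * η / c0 + M * (3 * r) / (2 * c0 ^ 2) := by
  have hDp : 0 < ‖D‖ := by linarith
  have hD0p : 0 < ‖D0‖ := by linarith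
  have hDn : D ≠ 0 := norm_pos_iff.1 hDp
  have hD0n : D0 ≠ 0 := norm_pos_iff.1 hD0p
  have hη : 0 ≤ η := by linarith [norm_nonneg (X - X0)]
  have hM : 0 ≤ M := (norm_nonneg _).trans hX0
  have hr : 0 ≤ r := by linarith [norm_nonneg (D - D0)]
  have e : X / D - X0 / D0 = (X - X0) / D - X0 * (D - D0) / (D * D0) := by
    field_simp
    ring
  rw [e]
  refine (norm_sub_le _ _).trans (add_le_add ?_ ?_)
  · rw [norm_div]
    exact div_le_div₀ (by positivity) hX hc hD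
  · rw [norm_div, norm_mul, norm_mul]
    apply div_le_div₀ (by positivity) (mul_le_mul hX0 hDD (norm_nonneg _) hM) (by positivity)
    calc 2 * c0 ^ 2 = c0 * (2 * c0) := by ring
      _ ≤ ‖D‖ * ‖D0‖ := mul_le_mul hD hD0 (by positivity) (by positivity)

end Klor

open Klor in
/-- **products of two Lorentz functions** -/
theorem klor (hC : T_KCAU) (hDos : T_DOS) : T_KLOR := by
  intro d hd θ c0 A η hθ hc0 hcA hη
  obtain ⟨him, hC1⟩ := hC d hd
  -- the density is bounded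
  obtain ⟨M, hM⟩ : ∃ M : ℝ, ∀ E, ‖dw d E‖ ≤ M := by
    obtain ⟨-, h1, -, -, h2, -⟩ := hDos d hd
    refine h1.bounded_above_of_compact_support ?_
    refine HasCompactSupport.intro (isCompact_Icc (a := -(2 * (d : ℝ))) (b := 2 * d)) ?_
    intro x hx
    apply (h2 x ?_).2
    by_contra h3
    push Not at h3
    exact hx ⟨(abs_le.1 h3.le).1, (abs_le.1 h3.le).2⟩
  have hM0 : 0 ≤ M := (norm_nonneg _).trans (hM 0)
  have hA : 0 < A := hc0.trans_le hcA
  set η' : ℝ := η * c0 / 6 with hη'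
  have hη'0 : 0 < η' := by positivity
  obtain ⟨r', hr'0, hr'⟩ := hC1 (θ / 2) η' (by positivity) hη'0
  set q : ℝ := (c0 / 4) ^ (1 + θ / 2) with hq
  have hq0 : 0 < q := by positivity
  set M' : ℝ := 2 * Real.pi * M + 1 with hM'
  have hM'0 : 0 < M' := by positivity
  set r : ℝ := min (c0 / 2) (min (r' / (2 * (1 + c0 / 4 + 3 * A)))
    (min (q ^ (2 / θ)) (η * 2 * c0 ^ 2 / (3 * M')))) with hr
  have hr0 : 0 < r := by positivity
  have hr1 : r ≤ c0 / 2 := min_le_left _ _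
  have hr2 : r ≤ r' / (2 * (1 + c0 / 4 + 3 * A)) := (min_le_right _ _).trans (min_le_left _ _)
  have hr3 : r ≤ q ^ (2 / θ) :=
    (min_le_right _ _).trans ((min_le_right _ _).trans (min_le_left _ _))
  have hr4 : r ≤ η * 2 * c0 ^ 2 / (3 * M') :=
    (min_le_right _ _).trans ((min_le_right _ _).trans (min_le_right _ _))
  refine ⟨r, hr0, ?_⟩
  intro L _ E E₁ E₂ Γ₁ Γ₂ s γ ν hs hsr hE1 hE2 hγ hγA hν hG1 hG2 hEE hL i
  have hr2' : r * (1 + c0 / 4 + 3 * A) ≤ r' / 2 := by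
    rw [le_div_iff₀ (by positivity)] at hr2
    linarith
  have hsq : s ^ (θ / 2) ≤ q := by
    calc s ^ (θ / 2) ≤ (q ^ (2 / θ)) ^ (θ / 2) :=
          Real.rpow_le_rpow hs.le (hsr.le.trans hr3) (by positivity)
      _ = q := by
          rw [← Real.rpow_mul hq0.le]
          have : 2 / θ * (θ / 2) = 1 := by field_simp
          rw [this, Real.rpow_one]
  set ρ : ℝ := s * c0 / 4 with hρ
  have hρ0 : 0 < ρ := by positivity
  -- the bound for the Cauchy sums
  have key : ∀ z : ℂ, |E - z.re| ≤ r + ρ → ρ ≤ z.im → z.im ≤ 3 * A * s →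
      ‖S L i z - cw d E‖ ≤ η' := by
    intro z h1 h2 h3
    rw [S_eq]
    have hz0 : 0 < z.im := hρ0.trans_le h2
    have a1 : |E - z.re| < r' := by
      have : ρ ≤ r * (c0 / 4) := by
        rw [hρ]
        nlinarith
      nlinarith
    have a2 : z.im < r' := by nlinarith
    have a3 : 1 / (L : ℝ) ≤ z.im ^ (1 + θ / 2) := by
      calc 1 / (L : ℝ) ≤ s ^ (1 + θ) := hL
        _ = s ^ (1 + θ / 2) * s ^ (θ / 2) := by
            rw [← Real.rpow_add hs]
            congr 1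
            ring
        _ ≤ s ^ (1 + θ / 2) * q := by gcongr
        _ = ρ ^ (1 + θ / 2) := by
            rw [hq, ← Real.mul_rpow hs.le (by positivity), hρ]
            congr 1
            ring
        _ ≤ z.im ^ (1 + θ / 2) := Real.rpow_le_rpow hρ0.le h2 (by positivity)
    exact (hr' E z.re z.im L a1 hz0 a2 a3).2 i
  obtain ⟨b1, b2⟩ := abs_le.1 hG1
  obtain ⟨b3, b4⟩ := abs_le.1 hG2
  have hrs : r * s ≤ c0 / 2 * s := by gcongr
  have g1 : c0 / 2 * s ≤ Γ₁ := by nlinarith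
  have g2 : c0 / 2 * s ≤ Γ₂ := by nlinarith
  have g3 : Γ₁ ≤ 2 * A * s := by nlinarith
  have g4 : Γ₂ ≤ 2 * A * s := by nlinarith
  set z₁ : ℂ := ⟨E₁, Γ₁⟩ with hz₁
  set z₂ : ℂ := ⟨E₂, Γ₂⟩ with hz₂
  have hρ1 : ρ < Γ₁ := by
    have : ρ = c0 / 4 * s := by rw [hρ]; ring
    nlinarith
  have hρ2 : ρ < Γ₂ := by
    have : ρ = c0 / 4 * s := by rw [hρ]; ring
    nlinarith
  -- the second product
  have hAB : ‖P L i z₁ z₂‖ ≤ η' / ρ := by
    refine AB (c := cw d E) i hρ0 hρ1 hρ2 ?_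
    intro z hz w hw
    rw [mem_sphere_iff_norm] at hw
    have c1 : z.im ∈ Icc (c0 / 2 * s) (2 * A * s) := by
      constructor
      · exact (convex_halfSpace_im_ge (c0 / 2 * s)).segment_subset g1 g2 hz
      · exact (convex_halfSpace_im_le (2 * A * s)).segment_subset g3 g4 hz
    have c2 : |E - z.re| ≤ r := by
      obtain ⟨e1, e2⟩ := abs_le.1 hE1.le
      obtain ⟨e3, e4⟩ := abs_le.1 hE2.le
      have f1 : E - r ≤ z.re := (convex_halfSpace_re_ge (E - r)).segment_subset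
        (by change E - r ≤ E₁; linarith) (by change E - r ≤ E₂; linarith) hz
      have f2 : z.re ≤ E + r := (convex_halfSpace_re_le (E + r)).segment_subset
        (by change E₁ ≤ E + r; linarith) (by change E₂ ≤ E + r; linarith) hz
      rw [abs_le]
      constructor <;> linarith
    have w1 := Complex.abs_re_le_norm (w - z)
    have w2 := Complex.abs_im_le_norm (w - z)
    rw [hw, Complex.sub_re] at w1
    rw [hw, Complex.sub_im] at w2
    obtain ⟨w3, w4⟩ := abs_le.1 w1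
    obtain ⟨w5, w6⟩ := abs_le.1 w2
    obtain ⟨c3, c4⟩ := abs_le.1 c2
    have hρs : ρ = c0 / 4 * s := by rw [hρ]; ring
    refine key w ?_ ?_ ?_
    · rw [abs_le]
      constructor <;> linarith
    · have := c1.1
      linarith
    · have := c1.2
      have h7 : c0 / 4 * s ≤ A * s := by
        apply mul_le_mul_of_nonneg_right _ hs.le
        linarith
      linarith
  -- the first product
  have hz1 : z₁.im ≠ 0 := by
    change Γ₁ ≠ 0
    linarith
  have hz2 : z₂.im ≠ 0 := by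
    change Γ₂ ≠ 0
    linarith
  have hz2' : (conj z₂).im ≠ 0 := by
    rw [Complex.conj_im]
    exact neg_ne_zero.2 hz2
  have k1 : ‖S L i z₁ - cw d E‖ ≤ η' := by
    refine key z₁ ?_ hρ1.le ?_
    · change |E - E₁| ≤ r + ρ
      linarith
    · change Γ₁ ≤ 3 * A * s
      have : 0 < A * s := by positivity
      linarith
  have k2 : ‖S L i z₂ - cw d E‖ ≤ η' := by
    refine key z₂ ?_ hρ2.le ?_
    · change |E - E₂| ≤ r + ρ
      linarith
    · change Γ₂ ≤ 3 * A * s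
      have : 0 < A * s := by positivity
      linarith
  set D : ℂ := (z₁ - conj z₂) / (s : ℂ) with hD
  set D0 : ℂ := ⟨-ν, 2 * γ⟩ with hD0
  set X : ℂ := S L i z₁ - conj (S L i z₂) with hX
  set X0 : ℂ := cw d E - conj (cw d E) with hX0
  have hsC : (s : ℂ) ≠ 0 := by exact_mod_cast hs.ne'
  have hDre : D.re = (E₁ - E₂) / s := by
    rw [hD, Complex.div_ofReal_re, Complex.sub_re, Complex.conj_re]
  have hDim : D.im = (Γ₁ + Γ₂) / s := by
    rw [hD, Complex.div_ofReal_im, Complex.sub_im, Complex.conj_im]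
    change (Γ₁ - -Γ₂) / s = _
    rw [sub_neg_eq_add]
  have n1 : c0 ≤ ‖D‖ := by
    refine le_trans ?_ ((le_abs_self _).trans (Complex.abs_im_le_norm D))
    rw [hDim, le_div_iff₀ hs]
    linarith
  have n2 : 2 * c0 ≤ ‖D0‖ := by
    refine le_trans ?_ ((le_abs_self _).trans (Complex.abs_im_le_norm D0))
    change 2 * c0 ≤ 2 * γ
    linarith
  have n3 : ‖X - X0‖ ≤ 2 * η' := by
    have e : X - X0 = (S L i z₁ - cw d E) - conj (S L i z₂ - cw d E) := by
      rw [hX, hX0, map_sub]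
      ring
    rw [e]
    refine (norm_sub_le _ _).trans ?_
    rw [Complex.norm_conj]
    linarith
  have hX0' : X0 = ((2 * Real.pi * dw d E : ℝ) : ℂ) * Complex.I := by
    rw [hX0, Complex.sub_conj, (him E).2]
    push_cast
    ring
  have n4 : ‖X0‖ ≤ M' := by
    rw [hX0', norm_mul, Complex.norm_I, mul_one, Complex.norm_real, norm_mul, norm_mul,
      Real.norm_eq_abs 2, Real.norm_eq_abs Real.pi, abs_of_pos Real.pi_pos,
      abs_of_pos (by norm_num : (0 : ℝ) < 2), hM']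
    have h1 := hM E
    have h2 := Real.pi_pos
    nlinarith
  have n5 : ‖D - D0‖ ≤ 3 * r := by
    refine (Complex.norm_le_abs_re_add_abs_im _).trans ?_
    rw [Complex.sub_re, Complex.sub_im, hDre, hDim]
    change |(E₁ - E₂) / s - -ν| + |(Γ₁ + Γ₂) / s - 2 * γ| ≤ 3 * r
    have h1 : |(E₁ - E₂) / s - -ν| ≤ r := by
      have e : (E₁ - E₂) / s - -ν = -((E₂ - E₁ - s * ν) / s) := by
        field_simp
        ring
      rw [e, abs_neg, abs_div, abs_of_pos hs, div_le_iff₀ hs]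
      exact hEE
    have h2 : |(Γ₁ + Γ₂) / s - 2 * γ| ≤ 2 * r := by
      have e : (Γ₁ + Γ₂) / s - 2 * γ = ((Γ₁ - s * γ) + (Γ₂ - s * γ)) / s := by
        field_simp
        ring
      rw [e, abs_div, abs_of_pos hs, div_le_iff₀ hs]
      exact (abs_add_le _ _).trans (by linarith)
    linarith
  have main1 := scal hc0 n1 n2 n3 n4 n5
  have hPc : (s : ℂ) * P L i z₁ (conj z₂) = X / D := by
    have h1 := P_mul (L := L) i hz1 hz2'
    rw [conj_S] at h1
    have h2 : z₁ - conj z₂ = D * s := by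
      rw [hD]
      field_simp
    have hDn : D ≠ 0 := norm_pos_iff.1 (hc0.trans_le n1)
    rw [h2] at h1
    rw [eq_div_iff hDn, hX, ← h1]
    ring
  have hlim : (X0 / D0).re = 2 * (2 * Real.pi * γ * dw d E / (ν ^ 2 + 4 * γ ^ 2)) := by
    have hγ0 : 0 < γ := hc0.trans_le hγ
    have h1 : Complex.normSq D0 = ν ^ 2 + 4 * γ ^ 2 := by
      rw [Complex.normSq_apply]
      change -ν * -ν + 2 * γ * (2 * γ) = _
      ring
    rw [hX0', Complex.div_re, h1]
    simp only [Complex.mul_re, Complex.mul_im, Complex.ofReal_re, Complex.ofReal_im,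
      Complex.I_re, Complex.I_im]
    change (2 * Real.pi * dw d E * 0 - 0 * 1) * -ν / _ + (2 * Real.pi * dw d E * 1 + 0 * 0) *
      (2 * γ) / _ = _
    ring
  have hre := real_eq (L := L) i z₁ z₂
  change _ = _ at hre
  have hgoal : s * ((NN d L)⁻¹ * ∑ k : T d L, 4 * (1 - cr (k i) ^ 2) *
      ((Γ₁ / ((adj k - E₁) ^ 2 + Γ₁ ^ 2)) * (Γ₂ / ((adj k - E₂) ^ 2 + Γ₂ ^ 2)))) =
      1 / 2 * (X / D).re - 1 / 2 * (s * (P L i z₁ z₂).re) := by
    rw [← hPc, Complex.re_ofReal_mul]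
    have h1 : (NN d L)⁻¹ * ∑ k : T d L, 4 * (1 - cr (k i) ^ 2) *
      ((Γ₁ / ((adj k - E₁) ^ 2 + Γ₁ ^ 2)) * (Γ₂ / ((adj k - E₂) ^ 2 + Γ₂ ^ 2))) =
      (1 / 2) * (P L i z₁ (conj z₂)).re - (1 / 2) * (P L i z₁ z₂).re := hre
    rw [h1]
    ring
  rw [hgoal]
  have f1 := Complex.abs_re_le_norm (X / D - X0 / D0)
  rw [Complex.sub_re, hlim] at f1
  have f2 : |s * (P L i z₁ z₂).re| ≤ 4 * η' / c0 := by
    rw [abs_mul, abs_of_pos hs]
    calc s * |(P L i z₁ z₂).re| ≤ s * (η' / ρ) := by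
          gcongr
          exact (Complex.abs_re_le_norm _).trans hAB
      _ = 4 * η' / c0 := by
          rw [hρ]
          field_simp
  have f3 : M' * (3 * r) / (2 * c0 ^ 2) ≤ η := by
    rw [div_le_iff₀ (by positivity)]
    rw [le_div_iff₀ (by positivity)] at hr4
    linarith
  have f4 : 2 * η' / c0 = η / 3 := by
    rw [hη']
    field_simp
    ring
  have f5 : 4 * η' / c0 = 2 * η / 3 := by
    rw [hη']
    field_simp
    ring
  rw [f5] at f2
  rw [f4] at main1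
  obtain ⟨p1, p2⟩ := abs_le.1 (f1.trans main1)
  obtain ⟨p3, p4⟩ := abs_le.1 f2
  rw [abs_le]
  constructor <;> linarith

end Pool.Agent.T2h98.KU
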