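import Pool.Agent.T2h98.KU.KEF
import Pool.Agent.T2h98.QD.MoA

/-! The mean field approximation of the conductivity. -/

set_option autoImplicit false
set_option linter.unusedSectionVars false

open scoped BigOperators Matrix Topology
open MeasureTheory ProbabilityTheory Filter

namespace Pool.Agent.T2h98.KU

open Pool.Agent.W788.MFP.Four (T e NN adj K)
open Pool.Agent.W788.BK (nsq hs PP JJ hi Low cr)
open Pool.Agent.T2h98.QD
open Pool.Agent.T2h98.AC (TX RX mX sy Rb Fk)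
open KEFP

namespace KMAINP

/-- Cauchy-Schwarz -/
theorem cs {m : Type} [Fintype m] {f g : (m → ℝ) → ℂ} (hf : BC f) (hg : BC g) :
    ‖∫ V, f V * g V ∂(GP m)‖ ^ 2 ≤ (∫ V, ‖f V‖ ^ 2 ∂(GP m)) * ∫ V, ‖g V‖ ^ 2 ∂(GP m) := by
  have hprob : IsProbabilityMeasure (GP m) := by
    unfold GP PP
    infer_instance
  obtain ⟨hf1, C, hC⟩ := hf
  obtain ⟨hg1, D, hD⟩ := hg
  have nf : Continuous fun V => ‖f V‖ := hf1.norm
  have ng : Continuous fun V => ‖g V‖ := hg1.norm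
  have iff : Integrable (fun V => ‖f V‖ ^ 2) (GP m) :=
    Integrable.of_bound (nf.pow 2).aestronglyMeasurable (C ^ 2) (Filter.Eventually.of_forall fun V => by
      rw [Real.norm_eq_abs, abs_of_nonneg (by positivity)]
      exact pow_le_pow_left₀ (norm_nonneg _) (hC V) 2)
  have igg : Integrable (fun V => ‖g V‖ ^ 2) (GP m) :=
    Integrable.of_bound (ng.pow 2).aestronglyMeasurable (D ^ 2) (Filter.Eventually.of_forall fun V => by
      rw [Real.norm_eq_abs, abs_of_nonneg (by positivity)]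
      exact pow_le_pow_left₀ (norm_nonneg _) (hD V) 2)
  have ifg : Integrable (fun V => ‖f V‖ * ‖g V‖) (GP m) :=
    Integrable.of_bound (nf.mul ng).aestronglyMeasurable (C * D) (Filter.Eventually.of_forall fun V => by
      rw [Real.norm_eq_abs, abs_of_nonneg (by positivity)]
      exact mul_le_mul (hC V) (hD V) (norm_nonneg _) ((norm_nonneg _).trans (hC V)))
  have h1 : ‖∫ V, f V * g V ∂(GP m)‖ ≤ ∫ V, ‖f V‖ * ‖g V‖ ∂(GP m) := by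
    refine (norm_integral_le_integral_norm _).trans (le_of_eq ?_)
    refine integral_congr_ae (Filter.Eventually.of_forall fun V => ?_)
    exact norm_mul _ _
  have h2 : discrim (∫ V, ‖f V‖ ^ 2 ∂(GP m)) (2 * ∫ V, ‖f V‖ * ‖g V‖ ∂(GP m))
      (∫ V, ‖g V‖ ^ 2 ∂(GP m)) ≤ 0 := by
    refine discrim_le_zero fun t => ?_
    have h3 : (∫ V, ‖f V‖ ^ 2 ∂(GP m)) * (t * t) + (2 * ∫ V, ‖f V‖ * ‖g V‖ ∂(GP m)) * t +
        ∫ V, ‖g V‖ ^ 2 ∂(GP m) = ∫ V, (t * ‖f V‖ + ‖g V‖) ^ 2 ∂(GP m) := by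
      have e1 : ∀ V, (t * ‖f V‖ + ‖g V‖) ^ 2 = t * t * ‖f V‖ ^ 2 + 2 * t * (‖f V‖ * ‖g V‖) +
          ‖g V‖ ^ 2 := fun V => by ring
      simp only [e1]
      have i1 : Integrable (fun V => t * t * ‖f V‖ ^ 2) (GP m) := iff.const_mul _
      have i2 : Integrable (fun V => 2 * t * (‖f V‖ * ‖g V‖)) (GP m) := ifg.const_mul _
      have i12 : Integrable (fun V => t * t * ‖f V‖ ^ 2 + 2 * t * (‖f V‖ * ‖g V‖)) (GP m) :=
        i1.add i2
      rw [integral_add i12 igg, integral_add i1 i2, integral_const_mul, integral_const_mul]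
      ring
    rw [h3]
    exact integral_nonneg fun V => sq_nonneg _
  unfold discrim at h2
  have h4 : (∫ V, ‖f V‖ * ‖g V‖ ∂(GP m)) ^ 2 ≤
      (∫ V, ‖f V‖ ^ 2 ∂(GP m)) * ∫ V, ‖g V‖ ^ 2 ∂(GP m) := by nlinarith
  exact (pow_le_pow_left₀ (norm_nonneg _) h1 2).trans h4

variable {d L : ℕ} [NeZero L]

theorem be_norm (hR : T_KR) (b : Bool) (E : ℝ) {ε : ℝ} (σ : ℝ) (hε : 0 < ε) (k : T d L) :
    ‖be b E ε σ k‖ = (JJ (Es d L E ε σ) (Ga d L E ε σ) k)⁻¹ := by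
  have h0 : ‖be false E ε σ k‖ = (JJ (Es d L E ε σ) (Ga d L E ε σ) k)⁻¹ := by
    have h1 : xb false E ε k - (σ : ℂ) ^ 2 * me d L false E ε σ =
        ((adj k - Es d L E ε σ : ℝ) : ℂ) - ((Ga d L E ε σ : ℝ) : ℂ) * Complex.I := by
      unfold xb Es Ga
      simp only [cond_false]
      have h2 := Complex.re_add_im (me d L false E ε σ)
      push_cast
      linear_combination -(σ : ℂ) ^ 2 * h2.symm
    unfold be
    rw [h1, norm_inv]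
    congr 1
    unfold JJ
    rw [Complex.norm_def, Complex.normSq_apply]
    congr 1
    simp only [Complex.sub_re, Complex.sub_im, Complex.mul_re, Complex.mul_im, Complex.ofReal_re,
      Complex.ofReal_im, Complex.I_re, Complex.I_im]
    ring
  cases b
  · exact h0
  · rw [be_true hR E σ hε k, RCLike.norm_conj, h0]

theorem JJ_ge (E : ℝ) {δ : ℝ} (k : T d L) : δ ≤ JJ E δ k := by
  unfold JJ
  exact Real.le_sqrt_of_sq_le (by nlinarith [sq_nonneg (adj k - E)])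

theorem col (M : Matrix (T d L) (T d L) ℂ) : M 0 0 = (M *ᵥ dl 0) 0 := by
  unfold dl
  rw [Matrix.mulVec_single_one]
  rfl

/-- `N⁻¹ ∑ |be|² ≤ g / Γ` -/
theorem nsq_be (hR : T_KR) (b : Bool) {E ε σ δ g m0 : ℝ} (hε : 0 < ε) (hσ : 0 < σ) (hm : 0 < m0)
    (hG : GE d L σ δ ε g m0 E) : nsq (Mo (be b E ε σ) *ᵥ (dl (0 : T d L))) ≤ g / Ga d L E ε σ := by
  have hN := Pool.Agent.W788.MFP.Four.NN_pos (d := d) (L := L)
  have hGa : 0 < Ga d L E ε σ := lt_of_lt_of_le (by positivity) hG.h2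
  rw [nsq_mo_dl, inv_mul_le_iff₀ hN]
  calc ∑ k : T d L, ‖be b E ε σ k‖ ^ 2
      ≤ ∑ k : T d L, (Ga d L E ε σ)⁻¹ * (JJ (Es d L E ε σ) (Ga d L E ε σ) k)⁻¹ := by
        refine Finset.sum_le_sum fun k _ => ?_
        rw [be_norm hR b E σ hε k, sq]
        have h1 := JJ_ge (Es d L E ε σ) (δ := Ga d L E ε σ) k
        exact mul_le_mul_of_nonneg_right (inv_anti₀ hGa h1) (inv_nonneg.2 (hGa.le.trans h1))
    _ ≤ (Ga d L E ε σ)⁻¹ * (g * NN d L) := by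
        rw [← Finset.mul_sum]
        exact mul_le_mul_of_nonneg_left hG.h4 (inv_nonneg.2 hGa.le)
    _ = _ := by ring

theorem be_sq_le (hR : T_KR) (b : Bool) {E ε σ : ℝ} (hε : 0 < ε) (hGa : 0 < Ga d L E ε σ)
    (k : T d L) : ‖be b E ε σ k‖ ^ 2 ≤ 1 / Ga d L E ε σ ^ 2 := by
  rw [be_norm hR b E σ hε k, inv_pow, inv_eq_one_div]
  exact one_div_le_one_div_of_le (by positivity) (pow_le_pow_left₀ hGa.le (JJ_ge _ k) 2)

theorem bc_mulVec {α : Type} [TopologicalSpace α] {A : α → Matrix (T d L) (T d L) ℂ}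
    {v : α → T d L → ℂ} (hA : ∀ x y, BC (fun V => A V x y)) (hv : ∀ x, BC (fun V => v V x))
    (x : T d L) : BC (fun V => (A V *ᵥ v V) x) := by
  simp only [Matrix.mulVec, dotProduct]
  exact BC.sum _ fun y _ => (hA x y).mul (hv y)

end KMAINP

open KMAINP

theorem kmain (hSD : T_KSD) (hRef : T_KREF) (h1 : T_KV1) (hRb : T_KRB) (hX : T_KXF) (hU : T_KU)
    (hW : T_KW) (hZ : T_KZ) (hV : T_KV) (hR : T_KR) : T_KMAIN := by
  intro d L _ σ δ ε t Q g p0 m0 ζ E₁ E₂ Ω hP hS hG1 hG2 b j i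
  have hσ := hP.hσ
  have hε := hP.hε
  have hm0 := hS.hm0
  have hg1 := hP.hg1
  have hQ1 := hP.hQ1
  set G₁ := Ga d L E₁ ε σ with hG₁
  set G₂ := Ga d L E₂ ε σ with hG₂
  have hGa1 : 0 < G₁ := lt_of_lt_of_le (by positivity) hG1.h2
  have hGa2 : 0 < G₂ := lt_of_lt_of_le (by positivity) hG2.h2
  set Lam : ℝ := σ ^ 2 * Q * (δ / ε) ^ 2 with hLam
  have hLam0 : 0 ≤ Lam := by positivity
  set s : ℝ := σ ^ 2 / ε with hs
  have hs1 : 1 ≤ s := by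
    rw [hs, le_div_iff₀ hε, one_mul]
    exact hP.hεσ
  have hk1 : 10 ^ 7 * Lam * s * g ^ 4 ≤ m0 ^ 3 * ζ ^ 2 := hS.k1
  have hm3 : m0 ^ 3 ≤ 1 := pow_le_one₀ hm0.le hS.hm1
  have hζ0 := hS.hζ
  have hζ1 := hS.hζ1
  have hg4 : 1 ≤ g ^ 4 := one_le_pow₀ hg1
  have h100 : 100 * Lam ≤ 1 := by
    have e1 : Lam ≤ Lam * s * g ^ 4 := by
      calc Lam = Lam * 1 * 1 := by ring
        _ ≤ Lam * s * g ^ 4 := by gcongr
    have e2 : m0 ^ 3 * ζ ^ 2 ≤ 1 := mul_le_one₀ hm3 (by positivity) (pow_le_one₀ hζ0.le (by linarith))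
    nlinarith
  -- vectors
  set w₁ : T d L → ℂ := Mo (be false E₁ ε σ) *ᵥ dl 0 with hw₁
  set w₂ : T d L → ℂ := Mo (be b E₂ ε σ) *ᵥ dl 0 with hw₂
  set f : T d L → ℂ := vv j *ᵥ w₁ with hf
  set f' : T d L → ℂ := vv j *ᵥ (Mo (be false E₁ ε σ) *ᵥ (vv i *ᵥ w₂)) with hf'
  have nf : nsq f ≤ 4 * (g / G₁) := by
    refine ((hV d L j).2.2.1 w₁).trans ?_
    exact mul_le_mul_of_nonneg_left (nsq_be hR false hε hσ hm0 hG1) (by norm_num)
  have nf' : nsq f' ≤ 16 * g / (G₁ ^ 2 * G₂) := by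
    have e1 := (hV d L j).2.2.1 (Mo (be false E₁ ε σ) *ᵥ (vv i *ᵥ w₂))
    have e2 := nsq_mo (be false E₁ ε σ) (1 / G₁ ^ 2) (fun k => be_sq_le hR false hε hGa1 k)
      (vv i *ᵥ w₂)
    have e3 := (hV d L i).2.2.1 w₂
    have e4 := nsq_be hR b hε hσ hm0 hG2
    calc nsq f' ≤ 4 * (1 / G₁ ^ 2 * (4 * (g / G₂))) := by
          refine e1.trans (mul_le_mul_of_nonneg_left (e2.trans ?_) (by norm_num))
          refine mul_le_mul_of_nonneg_left (e3.trans ?_) (by positivity)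
          exact mul_le_mul_of_nonneg_left e4 (by norm_num)
      _ = _ := by
        field_simp
        ring
  have nf0 : 0 ≤ nsq f := Finset.sum_nonneg fun i _ => by positivity
  have nf0' : 0 ≤ nsq f' := Finset.sum_nonneg fun i _ => by positivity
  -- the functions
  have eW : ∀ V : T d L → ℝ, Wk b j E₁ E₂ ε σ V = (RE b E₂ ε σ V *ᵥ f) 0 := by
    intro V
    unfold Wk
    refine (col _).trans ?_
    rw [← Matrix.mulVec_mulVec, ← Matrix.mulVec_mulVec]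
  have eY : ∀ V : T d L → ℝ, Yk b j i E₁ E₂ ε σ V = (RE b E₂ ε σ V *ᵥ f') 0 := by
    intro V
    unfold Yk
    refine (col _).trans ?_
    rw [← Matrix.mulVec_mulVec, ← Matrix.mulVec_mulVec, ← Matrix.mulVec_mulVec,
      ← Matrix.mulVec_mulVec]
  have eZ : ∀ V : T d L → ℝ, Zk b j i E₁ E₂ ε σ V =
      (RE false E₁ ε σ V *ᵥ (vv i *ᵥ (RE b E₂ ε σ V *ᵥ f))) 0 := by
    intro V
    unfold Zk
    refine (col _).trans ?_
    rw [← Matrix.mulVec_mulVec, ← Matrix.mulVec_mulVec, ← Matrix.mulVec_mulVec,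
      ← Matrix.mulVec_mulVec]
  -- the bounds
  have hRb2 := fun κ => ((hRb d L σ δ ε t Q g p0 m0 ζ E₂ Ω hP hS hG2).1 κ).1
  have hXf := hX d L σ δ ε t Q g p0 E₂ Ω hP h100 hGa2 hG2.h3 hRb2
  obtain ⟨bW, -⟩ := hW d L σ δ ε t Q g p0 E₂ Ω hP h100 hGa2 hG2.h3 hG2.h1 f (hXf f) b
  obtain ⟨-, bY⟩ := hW d L σ δ ε t Q g p0 E₂ Ω hP h100 hGa2 hG2.h3 hG2.h1 f' (hXf f') b
  have bZ := hZ d L σ δ ε t Q g p0 E₁ E₂ Ω hP h100 hGa2 hG2.h3 hG1.h1 f (hXf f) b i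
  have bU := hU d L σ δ ε t Q g p0 Ω hP h100 b i E₁ E₂ hG1.h1 hG2.h1
  have b1 := (h1 d L σ δ ε t Q g p0 Ω hP h100 false E₁ hG1.h1).1
  have b2 := (h1 d L σ δ ε t Q g p0 Ω hP h100 b E₂ hG2.h1).1
  obtain ⟨zU, zW, -⟩ := hRef d L j i b E₁ E₂ ε σ hε
  -- bounded continuous functions
  have cR1 := bc_RE (d := d) (L := L) hR false E₁ σ hε
  have cR2 := bc_RE (d := d) (L := L) hR b E₂ σ hε
  have cc : ∀ M : Matrix (T d L) (T d L) ℂ, ∀ x y, BC (fun _ : T d L → ℝ => M x y) :=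
    fun M x y => BC.const _
  have cW : BC (fun V : T d L → ℝ => (RE b E₂ ε σ V *ᵥ f) 0) :=
    bc_mulVec (A := fun V => RE b E₂ ε σ V) (v := fun _ => f) cR2 (fun x => BC.const _) 0
  have cY : BC (fun V : T d L → ℝ => (RE b E₂ ε σ V *ᵥ f') 0) :=
    bc_mulVec (A := fun V => RE b E₂ ε σ V) (v := fun _ => f') cR2 (fun x => BC.const _) 0
  have cZ : BC (fun V : T d L → ℝ => (RE false E₁ ε σ V *ᵥ (vv i *ᵥ (RE b E₂ ε σ V *ᵥ f))) 0) :=
    bc_mulVec (A := fun V => RE false E₁ ε σ V) (v := fun V => vv i *ᵥ (RE b E₂ ε σ V *ᵥ f)) cR1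
      (bc_mulVec (A := fun _ => vv i) (v := fun V => RE b E₂ ε σ V *ᵥ f) (cc _)
        (bc_mulVec (A := fun V => RE b E₂ ε σ V) (v := fun _ => f) cR2 (fun x => BC.const _))) 0
  have cU : BC (fun V : T d L → ℝ => Uk b i E₁ E₂ ε σ V) :=
    BC.matmul (A := fun V => RE false E₁ ε σ V * vv i) (B := fun V => RE b E₂ ε σ V)
      (BC.matmul (A := fun V => RE false E₁ ε σ V) (B := fun _ => vv i) cR1 (cc _)) cR2 0 0
  have cD1 : BC (fun V : T d L → ℝ => RE false E₁ ε σ V 0 0 - me d L false E₁ ε σ) := by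
    simpa only [sub_eq_add_neg] using (cR1 0 0).add (BC.const (-me d L false E₁ ε σ))
  have cD2 : BC (fun V : T d L → ℝ => RE b E₂ ε σ V 0 0 - me d L b E₂ ε σ) := by
    simpa only [sub_eq_add_neg] using (cR2 0 0).add (BC.const (-me d L b E₂ ε σ))
  -- first term
  have t1 := cs cD2 cY
  -- second term
  have hprob : IsProbabilityMeasure (GP (T d L)) := by
    unfold GP PP
    infer_instance
  set mZ := ∫ W, (RE false E₁ ε σ W *ᵥ (vv i *ᵥ (RE b E₂ ε σ W *ᵥ f))) 0 ∂(GP (T d L)) with hmZ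
  have cZ' : BC (fun V : T d L → ℝ =>
      (RE false E₁ ε σ V *ᵥ (vv i *ᵥ (RE b E₂ ε σ V *ᵥ f))) 0 - mZ) := by
    simpa only [sub_eq_add_neg] using cZ.add (BC.const (-mZ))
  have t2 := cs cD1 cZ'
  have t2' : ∫ V, (RE false E₁ ε σ V 0 0 - me d L false E₁ ε σ) *
      ((RE false E₁ ε σ V *ᵥ (vv i *ᵥ (RE b E₂ ε σ V *ᵥ f))) 0 - mZ) ∂(GP (T d L)) =
      ∫ V, (RE false E₁ ε σ V 0 0 - me d L false E₁ ε σ) *
      (RE false E₁ ε σ V *ᵥ (vv i *ᵥ (RE b E₂ ε σ V *ᵥ f))) 0 ∂(GP (T d L)) := by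
    have e0 : ∫ V, (RE false E₁ ε σ V 0 0 - me d L false E₁ ε σ) ∂(GP (T d L)) = 0 := by
      rw [integral_sub (cR1 0 0).integrable (integrable_const _), integral_const, probReal_univ,
        one_smul]
      exact sub_self _
    have e1 : ∀ V : T d L → ℝ, (RE false E₁ ε σ V 0 0 - me d L false E₁ ε σ) *
      ((RE false E₁ ε σ V *ᵥ (vv i *ᵥ (RE b E₂ ε σ V *ᵥ f))) 0 - mZ) =
      (RE false E₁ ε σ V 0 0 - me d L false E₁ ε σ) *
      (RE false E₁ ε σ V *ᵥ (vv i *ᵥ (RE b E₂ ε σ V *ᵥ f))) 0 -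
      (RE false E₁ ε σ V 0 0 - me d L false E₁ ε σ) * mZ := fun V => by ring
    simp only [e1]
    rw [integral_sub (cD1.mul cZ).integrable (cD1.mul (BC.const mZ)).integrable,
      integral_mul_const, e0, zero_mul, sub_zero]
  rw [t2'] at t2
  -- third term
  have t3 := cs cU cW
  have zW' : ∫ W, (RE b E₂ ε σ W *ᵥ f) 0 ∂(GP (T d L)) = 0 := by
    rw [← zW]
    exact integral_congr_ae (Filter.Eventually.of_forall fun V => (eW V).symm)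
  rw [zW'] at bW
  simp only [sub_zero] at bW
  -- the equation
  have hsd := hSD d L j i b E₁ E₂ ε σ hε
  simp only [eW, eY, eZ] at hsd
  set A₁ := ∫ V, (RE b E₂ ε σ V 0 0 - me d L b E₂ ε σ) * (RE b E₂ ε σ V *ᵥ f') 0 ∂(GP (T d L))
    with hA₁
  set A₂ := ∫ V, (RE false E₁ ε σ V 0 0 - me d L false E₁ ε σ) *
      (RE false E₁ ε σ V *ᵥ (vv i *ᵥ (RE b E₂ ε σ V *ᵥ f))) 0 ∂(GP (T d L)) with hA₂
  set A₃ := ∫ V, Uk b i E₁ E₂ ε σ V * (RE b E₂ ε σ V *ᵥ f) 0 ∂(GP (T d L)) with hA₃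
  rw [hsd]
  have e5 : tk d L b j i E₁ E₂ ε σ + (σ : ℂ) ^ 2 * A₁ + (σ : ℂ) ^ 2 * A₂ + (σ : ℂ) ^ 2 * A₃ -
      tk d L b j i E₁ E₂ ε σ = (σ : ℂ) ^ 2 * (A₁ + A₂ + A₃) := by ring
  rw [e5, norm_mul, norm_pow, Complex.norm_real, Real.norm_eq_abs, abs_of_pos hσ]
  -- numerical bounds
  set u : ℝ := m0 * σ ^ 2 with hu
  have hu0 : 0 < u := by positivity
  have hX7 : 10 ^ 7 * (Lam * s * g ^ 4) ≤ m0 ^ 3 * ζ ^ 2 := by linarith
  have hg0 : 0 ≤ g := by linarith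
  have hs0 : 0 ≤ s := by linarith
  have hm4 : m0 ^ 4 ≤ 1 := pow_le_one₀ hm0.le hS.hm1
  -- A₁
  have q1 : (σ ^ 4 * ‖A₁‖) ^ 2 ≤ (7 / 100 * ζ) ^ 2 := by
    have e1 : ‖A₁‖ ^ 2 ≤ (1000 * Lam * g ^ 2) * (3 * g / ε * (16 * g / (u ^ 2 * u))) := by
      refine t1.trans ?_
      refine mul_le_mul b2 (bY.trans ?_) (integral_nonneg fun V => by positivity) (by positivity)
      refine mul_le_mul_of_nonneg_left (nf'.trans ?_) (by positivity)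
      have := hG1.h2
      have := hG2.h2
      gcongr
    have e2 : (σ ^ 4) ^ 2 * ((1000 * Lam * g ^ 2) * (3 * g / ε * (16 * g / (u ^ 2 * u)))) =
        48000 * (Lam * s * g ^ 4) / m0 ^ 3 := by
      rw [hu, hs]
      field_simp
      ring
    have e3 : 48000 * (Lam * s * g ^ 4) / m0 ^ 3 ≤ (7 / 100 * ζ) ^ 2 := by
      rw [div_le_iff₀ (by positivity)]
      nlinarith [mul_pos (pow_pos hm0 3) (pow_pos hζ0 2)]
    rw [mul_pow]
    calc (σ ^ 4) ^ 2 * ‖A₁‖ ^ 2 ≤ (σ ^ 4) ^ 2 *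
          ((1000 * Lam * g ^ 2) * (3 * g / ε * (16 * g / (u ^ 2 * u)))) :=
        mul_le_mul_of_nonneg_left e1 (by positivity)
      _ ≤ _ := by rw [e2]; exact e3
  have hXX : (Lam * s) ^ 2 * g ^ 4 ≤ (m0 ^ 3 * ζ ^ 2 / 10 ^ 7) ^ 2 := by
    have e1 : Lam * s * g ^ 4 ≤ m0 ^ 3 * ζ ^ 2 / 10 ^ 7 := by
      rw [le_div_iff₀ (by norm_num)]
      linarith
    calc (Lam * s) ^ 2 * g ^ 4 ≤ (Lam * s) ^ 2 * (g ^ 4 * g ^ 4) := by
          refine mul_le_mul_of_nonneg_left ?_ (by positivity)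
          nlinarith
      _ = (Lam * s * g ^ 4) ^ 2 := by ring
      _ ≤ _ := pow_le_pow_left₀ (by positivity) e1 2
  have hζ4 : m0 ^ 4 * ζ ^ 4 ≤ ζ ^ 2 / 16 := by
    have e1 : ζ ^ 2 ≤ 1 / 16 := by nlinarith
    have e2 : ζ ^ 4 = ζ ^ 2 * ζ ^ 2 := by ring
    have e3 : 0 ≤ ζ ^ 2 := by positivity
    calc m0 ^ 4 * ζ ^ 4 ≤ 1 * ζ ^ 4 := mul_le_mul_of_nonneg_right hm4 (by positivity)
      _ ≤ _ := by rw [e2]; nlinarith
  -- A₂
  have q2 : (σ ^ 4 * ‖A₂‖) ^ 2 ≤ (1 / 100 * ζ) ^ 2 := by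
    have e1 : ‖A₂‖ ^ 2 ≤ (1000 * Lam * g ^ 2) *
        (10 ^ 5 * Lam * g * (4 * (g / u)) / (ε ^ 2 * u)) := by
      refine t2.trans ?_
      refine mul_le_mul b1 (bZ.trans ?_) (integral_nonneg fun V => by positivity) (by positivity)
      have := hG1.h2
      have := hG2.h2
      have : nsq f ≤ 4 * (g / u) := nf.trans (by gcongr)
      gcongr
    have e2 : (σ ^ 4) ^ 2 * ((1000 * Lam * g ^ 2) *
        (10 ^ 5 * Lam * g * (4 * (g / u)) / (ε ^ 2 * u))) =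
        4 * 10 ^ 8 * ((Lam * s) ^ 2 * g ^ 4) / m0 ^ 2 := by
      rw [hu, hs]
      field_simp
      ring
    have e3 : 4 * 10 ^ 8 * ((Lam * s) ^ 2 * g ^ 4) / m0 ^ 2 ≤ (1 / 100 * ζ) ^ 2 := by
      calc 4 * 10 ^ 8 * ((Lam * s) ^ 2 * g ^ 4) / m0 ^ 2
          ≤ 4 * 10 ^ 8 * (m0 ^ 3 * ζ ^ 2 / 10 ^ 7) ^ 2 / m0 ^ 2 := by gcongr
        _ = 4 / 10 ^ 6 * (m0 ^ 4 * ζ ^ 4) := by
          field_simp
        _ ≤ _ := by nlinarith [sq_nonneg ζ]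
    rw [mul_pow]
    calc (σ ^ 4) ^ 2 * ‖A₂‖ ^ 2 ≤ (σ ^ 4) ^ 2 * ((1000 * Lam * g ^ 2) *
        (10 ^ 5 * Lam * g * (4 * (g / u)) / (ε ^ 2 * u))) :=
        mul_le_mul_of_nonneg_left e1 (by positivity)
      _ ≤ _ := by rw [e2]; exact e3
  -- A₃
  have q3 : (σ ^ 4 * ‖A₃‖) ^ 2 ≤ (1 / 100 * ζ) ^ 2 := by
    have e1 : ‖A₃‖ ^ 2 ≤ (10000 * Lam * g ^ 2 / ε ^ 2) *
        (2000 * Lam * g * (4 * (g / u)) / u) := by
      refine t3.trans ?_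
      refine mul_le_mul bU (bW.trans ?_) (integral_nonneg fun V => by positivity) (by positivity)
      have := hG1.h2
      have := hG2.h2
      have : nsq f ≤ 4 * (g / u) := nf.trans (by gcongr)
      gcongr
    have e2 : (σ ^ 4) ^ 2 * ((10000 * Lam * g ^ 2 / ε ^ 2) *
        (2000 * Lam * g * (4 * (g / u)) / u)) =
        8 * 10 ^ 7 * ((Lam * s) ^ 2 * g ^ 4) / m0 ^ 2 := by
      rw [hu, hs]
      field_simp
      ring
    have e3 : 8 * 10 ^ 7 * ((Lam * s) ^ 2 * g ^ 4) / m0 ^ 2 ≤ (1 / 100 * ζ) ^ 2 := by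
      calc 8 * 10 ^ 7 * ((Lam * s) ^ 2 * g ^ 4) / m0 ^ 2
          ≤ 8 * 10 ^ 7 * (m0 ^ 3 * ζ ^ 2 / 10 ^ 7) ^ 2 / m0 ^ 2 := by gcongr
        _ = 8 / 10 ^ 7 * (m0 ^ 4 * ζ ^ 4) := by
          field_simp
        _ ≤ _ := by nlinarith [sq_nonneg ζ]
    rw [mul_pow]
    calc (σ ^ 4) ^ 2 * ‖A₃‖ ^ 2 ≤ (σ ^ 4) ^ 2 * ((10000 * Lam * g ^ 2 / ε ^ 2) *
        (2000 * Lam * g * (4 * (g / u)) / u)) :=
        mul_le_mul_of_nonneg_left e1 (by positivity)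
      _ ≤ _ := by rw [e2]; exact e3
  have r1 := (pow_le_pow_iff_left₀ (by positivity) (by positivity) two_ne_zero).1 q1
  have r2 := (pow_le_pow_iff_left₀ (by positivity) (by positivity) two_ne_zero).1 q2
  have r3 := (pow_le_pow_iff_left₀ (by positivity) (by positivity) two_ne_zero).1 q3
  rw [le_div_iff₀ (by positivity)]
  have r4 : ‖A₁ + A₂ + A₃‖ ≤ ‖A₁‖ + ‖A₂‖ + ‖A₃‖ := by
    refine (norm_add_le _ _).trans ?_
    have := norm_add_le A₁ A₂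
    linarith
  calc σ ^ 2 * ‖A₁ + A₂ + A₃‖ * σ ^ 2 = σ ^ 4 * ‖A₁ + A₂ + A₃‖ := by ring
    _ ≤ σ ^ 4 * (‖A₁‖ + ‖A₂‖ + ‖A₃‖) := mul_le_mul_of_nonneg_left r4 (by positivity)
    _ = σ ^ 4 * ‖A₁‖ + σ ^ 4 * ‖A₂‖ + σ ^ 4 * ‖A₃‖ := by ring
    _ ≤ ζ := by linarith

end Pool.Agent.T2h98.KU
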