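import Pool.Agent.T2h98.KU.Stm
import Pool.Agent.T2h98.QD.MoA

/-! The form bound on the good event. -/

set_option autoImplicit false
set_option linter.unusedSectionVars false

open scoped BigOperators Matrix Topology
open MeasureTheory ProbabilityTheory Filter

namespace Pool.Agent.T2h98.KU

open Pool.Agent.W788.MFP.Four (T e NN adj K)
open Pool.Agent.W788.BK (nsq hs PP JJ hi Low cr)
open Pool.Agent.T2h98.QD
open Pool.Agent.T2h98.AC (TX RX mX sy Rb Fk)

namespace KQ2P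

variable {d L : ℕ} [NeZero L]

theorem JJ_ge (E : ℝ) {δ : ℝ} (hδ : 0 < δ) (k : T d L) : δ ≤ JJ E δ k := by
  unfold JJ
  exact Real.le_sqrt_of_sq_le (by nlinarith [sq_nonneg (adj k - E)])

theorem qf_J1_le (E : ℝ) {δ : ℝ} (hδ : 0 < δ) (w : T d L → ℂ) : qf (J1 E δ) w ≤ nsq w / δ := by
  have hN := Pool.Agent.W788.MFP.Four.NN_pos (d := d) (L := L)
  unfold J1
  rw [KQ.qf_Mo, nsq_fc, mul_div_assoc]
  refine mul_le_mul_of_nonneg_left ?_ (by positivity)
  rw [Finset.sum_div]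
  refine Finset.sum_le_sum fun k _ => ?_
  rw [div_eq_inv_mul]
  refine mul_le_mul_of_nonneg_right ?_ (by positivity)
  exact inv_anti₀ hδ (JJ_ge E hδ k)

theorem qf_J1_dl (E δ : ℝ) : qf (J1 E δ) (dl (0 : T d L)) = (NN d L)⁻¹ * ∑ k : T d L, (JJ E δ k)⁻¹ := by
  unfold J1
  rw [KQ.qf_Mo]
  congr 1
  refine Finset.sum_congr rfl fun k _ => ?_
  rw [fc_dl, e_norm]
  ring

theorem dl_form (M : Matrix (T d L) (T d L) ℂ) (x : T d L) :
    star (dl x) ⬝ᵥ (M *ᵥ dl x) = M x x := by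
  unfold dl
  rw [Matrix.mulVec_single_one]
  have : (star (Pi.single x (1 : ℂ)) : T d L → ℂ) = Pi.single x 1 := by
    rw [← Pi.single_star, star_one]
  rw [this, single_dotProduct, one_mul]
  rfl

end KQ2P

open KQ2P

theorem kq2 (hR : T_KR) (hQ : T_RQF) : T_KQ2 := by
  intro d L _ σ δ ε t Q g p0 Ω hP V hV b E f
  have hδ : 0 < δ := lt_of_lt_of_le (pow_pos hP.hσ 2) hP.hσδ
  have hε := hP.hε
  have hεδ : ε ≤ δ := hP.hεσ.trans hP.hσδ
  obtain ⟨h1, -, -, h4, h5, -⟩ := hR d L b E ε σ hε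
  have key : ∀ f : T d L → ℂ, qf (J0 E δ) (RE b E ε σ V *ᵥ f) ≤
      4 * (qf (J1 E δ) f + (δ / ε) * (star f ⬝ᵥ (RE false E ε σ V *ᵥ f)).im) := by
    intro f
    have h2 := hQ d L E δ ε t σ hδ hε hP.ht hP.hσ.le hP.hσt V (fun w => hP.hgood V hV E w) f
    have h3 : (δ / ε) * (star f ⬝ᵥ (RE false E ε σ V *ᵥ f)).im = δ * nsq (RE b E ε σ V *ᵥ f) := by
      rw [← h4 V f]
      field_simp
    rw [h3, h1 V]
    cases b
    · exact h2.1
    · exact h2.2
  refine ⟨?_, ?_, ?_⟩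
  · refine (key f).trans ?_
    have := qf_J1_le E hδ f
    linarith
  · refine (key f).trans ?_
    have h6 := qf_J1_le E hδ f
    have h7 : (δ / ε) * (star f ⬝ᵥ (RE false E ε σ V *ᵥ f)).im ≤ δ / ε ^ 2 * nsq f := by
      rw [← h4 V f]
      have e : δ / ε * (ε * nsq (RE b E ε σ V *ᵥ f)) = δ * nsq (RE b E ε σ V *ᵥ f) := by
        field_simp
      rw [e]
      calc δ * nsq (RE b E ε σ V *ᵥ f) ≤ δ * (nsq f / ε ^ 2) :=
            mul_le_mul_of_nonneg_left (h5 V f) hδ.le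
        _ = _ := by ring
    have h8 : nsq f / δ ≤ δ / ε ^ 2 * nsq f := by
      rw [div_eq_inv_mul]
      refine mul_le_mul_of_nonneg_right ?_ (Finset.sum_nonneg fun i _ => by positivity)
      rw [inv_eq_one_div, div_le_div_iff₀ hδ (by positivity)]
      nlinarith
    nlinarith
  · refine (key (dl 0)).trans ?_
    have hN := Pool.Agent.W788.MFP.Four.NN_pos (d := d) (L := L)
    rw [qf_J1_dl, dl_form]
    have h9 : (NN d L)⁻¹ * ∑ k : T d L, (JJ E δ k)⁻¹ ≤ g := by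
      rw [inv_mul_le_iff₀ hN, mul_comm]
      exact hP.hg E
    have h10 : 1 ≤ δ / ε := by rwa [le_div_iff₀ hε, one_mul]
    have h11 : g ≤ δ / ε * g := le_mul_of_one_le_left (by linarith [hP.hg1]) h10
    nlinarith

end Pool.Agent.T2h98.KU
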