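import Pool.Agent.T2h98.KU.Stm
import Pool.Agent.T2h98.AC.RX

/-! The resolvents. -/

set_option autoImplicit false
set_option linter.unusedSectionVars false

open scoped BigOperators Matrix Topology
open MeasureTheory ProbabilityTheory Filter

namespace Pool.Agent.T2h98.KU

open Pool.Agent.W788.MFP.Four (T e NN adj K adj_neg)
open Pool.Agent.W788.BK (nsq hs PP JJ hi Low cr nsq_nonneg nsq_eq)
open Pool.Agent.T2h98.QD
open Pool.Agent.T2h98.AC (TX RX mX sy Rb Fk rx)
open Pool.Agent.T2h98.AC.RXS

namespace KRS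

variable {d L : ℕ} [NeZero L]

theorem xb_true (E ε : ℝ) (k : T d L) : xb true E ε k = star (xb false E ε k) := by
  unfold xb
  simp only [cond_true, cond_false]
  apply Complex.ext <;> simp

theorem xb_im (E ε : ℝ) (k : T d L) : -(xb false E ε k).im = ε := by
  unfold xb
  simp

theorem TX_true (E ε σ : ℝ) (V : T d L → ℝ) : TX (xb true E ε) σ V = (TX (xb false E ε) σ V)ᴴ := by
  unfold TX
  rw [Matrix.conjTranspose_add, mo_star, Matrix.diagonal_conjTranspose]
  congr 1
  · congr 1
    funext k
    rw [xb_true]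
    rfl
  · congr 1
    funext x
    rw [Pi.star_apply]
    exact (Complex.conj_ofReal _).symm

theorem RE_true (E ε σ : ℝ) (V : T d L → ℝ) : RE true E ε σ V = (RE false E ε σ V)ᴴ := by
  unfold RE RX
  rw [TX_true, Matrix.conjTranspose_nonsing_inv]

theorem RE_true_apply (E ε σ : ℝ) (V : T d L → ℝ) (x y : T d L) :
    RE true E ε σ V x y = star (RE false E ε σ V y x) := by
  rw [RE_true, Matrix.conjTranspose_apply]

theorem Mo_transpose (m : T d L → ℂ) (hm : ∀ k, m (-k) = m k) : (Mo m)ᵀ = Mo m := by
  ext x y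
  rw [Matrix.transpose_apply, mo_apply, mo_apply]
  congr 1
  rw [← Equiv.sum_comp (Equiv.neg (T d L))]
  refine Finset.sum_congr rfl fun k _ => ?_
  rw [Equiv.neg_apply, hm, Pool.Agent.W788.MFP.Four.e_neg_left,
    Pool.Agent.W788.MFP.Four.e_neg_left, Complex.conj_conj]
  ring

theorem xb_neg (b : Bool) (E ε : ℝ) (k : T d L) : xb b E ε (-k) = xb b E ε k := by
  unfold xb
  rw [adj_neg]

theorem TX_transpose (b : Bool) (E ε σ : ℝ) (V : T d L → ℝ) :
    (TX (xb b E ε) σ V)ᵀ = TX (xb b E ε) σ V := by
  unfold TX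
  rw [Matrix.transpose_add, Mo_transpose _ (xb_neg b E ε), Matrix.diagonal_transpose]

theorem e_rf (i : Fin d) (k z : T d L) : e k (rf i z) = e (rf i k) z := by
  unfold e rf
  congr 1
  refine Finset.sum_congr rfl fun j _ => ?_
  by_cases h : j = i
  · subst h
    rw [Function.update_self, Function.update_self]
    ring
  · rw [Function.update_of_ne h, Function.update_of_ne h]

theorem rf_rf (i : Fin d) (z : T d L) : rf i (rf i z) = z := by
  unfold rf
  rw [Function.update_self, Function.update_idem, neg_neg, Function.update_eq_self]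

/-- the reflection as a permutation -/
def rfe (i : Fin d) : T d L ≃ T d L := ⟨rf i, rf i, rf_rf i, rf_rf i⟩

theorem adj_rf (i : Fin d) (k : T d L) : adj (rf i k) = adj k := by
  unfold adj
  refine Finset.sum_congr rfl fun j _ => ?_
  unfold rf
  by_cases h : j = i
  · subst h
    rw [Function.update_self, ZMod.stdAddChar_apply, ZMod.stdAddChar_apply,
      AddChar.map_neg_eq_inv]
    simp
  · rw [Function.update_of_ne h]

theorem Mo_rf (m : T d L → ℂ) (i : Fin d) (hm : ∀ k, m (rf i k) = m k) (x y : T d L) :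
    Mo m (rf i x) (rf i y) = Mo m x y := by
  rw [mo_apply, mo_apply]
  congr 1
  rw [← Equiv.sum_comp (rfe i)]
  refine Finset.sum_congr rfl fun k _ => ?_
  change m (rf i k) * (e (rf i k) (rf i y) * (starRingEnd ℂ) (e (rf i k) (rf i x))) = _
  rw [hm, e_rf, e_rf, rf_rf]

theorem TX_rf (b : Bool) (E ε σ : ℝ) (V : T d L → ℝ) (i : Fin d) :
    TX (xb b E ε) σ (fun z => V (rf i z)) = (TX (xb b E ε) σ V).submatrix (rfe i) (rfe i) := by
  ext x y
  have h1 : Mo (xb b E ε) (rf i x) (rf i y) = Mo (xb b E ε) x y :=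
    Mo_rf _ i (fun k => by unfold xb; rw [adj_rf]) x y
  have h2 : rf i x = rf i y ↔ x = y := (rfe i).injective.eq_iff
  simp only [TX, Matrix.submatrix_apply, Matrix.add_apply, Matrix.diagonal_apply]
  show _ = Mo (xb b E ε) (rf i x) (rf i y) + if rf i x = rf i y then _ else _
  rw [h1]
  by_cases h : x = y
  · rw [if_pos h, if_pos (h2.2 h)]
    rfl
  · rw [if_neg h, if_neg (fun h' => h (h2.1 h'))]

theorem Rh_eq (E ε σ : ℝ) (V : T d L → ℝ) : Rh (h0 E) σ ε V = RE false E ε σ V := by
  unfold Rh GG RE RX
  congr 1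
  unfold XG TX h0
  rw [sum_EY, add_sub_right_comm]
  congr 1
  rw [← mo_one, mo_smul, mo_sub]
  congr 1
  funext k
  unfold xb
  simp only [cond_false, mul_one]

end KRS

open KRS in
theorem kr : T_KR := by
  intro d L _ b E ε σ hε
  have hX : ∀ k : T d L, ε ≤ -(xb false E ε k).im := fun k => (xb_im E ε k).ge
  obtain ⟨r1, r2, r3, r4, r5, r6, -, -⟩ := rx d L (xb false E ε) ε σ hε hX
  have S := sysX (xb false E ε) σ hε hX
  have hward : ∀ (V : T d L → ℝ) (f : T d L → ℂ),
      (star f ⬝ᵥ (RE false E ε σ V *ᵥ f)).im = ε * nsq (RE false E ε σ V *ᵥ f) ∧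
      (star f ⬝ᵥ (RE false E ε σ V *ᵥ f)).im = ε * nsq (RE true E ε σ V *ᵥ f) := by
    intro V f
    have h1 := gg_ward S V f
    rw [GG_eq] at h1
    have h2 : ∀ u : T d L → ℂ, qf (Mo fun k => ((-(xb false E ε k).im : ℝ) : ℂ)) u = ε * nsq u := by
      intro u
      have h3 : (Mo fun k : T d L => ((-(xb false E ε k).im : ℝ) : ℂ)) =
          (ε : ℂ) • (1 : Matrix (T d L) (T d L) ℂ) := by
        rw [← mo_one, mo_smul]
        congr 1
        funext k
        rw [xb_im, mul_one]
      unfold qf
      rw [h3, Matrix.smul_mulVec, Matrix.one_mulVec, dotProduct_smul, ← nsq_eq, smul_eq_mul,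
        ← Complex.ofReal_mul, Complex.ofReal_re]
    rw [h2, h2, one_mul, one_mul] at h1
    refine ⟨h1.1, ?_⟩
    rw [RE_true]
    exact h1.2
  refine ⟨fun V => ?_, fun V => ?_, fun V => ?_, fun V f => ?_, fun V f => ?_, fun V x y => ?_,
    fun x y => ?_, fun V y p q => ?_, fun V a x y => ?_, fun V i x y => ?_, ?_⟩
  · cases b
    · exact (Rh_eq E ε σ V).symm
    · rw [RE_true, Rh_eq]; rfl
  · cases b
    · exact r1 V
    · have h1 := r1 V
      unfold RE RX
      rw [TX_true, ← Matrix.conjTranspose_nonsing_inv, ← Matrix.conjTranspose_mul,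
        ← Matrix.conjTranspose_mul]
      constructor
      · have := h1.2
        unfold RX at this
        rw [this, Matrix.conjTranspose_one]
      · have := h1.1
        unfold RX at this
        rw [this, Matrix.conjTranspose_one]
  · unfold RE RX
    rw [Matrix.transpose_nonsing_inv, TX_transpose]
  · cases b
    · exact (hward V f).1.symm
    · exact (hward V f).2.symm
  · cases b
    · exact (r2 V f).1
    · rw [RE_true]; exact (r2 V f).2
  · cases b
    · exact r3 V x y
    · rw [RE_true_apply, norm_star]; exact r3 V y x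
  · cases b
    · exact r4 x y
    · simp only [RE_true_apply]
      exact (r4 y x).star
  · cases b
    · exact r5 V y p q
    · simp only [RE_true_apply]
      have h1 := (r5 V y q p).star
      have h2 : star (-((σ : ℂ) * (RX (xb false E ε) σ V q y * RX (xb false E ε) σ V y p))) =
          -((σ : ℂ) * (star (RE false E ε σ V y p) * star (RE false E ε σ V q y))) := by
        rw [star_neg, star_mul', star_mul']
        have : star (σ : ℂ) = σ := Complex.conj_ofReal σ
        rw [this]
        show -((σ : ℂ) * (star (RX (xb false E ε) σ V q y) * star (RX (xb false E ε) σ V y p))) =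
          -((σ : ℂ) * (star (RX (xb false E ε) σ V y p) * star (RX (xb false E ε) σ V q y)))
        ring
      rw [h2] at h1
      exact h1
  · cases b
    · exact r6 V a x y
    · rw [RE_true_apply, RE_true_apply]
      congr 1
      exact r6 V a y x
  · unfold RE RX
    rw [TX_rf, Matrix.inv_submatrix_equiv]
    rfl
  · cases b
    · show ∫ V, RE false E ε σ V 0 0 ∂(GP (T d L)) = mT d L σ E ε
      unfold mT
      simp only [Rh_eq]
    · show ∫ V, RE true E ε σ V 0 0 ∂(GP (T d L)) = star (mT d L σ E ε)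
      simp only [RE_true_apply]
      unfold mT
      simp only [Rh_eq]
      exact integral_conj

end Pool.Agent.T2h98.KU
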