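import Pool.Agent.T2h98.KU.Stm
import Pool.Agent.T2h98.QD.MoA
import Pool.Agent.T2h98.QD.Inv
import Pool.Agent.T2h98.QD.Calc

/-! The symbol of the mean of the resolvent. -/

set_option autoImplicit false
set_option linter.unusedSectionVars false

open scoped BigOperators Matrix Topology
open MeasureTheory ProbabilityTheory Filter

namespace Pool.Agent.T2h98.KU

open Pool.Agent.W788.MFP.Four (T e NN adj K NN_pos)
open Pool.Agent.W788.BK (nsq hs PP JJ hi Low cr nsq_nonneg nsq_eq)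
open Pool.Agent.W240.BK (BC BM cs_int)
open Pool.Agent.T2h98.QD
open Pool.Agent.T2h98.AC (TX RX mX sy Rb Fk)

namespace KRBS

variable {d L : ℕ} [NeZero L]

/-- numbers -/
theorem num {σ ε Λ g m0 ζ G r q v : ℝ} (hσ : 0 < σ) (hε : 0 < ε) (hΛ : 0 ≤ Λ) (hg : 1 ≤ g)
    (hm0 : 0 < m0) (hm1 : m0 ≤ 1) (hζ : 0 < ζ) (hζ1 : ζ ≤ 1 / 4)
    (k1 : 10 ^ 7 * Λ * (σ ^ 2 / ε) * g ^ 4 ≤ m0 ^ 3 * ζ ^ 2) (hG : m0 * σ ^ 2 ≤ G)
    (hr : 0 ≤ r) (hq : 0 ≤ q) (hv : v ≤ 1000 * Λ * g ^ 2) (h1 : G * r ≤ 1 + σ ^ 2 * q)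
    (h2 : q ^ 2 ≤ v * (r / ε)) : r ≤ 2 / G ∧ σ ^ 2 * q ≤ ζ / g := by
  have hG0 : 0 < G := lt_of_lt_of_le (by positivity) hG
  obtain ⟨p, hp⟩ : ∃ p, p = G * r := ⟨_, rfl⟩
  have hp0 : 0 ≤ p := by rw [hp]; positivity
  obtain ⟨s, hs⟩ : ∃ s, s = σ ^ 2 * q := ⟨_, rfl⟩
  have hs0 : 0 ≤ s := by rw [hs]; positivity
  have hg0 : 0 < g := by linarith
  -- the key bound
  have h3 : s ^ 2 * g ^ 2 ≤ ζ ^ 2 / 10 ^ 4 * p := by
    have e1 : s ^ 2 ≤ σ ^ 4 * (1000 * Λ * g ^ 2 * (r / ε)) := by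
      have e2 : s ^ 2 = σ ^ 4 * q ^ 2 := by rw [hs]; ring
      rw [e2]
      have e3 : q ^ 2 ≤ 1000 * Λ * g ^ 2 * (r / ε) :=
        h2.trans (mul_le_mul_of_nonneg_right hv (by positivity))
      exact mul_le_mul_of_nonneg_left e3 (by positivity)
    have e4 : m0 * (s ^ 2 * g ^ 2) ≤ m0 * (ζ ^ 2 / 10 ^ 4 * p) := by
      have hx0 : 0 ≤ Λ * (σ ^ 2 / ε) * g ^ 4 := by positivity
      calc m0 * (s ^ 2 * g ^ 2) ≤ m0 * (σ ^ 4 * (1000 * Λ * g ^ 2 * (r / ε)) * g ^ 2) := by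
            gcongr
        _ = 1000 * (Λ * (σ ^ 2 / ε) * g ^ 4) * (m0 * σ ^ 2) * r := by ring
        _ ≤ 1000 * (Λ * (σ ^ 2 / ε) * g ^ 4) * G * r := by gcongr
        _ = 1000 * (Λ * (σ ^ 2 / ε) * g ^ 4) * p := by rw [hp]; ring
        _ ≤ 1000 * (m0 ^ 3 * ζ ^ 2 / 10 ^ 7) * p := by
            gcongr
            rw [le_div_iff₀ (by positivity)]
            linarith
        _ = m0 ^ 2 * (m0 * (ζ ^ 2 / 10 ^ 4 * p)) := by ring
        _ ≤ 1 * (m0 * (ζ ^ 2 / 10 ^ 4 * p)) := by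
            gcongr
            exact pow_le_one₀ hm0.le hm1
        _ = _ := one_mul _
    exact le_of_mul_le_mul_left e4 hm0
  have h4 : s ^ 2 ≤ p / 10 ^ 4 := by
    have e1 : s ^ 2 ≤ s ^ 2 * g ^ 2 := le_mul_of_one_le_right (by positivity) (one_le_pow₀ hg)
    have e2 : ζ ^ 2 / 10 ^ 4 * p ≤ p / 10 ^ 4 := by
      have : ζ ^ 2 ≤ 1 := pow_le_one₀ hζ.le (by linarith)
      calc ζ ^ 2 / 10 ^ 4 * p ≤ 1 / 10 ^ 4 * p := by gcongr
        _ = _ := by ring
    linarith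
  have h5 : p ≤ 2 := by
    rw [← hp, ← hs] at h1
    by_contra hcon
    rw [not_le] at hcon
    have e1 : 0 ≤ p / 2 := by linarith
    have e2 : p / 2 ≤ s := by linarith
    have e3 : (p / 2) ^ 2 ≤ s ^ 2 := pow_le_pow_left₀ e1 e2 2
    have e4 : (p / 2) ^ 2 ≤ p / 10 ^ 4 := e3.trans h4
    nlinarith
  refine ⟨?_, ?_⟩
  · rw [le_div_iff₀ hG0, mul_comm]
    rw [← hp]
    exact h5
  · rw [← hs, le_div_iff₀ hg0]
    have e1 : (s * g) ^ 2 ≤ ζ ^ 2 := by
      calc (s * g) ^ 2 = s ^ 2 * g ^ 2 := by ring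
        _ ≤ ζ ^ 2 / 10 ^ 4 * p := h3
        _ ≤ ζ ^ 2 / 10 ^ 4 * 2 := by gcongr
        _ ≤ ζ ^ 2 := by nlinarith [sq_nonneg ζ]
    exact (abs_le_of_sq_le_sq' e1 hζ.le).2

variable (hR : T_KR)
include hR

theorem bc (b : Bool) {E ε σ : ℝ} (hε : 0 < ε) (x y : T d L) :
    BC fun V : T d L → ℝ => RE b E ε σ V x y := by
  obtain ⟨-, -, -, -, -, h6, h7, -⟩ := hR d L b E ε σ hε
  exact ⟨h7 x y, ε⁻¹, fun V => h6 V x y⟩

/-- the character as a vector -/
theorem bcf (b : Bool) {E ε σ : ℝ} (hε : 0 < ε) (f : T d L → ℂ) (x : T d L) :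
    BC fun V : T d L → ℝ => (RE b E ε σ V *ᵥ f) x := by
  simp only [Matrix.mulVec, dotProduct]
  exact BC.sum _ fun y _ => (bc hR b hε x y).mul (BC.const (f y))

theorem Rb_eq {E ε σ : ℝ} (hε : 0 < ε) (κ : T d L) :
    Rb (xb false E ε) σ κ =
      ∫ V, (RE false E ε σ V *ᵥ fun z => star (e κ z)) 0 ∂(GP (T d L)) := by
  unfold Rb sy
  simp only [Matrix.mulVec, dotProduct]
  rw [integral_finsetSum _ fun y _ =>
    (((bc hR false hε (0 : T d L) y).mul (BC.const (star (e κ y)))).integrable _)]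
  refine Finset.sum_congr rfl fun z _ => ?_
  exact (integral_mul_const _ _).symm

theorem Fk_eq {E ε σ : ℝ} (hε : 0 < ε) (κ : T d L) :
    Fk (xb false E ε) σ κ =
      ∫ V, (RE false E ε σ V 0 0 - me d L false E ε σ) *
        (RE false E ε σ V *ᵥ fun z => star (e κ z)) 0 ∂(GP (T d L)) := by
  unfold Fk sy
  simp only [Matrix.mulVec, dotProduct, Finset.mul_sum]
  have h0 : BC fun V : T d L → ℝ => RE false E ε σ V 0 0 - me d L false E ε σ :=
    (bc hR false hε 0 0).sub (BC.const _)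
  rw [integral_finsetSum _ fun y _ =>
    ((h0.mul ((bc hR false hε (0 : T d L) y).mul (BC.const (star (e κ y))))).integrable _)]
  refine Finset.sum_congr rfl fun z _ => ?_
  rw [← integral_mul_const]
  refine integral_congr_ae (Filter.Eventually.of_forall fun V => ?_)
  exact mul_assoc _ _ _

/-- translation of the vector -/
theorem shift {E ε σ : ℝ} (hε : 0 < ε) (κ a : T d L) (V : T d L → ℝ) :
    (RE false E ε σ (fun z => V (z + a)) *ᵥ fun z => star (e κ z)) 0 =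
      e κ a * (RE false E ε σ V *ᵥ fun z => star (e κ z)) a := by
  obtain ⟨-, -, -, -, -, -, -, -, h9, -⟩ := hR d L false E ε σ hε
  simp only [Matrix.mulVec, dotProduct]
  have h1 := Equiv.sum_comp (Equiv.addRight a) fun z => RE false E ε σ V a z * star (e κ z)
  rw [← h1, Finset.mul_sum]
  refine Finset.sum_congr rfl fun z _ => ?_
  rw [h9 V a 0 z, zero_add, Equiv.coe_addRight, Pool.Agent.W788.MFP.Four.e_add, star_mul']
  have h2 := Pool.Agent.W788.MFP.Four.e_normSq κ a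
  have h3 : e κ a * star (e κ a) = 1 := h2
  linear_combination (-(RE false E ε σ V a (z + a) * star (e κ z))) * h3

/-- the second moment -/
theorem mom {E ε σ : ℝ} (hε : 0 < ε) (κ : T d L) :
    ∫ V, ‖(RE false E ε σ V *ᵥ fun z => star (e κ z)) 0‖ ^ 2 ∂(GP (T d L)) =
      (Rb (xb false E ε) σ κ).im / ε := by
  obtain ⟨-, -, -, h4, -⟩ := hR d L false E ε σ hε
  obtain ⟨f, hf⟩ : ∃ f : T d L → ℂ, f = fun z => star (e κ z) := ⟨_, rfl⟩
  have hN : 0 < NN d L := NN_pos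
  have hb : ∀ x : T d L, BC fun V : T d L → ℝ => (RE false E ε σ V *ᵥ f) x := fun x =>
    bcf hR false hε f x
  -- each point
  have h1 : ∀ a : T d L, ∫ V, ‖(RE false E ε σ V *ᵥ f) a‖ ^ 2 ∂(GP (T d L)) =
      ∫ V, ‖(RE false E ε σ V *ᵥ f) 0‖ ^ 2 ∂(GP (T d L)) := by
    intro a
    have h2 := (inv d L a).1 fun V => ((‖(RE false E ε σ V *ᵥ f) 0‖ ^ 2 : ℝ) : ℂ)
    rw [integral_complex_ofReal, integral_complex_ofReal] at h2
    rw [← Complex.ofReal_inj, ← h2]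
    congr 1
    refine integral_congr_ae (Filter.Eventually.of_forall fun V => ?_)
    show _ = ‖(RE false E ε σ (fun z => V (z + a)) *ᵥ f) 0‖ ^ 2
    rw [hf, shift hR hε κ a V, norm_mul, e_norm, one_mul]
  have h2 : ∀ a : T d L, ∫ V, e κ a * (RE false E ε σ V *ᵥ f) a ∂(GP (T d L)) =
      Rb (xb false E ε) σ κ := by
    intro a
    have h3 := (inv d L a).1 fun V => (RE false E ε σ V *ᵥ f) 0
    rw [Rb_eq hR hε κ, ← hf, ← h3]
    refine integral_congr_ae (Filter.Eventually.of_forall fun V => ?_)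
    have h4 := shift hR (E := E) (σ := σ) hε κ a V
    rw [← hf] at h4
    exact h4.symm
  have h3 : ε * ∫ V, nsq (RE false E ε σ V *ᵥ f) ∂(GP (T d L)) =
      (∫ V, star f ⬝ᵥ (RE false E ε σ V *ᵥ f) ∂(GP (T d L))).im := by
    rw [← integral_const_mul]
    have hB : BC fun V : T d L → ℝ => star f ⬝ᵥ (RE false E ε σ V *ᵥ f) := by
      simp only [dotProduct]
      exact BC.sum _ fun y _ => (BC.const _).mul (hb y)
    have h5 : (∫ V, star f ⬝ᵥ (RE false E ε σ V *ᵥ f) ∂(GP (T d L))).im =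
        ∫ V, (star f ⬝ᵥ (RE false E ε σ V *ᵥ f)).im ∂(GP (T d L)) :=
      (integral_im (hB.integrable _)).symm
    rw [h5]
    exact integral_congr_ae (Filter.Eventually.of_forall fun V => h4 V f)
  have h5 : ∫ V, nsq (RE false E ε σ V *ᵥ f) ∂(GP (T d L)) =
      NN d L * ∫ V, ‖(RE false E ε σ V *ᵥ f) 0‖ ^ 2 ∂(GP (T d L)) := by
    unfold nsq
    rw [integral_finsetSum _ fun y _ => ((RC.norm (hb y)).sq.integrable), Finset.sum_congr rfl
      fun a _ => h1 a, Finset.sum_const, Finset.card_univ, nsmul_eq_mul,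
      Pool.Agent.W788.MFP.Four.card_T]
  have h6 : ∫ V, star f ⬝ᵥ (RE false E ε σ V *ᵥ f) ∂(GP (T d L)) =
      (NN d L : ℝ) * Rb (xb false E ε) σ κ := by
    simp only [dotProduct]
    rw [integral_finsetSum _ fun y _ => (((BC.const _).mul (hb y)).integrable _)]
    have h7 : ∀ a : T d L, ∫ V, star f a * (RE false E ε σ V *ᵥ f) a ∂(GP (T d L)) =
        Rb (xb false E ε) σ κ := by
      intro a
      have h8 : star f a = e κ a := by
        rw [hf, Pi.star_apply, star_star]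
      rw [h8]
      exact h2 a
    rw [Finset.sum_congr rfl fun a _ => h7 a, Finset.sum_const, Finset.card_univ, nsmul_eq_mul,
      ← Pool.Agent.W788.MFP.Four.card_T]
    push_cast
    rfl
  rw [h5, h6, Complex.im_ofReal_mul] at h3
  rw [← hf, eq_div_iff hε.ne']
  have h8 : NN d L * ((∫ V, ‖(RE false E ε σ V *ᵥ f) 0‖ ^ 2 ∂(GP (T d L))) * ε) =
      NN d L * (Rb (xb false E ε) σ κ).im := by
    rw [← h3]
    ring
  exact mul_left_cancel₀ hN.ne' h8

omit hR in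
/-- the mean of the symbol -/
theorem sum_Rb {E ε σ : ℝ} :
    ∑ k : T d L, Rb (xb false E ε) σ k = ((NN d L : ℝ) : ℂ) * me d L false E ε σ := by
  unfold Rb sy
  rw [Finset.sum_comm]
  have h1 : ∀ z : T d L, ∑ k : T d L, star (e k z) = if z = 0 then ((NN d L : ℝ) : ℂ) else 0 := by
    intro z
    have h2 := congrArg star (Pool.Agent.W788.MFP.Four.sum_e z)
    rw [star_sum] at h2
    rw [h2]
    split_ifs
    · exact Complex.conj_ofReal _
    · exact star_zero _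
  simp only [← Finset.mul_sum, h1]
  rw [Finset.sum_eq_single 0]
  · rw [if_pos rfl, mul_comm]
    rfl
  · intro z _ hz
    rw [if_neg hz, mul_zero]
  · intro h
    exact absurd (Finset.mem_univ _) h

end KRBS

open KRBS in
theorem krb (hR : T_KR) (h1 : T_KV1) (hSD : Pool.Agent.T2h98.AC.T_SD) : T_KRB := by
  intro d L _ σ δ ε t Q g p0 m0 ζ E Ω hP hS hG
  have hε := hP.hε
  have hσ := hP.hσ
  have hδ : 0 < δ := lt_of_lt_of_le (by positivity) hP.hσδ
  have hg0 : 0 < g := by linarith [hP.hg1]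
  have hN : 0 < NN d L := NN_pos
  obtain ⟨Λ, hΛ⟩ : ∃ Λ, Λ = σ ^ 2 * Q * (δ / ε) ^ 2 := ⟨_, rfl⟩
  have hQ1 := hP.hQ1
  have hΛ0 : 0 ≤ Λ := by rw [hΛ]; positivity
  have k1 := hS.k1
  rw [← hΛ] at k1
  have hm0 := hS.hm0
  have hζ := hS.hζ
  -- smallness
  have hΛ1 : 100 * Λ ≤ 1 := by
    have e1 : 1 ≤ σ ^ 2 / ε := by rw [one_le_div hε]; exact hP.hεσ
    have e2 : (1 : ℝ) ≤ g ^ 4 := one_le_pow₀ hP.hg1
    have e3 : Λ ≤ Λ * (σ ^ 2 / ε) * g ^ 4 := by
      calc Λ ≤ Λ * (σ ^ 2 / ε) := le_mul_of_one_le_right hΛ0 e1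
        _ ≤ _ := le_mul_of_one_le_right (by positivity) e2
    have e4 : m0 ^ 3 * ζ ^ 2 ≤ 1 * 1 := by
      gcongr
      · exact pow_le_one₀ hm0.le hS.hm1
      · exact pow_le_one₀ hζ.le (by linarith [hS.hζ1])
    linarith
  have hv := (h1 d L σ δ ε t Q g p0 Ω hP (by rw [← hΛ]; exact hΛ1) false E hG.h1).1
  rw [← hΛ] at hv
  obtain ⟨m, hm⟩ : ∃ m, m = me d L false E ε σ := ⟨_, rfl⟩
  obtain ⟨G, hGd⟩ : ∃ G, G = Ga d L E ε σ := ⟨_, rfl⟩
  have hG2 := hG.h2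
  rw [← hGd] at hG2
  have hG0 : 0 < G := lt_of_lt_of_le (by positivity) hG2
  have hX : ∀ k : T d L, ε ≤ -(xb false E ε k).im := by
    intro k
    unfold xb
    simp
  -- the symbol of the mean field
  have hden : ∀ k : T d L, xb false E ε k - (σ : ℂ) ^ 2 * m =
      ((adj k - Es d L E ε σ : ℝ) : ℂ) - (G : ℂ) * Complex.I := by
    intro k
    rw [hGd, hm]
    unfold xb Es Ga
    simp only [cond_false]
    rw [← Complex.ofReal_pow]
    apply Complex.ext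
    · simp only [Complex.sub_re, Complex.ofReal_re, Complex.re_ofReal_mul, Complex.I_re,
        mul_zero]
      ring
    · simp only [Complex.sub_im, Complex.ofReal_im, Complex.im_ofReal_mul, Complex.I_im, mul_one]
      ring
  have hnorm : ∀ k : T d L, ‖xb false E ε k - (σ : ℂ) ^ 2 * m‖ = JJ (Es d L E ε σ) G k := by
    intro k
    rw [hden, Complex.norm_def, Complex.normSq_apply]
    unfold JJ
    congr 1
    simp
    ring
  have hJG : ∀ k : T d L, G ≤ JJ (Es d L E ε σ) G k := by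
    intro k
    unfold JJ
    apply Real.le_sqrt_of_sq_le
    nlinarith [sq_nonneg (adj k - Es d L E ε σ)]
  have hmX : mX (d := d) (L := L) (xb false E ε) σ = m := by rw [hm]; rfl
  -- the equation
  have hsd : ∀ κ : T d L, (xb false E ε κ - (σ : ℂ) ^ 2 * m) * Rb (xb false E ε) σ κ =
      1 + (σ : ℂ) ^ 2 * Fk (xb false E ε) σ κ := by
    intro κ
    have h := (hSD d L (xb false E ε) ε σ hε hX κ).1
    rw [hmX] at h
    exact h
  have hpart : ∀ κ : T d L, ‖Rb (xb false E ε) σ κ‖ ≤ 2 / G ∧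
      ‖(σ : ℂ) ^ 2 * Fk (xb false E ε) σ κ‖ ≤ ζ / g := by
    intro κ
    have hb0 : BC fun V : T d L → ℝ => RE false E ε σ V 0 0 - m :=
      (bc hR false hε 0 0).sub (BC.const m)
    have hb1 : BC fun V : T d L → ℝ => (RE false E ε σ V *ᵥ fun z => star (e κ z)) 0 :=
      bcf hR false hε _ 0
    have c1 : ‖Fk (xb false E ε) σ κ‖ ≤ ∫ V, ‖RE false E ε σ V 0 0 - m‖ *
        ‖(RE false E ε σ V *ᵥ fun z => star (e κ z)) 0‖ ∂(GP (T d L)) := by
      rw [Fk_eq hR hε κ, ← hm]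
      refine (norm_integral_le_integral_norm _).trans (le_of_eq ?_)
      simp only [norm_mul]
    have c2 := cs_int (m := T d L) (gaussianReal 0 1)
      (a := fun V => ‖RE false E ε σ V 0 0 - m‖)
      (b := fun V => ‖(RE false E ε σ V *ᵥ fun z => star (e κ z)) 0‖)
      (RC.norm hb0).sq.integrable (RC.norm hb1).sq.integrable
      ((RC.norm hb0).mul (RC.norm hb1)).integrable
    have c3 : ‖Fk (xb false E ε) σ κ‖ ^ 2 ≤
        (∫ V, ‖RE false E ε σ V 0 0 - m‖ ^ 2 ∂(GP (T d L))) *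
        (‖Rb (xb false E ε) σ κ‖ / ε) := by
      refine (pow_le_pow_left₀ (norm_nonneg _) c1 2).trans (c2.trans ?_)
      refine mul_le_mul_of_nonneg_left ?_ (integral_nonneg fun V => by positivity)
      have c4 := mom hR (E := E) (σ := σ) hε κ
      refine (le_of_eq c4).trans ?_
      gcongr
      exact (le_abs_self _).trans (Complex.abs_im_le_norm _)
    have c5 : G * ‖Rb (xb false E ε) σ κ‖ ≤ 1 + σ ^ 2 * ‖Fk (xb false E ε) σ κ‖ := by
      calc G * ‖Rb (xb false E ε) σ κ‖ ≤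
          ‖xb false E ε κ - (σ : ℂ) ^ 2 * m‖ * ‖Rb (xb false E ε) σ κ‖ := by
            rw [hnorm]
            exact mul_le_mul_of_nonneg_right (hJG κ) (norm_nonneg _)
        _ = ‖1 + (σ : ℂ) ^ 2 * Fk (xb false E ε) σ κ‖ := by rw [← norm_mul, hsd]
        _ ≤ 1 + σ ^ 2 * ‖Fk (xb false E ε) σ κ‖ := by
            refine (norm_add_le _ _).trans (le_of_eq ?_)
            rw [norm_one, norm_mul, norm_pow, Complex.norm_real, Real.norm_eq_abs, sq_abs]
    rw [← hm] at hv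
    have c6 := num (σ := σ) (ε := ε) hσ hε hΛ0 hP.hg1 hm0 hS.hm1 hζ hS.hζ1 k1 hG2
      (norm_nonneg _) (norm_nonneg _) hv c5 c3
    refine ⟨c6.1, ?_⟩
    rw [norm_mul, norm_pow, Complex.norm_real, Real.norm_eq_abs, sq_abs]
    exact c6.2
  refine ⟨by rw [← hGd]; exact hpart, ?_⟩
  -- the mean
  have hbe : ∀ k : T d L, Rb (xb false E ε) σ k - be false E ε σ k =
      be false E ε σ k * ((σ : ℂ) ^ 2 * Fk (xb false E ε) σ k) := by
    intro k
    have d1 := hsd k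
    have d2 : xb false E ε k - (σ : ℂ) ^ 2 * m ≠ 0 := by
      intro h
      have d3 := hnorm k
      rw [h, norm_zero] at d3
      have := hJG k
      linarith
    unfold be
    rw [← hm, ← mul_right_inj' d2, mul_sub, d1, mul_inv_cancel_left₀ d2, mul_inv_cancel₀ d2]
    ring
  have hbn : ∀ k : T d L, ‖be false E ε σ k‖ = (JJ (Es d L E ε σ) G k)⁻¹ := by
    intro k
    unfold be
    rw [← hm, norm_inv, hnorm]
  have hfin : me d L false E ε σ - ((NN d L : ℝ) : ℂ)⁻¹ * ∑ k : T d L, be false E ε σ k =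
      ((NN d L : ℝ) : ℂ)⁻¹ * ∑ k : T d L,
        be false E ε σ k * ((σ : ℂ) ^ 2 * Fk (xb false E ε) σ k) := by
    have hN' : ((NN d L : ℝ) : ℂ) ≠ 0 := by exact_mod_cast hN.ne'
    rw [← Finset.sum_congr rfl fun k _ => hbe k, Finset.sum_sub_distrib, mul_sub,
      sum_Rb, inv_mul_cancel_left₀ hN']
  rw [hfin, norm_mul, norm_inv, Complex.norm_real, Real.norm_eq_abs, abs_of_pos hN]
  have h4 := hG.h4
  rw [← hGd] at h4
  calc (NN d L)⁻¹ * ‖∑ k : T d L, be false E ε σ k * ((σ : ℂ) ^ 2 * Fk (xb false E ε) σ k)‖ ≤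
      (NN d L)⁻¹ * ∑ k : T d L, (JJ (Es d L E ε σ) G k)⁻¹ * (ζ / g) := by
        gcongr
        refine (norm_sum_le _ _).trans (Finset.sum_le_sum fun k _ => ?_)
        rw [norm_mul, hbn]
        exact mul_le_mul_of_nonneg_left (hpart k).2
          (inv_nonneg.2 (hG0.le.trans (hJG k)))
    _ = (NN d L)⁻¹ * ((∑ k : T d L, (JJ (Es d L E ε σ) G k)⁻¹) * (ζ / g)) := by
        rw [Finset.sum_mul]
    _ ≤ (NN d L)⁻¹ * ((g * NN d L) * (ζ / g)) := by gcongr
    _ = ζ := by field_simp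

end Pool.Agent.T2h98.KU
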