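import Pool.Agent.T2h98.KU.KREA

/-! Task KRE: the mean of the diagonal, complex version. -/

set_option autoImplicit false
set_option linter.unusedSectionVars false

open scoped BigOperators Matrix Topology
open MeasureTheory ProbabilityTheory Filter

namespace Pool.Agent.T2h98.KU

open Pool.Agent.W788.MFP.Four (T e NN adj K)
open Pool.Agent.W788.BK (nsq hs PP JJ hi Low cr)
open Pool.Agent.T2h98.QD
open Pool.Agent.T2h98.AC (TX RX mX sy Rb Fk)

theorem kre (hG : T_KGE) (hRb : T_KRB) (hC : T_KCAU) : T_KRE := by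
  intro κ d hd h hh0 hh a ha c η hc hη
  obtain ⟨-, hC2⟩ := hC d hd
  obtain ⟨r, hr, hC3⟩ := hC2 (a / 4) (η / 2) (by positivity) (by positivity)
  obtain ⟨ζ, hζ⟩ : ∃ ζ : ℝ, ζ = min (1 / 4) (min (η / 2) r) := ⟨_, rfl⟩
  have hζ0 : 0 < ζ := by
    rw [hζ]
    exact lt_min (by norm_num) (lt_min (by positivity) hr)
  have hζ1 : ζ ≤ 1 / 4 := by rw [hζ]; exact min_le_left _ _
  have hζ2 : ζ ≤ η / 2 := by rw [hζ]; exact (min_le_right _ _).trans (min_le_left _ _)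
  have hζ3 : ζ ≤ r := by rw [hζ]; exact (min_le_right _ _).trans (min_le_right _ _)
  obtain ⟨m0, hm0, hm1, hev⟩ := hG κ d hd h hh0 hh a ha c ζ hc hζ0 hζ1
  have hmp : 0 < m0 ^ (1 + a / 4) := Real.rpow_pos_of_pos hm0 _
  filter_upwards [hev, self_mem_nhdsWithin, ev_sq (x := r / 2) (by positivity),
    ev_pow (p := a / 2) (x := m0 ^ (1 + a / 4)) (by positivity) hmp] with σ h1 h2 h3 h4
  have hσ : 0 < σ := h2
  intro L _ hL1 hL2 ε hε1 hε2 E hE
  obtain ⟨δ, t, Q, g, p0, Ω, hg, h5⟩ := h1 L hL1 hL2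
  obtain ⟨hP, hS, h6⟩ := h5 ε hε1 hε2
  obtain ⟨hGE, h7⟩ := h6 E hE
  have h8 := (hRb d L σ δ ε t Q g p0 m0 ζ E Ω hP hS hGE).2
  have hre : |(me d L false E ε σ).re| ≤ 2 * g := (Complex.abs_re_le_norm _).trans hGE.h1
  have him : |(me d L false E ε σ).im| ≤ 2 * g := (Complex.abs_im_le_norm _).trans hGE.h1
  have hk2 := hS.k2
  have hσ2 : 0 < σ ^ 2 := by positivity
  have hEs : |E - Es d L E ε σ| < r := by
    have e1 : E - Es d L E ε σ = -(σ ^ 2 * (me d L false E ε σ).re) := by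
      unfold Es
      ring
    rw [e1, abs_neg, abs_mul, abs_of_pos hσ2]
    have := mul_le_mul_of_nonneg_left hre hσ2.le
    nlinarith
  have hGa0 : 0 < Ga d L E ε σ := lt_of_lt_of_le (by positivity) hGE.h2
  have hGar : Ga d L E ε σ < r := by
    unfold Ga
    have h9 := mul_le_mul_of_nonneg_left ((le_abs_self _).trans him) hσ2.le
    nlinarith
  have hLG : 1 / (L : ℝ) ≤ Ga d L E ε σ ^ (1 + a / 4) := by
    refine (inv_L hσ hL1).trans ?_
    have e1 : σ ^ (2 + a) = σ ^ (a / 2) * (σ ^ 2) ^ (1 + a / 4) := by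
      rw [← Real.rpow_natCast σ 2, ← Real.rpow_mul hσ.le, ← Real.rpow_add hσ]
      congr 1
      push_cast
      ring
    rw [e1]
    calc σ ^ (a / 2) * (σ ^ 2) ^ (1 + a / 4) ≤ m0 ^ (1 + a / 4) * (σ ^ 2) ^ (1 + a / 4) :=
          mul_le_mul_of_nonneg_right h4.le (Real.rpow_nonneg hσ2.le _)
      _ = (m0 * σ ^ 2) ^ (1 + a / 4) := (Real.mul_rpow hm0.le hσ2.le).symm
      _ ≤ _ := Real.rpow_le_rpow (by positivity) hGE.h2 (by positivity)
  have h9 := (hC3 E (Es d L E ε σ) (Ga d L E ε σ) L hEs hGa0 hGar hLG).1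
  simp only [be_eq] at h8
  obtain ⟨z, hz⟩ : ∃ z, z = ((NN d L : ℝ) : ℂ)⁻¹ * ∑ k : T d L,
    (((adj k - Es d L E ε σ : ℝ) : ℂ) - ((Ga d L E ε σ : ℝ) : ℂ) * Complex.I)⁻¹ := ⟨_, rfl⟩
  rw [← hz] at h8 h9
  have e1 : me d L false E ε σ - cn d E = (me d L false E ε σ - z) + (z - cn d E) := by ring
  rw [e1]
  refine (norm_add_le _ _).trans ?_
  linarith

end Pool.Agent.T2h98.KU
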