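import Pool.Agent.T2h98.KU.KV

/-! Means which vanish by symmetry (KREF). -/

set_option autoImplicit false
set_option linter.unusedSectionVars false

open scoped BigOperators Matrix Topology
open MeasureTheory ProbabilityTheory Filter

namespace Pool.Agent.T2h98.KU

open Pool.Agent.W788.MFP.Four (T e NN adj K)
open Pool.Agent.W788.BK (nsq hs PP JJ hi Low cr)
open Pool.Agent.T2h98.QD
open Pool.Agent.T2h98.AC (TX RX mX sy Rb Fk)

namespace KREFh

open KVh

variable {d L : ℕ} [NeZero L]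

theorem rf_zero (i : Fin d) : rf i (0 : T d L) = 0 := by
  funext j
  by_cases h : j = i
  · subst h
    rw [rf_same, Pi.zero_apply, neg_zero]
  · rw [rf_ne h]

theorem int_zero (i : Fin d) (F : (T d L → ℝ) → ℂ)
    (hinv : ∀ (F : (T d L → ℝ) → ℂ), ∫ V, F (fun z => V (rf i z)) ∂(GP (T d L)) =
      ∫ V, F V ∂(GP (T d L))) (hF : ∀ V, F (fun z => V (rf i z)) = -F V) :
    ∫ V, F V ∂(GP (T d L)) = 0 := by
  have h1 := hinv F
  simp only [hF] at h1
  rw [integral_neg] at h1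
  have h2 : (2 : ℂ) * ∫ V, F V ∂(GP (T d L)) = 0 := by linear_combination -h1
  rcases mul_eq_zero.1 h2 with h3 | h3
  · exact absurd h3 two_ne_zero
  · exact h3

theorem prod_sub (i : Fin d) {A v B A' v' B' : Matrix (T d L) (T d L) ℂ}
    (hA : ∀ x y, A' x y = A (rf i x) (rf i y)) (hv : ∀ x y, v' x y = -v (rf i x) (rf i y))
    (hB : ∀ x y, B' x y = B (rf i x) (rf i y)) :
    (A' * v' * B' : Matrix (T d L) (T d L) ℂ) 0 0 = -(A * v * B : Matrix (T d L) (T d L) ℂ) 0 0 := by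
  have h1 : A' = A.submatrix (rfE i) (rfE i) := by
    ext x y
    exact hA x y
  have h2 : v' = -(v.submatrix (rfE i) (rfE i)) := by
    ext x y
    exact hv x y
  have h3 : B' = B.submatrix (rfE i) (rfE i) := by
    ext x y
    exact hB x y
  rw [h1, h2, h3, Matrix.mul_neg, Matrix.neg_mul, Matrix.submatrix_mul_equiv,
    Matrix.submatrix_mul_equiv, Matrix.neg_apply, Matrix.submatrix_apply]
  have h4 : (rfE i) (0 : T d L) = 0 := rf_zero i
  rw [h4]

end KREFh

open KVh KREFh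

theorem kref (hR : T_KR) (hV : T_KV) : T_KREF := by
  intro d L _ j i b E₁ E₂ ε σ hε
  refine ⟨?_, ?_, ?_⟩
  · obtain ⟨-, -, -, -, hv5, -, -, hv8, -⟩ := hV d L i
    refine int_zero i _ hv8 fun V => ?_
    unfold Uk
    refine prod_sub i ?_ ?_ ?_
    · exact fun x y => (hR d L false E₁ ε σ hε).2.2.2.2.2.2.2.2.2.1 V i x y
    · intro x y
      rw [hv5, neg_neg]
    · exact fun x y => (hR d L b E₂ ε σ hε).2.2.2.2.2.2.2.2.2.1 V i x y
  · obtain ⟨-, -, -, -, hv5, -, hv7, hv8, -⟩ := hV d L j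
    refine int_zero j _ hv8 fun V => ?_
    unfold Wk
    refine prod_sub j ?_ ?_ ?_
    · exact fun x y => (hR d L b E₂ ε σ hε).2.2.2.2.2.2.2.2.2.1 V j x y
    · intro x y
      rw [hv5, neg_neg]
    · intro x y
      rw [hv7]
  · intro hij
    unfold tk
    have h1 : ∑ k : T d L, ((2 * sn (k j) : ℝ) : ℂ) * ((2 * sn (k i) : ℝ) : ℂ) *
        be false E₁ ε σ k * be b E₂ ε σ k = -∑ k : T d L, ((2 * sn (k j) : ℝ) : ℂ) *
        ((2 * sn (k i) : ℝ) : ℂ) * be false E₁ ε σ k * be b E₂ ε σ k := by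
      conv_lhs => rw [← Equiv.sum_comp (rfE i)]
      rw [← Finset.sum_neg_distrib]
      refine Finset.sum_congr rfl fun k _ => ?_
      change ((2 * sn (rf i k j) : ℝ) : ℂ) * ((2 * sn (rf i k i) : ℝ) : ℂ) *
        be false E₁ ε σ (rf i k) * be b E₂ ε σ (rf i k) = _
      rw [rf_ne hij.symm, rf_same, sn_neg, be_rf, be_rf]
      push_cast
      ring
    have h2 : (2 : ℂ) * ∑ k : T d L, ((2 * sn (k j) : ℝ) : ℂ) * ((2 * sn (k i) : ℝ) : ℂ) *
        be false E₁ ε σ k * be b E₂ ε σ k = 0 := by linear_combination h1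
    rcases mul_eq_zero.1 h2 with h3 | h3
    · exact absurd h3 two_ne_zero
    · rw [h3, mul_zero]

end Pool.Agent.T2h98.KU
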