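import Pool.Agent.T2h98.KU.Stm
import Pool.Agent.T2h98.QD.Scal3

/-! Choice of the parameters, tori of any polynomial size. -/

set_option autoImplicit false
set_option linter.unusedSectionVars false
set_option linter.unusedVariables false

open scoped BigOperators Topology
open MeasureTheory ProbabilityTheory Filter

namespace Pool.Agent.T2h98.KU

open Pool.Agent.W788.MFP.Four (T e NN adj K)
open Pool.Agent.W788.BK (nsq hs PP JJ hi Low S_QB S_LOW)
open Pool.Agent.T2h98.QD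

namespace ScalK

open ScalA ScalB ScalC

theorem core (hprob : T_PROB3) (hemb : T_EMB3) (κ : ℕ) (β : ℝ) (hβ : β = 1) (d : ℕ)
    (hd : 3 ≤ d) (h : ℝ) (hh0 : 0 < h) (hh : h < cd d / 3) (a : ℝ) (ha : 0 < a)
    (m0 ζ : ℝ) (hm0 : 0 < m0) (hm01 : m0 ≤ 1) (hζ : 0 < ζ) (hζ4 : ζ ≤ 1 / 4) : ∀ᶠ y in atTop,
    ∀ (L : ℕ) [NeZero L], ee y (-2 - a) ≤ (L : ℝ) → (L : ℝ) ≤ ee y (-(κ : ℝ)) →
    ∃ (δ t Q g p0 : ℝ) (Ω : Set (T d L → ℝ)),
    (∀ E' Γ : ℝ, m0 * ee y 1 ^ 2 ≤ Γ → ∑ k : T d L, (JJ E' Γ k)⁻¹ ≤ g * NN d L) ∧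
    g ≤ ee y (-(1 / 100)) ∧
    ∀ ε : ℝ, ee y (2 + h) ≤ ε → ε ≤ ee y 1 ^ 2 →
      ParK d L (ee y 1) δ ε t Q g p0 Ω ∧ SmK (ee y 1) ε δ Q g m0 ζ := by
  have hβ0 : 0 ≤ β := by rw [hβ]; norm_num
  replace hh : h < cd d / (2 + β) := by
    rw [hβ]
    norm_num
    linarith
  obtain ⟨C1, hC1, hemb⟩ := hemb d hd (a / 2) (by positivity)
  have h2β : 0 < 2 + β := by linarith
  obtain ⟨c, hc⟩ : ∃ c : ℝ, c = cd d := ⟨_, rfl⟩
  have hc0 : 0 < c := by rw [hc]; exact cd_pos d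
  have hc2 : c ≤ 2 := by rw [hc]; exact cd_le d
  have h7 : (2 + β) * h < c := by
    rw [← hc, lt_div_iff₀ h2β] at hh
    linarith
  have hh1 : h < 1 := by
    by_contra hcon
    push Not at hcon
    nlinarith
  obtain ⟨s, hs⟩ : ∃ s : ℝ, s = min (1 / 100) ((c - (2 + β) * h) / 4) := ⟨_, rfl⟩
  have hs0 : 0 < s := by
    rw [hs]
    exact lt_min (by norm_num) (by linarith)
  have hs1 : s ≤ 1 / 100 := by rw [hs]; exact min_le_left _ _
  have hs2 : s ≤ (c - (2 + β) * h) / 4 := by rw [hs]; exact min_le_right _ _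
  obtain ⟨D, hD⟩ : ∃ D : ℝ, D = c - (2 + β) * h - 2 * s := ⟨_, rfl⟩
  have hD0 : 0 < D := by rw [hD]; linarith
  obtain ⟨C2, hC2⟩ : ∃ C2, C2 = 2 + 8 * Pool.Agent.W788.MFP.Dos.C3 := ⟨_, rfl⟩
  have hC20 : 0 < C2 := by
    rw [hC2]
    unfold Pool.Agent.W788.MFP.Dos.C3
    norm_num
  obtain ⟨m1, hm1⟩ : ∃ m1 : ℝ, m1 = min 1 m0 := ⟨_, rfl⟩
  have hm10 : 0 < m1 := by rw [hm1]; exact lt_min one_pos hm0
  have hm11 : m1 ≤ 1 := by rw [hm1]; exact min_le_left _ _
  have hm12 : m1 ≤ m0 := by rw [hm1]; exact min_le_right _ _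
  obtain ⟨A1, hA1⟩ : ∃ A1 : ℝ, A1 = 1 + 128 * C1 := ⟨_, rfl⟩
  obtain ⟨G, hG⟩ : ∃ G : ℝ, G = 1 + 3 * C2 := ⟨_, rfl⟩
  have hA10 : 0 < A1 := by rw [hA1]; positivity
  have hG0 : 0 < G := by rw [hG]; positivity
  obtain ⟨A, hA⟩ : ∃ A : ℝ, A = 10 ^ 7 * A1 * G ^ 4 := ⟨_, rfl⟩
  obtain ⟨KK, hKK⟩ : ∃ KK : ℕ, KK = max κ 40 := ⟨_, rfl⟩
  have hKκ : (κ : ℝ) ≤ KK := by
    rw [hKK]
    exact_mod_cast le_max_left _ _
  have hK40 : (40 : ℝ) ≤ KK := by
    rw [hKK]
    exact_mod_cast le_max_right _ _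
  obtain ⟨y0, hy01, hy0⟩ := hprob d KK s hd hs0 hs1
  -- eventual facts
  have ev1 : ∀ᶠ y : ℝ in atTop, 1 ≤ y ∧ y0 ≤ y := (eventually_ge_atTop 1).and
    (eventually_ge_atTop y0)
  have ev2 : ∀ᶠ y : ℝ in atTop, m1⁻¹ ≤ Real.exp (min 1 a * y) :=
    (Real.tendsto_exp_atTop.comp (tendsto_id.const_mul_atTop
      (lt_min one_pos ha))).eventually_ge_atTop _
  have evg : ∀ (B D ξ : ℝ) (n : ℕ), 0 < D → 0 < ξ →
      ∀ᶠ y : ℝ in atTop, B * y ^ n * ee y D ≤ ξ := by
    intro B D ξ n hD0 hξ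
    have h1 := Real.tendsto_pow_mul_exp_neg_atTop_nhds_zero n
    have h2 : Tendsto (fun y : ℝ => D * y) atTop atTop := tendsto_id.const_mul_atTop hD0
    have h3 := (h1.comp h2).const_mul (B * (D⁻¹) ^ n)
    rw [mul_zero] at h3
    filter_upwards [h3.eventually (gt_mem_nhds hξ)] with y hy
    simp only [Function.comp_apply] at hy
    have h6 : B * (D⁻¹) ^ n * ((D * y) ^ n * Real.exp (-(D * y))) =
        B * y ^ n * ee y D := by
      unfold ee
      rw [mul_pow, inv_pow]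
      have : D ^ n ≠ 0 := by positivity
      field_simp
    rw [h6] at hy
    exact hy.le
  have ev4 := evg A D (m0 ^ 3 * ζ ^ 2) 11 hD0 (by positivity)
  have ev5 := evg (4 * G) 2 ζ 1 (by norm_num) hζ
  have ev6 := evg (3 * G) s 1 1 hs0 one_pos
  have ev7 := evg G (1 / 100) 1 1 (by norm_num) one_pos
  filter_upwards [ev1, ev2, ev4, ev5, ev6, ev7] with y hy1 hy2 hy4 hy5 hy6 hy7'
  obtain ⟨hy1, hyy0⟩ := hy1
  have hy : 0 < y := by linarith
  intro L hNZ L1 L2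
  obtain ⟨σ, hσ⟩ : ∃ σ, σ = ee y 1 := ⟨_, rfl⟩
  rw [← hσ]
  obtain ⟨δ, hδ⟩ : ∃ δ, δ = ee y (2 - s) := ⟨_, rfl⟩
  obtain ⟨Q, hQ⟩ : ∃ Q, Q = max 1 (C1 * ke d δ) := ⟨_, rfl⟩
  have hσ0 : 0 < σ := by rw [hσ]; exact ee_pos _ _
  have hσ1 : σ ≤ 1 := by rw [hσ]; exact ee_one_le hy.le (by norm_num)
  have hδ0 : 0 < δ := by rw [hδ]; exact ee_pos _ _
  have hσ2 : σ ^ 2 = ee y 2 := by rw [hσ, ee_nat]; norm_num
  have hσ20 : 0 < σ ^ 2 := by positivity
  obtain ⟨x, hx⟩ : ∃ x, x = m1 * σ ^ 2 := ⟨_, rfl⟩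
  have hx0 : 0 < x := by rw [hx]; positivity
  have hσ12 : σ ^ 2 ≤ 1 / 2 := by
    rw [hσ2]
    exact le_half hy1 (by norm_num)
  have hxσ : x ≤ σ ^ 2 := by
    rw [hx]
    exact mul_le_of_le_one_left hσ20.le hm11
  obtain ⟨g, hg⟩ : ∃ g, g = max 1 (C2 * Real.log (1 / x)) := ⟨_, rfl⟩
  have hg1 : 1 ≤ g := by rw [hg]; exact le_max_left _ _
  have hQ1 : 1 ≤ Q := by rw [hQ]; exact le_max_left _ _
  have hσδ : σ ^ 2 ≤ δ := by
    rw [hσ2, hδ]
    exact ee_anti hy.le (by linarith)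
  have hexp1 : Real.exp (min 1 a * y) ≤ Real.exp y := by
    apply Real.exp_le_exp.2
    have := mul_le_mul_of_nonneg_right (min_le_left 1 a) hy.le
    linarith
  have hexp2 : Real.exp (min 1 a * y) ≤ ee y (-a) := by
    unfold ee
    apply Real.exp_le_exp.2
    have := mul_le_mul_of_nonneg_right (min_le_right 1 a) hy.le
    linarith
  have hlx : Real.log (1 / x) ≤ 3 * y := by
    have e1 : 1 / x = m1⁻¹ * ee y (-2) := by
      rw [hx, hσ2, ee_neg, one_div, mul_inv]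
    rw [e1, Real.log_mul (by positivity) (ee_pos _ _).ne']
    have e2 : Real.log m1⁻¹ ≤ y := by
      rw [Real.log_le_iff_le_exp (by positivity)]
      exact hy2.trans hexp1
    have e3 : Real.log (ee y (-2)) = 2 * y := by
      unfold ee
      rw [Real.log_exp]
      ring
    linarith
  have hgle : g ≤ G * y := by
    rw [hg, hG]
    apply max_le
    · have : 0 ≤ C2 * y := by positivity
      linarith
    · have := mul_le_mul_of_nonneg_left hlx hC20.le
      linarith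
  have hLpos : (0 : ℝ) < L := by exact_mod_cast Nat.pos_of_ne_zero (NeZero.ne L)
  have hLx : 1 / (L : ℝ) ≤ x := by
    have h1 : 1 / (L : ℝ) ≤ ee y (2 + a) := by
      rw [one_div]
      refine (inv_anti₀ (ee_pos _ _) L1).trans (le_of_eq ?_)
      rw [← ee_neg]
      congr 1
      ring
    refine h1.trans ?_
    rw [hx, hσ2, ee_add, mul_comm m1]
    apply mul_le_mul_of_nonneg_left _ (ee_pos _ _).le
    have h3 := inv_anti₀ (by positivity) (hy2.trans hexp2)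
    rw [inv_inv, ← ee_neg, neg_neg] at h3
    exact h3
  have hgreen : ∀ E' Γ : ℝ, x ≤ Γ → ∑ k : T d L, (JJ E' Γ k)⁻¹ ≤ g * NN d L := by
    intro E' Γ hΓ
    have h1 := Pool.Agent.W788.MFP.Dos.green (L := L) d hd E' x hLx (hxσ.trans hσ12)
    have hN := Pool.Agent.W788.MFP.Four.NN_pos (d := d) (L := L)
    rw [inv_mul_le_iff₀ hN, ← hC2] at h1
    calc ∑ k : T d L, (JJ E' Γ k)⁻¹ ≤ ∑ k : T d L, (JJ E' x k)⁻¹ :=
          Finset.sum_le_sum fun k _ => JJ_mono hx0 hΓ k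
      _ ≤ _ := h1
      _ ≤ _ := by
        rw [mul_comm]
        refine mul_le_mul_of_nonneg_right ?_ hN.le
        rw [hg]
        exact le_max_right _ _
  -- Q
  obtain ⟨hk0, hk1⟩ := ke_le (s := s) hy1 hs0 (by linarith) d
  rw [← hδ] at hk0 hk1
  rw [← hc] at hk1
  have heb : 1 ≤ ee y (-(2 - c)) := by
    have := ee_anti hy.le (show -(2 - c) ≤ 0 by linarith)
    rwa [ee_zero] at this
  have hy7 : 1 ≤ y ^ 7 := one_le_pow₀ hy1
  have hQ2 : Q ≤ (1 + 128 * C1) * y ^ 7 * ee y (-(2 - c)) := by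
    have e1 : 1 ≤ y ^ 7 * ee y (-(2 - c)) := one_le_mul_of_one_le_of_one_le hy7 heb
    have e3 := mul_le_mul_of_nonneg_left hk1 hC1.le
    have e4 : 0 ≤ C1 * (128 * y ^ 7 * ee y (-(2 - c))) := by
      have := ee_pos y (-(2 - c))
      positivity
    have e5 : (1 + 128 * C1) * y ^ 7 * ee y (-(2 - c)) =
        y ^ 7 * ee y (-(2 - c)) + C1 * (128 * y ^ 7 * ee y (-(2 - c))) := by ring
    rw [hQ, e5]
    apply max_le
    · linarith
    · linarith
  have hQpos : 0 < Q := by linarith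
  have hδ12 : δ ≤ 1 / 2 := by
    rw [hδ]
    exact le_half hy1 (by linarith)
  have hL3 : Real.exp ((2 - s) * y) ≤ L := by
    refine le_trans ?_ L1
    unfold ee
    apply Real.exp_le_exp.2
    have : 0 ≤ (a + s) * y := by positivity
    linarith
  have hL14 : (L : ℝ) ≤ Real.exp ((KK : ℝ) * y) := by
    refine L2.trans ?_
    unfold ee
    apply Real.exp_le_exp.2
    have := mul_le_mul_of_nonneg_right hKκ hy.le
    linarith
  have hδL : (1 / δ) ^ (1 + a / 2) ≤ (L : ℝ) := by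
    refine le_trans ?_ L1
    rw [one_div, hδ, ← ee_neg]
    unfold ee
    rw [← Real.exp_mul]
    apply Real.exp_le_exp.2
    have : 0 ≤ s * (1 + a / 2) * y := by positivity
    linarith
  obtain ⟨Ω, hΩ, hΩP, hgood⟩ := hy0 y hyy0 L hL3 hL14
  refine ⟨δ, Real.exp y / 2, Q, g, Real.exp (-(KK : ℝ) * y), Ω, fun E' Γ hΓ =>
    hgreen E' Γ (le_trans ?_ hΓ), ?_, fun ε hε1 hεσ => ?_⟩
  · rw [hx]
    exact mul_le_mul_of_nonneg_right hm12 hσ20.le
  · have e1 : ee y (1 / 100) * ee y (-(1 / 100)) = 1 := by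
      rw [← ee_add]
      norm_num [ee_zero]
    have e2 := ee_pos y (-(1 / 100))
    refine hgle.trans ?_
    have e3 := mul_le_mul_of_nonneg_right hy7' e2.le
    calc G * y = G * y ^ 1 * (ee y (1 / 100) * ee y (-(1 / 100))) := by rw [e1]; ring
      _ = G * y ^ 1 * ee y (1 / 100) * ee y (-(1 / 100)) := by ring
      _ ≤ _ := by
        rw [one_mul] at e3
        exact e3
  have hε0 : 0 < ε := lt_of_lt_of_le (ee_pos _ _) hε1
  have r1 : σ ^ 2 / ε ≤ ee y (-h) := by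
    rw [div_le_iff₀ hε0, hσ2]
    calc ee y 2 = ee y (-h) * ee y (2 + h) := by
          rw [← ee_add]
          congr 1
          ring
      _ ≤ _ := mul_le_mul_of_nonneg_left hε1 (ee_pos _ _).le
  have r2 : 1 ≤ σ ^ 2 / ε := by rwa [one_le_div₀ hε0]
  have r3 : δ / ε ≤ ee y (-(h + s)) := by
    rw [div_le_iff₀ hε0, hδ]
    calc ee y (2 - s) = ee y (-(h + s)) * ee y (2 + h) := by
          rw [← ee_add]
          congr 1
          ring
      _ ≤ _ := mul_le_mul_of_nonneg_left hε1 (ee_pos _ _).le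
  have hεδ : ε ≤ δ := hεσ.trans hσδ
  have r4 : 1 ≤ δ / ε := by rwa [one_le_div₀ hε0]
  -- X
  have hX : σ ^ 2 * Q * (δ / ε) ^ 2 ≤ A1 * y ^ 7 * ee y (c - 2 * (h + s)) := by
    have e1 : c - 2 * (h + s) = 2 + -(2 - c) + (-(h + s) + -(h + s)) := by ring
    rw [hσ2, e1, ee_add, ee_add, ee_add, hA1]
    calc ee y 2 * Q * (δ / ε) ^ 2
        ≤ ee y 2 * ((1 + 128 * C1) * y ^ 7 * ee y (-(2 - c))) *
          (ee y (-(h + s))) ^ 2 := by
          have := ee_pos y 2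
          gcongr
      _ = _ := by ring
  have hX0 : 0 ≤ σ ^ 2 * Q * (δ / ε) ^ 2 := by positivity
  obtain ⟨X, hXX⟩ : ∃ X, X = σ ^ 2 * Q * (δ / ε) ^ 2 := ⟨_, rfl⟩
  rw [← hXX] at hX hX0
  have main : 10 ^ 7 * X * (σ ^ 2 / ε) * g ^ 4 ≤ m0 ^ 3 * ζ ^ 2 := by
    refine le_trans ?_ hy4
    have e1 : D = (c - 2 * (h + s)) + -h := by rw [hD, hβ]; ring
    have hg2 : g ^ 4 ≤ (G * y) ^ 4 := pow_le_pow_left₀ (by linarith) hgle 4
    calc 10 ^ 7 * X * (σ ^ 2 / ε) * g ^ 4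
        ≤ 10 ^ 7 * (A1 * y ^ 7 * ee y (c - 2 * (h + s))) * ee y (-h) * (G * y) ^ 4 := by
          have := ee_pos y (c - 2 * (h + s))
          have := ee_pos y (-h)
          gcongr
      _ = A * y ^ 11 * ee y D := by
          rw [e1, ee_add, hA]
          ring
  have hh23 : h ≤ 2 / 3 := by
    rw [hβ] at h7
    linarith
  have hp0 : Real.exp (-(KK : ℝ) * y) ≤ ε ^ 12 := by
    have h4 : Real.exp (-(KK : ℝ) * y) = ee y KK := by
      unfold ee
      congr 1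
      ring
    rw [h4]
    calc ee y KK ≤ ee y (((12 : ℕ) : ℝ) * (2 + h)) := ee_anti hy.le (by push_cast; linarith)
      _ = ee y (2 + h) ^ 12 := (ee_nat _ _ _).symm
      _ ≤ ε ^ 12 := pow_le_pow_left₀ (ee_pos _ _).le hε1 12
  refine ⟨?_, ?_⟩
  · exact {
      hσ := hσ0
      hσ1 := hσ1
      hε := hε0
      hεσ := hεσ
      hσδ := hσδ
      hδ1 := by linarith
      ht := by positivity
      hσt := by
        rw [hσ]
        unfold ee
        rw [one_mul, Real.exp_neg]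
        have := Real.exp_pos y
        apply le_of_eq
        field_simp
      hQ1 := hQ1
      hQ := fun E a b => by
        refine (hemb L E δ hδ0 hδ12 hδL a b).trans ?_
        have h1 : ∀ w : T d L → ℂ, 0 ≤ qf (J0 E δ) w := fun w =>
          (mul_nonneg hδ0.le (Pool.Agent.W788.BK.nsq_nonneg w)).trans (KERS.nsq_le hδ0 w)
        refine mul_le_mul_of_nonneg_right ?_ (mul_nonneg (h1 a) (h1 b))
        rw [hQ]
        exact le_max_right _ _
      hg1 := hg1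
      hg := fun E' => hgreen E' δ (hxσ.trans hσδ)
      hp0 := (Real.exp_pos _).le
      hp := hp0
      hΩ := hΩ
      hP := hΩP
      hgood := fun ξ hξ E w => by
        have h1 := hgood ξ hξ E w
        have h2 : Real.exp (-(2 - s) * y) = δ := by
          rw [hδ]
          unfold ee
          rw [neg_mul]
        rw [h2] at h1
        exact h1 }
  · exact {
      hm0 := hm0
      hm1 := hm01
      hζ := hζ
      hζ1 := hζ4
      k1 := by
        rw [← hXX]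
        exact main
      k2 := by
        refine le_trans ?_ hy5
        rw [hσ2]
        have := ee_pos y 2
        calc 4 * ee y 2 * g ≤ 4 * ee y 2 * (G * y) := by gcongr
          _ = _ := by ring
      k3 := by
        have e0 : 1 ≤ G * y := by
          have e1 : 1 ≤ G := by rw [hG]; linarith
          calc (1 : ℝ) = 1 * 1 := (one_mul 1).symm
            _ ≤ G * y := mul_le_mul e1 hy1 zero_le_one hG0.le
        have e1 : ee y 2 = ee y s * ee y (2 - s) := by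
          rw [← ee_add]
          congr 1
          ring
        have e2 := ee_pos y (2 - s)
        have e3 := ee_pos y s
        have e4 := mul_le_mul_of_nonneg_right hy6 e2.le
        rw [hσ2, hδ]
        calc (1 + 2 * g) * ee y 2 ≤ (3 * (G * y)) * ee y 2 := by
              have := ee_pos y 2
              apply mul_le_mul_of_nonneg_right _ this.le
              linarith
          _ = 3 * G * y ^ 1 * ee y s * ee y (2 - s) := by
              rw [e1]
              ring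
          _ ≤ 1 * ee y (2 - s) := e4
          _ = _ := one_mul _ }

end ScalK

theorem kscal (hprob : T_PROB3) (hemb : T_EMB3) : T_KSCAL := by
  intro κ d hd h hh0 hh a ha m0 ζ hm0 hm1 hζ hζ4
  have h1 := ScalK.core hprob hemb κ 1 rfl d hd h hh0 hh a ha m0 ζ hm0 hm1 hζ hζ4
  have h2 : Tendsto (fun σ : ℝ => -Real.log σ) (𝓝[>] (0 : ℝ)) atTop :=
    tendsto_neg_atBot_atTop.comp Real.tendsto_log_nhdsGT_zero
  filter_upwards [h2.eventually h1, self_mem_nhdsWithin] with σ hσ hσ0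
  have h3 : ∀ p : ℝ, ScalA.ee (-Real.log σ) p = σ ^ p := by
    intro p
    unfold ScalA.ee
    rw [Real.rpow_def_of_pos hσ0]
    congr 1
    ring
  simp only [h3, Real.rpow_one] at hσ
  exact hσ

end Pool.Agent.T2h98.KU
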