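import Pool.Agent.T2h98.KU.Com62

/-! The variance of the diagonal of the resolvent (helper62). -/

set_option autoImplicit false
set_option linter.all false

open scoped BigOperators Matrix Topology
open MeasureTheory ProbabilityTheory Filter

namespace Pool.Agent.T2h98.KU

open Pool.Agent.W788.MFP.Four (T e NN adj K)
open Pool.Agent.W788.BK (nsq hs PP JJ hi Low cr nsq_nonneg)
open Pool.Agent.W240.BK (BC BM cs_int)
open Pool.Agent.T2h98.QD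
open Pool.Agent.T2h98.AC (TX RX mX sy Rb Fk)
open Com

/-- `σ² ≤ Λ` -/
theorem Com.sig_le {σ δ ε Q : ℝ} (hε : 0 < ε) (hεδ : ε ≤ δ) (hQ1 : 1 ≤ Q) :
    σ ^ 2 ≤ σ ^ 2 * Q * (δ / ε) ^ 2 := by
  have h1 : 1 ≤ δ / ε := by rwa [one_le_div hε]
  have h2 : 1 ≤ (δ / ε) ^ 2 := by nlinarith
  have h3 : 1 ≤ Q * (δ / ε) ^ 2 := by nlinarith
  nlinarith [sq_nonneg σ]

theorem kv1 (hR : T_KR) (hQ : T_KQ2) (hP : T_POIN) : T_KV1 := by
  intro d L _ σ δ ε t Q g p0 Ω hp hΛ b E hme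
  have hσ := hp.hσ
  have hε := hp.hε
  have hεδ : ε ≤ δ := hp.hεσ.trans hp.hσδ
  have hδ : 0 < δ := hε.trans_le hεδ
  have hε1 : ε ≤ 1 := hεδ.trans hp.hδ1
  have hg1 := hp.hg1
  have hQ1 := hp.hQ1
  obtain ⟨Λ, hΛd⟩ : ∃ Λ, Λ = σ ^ 2 * Q * (δ / ε) ^ 2 := ⟨_, rfl⟩
  rw [← hΛd] at hΛ ⊢
  have hsΛ : σ ^ 2 ≤ Λ := by rw [hΛd]; exact sig_le hε hεδ hQ1
  have hΛ0 : 0 < Λ := (by positivity : (0 : ℝ) < σ ^ 2).trans_le hsΛ
  -- the derivative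
  have hgd : GD (fun V : T d L → ℝ => RE b E ε σ V 0 0)
      (fun y V => -((σ : ℂ) * (RE b E ε σ V 0 y * RE b E ε σ V y 0))) := md hR hε b E 0 0
  have hbc := hgd.bF
  have hSRC : RC fun V : T d L → ℝ =>
      ∑ y, ‖-((σ : ℂ) * (RE b E ε σ V 0 y * RE b E ε σ V y 0))‖ ^ 2 :=
    RC.sum _ fun y _ => (RC.norm (hgd.bD y)).sq
  have hS : ∀ V : T d L → ℝ, ∑ y, ‖-((σ : ℂ) * (RE b E ε σ V 0 y * RE b E ε σ V y 0))‖ ^ 2 =
      σ ^ 2 * ∑ y, ‖(RE b E ε σ V *ᵥ dl 0) y‖ ^ 2 * ‖(RE b E ε σ V *ᵥ dl 0) y‖ ^ 2 := by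
    intro V
    rw [Finset.mul_sum]
    refine Finset.sum_congr rfl fun y _ => ?_
    rw [mv_dl, symm hR hε b E V 0 y, norm_neg, norm_mul, norm_mul, Complex.norm_real,
      Real.norm_of_nonneg hσ.le]
    ring
  have hG : RC fun V : T d L → ℝ => 32 * Λ * (g ^ 2 + ‖RE b E ε σ V 0 0‖ ^ 2) :=
    (RC.const _).mul ((RC.const _).add (RC.norm hbc).sq)
  have h1 := split (m := T d L) (S := fun V => ∑ y,
      ‖-((σ : ℂ) * (RE b E ε σ V 0 y * RE b E ε σ V y 0))‖ ^ 2)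
    (G := fun V => 32 * Λ * (g ^ 2 + ‖RE b E ε σ V 0 0‖ ^ 2)) hp.hΩ hSRC.integrable
    hG.integrable (fun V => by positivity) (B := σ ^ 2 * (1 / ε ^ 2) ^ 2) (p0 := p0)
    (by positivity) ?_ hp.hP ?_
  · -- conclusion
    have h2 : var (fun V : T d L → ℝ => RE b E ε σ V 0 0) ≤
        ∫ V, ∑ y, ‖-((σ : ℂ) * (RE b E ε σ V 0 y * RE b E ε σ V y 0))‖ ^ 2 ∂(GP (T d L)) := by
      refine (poin' hP hgd).trans (le_of_eq ?_)
      rw [← integral_finsetSum _ fun y _ => (RC.norm (hgd.bD y)).sq.integrable]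
    have h3 : ∫ V : T d L → ℝ, 32 * Λ * (g ^ 2 + ‖RE b E ε σ V 0 0‖ ^ 2) ∂(GP (T d L)) =
        32 * Λ * (g ^ 2 + ∫ V : T d L → ℝ, ‖RE b E ε σ V 0 0‖ ^ 2 ∂(GP (T d L))) := by
      rw [integral_const_mul, integral_add (integrable_const _) (RC.norm hbc).sq.integrable,
        integral_const, probReal_univ, one_smul]
    have h4 := sq_mean hbc
    have h5 : ∫ V : T d L → ℝ, RE b E ε σ V 0 0 ∂(GP (T d L)) = me d L b E ε σ := rfl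
    have h6 : var (fun V : T d L → ℝ => RE b E ε σ V 0 0) =
        ∫ V : T d L → ℝ, ‖RE b E ε σ V 0 0 - me d L b E ε σ‖ ^ 2 ∂(GP (T d L)) := rfl
    rw [h5] at h4
    have h7 : ‖me d L b E ε σ‖ ≤ 2 * g := by
      rw [me_norm hR hε b E]
      exact hme
    have h8 : ‖me d L b E ε σ‖ ^ 2 ≤ 4 * g ^ 2 := by
      have := pow_le_pow_left₀ (norm_nonneg _) h7 2
      linarith [this, (by ring : (2 * g) ^ 2 = 4 * g ^ 2)]
    have h1' : ∫ V : T d L → ℝ, ∑ y, ‖-((σ : ℂ) * (RE b E ε σ V 0 y * RE b E ε σ V y 0))‖ ^ 2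
        ∂(GP (T d L)) ≤
        32 * Λ * (g ^ 2 + ∫ V : T d L → ℝ, ‖RE b E ε σ V 0 0‖ ^ 2 ∂(GP (T d L))) +
          σ ^ 2 * (1 / ε ^ 2) ^ 2 * p0 := by
      rw [← h3]
      exact h1
    have h9 : σ ^ 2 * (1 / ε ^ 2) ^ 2 * p0 ≤ Λ := by
      have h10 : σ ^ 2 * (1 / ε ^ 2) ^ 2 * p0 ≤ σ ^ 2 * (1 / ε ^ 2) ^ 2 * ε ^ 12 :=
        mul_le_mul_of_nonneg_left hp.hp (by positivity)
      have h11 : σ ^ 2 * (1 / ε ^ 2) ^ 2 * ε ^ 12 = σ ^ 2 * ε ^ 8 := by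
        field_simp
      have h12 : ε ^ 8 ≤ 1 := pow_le_one₀ hε.le hε1
      have h13 : σ ^ 2 * ε ^ 8 ≤ σ ^ 2 * 1 := mul_le_mul_of_nonneg_left h12 (sq_nonneg _)
      linarith
    set v := var (fun V : T d L → ℝ => RE b E ε σ V 0 0) with hv
    have hv0 : 0 ≤ v := var_nonneg _
    set I := ∫ V : T d L → ℝ, ‖RE b E ε σ V 0 0‖ ^ 2 ∂(GP (T d L)) with hI
    rw [← h6]
    have h14 : v ≤ 32 * Λ * (g ^ 2 + I) + Λ := (h2.trans h1').trans (by linarith)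
    have h15 : I ≤ 4 * g ^ 2 + v := by rw [h4]; linarith
    have h16 : v ≤ 32 * Λ * (5 * g ^ 2 + v) + Λ := by
      have : 32 * Λ * (g ^ 2 + I) ≤ 32 * Λ * (5 * g ^ 2 + v) :=
        mul_le_mul_of_nonneg_left (by linarith) (by positivity)
      linarith
    have h17 : Λ * v ≤ 1 / 100 * v := mul_le_mul_of_nonneg_right (by linarith) hv0
    have h18 : Λ ≤ Λ * g ^ 2 := by
      have hg2 : 1 ≤ g ^ 2 := one_le_pow₀ hg1
      calc Λ = Λ * 1 := (mul_one _).symm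
        _ ≤ Λ * g ^ 2 := mul_le_mul_of_nonneg_left hg2 hΛ0.le
    have h19 : v ≤ 240 * (Λ * g ^ 2) := by nlinarith
    have h20 : Λ * g ^ 2 ≤ 1 / 100 * g ^ 2 :=
      mul_le_mul_of_nonneg_right (by linarith) (sq_nonneg _)
    constructor
    · have : 0 ≤ Λ * g ^ 2 := by positivity
      linarith
    · nlinarith [sq_nonneg g]
  · intro V
    show ∑ y, ‖-((σ : ℂ) * (RE b E ε σ V 0 y * RE b E ε σ V y 0))‖ ^ 2 ≤ _
    rw [hS]
    refine mul_le_mul_of_nonneg_left ?_ (sq_nonneg _)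
    have h2 : ∑ y, ‖(RE b E ε σ V *ᵥ dl 0) y‖ ^ 2 * ‖(RE b E ε σ V *ᵥ dl 0) y‖ ^ 2 ≤
        nsq (RE b E ε σ V *ᵥ dl 0) ^ 2 := by
      unfold nsq
      rw [sq, Finset.sum_mul]
      refine Finset.sum_le_sum fun y _ => mul_le_mul_of_nonneg_left ?_ (sq_nonneg _)
      exact Finset.single_le_sum (f := fun y => ‖(RE b E ε σ V *ᵥ dl 0) y‖ ^ 2)
        (fun z _ => sq_nonneg _) (Finset.mem_univ y)
    refine h2.trans (pow_le_pow_left₀ (nsq_nonneg _) ?_ 2)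
    have h3 := (hR d L b E ε σ hε).2.2.2.2.1 V (dl 0)
    rwa [nsq_dl] at h3
  · intro V hV
    show ∑ y, ‖-((σ : ℂ) * (RE b E ε σ V 0 y * RE b E ε σ V y 0))‖ ^ 2 ≤ _
    rw [hS]
    have h2 := hp.hQ E (RE b E ε σ V *ᵥ dl 0) (RE b E ε σ V *ᵥ dl 0)
    have h3 := (hQ d L σ δ ε t Q g p0 Ω hp V hV b E (dl 0)).2.2
    have h4 := EMBS.qf0_nonneg (E := E) hδ (RE b E ε σ V *ᵥ dl 0)
    set r := (RE false E ε σ V 0 0).im with hr
    have hr0 : 0 ≤ r := r_nonneg hR hε E V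
    have h5 := r_sq_le (σ := σ) hR hε b E V
    rw [← hr] at h5
    have h6 : σ ^ 2 * ∑ y, ‖(RE b E ε σ V *ᵥ dl 0) y‖ ^ 2 * ‖(RE b E ε σ V *ᵥ dl 0) y‖ ^ 2 ≤
        σ ^ 2 * (Q * ((4 * (δ / ε) * (g + r)) * (4 * (δ / ε) * (g + r)))) := by
      refine mul_le_mul_of_nonneg_left (h2.trans ?_) (sq_nonneg _)
      exact mul_le_mul_of_nonneg_left (mul_le_mul h3 h3 h4 (h4.trans h3)) (by linarith)
    refine h6.trans ?_
    have h7 : σ ^ 2 * (Q * ((4 * (δ / ε) * (g + r)) * (4 * (δ / ε) * (g + r)))) =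
        16 * Λ * (g + r) ^ 2 := by
      rw [hΛd]
      ring
    rw [h7]
    have h8 : (g + r) ^ 2 ≤ 2 * (g ^ 2 + ‖RE b E ε σ V 0 0‖ ^ 2) := by
      nlinarith [sq_nonneg (g - r)]
    have h9 := mul_le_mul_of_nonneg_left h8 (by positivity : (0 : ℝ) ≤ 16 * Λ)
    linarith

end Pool.Agent.T2h98.KU
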