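import Pool.Agent.T2h98.KU.Stm
import Pool.Agent.T2h98.QD.Calc
import Pool.Agent.T2h98.QD.Emb
import Pool.Agent.T2h98.QD.MoA

/-! Task KU-KW (helper60): the variance of one resolvent applied to a vector. -/

set_option autoImplicit false
set_option linter.unusedSectionVars false

open scoped BigOperators Matrix Topology
open MeasureTheory ProbabilityTheory Filter

namespace Pool.Agent.T2h98.KU.KWaux

open Pool.Agent.W788.MFP.Four (T e NN adj K)
open Pool.Agent.W788.BK (nsq hs PP JJ hi Low cr nsq_nonneg)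
open Pool.Agent.W240.BK (BC BM cs_int)
open Pool.Agent.T2h98.QD

variable {d L : ℕ} [NeZero L]

/-- good and bad event -/
theorem split_bound {m : Type} [Fintype m] {f h : (m → ℝ) → ℝ} {B p0 : ℝ} {Ω : Set (m → ℝ)}
    (hf : Integrable f (GP m)) (hh : Integrable h (GP m)) (hh0 : ∀ V, 0 ≤ h V) (hB : 0 ≤ B)
    (hΩ : MeasurableSet Ω) (h1 : ∀ V ∈ Ω, f V ≤ h V) (h2 : ∀ V, f V ≤ B)
    (hP : (GP m).real Ωᶜ ≤ p0) :
    ∫ V, f V ∂(GP m) ≤ ∫ V, h V ∂(GP m) + B * p0 := by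
  have h3 : ∀ V, f V ≤ h V + (Ωᶜ).indicator (fun _ => B) V := fun V => by
    by_cases hV : V ∈ Ω
    · rw [Set.indicator_of_notMem (by simpa using hV), add_zero]
      exact h1 V hV
    · rw [Set.indicator_of_mem (by simpa using hV)]
      linarith [h2 V, hh0 V]
  have h4 : Integrable ((Ωᶜ).indicator (fun _ => B)) (GP m) :=
    (integrable_const B).indicator hΩ.compl
  refine (integral_mono hf (hh.add h4) h3).trans ?_
  rw [integral_add' hh h4, integral_indicator hΩ.compl, setIntegral_const, smul_eq_mul,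
    mul_comm _ B]
  have := mul_le_mul_of_nonneg_left hP hB
  linarith

theorem dl_dot (w : T d L → ℂ) : star (dl 0) ⬝ᵥ w = w 0 := by
  unfold dl
  rw [Pi.star_single, star_one, single_dotProduct, one_mul]

theorem mul_dl (A : Matrix (T d L) (T d L) ℂ) (y : T d L) : (A *ᵥ dl 0) y = A y 0 := by
  unfold dl
  rw [Matrix.mulVec_single_one, Matrix.col_apply]

theorem nsq_dl0 : nsq (dl (0 : T d L)) = 1 := by
  unfold nsq dl
  rw [Finset.sum_eq_single 0]
  · simp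
  · intro b _ hb
    simp [hb]
  · intro h
    exact absurd (Finset.mem_univ _) h

/-- derivative of a matrix function applied to a vector -/
theorem vec_deriv {P : (T d L → ℝ) → Matrix (T d L) (T d L) ℂ} {σ : ℝ}
    (h : ∀ (V : T d L → ℝ) (y p q : T d L),
      HasDerivAt (fun t : ℝ => P (Function.update V y t) p q)
        (-((σ : ℂ) * (P V p y * P V y q))) (V y)) (f : T d L → ℂ) (V : T d L → ℝ)
    (y p : T d L) :
    HasDerivAt (fun t : ℝ => (P (Function.update V y t) *ᵥ f) p)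
      (-((σ : ℂ) * (P V p y * (P V *ᵥ f) y))) (V y) := by
  have h1 := HasDerivAt.fun_sum (u := Finset.univ) fun (q : T d L) _ =>
    (h V y p q).mul_const (f q)
  have e1 : ∑ q, -((σ : ℂ) * (P V p y * P V y q)) * f q =
      -((σ : ℂ) * (P V p y * (P V *ᵥ f) y)) := by
    simp only [Matrix.mulVec, dotProduct, Finset.mul_sum, neg_mul, Finset.sum_neg_distrib]
    congr 1
    exact Finset.sum_congr rfl fun q _ => by ring
  rw [e1] at h1
  exact h1

theorem int_sq_add {m : Type} [Fintype m] [DecidableEq m] {c B : ℝ} {r : (m → ℝ) → ℝ} (hr : RC r)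
    (h : ∫ V, r V ^ 2 ∂(GP m) ≤ B) :
    ∫ V, (c + r V) ^ 2 ∂(GP m) ≤ 2 * c ^ 2 + 2 * B := by
  have h1 : ∫ V, (c + r V) ^ 2 ∂(GP m) ≤ ∫ V, (2 * c ^ 2 + 2 * r V ^ 2) ∂(GP m) := by
    refine integral_mono ((RC.const c).add hr).sq.integrable
      ((integrable_const _).add (hr.sq.integrable.const_mul 2)) fun V => ?_
    show (c + r V) ^ 2 ≤ 2 * c ^ 2 + 2 * r V ^ 2
    nlinarith [sq_nonneg (c - r V)]
  refine h1.trans ?_
  rw [integral_add (integrable_const _) (hr.sq.integrable.const_mul 2), integral_const,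
    integral_const_mul, probReal_univ, one_smul]
  linarith

end Pool.Agent.T2h98.KU.KWaux

namespace Pool.Agent.T2h98.KU

open Pool.Agent.W788.MFP.Four (T e NN adj K)
open Pool.Agent.W788.BK (nsq hs PP JJ hi Low cr nsq_nonneg)
open Pool.Agent.W240.BK (BC BM cs_int)
open Pool.Agent.T2h98.QD
open KWaux

theorem kw (hR : T_KR) (hQ : T_KQ2) (h1 : T_KV1) (hP : T_POIN) : T_KW := by
  intro d L _ σ δ ε t Q g p0 E Ω hp hL hG0 hGδ hm f hx b
  have hε := hp.hε
  have hσ := hp.hσ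
  have hσ2 : 0 < σ ^ 2 := by positivity
  have hδ : 0 < δ := lt_of_lt_of_le hσ2 hp.hσδ
  have hδ1 := hp.hδ1
  have hεδ : ε ≤ δ := hp.hεσ.trans hp.hσδ
  have hε1 : ε ≤ 1 := hεδ.trans hδ1
  have hQ1 := hp.hQ1
  have hg1 := hp.hg1
  have hde : 1 ≤ δ / ε := by rwa [le_div_iff₀ hε, one_mul]
  obtain ⟨-, -, a3, a4, a5, a6, a7, a8, -, -, -⟩ := hR d L b E ε σ hε
  obtain ⟨-, -, c3, c4, c5, c6, c7, c8, -, -, -⟩ := hR d L false E ε σ hε
  have hn := nsq_nonneg f
  set G := Ga d L E ε σ with hG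
  obtain ⟨N, hN⟩ : ∃ N, N = nsq f / G := ⟨_, rfl⟩
  have hN0 : 0 ≤ N := by rw [hN]; positivity
  have hNδ : nsq f / δ ≤ N := by
    rw [hN]; exact div_le_div_of_nonneg_left hn hG0 hGδ
  have hN1 : nsq f ≤ N := by
    refine le_trans ?_ hNδ
    rw [le_div_iff₀ hδ]
    nlinarith
  have hbc : ∀ x y, BC fun V : T d L → ℝ => RE b E ε σ V x y := fun x y =>
    ⟨a7 x y, ε⁻¹, fun V => a6 V x y⟩
  have hbf : ∀ x y, BC fun V : T d L → ℝ => RE false E ε σ V x y := fun x y =>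
    ⟨c7 x y, ε⁻¹, fun V => c6 V x y⟩
  have hsym : ∀ (V : T d L → ℝ) (y : T d L), RE b E ε σ V 0 y = (RE b E ε σ V *ᵥ dl 0) y :=
    fun V y => by
      rw [mul_dl]
      conv_lhs => rw [← a3 V, Matrix.transpose_apply]
  -- the quadratic expressions
  obtain ⟨r, hr⟩ : ∃ r : (T d L → ℝ) → ℝ, r = fun V => (RE false E ε σ V 0 0).im := ⟨_, rfl⟩
  obtain ⟨x, hxx⟩ : ∃ x : (T d L → ℝ) → ℝ, x = fun V => (star f ⬝ᵥ (RE false E ε σ V *ᵥ f)).im :=
    ⟨_, rfl⟩
  have hrc : RC r := by rw [hr]; exact RC.im (hbf 0 0)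
  have hxc : RC x := by rw [hxx]; exact RC.im (BM.dot hbf (star f) f)
  have wr : ∀ V, ε * nsq (RE b E ε σ V *ᵥ dl 0) = r V := fun V => by
    rw [hr, a4 V (dl 0), dl_dot, mul_dl]
  have wx : ∀ V, ε * nsq (RE b E ε σ V *ᵥ f) = x V := fun V => by
    rw [hxx, a4 V f]
  have hr0 : ∀ V, 0 ≤ r V := fun V => by
    rw [← wr V]; exact mul_nonneg hε.le (nsq_nonneg _)
  have hx0 : ∀ V, 0 ≤ x V := fun V => by
    rw [← wx V]; exact mul_nonneg hε.le (nsq_nonneg _)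
  have hr2 : ∫ V, r V ^ 2 ∂(GP (T d L)) ≤ 7 * g ^ 2 := by
    refine le_trans ?_ (h1 d L σ δ ε t Q g p0 Ω hp hL false E hm).2
    refine integral_mono hrc.sq.integrable (RC.norm (hbf 0 0)).sq.integrable fun V => ?_
    show r V ^ 2 ≤ ‖RE false E ε σ V 0 0‖ ^ 2
    rw [hr, ← sq_abs]
    exact pow_le_pow_left₀ (abs_nonneg _) (Complex.abs_im_le_norm _) 2
  have hx2 : ∫ V, x V ^ 2 ∂(GP (T d L)) ≤ 100 * N ^ 2 := by
    rw [hN, hxx]; exact hx
  -- the product
  have hab : ∫ V, (g + r V) * (N + x V) ∂(GP (T d L)) ≤ 57 * (g * N) := by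
    have i1 : RC fun V => g + r V := (RC.const g).add hrc
    have i2 : RC fun V => N + x V := (RC.const N).add hxc
    have hcs := cs_int (gaussianReal 0 1) i1.sq.integrable i2.sq.integrable (i1.mul i2).integrable
    have j1 := int_sq_add (c := g) hrc hr2
    have j2 := int_sq_add (c := N) hxc hx2
    have j3 : (0 : ℝ) ≤ ∫ V, (g + r V) ^ 2 ∂(GP (T d L)) := integral_nonneg fun V => sq_nonneg _
    have j4 : (0 : ℝ) ≤ ∫ V, (N + x V) ^ 2 ∂(GP (T d L)) := integral_nonneg fun V => sq_nonneg _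
    have j5 := hcs.trans (mul_le_mul j1 j2 j4 (j3.trans j1))
    have hgN : 0 ≤ g * N := mul_nonneg (by linarith) hN0
    refine le_of_sq_le_sq (hcs.trans ((mul_le_mul j1 j2 j4 (j3.trans j1)).trans ?_)) (by positivity)
    nlinarith [sq_nonneg (g * N)]
  constructor
  · -- the variance
    have hgd : GD (fun V : T d L → ℝ => (RE b E ε σ V *ᵥ f) 0)
        (fun y V => -((σ : ℂ) * (RE b E ε σ V 0 y * (RE b E ε σ V *ᵥ f) y))) :=
      ⟨BM.vec hbc f 0, fun y => BC.neg' ((BC.const (σ : ℂ)).mul ((hbc 0 y).mul (BM.vec hbc f y))),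
        fun y V => vec_deriv a8 f V y 0⟩
    have k1 := poin' hP hgd
    unfold var at k1
    refine k1.trans ?_
    have s1 : RC fun V : T d L → ℝ => ∑ y, ‖RE b E ε σ V 0 y‖ ^ 2 * ‖(RE b E ε σ V *ᵥ f) y‖ ^ 2 :=
      RC.sum _ fun y _ => (RC.norm (hbc 0 y)).sq.mul (RC.norm (BM.vec hbc f y)).sq
    have k2 : ∑ y, ∫ V, ‖-((σ : ℂ) * (RE b E ε σ V 0 y * (RE b E ε σ V *ᵥ f) y))‖ ^ 2
        ∂(GP (T d L)) =
        σ ^ 2 * ∫ V, ∑ y, ‖RE b E ε σ V 0 y‖ ^ 2 * ‖(RE b E ε σ V *ᵥ f) y‖ ^ 2 ∂(GP (T d L)) := by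
      rw [← integral_const_mul, ← integral_finsetSum]
      · refine integral_congr_ae (Filter.Eventually.of_forall fun V => ?_)
        show ∑ y, ‖-((σ : ℂ) * (RE b E ε σ V 0 y * (RE b E ε σ V *ᵥ f) y))‖ ^ 2 =
          σ ^ 2 * ∑ y, ‖RE b E ε σ V 0 y‖ ^ 2 * ‖(RE b E ε σ V *ᵥ f) y‖ ^ 2
        rw [Finset.mul_sum]
        refine Finset.sum_congr rfl fun y _ => ?_
        rw [norm_neg, norm_mul, norm_mul, Complex.norm_real, Real.norm_of_nonneg hσ.le]
        ring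
      · intro y _
        exact (RC.norm (hgd.bD y)).sq.integrable
    rw [k2]
    have i1 : RC fun V => 16 * Q * (δ / ε) ^ 2 * ((g + r V) * (N + x V)) :=
      (RC.const _).mul (((RC.const g).add hrc).mul ((RC.const N).add hxc))
    have k3 : ∫ V, ∑ y, ‖RE b E ε σ V 0 y‖ ^ 2 * ‖(RE b E ε σ V *ᵥ f) y‖ ^ 2 ∂(GP (T d L)) ≤
        ∫ V, 16 * Q * (δ / ε) ^ 2 * ((g + r V) * (N + x V)) ∂(GP (T d L)) +
          nsq f / ε ^ 4 * ε ^ 12 := by
      refine split_bound (Ω := Ω) s1.integrable i1.integrable (fun V => ?_) (by positivity)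
        hp.hΩ (fun V hV => ?_) (fun V => ?_) (hp.hP.trans hp.hp)
      · have := hr0 V
        have := hx0 V
        positivity
      · obtain ⟨q1, -, -⟩ := hQ d L σ δ ε t Q g p0 Ω hp V hV b E f
        obtain ⟨-, -, q2⟩ := hQ d L σ δ ε t Q g p0 Ω hp V hV b E f
        have q3 := hp.hQ E (RE b E ε σ V *ᵥ dl 0) (RE b E ε σ V *ᵥ f)
        have e1 : ∑ y, ‖RE b E ε σ V 0 y‖ ^ 2 * ‖(RE b E ε σ V *ᵥ f) y‖ ^ 2 =
            ∑ y, ‖(RE b E ε σ V *ᵥ dl 0) y‖ ^ 2 * ‖(RE b E ε σ V *ᵥ f) y‖ ^ 2 :=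
          Finset.sum_congr rfl fun y _ => by rw [hsym V y]
        rw [e1]
        refine q3.trans ?_
        have q4 : qf (J0 E δ) (RE b E ε σ V *ᵥ f) ≤ 4 * (δ / ε) * (N + x V) := by
          refine q1.trans ?_
          have e2 : (star f ⬝ᵥ (RE false E ε σ V *ᵥ f)).im = x V := by rw [hxx]
          rw [e2]
          have e3 : nsq f / δ ≤ (δ / ε) * N := hNδ.trans (le_mul_of_one_le_left hN0 hde)
          linarith
        have e4 : (RE false E ε σ V 0 0).im = r V := by rw [hr]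
        rw [e4] at q2
        have q5 := EMBS.qf0_nonneg (E := E) hδ (RE b E ε σ V *ᵥ f)
        have q6 := EMBS.qf0_nonneg (E := E) hδ (RE b E ε σ V *ᵥ dl 0)
        have q7 := mul_le_mul q2 q4 q5 (q6.trans q2)
        calc Q * (qf (J0 E δ) (RE b E ε σ V *ᵥ dl 0) * qf (J0 E δ) (RE b E ε σ V *ᵥ f))
            ≤ Q * (4 * (δ / ε) * (g + r V) * (4 * (δ / ε) * (N + x V))) :=
              mul_le_mul_of_nonneg_left q7 (by linarith)
          _ = 16 * Q * (δ / ε) ^ 2 * ((g + r V) * (N + x V)) := by ring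
      · have e5 : ∀ y, ‖RE b E ε σ V 0 y‖ ^ 2 ≤ 1 / ε ^ 2 := fun y => by
          rw [hsym V y, ← nsq_dl0 (d := d) (L := L)]
          refine le_trans ?_ (a5 V (dl 0))
          exact Finset.single_le_sum (f := fun y => ‖(RE b E ε σ V *ᵥ dl 0) y‖ ^ 2)
            (fun _ _ => by positivity) (Finset.mem_univ y)
        calc ∑ y, ‖RE b E ε σ V 0 y‖ ^ 2 * ‖(RE b E ε σ V *ᵥ f) y‖ ^ 2
            ≤ ∑ y, 1 / ε ^ 2 * ‖(RE b E ε σ V *ᵥ f) y‖ ^ 2 :=
              Finset.sum_le_sum fun y _ => mul_le_mul_of_nonneg_right (e5 y) (by positivity)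
          _ = 1 / ε ^ 2 * nsq (RE b E ε σ V *ᵥ f) := by rw [← Finset.mul_sum]; rfl
          _ ≤ 1 / ε ^ 2 * (nsq f / ε ^ 2) := mul_le_mul_of_nonneg_left (a5 V f) (by positivity)
          _ = nsq f / ε ^ 4 := by field_simp
    rw [integral_const_mul] at k3
    have k4 : 16 * Q * (δ / ε) ^ 2 * ∫ V, (g + r V) * (N + x V) ∂(GP (T d L)) ≤
        16 * Q * (δ / ε) ^ 2 * (57 * (g * N)) :=
      mul_le_mul_of_nonneg_left hab (by positivity)
    have k5 : nsq f / ε ^ 4 * ε ^ 12 ≤ Q * (δ / ε) ^ 2 * (g * N) := by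
      have e1 : nsq f / ε ^ 4 * ε ^ 12 = nsq f * ε ^ 8 := by field_simp
      rw [e1]
      have e2 : nsq f * ε ^ 8 ≤ N * 1 :=
        mul_le_mul hN1 (pow_le_one₀ hε.le hε1) (by positivity) hN0
      have e3 : 1 ≤ Q * (δ / ε) ^ 2 * g :=
        one_le_mul_of_one_le_of_one_le
          (one_le_mul_of_one_le_of_one_le hQ1 (one_le_pow₀ hde)) hg1
      nlinarith [mul_le_mul_of_nonneg_right e3 hN0]
    have k6 := mul_le_mul_of_nonneg_left (k3.trans (add_le_add k4 k5)) hσ2.le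
    refine k6.trans ?_
    have e6 : 2000 * (σ ^ 2 * Q * (δ / ε) ^ 2) * g * nsq f / G =
        2000 * (σ ^ 2 * (Q * (δ / ε) ^ 2) * (g * N)) := by rw [hN]; ring
    rw [e6]
    have e7 : 0 ≤ σ ^ 2 * (Q * (δ / ε) ^ 2) * (g * N) := by positivity
    nlinarith
  · -- the second moment
    have k1 : ∀ V, ‖(RE b E ε σ V *ᵥ f) 0‖ ^ 2 ≤ nsq f / ε * r V := fun V => by
      have e1 : ‖(RE b E ε σ V *ᵥ f) 0‖ ≤ ∑ y, ‖RE b E ε σ V 0 y‖ * ‖f y‖ := by
        simp only [Matrix.mulVec, dotProduct]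
        refine (norm_sum_le _ _).trans (le_of_eq (Finset.sum_congr rfl fun y _ => norm_mul _ _))
      have e2 := Finset.sum_mul_sq_le_sq_mul_sq Finset.univ (fun y => ‖RE b E ε σ V 0 y‖)
        (fun y => ‖f y‖)
      have e3 : ∑ y, ‖RE b E ε σ V 0 y‖ ^ 2 = nsq (RE b E ε σ V *ᵥ dl 0) :=
        Finset.sum_congr rfl fun y _ => by rw [hsym V y]
      have e4 : nsq (RE b E ε σ V *ᵥ dl 0) = r V / ε := by
        rw [← wr V]; field_simp
      calc ‖(RE b E ε σ V *ᵥ f) 0‖ ^ 2 ≤ (∑ y, ‖RE b E ε σ V 0 y‖ * ‖f y‖) ^ 2 :=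
            pow_le_pow_left₀ (norm_nonneg _) e1 2
        _ ≤ (∑ y, ‖RE b E ε σ V 0 y‖ ^ 2) * ∑ y, ‖f y‖ ^ 2 := e2
        _ = r V / ε * nsq f := by rw [e3, e4]; rfl
        _ = nsq f / ε * r V := by ring
    have k2 : ∫ V, r V ∂(GP (T d L)) ≤ 2 * g := by
      have e1 : ∫ V, r V ∂(GP (T d L)) = (me d L false E ε σ).im := by
        rw [hr]
        exact integral_im ((hbf 0 0).integrable _)
      rw [e1]
      exact (le_abs_self _).trans ((Complex.abs_im_le_norm _).trans hm)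
    refine (integral_mono (RC.norm (BM.vec hbc f 0)).sq.integrable
      (hrc.integrable.const_mul (nsq f / ε)) k1).trans ?_
    rw [integral_const_mul]
    have k3 : nsq f / ε * ∫ V, r V ∂(GP (T d L)) ≤ nsq f / ε * (2 * g) :=
      mul_le_mul_of_nonneg_left k2 (by positivity)
    refine k3.trans ?_
    have e6 : 3 * g / ε * nsq f = nsq f / ε * (3 * g) := by ring
    rw [e6]
    exact mul_le_mul_of_nonneg_left (by linarith) (by positivity)

end Pool.Agent.T2h98.KU
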