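import Pool.Agent.T2h98.KU.PoH

/-! Project KU, task KXF (helper38): quadratic expressions. -/

set_option autoImplicit false
set_option linter.all false

open scoped BigOperators Matrix Topology
open MeasureTheory ProbabilityTheory Filter

namespace Pool.Agent.T2h98.KU

open Pool.Agent.W788.MFP.Four (T e NN adj K)
open Pool.Agent.W788.BK (nsq hs PP JJ hi Low cr nsq_nonneg cs_star)
open Pool.Agent.W240.BK (BC BM cs_int)
open Pool.Agent.T2h98.QD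
open Pool.Agent.T2h98.AC (TX RX mX sy Rb Fk)
open Pool.Agent.T2h98.AC.CovH
open PoH

namespace KXF

variable {d L : ℕ} [NeZero L]

/-- the mean of the resolvent is a multiplier -/
theorem mean_mo (hR : T_KR) {ε : ℝ} (hε : 0 < ε) (E σ : ℝ) (x y : T d L) :
    ∫ V, RE false E ε σ V x y ∂(GP (T d L)) = Mo (Rb (xb false E ε) σ) x y := by
  obtain ⟨_, _, _, _, _, _, _, _, r9, _⟩ := hR d L false E ε σ hε
  have h1 : Mo (Rb (xb false E ε) σ) x y =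
      ∫ V, RX (xb false E ε) σ V 0 (y - x) ∂(GP (T d L)) :=
    Pool.Agent.T2h98.AC.ALG.mo_sy (fun z => ∫ V, RX (xb false E ε) σ V 0 z ∂(GP (T d L))) x y
  rw [h1]
  have h2 := shift_int (d := d) (L := L) x (fun V => RE false E ε σ V 0 (y - x))
  simp only [r9, zero_add, sub_add_cancel] at h2
  exact h2

/-- the mean of the form -/
theorem mean_form (hR : T_KR) {ε : ℝ} (hε : 0 < ε) (E σ : ℝ) (f : T d L → ℂ) :
    ∫ V, star f ⬝ᵥ (RE false E ε σ V *ᵥ f) ∂(GP (T d L)) =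
      star f ⬝ᵥ (Mo (Rb (xb false E ε) σ) *ᵥ f) := by
  simp only [dotProduct, Matrix.mulVec]
  have hb := fun x y => bc (d := d) (L := L) hR hε false E σ x y
  rw [integral_finsetSum]
  · refine Finset.sum_congr rfl fun x _ => ?_
    rw [integral_const_mul, integral_finsetSum]
    · congr 1
      refine Finset.sum_congr rfl fun y _ => ?_
      rw [integral_mul_const, mean_mo hR hε]
    · intro y _
      exact ((hb x y).integrable _).mul_const _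
  · intro x _
    refine Integrable.const_mul ?_ _
    exact integrable_finsetSum _ fun y _ => ((hb x y).integrable _).mul_const _

theorem form_le {m : T d L → ℂ} {c : ℝ} (hc : 0 ≤ c) (hm : ∀ k, ‖m k‖ ≤ c) (f : T d L → ℂ) :
    ‖star f ⬝ᵥ (Mo m *ᵥ f)‖ ≤ c * nsq f := by
  have h1 := cs_star f (Mo m *ᵥ f)
  have h2 := nsq_mo m (c ^ 2) (fun k => pow_le_pow_left₀ (norm_nonneg _) (hm k) 2) f
  have h3 : ‖star f ⬝ᵥ (Mo m *ᵥ f)‖ ^ 2 ≤ (c * nsq f) ^ 2 := by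
    refine h1.trans ((mul_le_mul_of_nonneg_left h2 (nsq_nonneg _)).trans (le_of_eq ?_))
    ring
  exact le_of_sq_le_sq h3 (mul_nonneg hc (nsq_nonneg _))

theorem form_dl (A : Matrix (T d L) (T d L) ℂ) (f : T d L → ℂ) (y : T d L) :
    star f ⬝ᵥ (A *ᵥ dl y) = star ((Aᴴ *ᵥ f) y) := by
  have h1 : star (Aᴴ *ᵥ f) = star f ᵥ* A := by
    rw [Matrix.star_mulVec, Matrix.conjTranspose_conjTranspose]
  have h2 := congrFun h1 y
  rw [Pi.star_apply] at h2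
  rw [h2, Matrix.dotProduct_mulVec]
  unfold dl
  rw [dotProduct_single, mul_one]

theorem gdY (hR : T_KR) {ε : ℝ} (hε : 0 < ε) (E σ : ℝ) (f : T d L → ℂ) :
    GD (fun V : T d L → ℝ => star f ⬝ᵥ (RE false E ε σ V *ᵥ f))
      (fun y V => -((σ : ℂ) * ((RE false E ε σ V *ᵥ f) y * star ((RE true E ε σ V *ᵥ f) y)))) := by
  refine ((md (d := d) (L := L) hR hε false E σ).form (star f) f).congr' fun y V => ?_
  have h1 : (RE false E ε σ V)ᴴ = RE true E ε σ V := by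
    rw [(hR d L false E ε σ hε).1 V, (hR d L true E ε σ hε).1 V]
    rfl
  rw [dm_vec, dotProduct_smul, form_dl, h1, smul_eq_mul]
  ring

theorem sumDY (σ : ℝ) (a b : T d L → ℂ) :
    ∑ y, ‖-((σ : ℂ) * (a y * star (b y)))‖ ^ 2 = σ ^ 2 * ∑ y, ‖a y‖ ^ 2 * ‖b y‖ ^ 2 := by
  rw [Finset.mul_sum]
  refine Finset.sum_congr rfl fun y _ => ?_
  rw [norm_neg, norm_mul, norm_mul, norm_star, Complex.norm_real, Real.norm_eq_abs, mul_pow,
    mul_pow, sq_abs]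

end KXF

open KXF

theorem kxf (hR : T_KR) (hQ : T_KQ2) (hP : T_POIN) : T_KXF := by
  intro d L _ σ δ ε t Q g p0 E Ω hp hL hG0 hGδ hRb f
  have hε := hp.hε
  have hσ := hp.hσ
  have hσ1 := hp.hσ1
  have hεδ : ε ≤ δ := hp.hεσ.trans hp.hσδ
  have hδ : 0 < δ := hε.trans_le hεδ
  have hδ1 := hp.hδ1
  have hε1 : ε ≤ 1 := hεδ.trans hδ1
  have hQ1 := hp.hQ1
  set N : ℝ := nsq f with hN
  have hN0 : 0 ≤ N := nsq_nonneg f
  set G : ℝ := Ga d L E ε σ with hG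
  have hgd := gdY (d := d) (L := L) hR hε E σ f
  set x : (T d L → ℝ) → ℝ := fun V => (star f ⬝ᵥ (RE false E ε σ V *ᵥ f)).im with hx
  have hx0 : ∀ V, 0 ≤ x V := fun V => im_nonneg hR hε E σ V f
  have ix2 : Integrable (fun V => x V ^ 2) (GP (T d L)) := (RC.im hgd.bF).sq.integrable
  obtain ⟨i1, i2⟩ := int_a2 (μ := GP (T d L)) (32 * σ ^ 2 * Q * (N / δ) ^ 2)
    (32 * (σ ^ 2 * Q * (δ / ε) ^ 2)) ix2
  have hΛ0 : 0 ≤ σ ^ 2 * Q * (δ / ε) ^ 2 := by positivity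
  -- the bound on the good event
  have hgood : ∀ V ∈ Ω, ∑ y, ‖-((σ : ℂ) * ((RE false E ε σ V *ᵥ f) y *
      star ((RE true E ε σ V *ᵥ f) y)))‖ ^ 2 ≤
      32 * σ ^ 2 * Q * (N / δ) ^ 2 + 32 * (σ ^ 2 * Q * (δ / ε) ^ 2) * x V ^ 2 := by
    intro V hV
    rw [sumDY]
    have h1 := hp.hQ E (RE false E ε σ V *ᵥ f) (RE true E ε σ V *ᵥ f)
    have h2 := (hQ d L σ δ ε t Q g p0 Ω hp V hV false E f).1
    have h3 := (hQ d L σ δ ε t Q g p0 Ω hp V hV true E f).1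
    have h4 : 0 ≤ 4 * (N / δ + (δ / ε) * x V) := by
      have := hx0 V
      positivity
    have h5 := mul_le_mul h2 h3 (EMBS.qf0_nonneg (E := E) hδ _) h4
    have h6 := mul_le_mul_of_nonneg_left h5 (by linarith : (0 : ℝ) ≤ Q)
    have h7 := mul_le_mul_of_nonneg_left (h1.trans h6) (sq_nonneg σ)
    refine h7.trans ?_
    show σ ^ 2 * (Q * (4 * (N / δ + (δ / ε) * x V) * (4 * (N / δ + (δ / ε) * x V)))) ≤ _
    have h8 : (N / δ + (δ / ε) * x V) ^ 2 ≤ 2 * (N / δ) ^ 2 + 2 * ((δ / ε) * x V) ^ 2 := by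
      nlinarith [sq_nonneg (N / δ - (δ / ε) * x V)]
    have h9 := mul_le_mul_of_nonneg_left h8 (by positivity : (0 : ℝ) ≤ 16 * (σ ^ 2 * Q))
    have e1 : σ ^ 2 * (Q * (4 * (N / δ + (δ / ε) * x V) * (4 * (N / δ + (δ / ε) * x V)))) =
        16 * (σ ^ 2 * Q) * (N / δ + (δ / ε) * x V) ^ 2 := by ring
    have e2 : 32 * σ ^ 2 * Q * (N / δ) ^ 2 + 32 * (σ ^ 2 * Q * (δ / ε) ^ 2) * x V ^ 2 =
        16 * (σ ^ 2 * Q) * (2 * (N / δ) ^ 2 + 2 * ((δ / ε) * x V) ^ 2) := by ring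
    rw [e1, e2]
    exact h9
  have hall : ∀ V, ∑ y, ‖-((σ : ℂ) * ((RE false E ε σ V *ᵥ f) y *
      star ((RE true E ε σ V *ᵥ f) y)))‖ ^ 2 ≤ σ ^ 2 * (N / ε ^ 2) ^ 2 := by
    intro V
    rw [sumDY]
    refine mul_le_mul_of_nonneg_left ?_ (sq_nonneg σ)
    refine (sum_le_nsq _ _).trans ?_
    rw [sq]
    exact mul_le_mul ((hR d L false E ε σ hε).2.2.2.2.1 V f)
      ((hR d L true E ε σ hε).2.2.2.2.1 V f) (nsq_nonneg _) (by positivity)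
  have hvar := var_ev hP hgd hp.hΩ hp.hP i1 (fun V => by positivity)
    (by positivity : (0 : ℝ) ≤ σ ^ 2 * (N / ε ^ 2) ^ 2) hgood hall
  have hsq := sq_im_le hgd.bF
  unfold var at hsq
  rw [mean_form hR hε] at hsq hvar
  have hm1 := form_le (by positivity : (0 : ℝ) ≤ 2 / G) hRb f
  have hm2 : (star f ⬝ᵥ (Mo (Rb (xb false E ε) σ) *ᵥ f)).im ^ 2 ≤ (2 / G * N) ^ 2 := by
    rw [← sq_abs (star f ⬝ᵥ (Mo (Rb (xb false E ε) σ) *ᵥ f)).im]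
    exact pow_le_pow_left₀ (abs_nonneg _) ((Complex.abs_im_le_norm _).trans hm1) 2
  rw [i2] at hvar
  -- arithmetic
  have hp12 : p0 ≤ ε ^ 12 := hp.hp
  have hNG : N / δ ≤ N / G := div_le_div_of_nonneg_left hN0 hG0 hGδ
  have hNG1 : N ≤ N / G := by
    rw [le_div_iff₀ hG0]
    have : N * G ≤ N * 1 := mul_le_mul_of_nonneg_left (hGδ.trans hδ1) hN0
    linarith
  have hNδ : 0 ≤ N / δ := by positivity
  have hA : 32 * σ ^ 2 * Q * (N / δ) ^ 2 ≤ 32 / 100 * (N / G) ^ 2 := by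
    have h1 : σ ^ 2 * Q ≤ σ ^ 2 * Q * (δ / ε) ^ 2 := by
      have h2 : 1 ≤ δ / ε := (one_le_div hε).2 hεδ
      have h3 : 1 ≤ (δ / ε) ^ 2 := one_le_pow₀ h2
      have h4 : 0 ≤ σ ^ 2 * Q := by positivity
      nlinarith
    have h5 : (N / δ) ^ 2 ≤ (N / G) ^ 2 := pow_le_pow_left₀ hNδ hNG 2
    have h6 : σ ^ 2 * Q ≤ 1 / 100 := by linarith
    have h7 := mul_le_mul h6 h5 (sq_nonneg _) (by norm_num)
    linarith
  have hB : σ ^ 2 * (N / ε ^ 2) ^ 2 * p0 ≤ (N / G) ^ 2 := by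
    have h1 : σ ^ 2 * (N / ε ^ 2) ^ 2 * p0 ≤ σ ^ 2 * (N / ε ^ 2) ^ 2 * ε ^ 12 :=
      mul_le_mul_of_nonneg_left hp12 (by positivity)
    have h2 : σ ^ 2 * (N / ε ^ 2) ^ 2 * ε ^ 12 = σ ^ 2 * ε ^ 8 * N ^ 2 := by
      field_simp
    have h3 : σ ^ 2 * ε ^ 8 ≤ 1 := by
      have h4 : σ ^ 2 ≤ 1 := pow_le_one₀ hσ.le hσ1
      have h5 : ε ^ 8 ≤ 1 := pow_le_one₀ hε.le hε1
      exact mul_le_one₀ h4 (by positivity) h5
    have h4 : N ^ 2 ≤ (N / G) ^ 2 := pow_le_pow_left₀ hN0 hNG1 2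
    have h5 : σ ^ 2 * ε ^ 8 * N ^ 2 ≤ 1 * N ^ 2 := mul_le_mul_of_nonneg_right h3 (sq_nonneg _)
    linarith
  have hX0 : 0 ≤ ∫ V, x V ^ 2 ∂(GP (T d L)) := integral_nonneg fun V => sq_nonneg _
  have hC : 32 * (σ ^ 2 * Q * (δ / ε) ^ 2) * ∫ V, x V ^ 2 ∂(GP (T d L)) ≤
      32 / 100 * ∫ V, x V ^ 2 ∂(GP (T d L)) := by
    refine mul_le_mul_of_nonneg_right ?_ hX0
    linarith
  have e1 : (2 / G * N) ^ 2 = 4 * (N / G) ^ 2 := by ring
  rw [e1] at hm2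
  show ∫ V, x V ^ 2 ∂(GP (T d L)) ≤ 100 * (N / G) ^ 2
  have hsq' : ∫ V, x V ^ 2 ∂(GP (T d L)) ≤
      (star f ⬝ᵥ (Mo (Rb (xb false E ε) σ) *ᵥ f)).im ^ 2 +
      ∫ V, ‖star f ⬝ᵥ (RE false E ε σ V *ᵥ f) - star f ⬝ᵥ (Mo (Rb (xb false E ε) σ) *ᵥ f)‖ ^ 2
        ∂(GP (T d L)) := hsq
  nlinarith [sq_nonneg (N / G)]

end Pool.Agent.T2h98.KU
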