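import Pool.Agent.T2h98.KU.PoH

/-! Products of two resolvents: bounds of the derivative (helper38). -/

set_option autoImplicit false
set_option linter.all false

open scoped BigOperators Matrix Topology
open MeasureTheory ProbabilityTheory Filter

namespace Pool.Agent.T2h98.KU.ZH

open Pool.Agent.W788.MFP.Four (T e NN adj K)
open Pool.Agent.W788.BK (nsq hs PP JJ hi Low cr nsq_nonneg cs_star)
open Pool.Agent.W240.BK (BC BM cs_int)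
open Pool.Agent.T2h98.QD
open Pool.Agent.T2h98.AC (TX RX mX sy Rb Fk)
open Pool.Agent.T2h98.AC.CovH
open PoH

variable {d L : ℕ} [NeZero L]

/-- the derivative of `(R₁ v P f) 0` -/
noncomputable def DZ (b : Bool) (E₁ E₂ ε σ : ℝ) (i : Fin d) (f : T d L → ℂ) (y : T d L)
    (V : T d L → ℝ) : ℂ :=
  -((σ : ℂ) * ((RE false E₁ ε σ V *ᵥ dl 0) y *
        (RE false E₁ ε σ V *ᵥ (vv i *ᵥ (RE b E₂ ε σ V *ᵥ f))) y -
        (RE b E₂ ε σ V *ᵥ (vv i *ᵥ (RE false E₁ ε σ V *ᵥ dl 0))) y *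
          (RE b E₂ ε σ V *ᵥ f) y))

theorem good (hR : T_KR) (hV : T_KV) (hQ : T_KQ2) {σ δ ε t Q g p0 : ℝ} {Ω : Set (T d L → ℝ)}
    (hp : ParK d L σ δ ε t Q g p0 Ω) (b : Bool) (i : Fin d) (E₁ E₂ : ℝ) (f : T d L → ℂ)
    {V : T d L → ℝ} (hVΩ : V ∈ Ω) {z : ℝ}
    (hz : qf (J0 E₂ δ) (RE b E₂ ε σ V *ᵥ f) ≤ 4 * (δ / ε) * z) (hz0 : 0 ≤ z) :
    ∑ y, ‖DZ b E₁ E₂ ε σ i f y V‖ ^ 2 ≤ 256 * (σ ^ 2 * Q * (δ / ε) ^ 2) / ε ^ 2 *
      ((g + (RE false E₁ ε σ V 0 0).im) * (star f ⬝ᵥ (RE false E₂ ε σ V *ᵥ f)).im +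
        (RE false E₁ ε σ V 0 0).im * z) := by
  have hε := hp.hε
  have hεδ : ε ≤ δ := hp.hεσ.trans hp.hσδ
  have hδ : 0 < δ := hε.trans_le hεδ
  have hQ0 : 0 ≤ Q := by linarith [hp.hQ1]
  have hg0 : 0 ≤ g := by linarith [hp.hg1]
  have hx0 := im_nonneg hR hε E₂ σ V f
  have hr0 : 0 ≤ (RE false E₁ ε σ V 0 0).im := by
    rw [← im_dl]
    exact im_nonneg hR hε E₁ σ V _
  have n1 : nsq (RE b E₂ ε σ V *ᵥ f) = (star f ⬝ᵥ (RE false E₂ ε σ V *ᵥ f)).im / ε := by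
    rw [← (hR d L b E₂ ε σ hε).2.2.2.1 V f]
    field_simp
  have n2 : nsq (RE false E₁ ε σ V *ᵥ dl 0) = (RE false E₁ ε σ V 0 0).im / ε := by
    rw [← im_dl, ← (hR d L false E₁ ε σ hε).2.2.2.1 V (dl 0)]
    field_simp
  generalize hxx : (star f ⬝ᵥ (RE false E₂ ε σ V *ᵥ f)).im = x at *
  generalize hrr : (RE false E₁ ε σ V 0 0).im = r at *
  have q1 := (hQ d L σ δ ε t Q g p0 Ω hp V hVΩ false E₁ (dl 0)).2.2
  rw [hrr] at q1
  have q2 := (hQ d L σ δ ε t Q g p0 Ω hp V hVΩ false E₁ (vv i *ᵥ (RE b E₂ ε σ V *ᵥ f))).2.1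
  have q3 := (hQ d L σ δ ε t Q g p0 Ω hp V hVΩ b E₂ (vv i *ᵥ (RE false E₁ ε σ V *ᵥ dl 0))).2.1
  have v1 := nsq_v hV i (RE b E₂ ε σ V *ᵥ f)
  have v2 := nsq_v hV i (RE false E₁ ε σ V *ᵥ dl 0)
  rw [n1] at v1
  rw [n2] at v2
  have q2' : qf (J0 E₁ δ) (RE false E₁ ε σ V *ᵥ (vv i *ᵥ (RE b E₂ ε σ V *ᵥ f))) ≤
      32 * (δ / ε ^ 2) * (x / ε) :=
    q2.trans (by nlinarith [mul_le_mul_of_nonneg_left v1 (by positivity : 0 ≤ 8 * (δ / ε ^ 2))])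
  have q3' : qf (J0 E₂ δ) (RE b E₂ ε σ V *ᵥ (vv i *ᵥ (RE false E₁ ε σ V *ᵥ dl 0))) ≤
      32 * (δ / ε ^ 2) * (r / ε) :=
    q3.trans (by nlinarith [mul_le_mul_of_nonneg_left v2 (by positivity : 0 ≤ 8 * (δ / ε ^ 2))])
  have s1 := hp.hQ E₁ (RE false E₁ ε σ V *ᵥ dl 0)
    (RE false E₁ ε σ V *ᵥ (vv i *ᵥ (RE b E₂ ε σ V *ᵥ f)))
  have s2 := hp.hQ E₂ (RE b E₂ ε σ V *ᵥ (vv i *ᵥ (RE false E₁ ε σ V *ᵥ dl 0)))
    (RE b E₂ ε σ V *ᵥ f)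
  have m1 := mul_le_mul q1 q2' (EMBS.qf0_nonneg (E := E₁) hδ _) (by positivity)
  have m2 := mul_le_mul q3' hz (EMBS.qf0_nonneg (E := E₂) hδ _) (by positivity)
  have t1 := s1.trans (mul_le_mul_of_nonneg_left m1 hQ0)
  have t2 := s2.trans (mul_le_mul_of_nonneg_left m2 hQ0)
  unfold DZ
  refine (sumD σ _ _ _ _).trans ?_
  refine (mul_le_mul_of_nonneg_left (add_le_add t1 t2) (by positivity : 0 ≤ 2 * σ ^ 2)).trans
    (le_of_eq ?_)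
  field_simp
  ring

theorem allV (hR : T_KR) (hV : T_KV) {σ ε : ℝ} (hε : 0 < ε) (b : Bool) (i : Fin d) (E₁ E₂ : ℝ)
    (f : T d L → ℂ) (V : T d L → ℝ) :
    ∑ y, ‖DZ b E₁ E₂ ε σ i f y V‖ ^ 2 ≤ 16 * σ ^ 2 * nsq f / ε ^ 6 := by
  have n1 := (hR d L b E₂ ε σ hε).2.2.2.2.1 V f
  have n2 := (hR d L false E₁ ε σ hε).2.2.2.2.1 V (dl 0)
  rw [nsq_dl] at n2
  have v1 := nsq_v hV i (RE b E₂ ε σ V *ᵥ f)
  have v2 := nsq_v hV i (RE false E₁ ε σ V *ᵥ dl 0)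
  have n3 := (hR d L false E₁ ε σ hε).2.2.2.2.1 V (vv i *ᵥ (RE b E₂ ε σ V *ᵥ f))
  have n4 := (hR d L b E₂ ε σ hε).2.2.2.2.1 V (vv i *ᵥ (RE false E₁ ε σ V *ᵥ dl 0))
  have hN := nsq_nonneg f
  have k3 : nsq (RE false E₁ ε σ V *ᵥ (vv i *ᵥ (RE b E₂ ε σ V *ᵥ f))) ≤ 4 * (nsq f / ε ^ 2) / ε ^ 2 := by
    refine n3.trans (div_le_div_of_nonneg_right ?_ (by positivity))
    linarith
  have k4 : nsq (RE b E₂ ε σ V *ᵥ (vv i *ᵥ (RE false E₁ ε σ V *ᵥ dl 0))) ≤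
      4 * (1 / ε ^ 2) / ε ^ 2 := by
    refine n4.trans (div_le_div_of_nonneg_right ?_ (by positivity))
    linarith
  unfold DZ
  refine (sumD σ _ _ _ _).trans ?_
  have m1 := mul_le_mul n2 k3 (nsq_nonneg _) (by positivity)
  have m2 := mul_le_mul k4 n1 (nsq_nonneg _) (by positivity)
  refine (mul_le_mul_of_nonneg_left (add_le_add ((sum_le_nsq _ _).trans m1)
    ((sum_le_nsq _ _).trans m2)) (by positivity : 0 ≤ 2 * σ ^ 2)).trans (le_of_eq ?_)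
  field_simp
  ring

/-- comparison of `σ²` with the small parameter -/
theorem lam {σ δ ε t Q g p0 : ℝ} {Ω : Set (T d L → ℝ)} (hp : ParK d L σ δ ε t Q g p0 Ω) :
    σ ^ 2 ≤ σ ^ 2 * Q * (δ / ε) ^ 2 := by
  have hε := hp.hε
  have hεδ : ε ≤ δ := hp.hεσ.trans hp.hσδ
  have h2 : 1 ≤ δ / ε := (one_le_div hε).2 hεδ
  have h3 : 1 ≤ (δ / ε) ^ 2 := one_le_pow₀ h2
  have h4 : 1 ≤ Q * (δ / ε) ^ 2 := by nlinarith [hp.hQ1]
  have h5 := mul_le_mul_of_nonneg_left h4 (sq_nonneg σ)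
  linarith

end Pool.Agent.T2h98.KU.ZH

namespace Pool.Agent.T2h98.KU

open Pool.Agent.W788.MFP.Four (T e NN adj K)
open Pool.Agent.W788.BK (nsq hs PP JJ hi Low cr nsq_nonneg cs_star)
open Pool.Agent.W240.BK (BC BM cs_int)
open Pool.Agent.T2h98.QD
open Pool.Agent.T2h98.AC (TX RX mX sy Rb Fk)
open Pool.Agent.T2h98.AC.CovH
open PoH ZH

theorem ku (hR : T_KR) (hV : T_KV) (hQ : T_KQ2) (h1 : T_KV1) (hP : T_POIN) (hRef : T_KREF) :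
    T_KU := by
  intro d L _ σ δ ε t Q g p0 Ω hp hL b i E₁ E₂ hm1 hm2
  have hε := hp.hε
  have hσ := hp.hσ
  have hεδ : ε ≤ δ := hp.hεσ.trans hp.hσδ
  have hδ : 0 < δ := hε.trans_le hεδ
  have hε1 : ε ≤ 1 := hεδ.trans hp.hδ1
  have hg1 := hp.hg1
  have hQ0 : 0 ≤ Q := by linarith [hp.hQ1]
  have hgd := gdZ (d := d) (L := L) hR hV hε b E₁ E₂ σ i (dl 0)
  have hgd' : GD (fun V : T d L → ℝ => (RE false E₁ ε σ V *ᵥ (vv i *ᵥ (RE b E₂ ε σ V *ᵥ dl 0))) 0)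
    (DZ b E₁ E₂ ε σ i (dl 0)) := hgd
  have hU : ∀ V : T d L → ℝ, Uk b i E₁ E₂ ε σ V =
      (RE false E₁ ε σ V *ᵥ (vv i *ᵥ (RE b E₂ ε σ V *ᵥ dl 0))) 0 := by
    intro V
    rw [Matrix.mulVec_mulVec, Matrix.mulVec_mulVec, entry]
    unfold Uk
    rw [Matrix.mul_assoc]
  have hmean : ∫ V : T d L → ℝ, (RE false E₁ ε σ V *ᵥ (vv i *ᵥ (RE b E₂ ε σ V *ᵥ dl 0))) 0
      ∂(GP (T d L)) = 0 := by
    have h2 := (hRef d L i i b E₁ E₂ ε σ hε).1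
    simp only [hU] at h2
    exact h2
  have a1 := im_moments hR hε E₁ σ hm1 (h1 d L σ δ ε t Q g p0 Ω hp hL false E₁ hm1).2
  have a2 := im_moments hR hε E₂ σ hm2 (h1 d L σ δ ε t Q g p0 Ω hp hL false E₂ hm2).2
  set r1 : (T d L → ℝ) → ℝ := fun V => (RE false E₁ ε σ V 0 0).im with hr1
  set r2 : (T d L → ℝ) → ℝ := fun V => (RE false E₂ ε σ V 0 0).im with hr2
  have p1 : ∀ V, 0 ≤ r1 V := fun V => by
    simp only [hr1]
    rw [← im_dl]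
    exact im_nonneg hR hε E₁ σ V _
  have p2 : ∀ V, 0 ≤ r2 V := fun V => by
    simp only [hr2]
    rw [← im_dl]
    exact im_nonneg hR hε E₂ σ V _
  have c1 : RC r1 := RC.im (bc (d := d) (L := L) hR hε false E₁ σ 0 0)
  have c2 : RC r2 := RC.im (bc (d := d) (L := L) hR hε false E₂ σ 0 0)
  set A : ℝ := 256 * (σ ^ 2 * Q * (δ / ε) ^ 2) / ε ^ 2 with hA
  have hA0 : 0 ≤ A := by positivity
  have cg : RC fun V => A * (g * (r1 V + r2 V) + (r1 V ^ 2 + r2 V ^ 2)) :=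
    (RC.const A).mul (((RC.const g).mul (c1.add c2)).add (c1.sq.add c2.sq))
  have hgood : ∀ V ∈ Ω, ∑ y, ‖DZ b E₁ E₂ ε σ i (dl 0) y V‖ ^ 2 ≤
      A * (g * (r1 V + r2 V) + (r1 V ^ 2 + r2 V ^ 2)) := by
    intro V hV'
    have h3 := good hR hV hQ hp b i E₁ E₂ (dl 0) hV' (z := g + r2 V)
      (hQ d L σ δ ε t Q g p0 Ω hp V hV' b E₂ (dl 0)).2.2 (add_nonneg (by linarith) (p2 V))
    rw [im_dl] at h3
    refine h3.trans (mul_le_mul_of_nonneg_left ?_ hA0)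
    show (g + r1 V) * r2 V + r1 V * (g + r2 V) ≤ _
    nlinarith [sq_nonneg (r1 V - r2 V)]
  have hall : ∀ V : T d L → ℝ, ∑ y, ‖DZ b E₁ E₂ ε σ i (dl 0) y V‖ ^ 2 ≤
      16 * σ ^ 2 / ε ^ 6 := by
    intro V
    have := allV (σ := σ) hR hV hε b i E₁ E₂ (dl 0) V
    rwa [nsq_dl, mul_one] at this
  have hvar := var_ev hP hgd' hp.hΩ hp.hP cg.integrable
    (fun V => by
      have := p1 V
      have := p2 V
      positivity) (by positivity : (0 : ℝ) ≤ 16 * σ ^ 2 / ε ^ 6) hgood hall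
  rw [hmean] at hvar
  simp only [sub_zero, ← hU] at hvar
  refine hvar.trans ?_
  rw [integral_const_mul]
  have i3 : ∫ V, (g * (r1 V + r2 V) + (r1 V ^ 2 + r2 V ^ 2)) ∂(GP (T d L)) ≤ 18 * g ^ 2 := by
    rw [integral_add ((RC.const g).mul (c1.add c2)).integrable (c1.sq.add c2.sq).integrable,
      integral_const_mul, integral_add c1.integrable c2.integrable,
      integral_add c1.sq.integrable c2.sq.integrable]
    nlinarith [a1.1, a1.2, a2.1, a2.2]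
  have h4 := mul_le_mul_of_nonneg_left i3 hA0
  have h5 : 16 * σ ^ 2 / ε ^ 6 * p0 ≤ 16 * (σ ^ 2 * Q * (δ / ε) ^ 2) * g ^ 2 / ε ^ 2 := by
    have h6 : 16 * σ ^ 2 / ε ^ 6 * p0 ≤ 16 * σ ^ 2 / ε ^ 6 * ε ^ 12 :=
      mul_le_mul_of_nonneg_left hp.hp (by positivity)
    have h7 : 16 * σ ^ 2 / ε ^ 6 * ε ^ 12 = 16 * σ ^ 2 * ε ^ 6 := by
      field_simp
    have h8 : ε ^ 6 ≤ 1 := pow_le_one₀ hε.le hε1
    have h9 : 16 * σ ^ 2 * ε ^ 6 ≤ 16 * σ ^ 2 := by nlinarith [sq_nonneg σ]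
    have h10 := lam hp
    have h11 : (1 : ℝ) ≤ g ^ 2 / ε ^ 2 := by
      rw [one_le_div (by positivity)]
      exact pow_le_pow_left₀ hε.le (hε1.trans hg1) 2
    have h12 : 16 * (σ ^ 2 * Q * (δ / ε) ^ 2) * g ^ 2 / ε ^ 2 =
        16 * (σ ^ 2 * Q * (δ / ε) ^ 2) * (g ^ 2 / ε ^ 2) := by ring
    rw [h12]
    have h13 : 0 ≤ 16 * (σ ^ 2 * Q * (δ / ε) ^ 2) := by positivity
    nlinarith [mul_le_mul_of_nonneg_left h11 h13]
  have h6 : A * (18 * g ^ 2) = 4608 * (σ ^ 2 * Q * (δ / ε) ^ 2) * g ^ 2 / ε ^ 2 := by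
    rw [hA]
    ring
  rw [h6] at h4
  have h7 : 4608 * (σ ^ 2 * Q * (δ / ε) ^ 2) * g ^ 2 / ε ^ 2 +
      16 * (σ ^ 2 * Q * (δ / ε) ^ 2) * g ^ 2 / ε ^ 2 ≤
      10000 * (σ ^ 2 * Q * (δ / ε) ^ 2) * g ^ 2 / ε ^ 2 := by
    rw [← add_div]
    apply div_le_div_of_nonneg_right _ (by positivity)
    have : 0 ≤ (σ ^ 2 * Q * (δ / ε) ^ 2) * g ^ 2 := by positivity
    nlinarith
  linarith

theorem kz (hR : T_KR) (hV : T_KV) (hQ : T_KQ2) (h1 : T_KV1) (hP : T_POIN) : T_KZ := by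
  intro d L _ σ δ ε t Q g p0 E₁ E₂ Ω hp hL hG0 hGδ hm1 f hx2 b i
  have hε := hp.hε
  have hσ := hp.hσ
  have hεδ : ε ≤ δ := hp.hεσ.trans hp.hσδ
  have hδ : 0 < δ := hε.trans_le hεδ
  have hδ1 := hp.hδ1
  have hε1 : ε ≤ 1 := hεδ.trans hp.hδ1
  have hg1 := hp.hg1
  have hQ0 : 0 ≤ Q := by linarith [hp.hQ1]
  have hgd' : GD (fun V : T d L → ℝ => (RE false E₁ ε σ V *ᵥ (vv i *ᵥ (RE b E₂ ε σ V *ᵥ f))) 0)
    (DZ b E₁ E₂ ε σ i f) := gdZ (d := d) (L := L) hR hV hε b E₁ E₂ σ i f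
  have a1 := im_moments hR hε E₁ σ hm1 (h1 d L σ δ ε t Q g p0 Ω hp hL false E₁ hm1).2
  set G : ℝ := Ga d L E₂ ε σ with hG
  set N : ℝ := nsq f with hN
  have hN0 : 0 ≤ N := nsq_nonneg f
  set r1 : (T d L → ℝ) → ℝ := fun V => (RE false E₁ ε σ V 0 0).im with hr1
  set x : (T d L → ℝ) → ℝ := fun V => (star f ⬝ᵥ (RE false E₂ ε σ V *ᵥ f)).im with hx
  have p1 : ∀ V, 0 ≤ r1 V := fun V => by
    simp only [hr1]
    rw [← im_dl]
    exact im_nonneg hR hε E₁ σ V _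
  have p2 : ∀ V, 0 ≤ x V := fun V => im_nonneg hR hε E₂ σ V f
  have c1 : RC r1 := RC.im (bc (d := d) (L := L) hR hε false E₁ σ 0 0)
  have c2 : RC x := RC.im ((md (d := d) (L := L) hR hε false E₂ σ).form (star f) f).bF
  set A : ℝ := 256 * (σ ^ 2 * Q * (δ / ε) ^ 2) / ε ^ 2 with hA
  have hA0 : 0 ≤ A := by positivity
  have cg1 : RC fun V => g + r1 V := (RC.const g).add c1
  have cg2 : RC fun V => N / δ + x V := (RC.const (N / δ)).add c2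
  have cg : RC fun V => 2 * A * ((g + r1 V) * (N / δ + x V)) := (RC.const (2 * A)).mul (cg1.mul cg2)
  have hgood : ∀ V ∈ Ω, ∑ y, ‖DZ b E₁ E₂ ε σ i f y V‖ ^ 2 ≤
      2 * A * ((g + r1 V) * (N / δ + x V)) := by
    intro V hV'
    have hxV := p2 V
    have hrV := p1 V
    have hz : qf (J0 E₂ δ) (RE b E₂ ε σ V *ᵥ f) ≤ 4 * (δ / ε) * (N / δ + x V) := by
      refine (hQ d L σ δ ε t Q g p0 Ω hp V hV' b E₂ f).1.trans ?_
      show 4 * (N / δ + (δ / ε) * x V) ≤ _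
      have h2 : 1 ≤ δ / ε := (one_le_div hε).2 hεδ
      have h3 : 0 ≤ N / δ := by positivity
      nlinarith
    have h3 := good hR hV hQ hp b i E₁ E₂ f hV' hz (by positivity)
    refine h3.trans ?_
    show A * ((g + r1 V) * x V + r1 V * (N / δ + x V)) ≤ _
    have h4 : (g + r1 V) * x V + r1 V * (N / δ + x V) ≤ 2 * ((g + r1 V) * (N / δ + x V)) := by
      have h5 : 0 ≤ N / δ := by positivity
      have h6 : 0 ≤ g * (N / δ) := by positivity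
      have h7 : 0 ≤ g * x V := by positivity
      have h8 : 0 ≤ r1 V * (N / δ) := by positivity
      nlinarith
    nlinarith [mul_le_mul_of_nonneg_left h4 hA0]
  have hall := allV (σ := σ) hR hV hε b i E₁ E₂ f
  have hvar := var_ev hP hgd' hp.hΩ hp.hP cg.integrable
    (fun V => by
      have := p1 V
      have := p2 V
      positivity) (by positivity : (0 : ℝ) ≤ 16 * σ ^ 2 * nsq f / ε ^ 6) hgood hall
  refine hvar.trans ?_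
  rw [integral_const_mul]
  have hNG : N / δ ≤ N / G := div_le_div_of_nonneg_left hN0 hG0 hGδ
  have hNδ : 0 ≤ N / δ := by positivity
  have hNG0 : 0 ≤ N / G := by positivity
  -- the mean of the product
  have i3 : ∫ V, (g + r1 V) * (N / δ + x V) ∂(GP (T d L)) ≤ 57 * (g * (N / G)) := by
    have h2 := cs_int (m := T d L) (gaussianReal 0 1) (a := fun V => g + r1 V)
      (b := fun V => N / δ + x V) cg1.sq.integrable cg2.sq.integrable (cg1.mul cg2).integrable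
    have h3 : ∫ V, (g + r1 V) ^ 2 ∂(GP (T d L)) ≤ 16 * g ^ 2 := by
      have h4 : ∀ V, (g + r1 V) ^ 2 ≤ 2 * g ^ 2 + 2 * r1 V ^ 2 := fun V => by
        nlinarith [sq_nonneg (g - r1 V)]
      obtain ⟨j1, j2⟩ := int_a2 (μ := GP (T d L)) (2 * g ^ 2) 2 c1.sq.integrable
      refine (integral_mono cg1.sq.integrable j1 h4).trans ?_
      rw [j2]
      linarith [a1.1]
    have h5 : ∫ V, (N / δ + x V) ^ 2 ∂(GP (T d L)) ≤ 202 * (N / G) ^ 2 := by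
      have h4 : ∀ V, (N / δ + x V) ^ 2 ≤ 2 * (N / δ) ^ 2 + 2 * x V ^ 2 := fun V => by
        nlinarith [sq_nonneg (N / δ - x V)]
      obtain ⟨j1, j2⟩ := int_a2 (μ := GP (T d L)) (2 * (N / δ) ^ 2) 2 c2.sq.integrable
      refine (integral_mono cg2.sq.integrable j1 h4).trans ?_
      rw [j2]
      have h6 : (N / δ) ^ 2 ≤ (N / G) ^ 2 := pow_le_pow_left₀ hNδ hNG 2
      have h7 : ∫ V, x V ^ 2 ∂(GP (T d L)) ≤ 100 * (N / G) ^ 2 := hx2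
      linarith
    have h6 : (∫ V, (g + r1 V) * (N / δ + x V) ∂(GP (T d L))) ^ 2 ≤ (57 * (g * (N / G))) ^ 2 := by
      refine h2.trans ?_
      refine (mul_le_mul h3 h5 (integral_nonneg fun V => sq_nonneg _) (by positivity)).trans ?_
      have : 0 ≤ (g * (N / G)) ^ 2 := by positivity
      nlinarith
    exact le_of_sq_le_sq h6 (by positivity)
  have h4 := mul_le_mul_of_nonneg_left i3 (mul_nonneg zero_le_two hA0)
  have e1 : 2 * A * (57 * (g * (N / G))) =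
      29184 * (σ ^ 2 * Q * (δ / ε) ^ 2 * g * N / (ε ^ 2 * G)) := by
    rw [hA]
    field_simp
    ring
  rw [e1] at h4
  have h5 : 16 * σ ^ 2 * nsq f / ε ^ 6 * p0 ≤
      16 * (σ ^ 2 * Q * (δ / ε) ^ 2 * g * N / (ε ^ 2 * G)) := by
    have h6 : 16 * σ ^ 2 * N / ε ^ 6 * p0 ≤ 16 * σ ^ 2 * N / ε ^ 6 * ε ^ 12 :=
      mul_le_mul_of_nonneg_left hp.hp (by positivity)
    have h7 : 16 * σ ^ 2 * N / ε ^ 6 * ε ^ 12 = 16 * (σ ^ 2 * N) * ε ^ 6 := by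
      field_simp
    have h8 : ε ^ 6 ≤ 1 := pow_le_one₀ hε.le hε1
    have h9 : 0 ≤ σ ^ 2 * N := by positivity
    have h10 := lam hp
    have h11 : (1 : ℝ) ≤ g / (ε ^ 2 * G) := by
      rw [one_le_div (by positivity)]
      have h12 : ε ^ 2 * G ≤ 1 := mul_le_one₀ (pow_le_one₀ hε.le hε1) hG0.le (hGδ.trans hδ1)
      linarith
    have h12 : σ ^ 2 * Q * (δ / ε) ^ 2 * g * N / (ε ^ 2 * G) =
        (σ ^ 2 * Q * (δ / ε) ^ 2) * N * (g / (ε ^ 2 * G)) := by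
      field_simp
    rw [h12]
    have h13 : σ ^ 2 * N ≤ (σ ^ 2 * Q * (δ / ε) ^ 2) * N := mul_le_mul_of_nonneg_right h10 hN0
    have h14 : (σ ^ 2 * Q * (δ / ε) ^ 2) * N * 1 ≤ (σ ^ 2 * Q * (δ / ε) ^ 2) * N *
        (g / (ε ^ 2 * G)) := mul_le_mul_of_nonneg_left h11 (by positivity)
    nlinarith
  have e2 : (10 : ℝ) ^ 5 * (σ ^ 2 * Q * (δ / ε) ^ 2) * g * N / (ε ^ 2 * G) =
      10 ^ 5 * (σ ^ 2 * Q * (δ / ε) ^ 2 * g * N / (ε ^ 2 * G)) := by ring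
  rw [e2]
  have h6 : 0 ≤ σ ^ 2 * Q * (δ / ε) ^ 2 * g * N / (ε ^ 2 * G) := by positivity
  nlinarith

end Pool.Agent.T2h98.KU
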