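import Pool.Agent.T2h98.KU.KSD
import Pool.Agent.T2h98.KU.KREF
import Pool.Agent.T2h98.KU.KV1
import Pool.Agent.T2h98.KU.KRB
import Pool.Agent.T2h98.KU.KXF
import Pool.Agent.T2h98.KU.ZH
import Pool.Agent.T2h98.KU.KW
import Pool.Agent.T2h98.KU.KMAIN
import Pool.Agent.T2h98.KU.KEF
import Pool.Agent.T2h98.KU.KEIG
import Pool.Agent.T2h98.KU.KQ2
import Pool.Agent.T2h98.KU.KR
import Pool.Agent.T2h98.KU.KCAU
import Pool.Agent.T2h98.KU.KLOR
import Pool.Agent.T2h98.KU.KSCAL
import Pool.Agent.T2h98.KU.KIMS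
import Pool.Agent.T2h98.KU.KGE
import Pool.Agent.T2h98.KU.KRE
import Pool.Agent.T2h98.KU.KLIM
import Pool.Agent.T2h98.KU.KCONC
import Pool.Agent.T2h98.KU.KFIN
import Pool.Agent.T2h98.AC.SD
import Pool.Agent.T2h98.QD.All6

/-! All parts: the Kubo-Greenwood conductivity below the kinetic scale. -/

set_option autoImplicit false

namespace Pool.Agent.T2h98.KU

open Pool.Agent.T2h98.QD Pool.Agent.T2h98.QD.QE

theorem kcauA : T_KCAU := kcau bes jl3

theorem kq2A : T_KQ2 := kq2 kr rqf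

theorem kv1A : T_KV1 := kv1 kr kq2A poin

theorem krefA : T_KREF := kref kr kv

theorem ksdA : T_KSD := ksd kr kv ibp

theorem krbA : T_KRB := krb kr kv1A (Pool.Agent.T2h98.AC.sd Pool.Agent.T2h98.AC.rx ibp)

theorem kxfA : T_KXF := kxf kr kq2A poin

theorem kuA : T_KU := ku kr kv kq2A kv1A poin krefA

theorem kwA : T_KW := kw kr kq2A kv1A poin

theorem kzA : T_KZ := kz kr kv kq2A kv1A poin

theorem kmainA : T_KMAIN := kmain ksdA krefA kv1A krbA kxfA kuA kwA kzA kv kr

theorem kefA : T_KEF := kef kr kv krefA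

theorem keigA : T_KEIG := keig kr

theorem kscalA : T_KSCAL := kscal prob3 (emb3 (pki pkb))

theorem kimsA : T_KIMS := kims prob3 (emb3 (pki pkb)) fin3F poi3F sr0F

theorem kgeA : T_KGE := kge kscalA kimsA fin3F kr

theorem kreA : T_KRE := kre kgeA krbA kcauA

theorem klorA : T_KLOR := klor kcauA U.dosF

theorem klimA : T_KLIM := klim kgeA kreA kmainA kefA klorA U.dosF kcauA

theorem kconcA : T_KCONC := kconc kr kv poin inv

theorem kfinA : T_KFIN := kfin kr klimA kconcA kgeA U.dosF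

end Pool.Agent.T2h98.KU
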