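import Pool.Agent.T2h98.KU.Stm
import Pool.Agent.T2h98.QD.Calc
import Pool.Agent.T2h98.QD.MoA
import Pool.Agent.T2h98.QD.Emb

/-! Common lemmas for the variance bounds (helper62). -/

set_option autoImplicit false
set_option linter.all false

open scoped BigOperators Matrix Topology
open MeasureTheory ProbabilityTheory Filter

namespace Pool.Agent.T2h98.KU.Com

open Pool.Agent.W788.MFP.Four (T e NN adj K)
open Pool.Agent.W788.BK (nsq hs PP JJ hi Low cr nsq_nonneg)
open Pool.Agent.W240.BK (BC BM cs_int)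
open Pool.Agent.T2h98.QD
open Pool.Agent.T2h98.AC (TX RX mX sy Rb Fk)

/-! ### integrals -/

section gen

variable {m : Type} [Fintype m] [DecidableEq m]

/-- splitting an integral: good bound on `Ω`, trivial bound elsewhere -/
theorem split {S G : (m → ℝ) → ℝ} {Ω : Set (m → ℝ)} (hΩ : MeasurableSet Ω)
    (hS : Integrable S (GP m)) (hG : Integrable G (GP m)) (hG0 : ∀ V, 0 ≤ G V) {B p0 : ℝ}
    (hB0 : 0 ≤ B) (hB : ∀ V, S V ≤ B) (hP : (GP m).real Ωᶜ ≤ p0) (h : ∀ V ∈ Ω, S V ≤ G V) :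
    ∫ V, S V ∂(GP m) ≤ ∫ V, G V ∂(GP m) + B * p0 := by
  have hi : Integrable (fun V => Ωᶜ.indicator (fun _ => B) V) (GP m) :=
    (integrable_const B).indicator hΩ.compl
  have h1 : ∀ V, S V ≤ G V + Ωᶜ.indicator (fun _ => B) V := by
    intro V
    by_cases hV : V ∈ Ω
    · have h2 : V ∉ Ωᶜ := fun hx => hx hV
      rw [Set.indicator_of_notMem h2, add_zero]
      exact h V hV
    · have h2 : V ∈ Ωᶜ := hV
      rw [Set.indicator_of_mem h2]
      linarith [hB V, hG0 V]
  refine (integral_mono hS (hG.add hi) h1).trans ?_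
  have h3 : ∫ V, (G V + Ωᶜ.indicator (fun _ => B) V) ∂(GP m) =
      ∫ V, G V ∂(GP m) + (GP m).real Ωᶜ * B := by
    rw [integral_add hG hi, integral_indicator hΩ.compl, setIntegral_const, smul_eq_mul]
  have h4 : (GP m).real Ωᶜ * B ≤ B * p0 := by
    rw [mul_comm]
    exact mul_le_mul_of_nonneg_left hP hB0
  calc ∫ V, (G + fun V => Ωᶜ.indicator (fun _ => B) V) V ∂(GP m)
      = ∫ V, (G V + Ωᶜ.indicator (fun _ => B) V) ∂(GP m) := rfl
    _ ≤ _ := by rw [h3]; linarith

/-- second moment = square of the mean + variance -/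
theorem sq_mean {F : (m → ℝ) → ℂ} (hF : BC F) :
    ∫ V, ‖F V‖ ^ 2 ∂(GP m) = ‖∫ V, F V ∂(GP m)‖ ^ 2 + var F := by
  obtain ⟨c, hc⟩ : ∃ c, c = ∫ V, F V ∂(GP m) := ⟨_, rfl⟩
  unfold var
  rw [← hc]
  have hF1 : BC fun V => F V - c := hF.sub (BC.const c)
  have hFK : BC fun V => (starRingEnd ℂ) c * (F V - c) := (BC.const _).mul hF1
  have h1 : ∀ V, ‖F V‖ ^ 2 = ‖c‖ ^ 2 + ‖F V - c‖ ^ 2 +
      2 * ((starRingEnd ℂ) c * (F V - c)).re := by
    intro V
    rw [← Complex.normSq_eq_norm_sq, ← Complex.normSq_eq_norm_sq, ← Complex.normSq_eq_norm_sq,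
      Complex.normSq_apply, Complex.normSq_apply, Complex.normSq_apply]
    simp
    ring
  have h2 : ∫ V, ((starRingEnd ℂ) c * (F V - c)).re ∂(GP m) = 0 := by
    have h3 : ∫ V, (starRingEnd ℂ) c * (F V - c) ∂(GP m) = 0 := by
      rw [integral_const_mul, integral_sub (hF.integrable _) (integrable_const _),
        integral_const, probReal_univ, one_smul, ← hc, sub_self, mul_zero]
    have h4 := integral_re (hFK.integrable (gaussianReal 0 1))
    have h5 : (∫ V, (starRingEnd ℂ) c * (F V - c) ∂(GP m)).re = 0 := by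
      rw [h3]
      rfl
    rw [← h5]
    exact h4
  simp only [h1]
  have i1 : Integrable (fun V => ‖c‖ ^ 2 + ‖F V - c‖ ^ 2) (GP m) :=
    (integrable_const _).add (RC.norm hF1).sq.integrable
  rw [integral_add i1 ((RC.re hFK).integrable.const_mul 2), integral_const_mul, h2, mul_zero,
    add_zero, integral_add (integrable_const _) (RC.norm hF1).sq.integrable, integral_const,
    probReal_univ, one_smul]

/-- Cauchy-Schwarz with squares -/
theorem cs_sq {f g : (m → ℝ) → ℝ} (hf : RC f) (hg : RC g) {A B : ℝ} (hA : 0 ≤ A) (hB : 0 ≤ B)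
    (h1 : ∫ V, f V ^ 2 ∂(GP m) ≤ A ^ 2) (h2 : ∫ V, g V ^ 2 ∂(GP m) ≤ B ^ 2) :
    ∫ V, f V * g V ∂(GP m) ≤ A * B := by
  rcases eq_or_lt_of_le hA with hA0 | hA0
  · -- A = 0
    rcases eq_or_lt_of_le hB with hB0 | hB0
    · have h3 : ∀ V, f V * g V ≤ (f V ^ 2 + g V ^ 2) * 2⁻¹ := fun V => by
        nlinarith [sq_nonneg (f V - g V)]
      refine (integral_mono (hf.mul hg).integrable
        ((hf.sq.integrable.add hg.sq.integrable).mul_const _) h3).trans ?_
      rw [integral_mul_const]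
      have h4 : ∫ V, ((fun V => f V ^ 2) + fun V => g V ^ 2) V ∂(GP m) =
        ∫ V, f V ^ 2 ∂(GP m) + ∫ V, g V ^ 2 ∂(GP m) := integral_add hf.sq.integrable hg.sq.integrable
      have h5 : ∫ V, (f V ^ 2 + g V ^ 2) ∂(GP m) =
        ∫ V, f V ^ 2 ∂(GP m) + ∫ V, g V ^ 2 ∂(GP m) := integral_add hf.sq.integrable hg.sq.integrable
      rw [h4]
      rw [← hA0] at h1 ⊢
      rw [← hB0] at h2
      nlinarith
    · -- B > 0, A = 0 : weights t f² + g²/t
      rw [← hA0] at h1 ⊢
      rw [zero_mul]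
      refine le_of_forall_pos_le_add fun η hη => ?_
      rw [zero_add]
      have ht : 0 < B ^ 2 / η := by positivity
      have h3 : ∀ V, f V * g V ≤ (B ^ 2 / η) * f V ^ 2 + η / (4 * B ^ 2) * g V ^ 2 := fun V => by
        have h6 : (B ^ 2 / η) * (η / (4 * B ^ 2)) = 1 / 4 := by field_simp
        have h7 : 0 ≤ η / (4 * B ^ 2) := by positivity
        have h8 := sq_nonneg ((B ^ 2 / η) * f V * 2 - g V)
        have h9 : f V * g V * (4 * (B ^ 2 / η)) ≤
            ((B ^ 2 / η) * f V ^ 2 + η / (4 * B ^ 2) * g V ^ 2) * (4 * (B ^ 2 / η)) := by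
          have : ((B ^ 2 / η) * f V ^ 2 + η / (4 * B ^ 2) * g V ^ 2) * (4 * (B ^ 2 / η)) =
            4 * (B ^ 2 / η) ^ 2 * f V ^ 2 + 4 * ((B ^ 2 / η) * (η / (4 * B ^ 2))) * g V ^ 2 := by
            ring
          rw [this, h6]
          nlinarith
        exact le_of_mul_le_mul_right h9 (by positivity)
      refine (integral_mono (hf.mul hg).integrable
        ((hf.sq.integrable.const_mul _).add (hg.sq.integrable.const_mul _)) h3).trans ?_
      have h5 : ∫ V, ((B ^ 2 / η) * f V ^ 2 + η / (4 * B ^ 2) * g V ^ 2) ∂(GP m) =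
        (B ^ 2 / η) * ∫ V, f V ^ 2 ∂(GP m) + η / (4 * B ^ 2) * ∫ V, g V ^ 2 ∂(GP m) := by
        rw [integral_add (hf.sq.integrable.const_mul _) (hg.sq.integrable.const_mul _),
          integral_const_mul, integral_const_mul]
      refine (le_of_eq h5).trans ?_
      have h6 : (B ^ 2 / η) * ∫ V, f V ^ 2 ∂(GP m) ≤ (B ^ 2 / η) * 0 ^ 2 :=
        mul_le_mul_of_nonneg_left h1 ht.le
      have h7 : η / (4 * B ^ 2) * ∫ V, g V ^ 2 ∂(GP m) ≤ η / (4 * B ^ 2) * B ^ 2 :=
        mul_le_mul_of_nonneg_left h2 (by positivity)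
      have h8 : η / (4 * B ^ 2) * B ^ 2 = η / 4 := by field_simp
      rw [h8] at h7
      linarith [mul_zero (B ^ 2 / η)]
  · rcases eq_or_lt_of_le hB with hB0 | hB0
    · rw [← hB0] at h2 ⊢
      rw [mul_zero]
      refine le_of_forall_pos_le_add fun η hη => ?_
      rw [zero_add]
      have ht : 0 < A ^ 2 / η := by positivity
      have h3 : ∀ V, f V * g V ≤ (A ^ 2 / η) * g V ^ 2 + η / (4 * A ^ 2) * f V ^ 2 := fun V => by
        have h6 : (A ^ 2 / η) * (η / (4 * A ^ 2)) = 1 / 4 := by field_simp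
        have h8 := sq_nonneg ((A ^ 2 / η) * g V * 2 - f V)
        have h9 : f V * g V * (4 * (A ^ 2 / η)) ≤
            ((A ^ 2 / η) * g V ^ 2 + η / (4 * A ^ 2) * f V ^ 2) * (4 * (A ^ 2 / η)) := by
          have : ((A ^ 2 / η) * g V ^ 2 + η / (4 * A ^ 2) * f V ^ 2) * (4 * (A ^ 2 / η)) =
            4 * (A ^ 2 / η) ^ 2 * g V ^ 2 + 4 * ((A ^ 2 / η) * (η / (4 * A ^ 2))) * f V ^ 2 := by
            ring
          rw [this, h6]
          nlinarith
        exact le_of_mul_le_mul_right h9 (by positivity)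
      refine (integral_mono (hf.mul hg).integrable
        ((hg.sq.integrable.const_mul _).add (hf.sq.integrable.const_mul _)) h3).trans ?_
      have h5 : ∫ V, ((A ^ 2 / η) * g V ^ 2 + η / (4 * A ^ 2) * f V ^ 2) ∂(GP m) =
        (A ^ 2 / η) * ∫ V, g V ^ 2 ∂(GP m) + η / (4 * A ^ 2) * ∫ V, f V ^ 2 ∂(GP m) := by
        rw [integral_add (hg.sq.integrable.const_mul _) (hf.sq.integrable.const_mul _),
          integral_const_mul, integral_const_mul]
      refine (le_of_eq h5).trans ?_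
      have h6 : (A ^ 2 / η) * ∫ V, g V ^ 2 ∂(GP m) ≤ (A ^ 2 / η) * 0 ^ 2 :=
        mul_le_mul_of_nonneg_left h2 ht.le
      have h7 : η / (4 * A ^ 2) * ∫ V, f V ^ 2 ∂(GP m) ≤ η / (4 * A ^ 2) * A ^ 2 :=
        mul_le_mul_of_nonneg_left h1 (by positivity)
      have h8 : η / (4 * A ^ 2) * A ^ 2 = η / 4 := by field_simp
      rw [h8] at h7
      linarith [mul_zero (A ^ 2 / η)]
    · have h3 : ∀ V, f V * g V ≤ B / (2 * A) * f V ^ 2 + A / (2 * B) * g V ^ 2 := fun V => by
        have h6 : (B / (2 * A)) * (A / (2 * B)) = 1 / 4 := by field_simp; ring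
        have h8 := sq_nonneg (B * f V - A * g V)
        have h9 : f V * g V * (2 * A * B) ≤
            (B / (2 * A) * f V ^ 2 + A / (2 * B) * g V ^ 2) * (2 * A * B) := by
          have : (B / (2 * A) * f V ^ 2 + A / (2 * B) * g V ^ 2) * (2 * A * B) =
            B ^ 2 * f V ^ 2 + A ^ 2 * g V ^ 2 := by
            field_simp
          rw [this]
          nlinarith
        exact le_of_mul_le_mul_right h9 (by positivity)
      refine (integral_mono (hf.mul hg).integrable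
        ((hf.sq.integrable.const_mul _).add (hg.sq.integrable.const_mul _)) h3).trans ?_
      have h5 : ∫ V, (B / (2 * A) * f V ^ 2 + A / (2 * B) * g V ^ 2) ∂(GP m) =
        B / (2 * A) * ∫ V, f V ^ 2 ∂(GP m) + A / (2 * B) * ∫ V, g V ^ 2 ∂(GP m) := by
        rw [integral_add (hf.sq.integrable.const_mul _) (hg.sq.integrable.const_mul _),
          integral_const_mul, integral_const_mul]
      refine (le_of_eq h5).trans ?_
      have h6 : B / (2 * A) * ∫ V, f V ^ 2 ∂(GP m) ≤ B / (2 * A) * A ^ 2 :=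
        mul_le_mul_of_nonneg_left h1 (by positivity)
      have h7 : A / (2 * B) * ∫ V, g V ^ 2 ∂(GP m) ≤ A / (2 * B) * B ^ 2 :=
        mul_le_mul_of_nonneg_left h2 (by positivity)
      have h8 : B / (2 * A) * A ^ 2 + A / (2 * B) * B ^ 2 = A * B := by
        field_simp
        ring
      linarith

end gen

/-! ### the resolvents -/

variable {d L : ℕ} [NeZero L]

theorem dl_dot (w : T d L → ℂ) : star (dl (0 : T d L)) ⬝ᵥ w = w 0 := by
  unfold dl
  have : star (Pi.single (0 : T d L) (1 : ℂ)) = (Pi.single (0 : T d L) (1 : ℂ) : T d L → ℂ) := by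
    rw [← Pi.single_star]
    simp
  rw [this, single_dotProduct, one_mul]

theorem mv_dl (A : Matrix (T d L) (T d L) ℂ) (y x : T d L) : (A *ᵥ dl x) y = A y x := by
  unfold dl
  rw [Matrix.mulVec_single_one, Matrix.col_apply]

section kr

variable (hR : T_KR) {b : Bool} {E ε σ : ℝ} (hε : 0 < ε)

include hR hε

theorem bc (b : Bool) (E : ℝ) (x y : T d L) : BC fun V : T d L → ℝ => RE b E ε σ V x y :=
  ⟨(hR d L b E ε σ hε).2.2.2.2.2.2.1 x y, ε⁻¹, fun V => (hR d L b E ε σ hε).2.2.2.2.2.1 V x y⟩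

theorem md (b : Bool) (E : ℝ) : MD (fun V : T d L → ℝ => RE b E ε σ V)
    (fun y V => Matrix.of fun p q => -((σ : ℂ) * (RE b E ε σ V p y * RE b E ε σ V y q))) :=
  fun i j => ⟨bc hR hε b E i j,
    fun y => BC.neg' ((BC.const (σ : ℂ)).mul ((bc hR hε b E i y).mul (bc hR hε b E y j))),
    fun y V => (hR d L b E ε σ hε).2.2.2.2.2.2.2.1 V y i j⟩

/-- Ward identity for the column at the origin -/
theorem ward_dl (b : Bool) (E : ℝ) (V : T d L → ℝ) :
    ε * nsq (RE b E ε σ V *ᵥ dl 0) = (RE false E ε σ V 0 0).im := by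
  rw [(hR d L b E ε σ hε).2.2.2.1 V (dl 0), dl_dot, mv_dl]

theorem r_nonneg (E : ℝ) (V : T d L → ℝ) : 0 ≤ (RE false E ε σ V 0 0).im := by
  rw [← ward_dl hR hε false E V]
  exact mul_nonneg hε.le (nsq_nonneg _)

theorem nsq_dl' (b : Bool) (E : ℝ) (V : T d L → ℝ) :
    nsq (RE b E ε σ V *ᵥ dl 0) = (RE false E ε σ V 0 0).im / ε := by
  rw [← ward_dl hR hε b E V]
  field_simp

theorem x_nonneg (E : ℝ) (V : T d L → ℝ) (f : T d L → ℂ) :
    0 ≤ (star f ⬝ᵥ (RE false E ε σ V *ᵥ f)).im := by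
  rw [← (hR d L false E ε σ hε).2.2.2.1 V f]
  exact mul_nonneg hε.le (nsq_nonneg _)

theorem symm (b : Bool) (E : ℝ) (V : T d L → ℝ) (x y : T d L) :
    RE b E ε σ V x y = RE b E ε σ V y x := by
  have h := (hR d L b E ε σ hε).2.2.1 V
  have h2 := congrFun (congrFun h y) x
  rw [Matrix.transpose_apply] at h2
  exact h2

theorem norm_eq (b : Bool) (E : ℝ) (V : T d L → ℝ) :
    ‖RE b E ε σ V 0 0‖ = ‖RE false E ε σ V 0 0‖ := by
  cases b with
  | false => rfl
  | true =>
    have h1 := (hR d L true E ε σ hε).1 V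
    have h2 := (hR d L false E ε σ hε).1 V
    simp only [cond_true, cond_false] at h1 h2
    rw [h1, h2, Matrix.conjTranspose_apply, norm_star]

theorem me_norm (b : Bool) (E : ℝ) : ‖me d L b E ε σ‖ = ‖me d L false E ε σ‖ := by
  cases b with
  | false => rfl
  | true =>
    have h1 := (hR d L true E ε σ hε).2.2.2.2.2.2.2.2.2.2
    have h2 := (hR d L false E ε σ hε).2.2.2.2.2.2.2.2.2.2
    simp only [cond_true, cond_false] at h1 h2
    rw [h1, h2, norm_star]

theorem r_sq_le (b : Bool) (E : ℝ) (V : T d L → ℝ) :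
    (RE false E ε σ V 0 0).im ^ 2 ≤ ‖RE b E ε σ V 0 0‖ ^ 2 := by
  rw [norm_eq hR hε b E V, ← sq_abs]
  exact pow_le_pow_left₀ (abs_nonneg _) (Complex.abs_im_le_norm _) 2

theorem int_r (E : ℝ) :
    ∫ V : T d L → ℝ, (RE false E ε σ V 0 0).im ∂(GP (T d L)) = (me d L false E ε σ).im :=
  integral_im ((bc hR hε false E 0 0).integrable _)

end kr

end Pool.Agent.T2h98.KU.Com
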