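import Pool.Agent.T2h98.KU.Stm

/-! Small facts for the limits: powers of `σ`, the symbol, uniform continuity. -/

set_option autoImplicit false
set_option linter.unusedSectionVars false

open scoped BigOperators Matrix Topology
open MeasureTheory ProbabilityTheory Filter

namespace Pool.Agent.T2h98.KU

open Pool.Agent.W788.MFP.Four (T e NN adj K)
open Pool.Agent.W788.BK (nsq hs PP JJ hi Low cr)
open Pool.Agent.T2h98.QD
open Pool.Agent.T2h98.AC (TX RX mX sy Rb Fk)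

theorem ev_pow {p x : ℝ} (hp : 0 < p) (hx : 0 < x) : ∀ᶠ σ : ℝ in 𝓝[>] 0, σ ^ p < x := by
  have h1 : ContinuousAt (fun y : ℝ => y ^ p) 0 := Real.continuousAt_rpow_const 0 p (Or.inr hp.le)
  have h2 : Tendsto (fun y : ℝ => y ^ p) (𝓝[>] 0) (𝓝 0) := by
    have := h1.tendsto
    rw [Real.zero_rpow hp.ne'] at this
    exact this.mono_left nhdsWithin_le_nhds
  exact h2.eventually (gt_mem_nhds hx)

theorem ev_lt {x : ℝ} (hx : 0 < x) : ∀ᶠ σ : ℝ in 𝓝[>] 0, σ < x := by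
  have h2 : Tendsto (fun y : ℝ => y) (𝓝[>] 0) (𝓝 (0 : ℝ)) := tendsto_id.mono_left nhdsWithin_le_nhds
  exact h2.eventually (gt_mem_nhds hx)

theorem ev_sq {x : ℝ} (hx : 0 < x) : ∀ᶠ σ : ℝ in 𝓝[>] 0, σ ^ 2 < x := by
  have := ev_pow (p := 2) (x := x) (by norm_num) hx
  filter_upwards [this] with σ h
  have e : σ ^ (2 : ℝ) = σ ^ 2 := by
    rw [← Real.rpow_natCast]
    norm_num
  rw [← e]
  exact h

section

variable {d L : ℕ} [NeZero L]

theorem be_eq (E ε σ : ℝ) (k : T d L) : be false E ε σ k =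
    (((adj k - Es d L E ε σ : ℝ) : ℂ) - ((Ga d L E ε σ : ℝ) : ℂ) * Complex.I)⁻¹ := by
  unfold be
  congr 1
  simp only [xb, Es, Ga, cond_false]
  apply Complex.ext
  · simp [← Complex.ofReal_pow]
    ring
  · simp [← Complex.ofReal_pow]
    ring

theorem inv_L {σ a : ℝ} (hσ : 0 < σ) (hL : σ ^ (-2 - a) ≤ (L : ℝ)) :
    1 / (L : ℝ) ≤ σ ^ (2 + a) := by
  have h1 : 0 < σ ^ (-2 - a) := Real.rpow_pos_of_pos hσ _
  have h2 : σ ^ (2 + a) = 1 / σ ^ (-2 - a) := by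
    rw [show -2 - a = -(2 + a) by ring, Real.rpow_neg hσ.le]
    field_simp
  rw [h2]
  exact one_div_le_one_div_of_le h1 hL

end

/-- `cn` is uniformly continuous -/
theorem cn_uc (hC : T_KCAU) (d : ℕ) (hd : 3 ≤ d) (η : ℝ) (hη : 0 < η) :
    ∃ r : ℝ, 0 < r ∧ ∀ E E' : ℝ, |E - E'| < r → ‖cn d E - cn d E'‖ ≤ η := by
  obtain ⟨-, h1⟩ := hC d hd
  obtain ⟨r, hr, h2⟩ := h1 1 (η / 2) one_pos (by positivity)
  refine ⟨r, hr, fun E E' hE => ?_⟩
  obtain ⟨Γ, hΓ⟩ : ∃ Γ : ℝ, Γ = r / 2 := ⟨_, rfl⟩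
  have hΓ0 : 0 < Γ := by rw [hΓ]; positivity
  have hΓr : Γ < r := by rw [hΓ]; linarith
  have hp : 0 < Γ ^ (1 + 1 : ℝ) := Real.rpow_pos_of_pos hΓ0 _
  obtain ⟨n, hn⟩ := exists_nat_gt (1 / Γ ^ (1 + 1 : ℝ))
  have hn0 : n ≠ 0 := by
    rintro rfl
    have : 0 < 1 / Γ ^ (1 + 1 : ℝ) := by positivity
    simp at hn
    linarith
  haveI : NeZero n := ⟨hn0⟩
  have hnp : (0 : ℝ) < n := by exact_mod_cast Nat.pos_of_ne_zero hn0
  have hL : 1 / (n : ℝ) ≤ Γ ^ (1 + 1 : ℝ) := by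
    rw [div_le_iff₀ hnp]
    have := (div_lt_iff₀ hp).1 hn
    linarith
  have h3 := (h2 E E' Γ n hE hΓ0 hΓr hL).1
  have h4 := (h2 E' E' Γ n (by simpa using hr) hΓ0 hΓr hL).1
  obtain ⟨z, hz⟩ : ∃ z, z = ((NN d n : ℝ) : ℂ)⁻¹ * ∑ k : T d n,
    (((adj k - E' : ℝ) : ℂ) - (Γ : ℂ) * Complex.I)⁻¹ := ⟨_, rfl⟩
  rw [← hz] at h3 h4
  have e1 : cn d E - cn d E' = (z - cn d E') - (z - cn d E) := by ring
  rw [e1]
  refine (norm_sub_le _ _).trans ?_
  linarith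

/-- `dn` is bounded and uniformly continuous -/
theorem dn_uc (hD : T_DOS) (d : ℕ) (hd : 3 ≤ d) : (∃ B : ℝ, ∀ E, dn d E ≤ B) ∧
    ∀ η : ℝ, 0 < η → ∃ r : ℝ, 0 < r ∧ ∀ E E' : ℝ, |E - E'| < r → |dn d E - dn d E'| < η := by
  obtain ⟨h1, -, h3, -, h5, -⟩ := hD d hd
  have hsupp : HasCompactSupport (dn d) := by
    apply HasCompactSupport.intro (isCompact_Icc (a := -(2 * (d : ℝ))) (b := 2 * (d : ℝ)))
    intro x hx
    apply (h5 x _).1
    rw [Set.mem_Icc, not_and_or, not_le, not_le] at hx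
    rcases hx with hx | hx
    · have := neg_le_abs x
      linarith
    · have := le_abs_self x
      linarith
  constructor
  · obtain ⟨C, hC⟩ := h1.bounded_above_of_compact_support hsupp
    exact ⟨C, fun E => (le_abs_self _).trans (hC E)⟩
  · intro η hη
    have huc : UniformContinuous (dn d) := hsupp.uniformContinuous_of_continuous h1
    rw [Metric.uniformContinuous_iff] at huc
    obtain ⟨r, hr, h⟩ := huc η hη
    refine ⟨r, hr, fun E E' hE => ?_⟩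
    have := h (a := E) (b := E') (by rw [Real.dist_eq]; exact hE)
    rwa [Real.dist_eq] at this

end Pool.Agent.T2h98.KU
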