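import Pool.Agent.T2h98.KU.Stm
import Pool.Agent.T2h98.QD.MoA
import Pool.Agent.T2h98.QD.Inv
import Pool.Agent.T2h98.QD.Calc
import Pool.Agent.T2h98.QD.Dyson

/-! The Schwinger-Dyson equation for the product of two resolvents. -/

set_option autoImplicit false
set_option linter.unusedSectionVars false

open scoped BigOperators Matrix Topology
open MeasureTheory ProbabilityTheory Filter

namespace Pool.Agent.T2h98.KU

open Pool.Agent.W788.MFP.Four (T e NN adj K)
open Pool.Agent.W788.BK (nsq hs PP JJ hi Low cr nsq_nonneg nsq_eq form_single)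
open Pool.Agent.W240.BK (BC BM)
open Pool.Agent.T2h98.QD
open Pool.Agent.T2h98.AC (TX RX mX sy Rb Fk)

namespace KSDS

variable {d L : ℕ} [NeZero L]

/-- the derivative of the resolvent -/
noncomputable def DR (b : Bool) (E ε σ : ℝ) (y : T d L) (V : T d L → ℝ) :
    Matrix (T d L) (T d L) ℂ :=
  Matrix.of fun p q => -((σ : ℂ) * (RE b E ε σ V p y * RE b E ε σ V y q))

theorem md (hR : T_KR) (b : Bool) (E ε σ : ℝ) (hε : 0 < ε) :
    MD (fun V : T d L → ℝ => RE b E ε σ V) (DR b E ε σ) := by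
  obtain ⟨-, -, -, -, -, h6, h7, h8, -⟩ := hR d L b E ε σ hε
  have hBC : ∀ x y : T d L, BC fun V : T d L → ℝ => RE b E ε σ V x y := fun x y =>
    ⟨h7 x y, ε⁻¹, fun V => h6 V x y⟩
  intro p q
  refine ⟨hBC p q, fun y => ?_, fun y V => h8 V y p q⟩
  simp only [DR, Matrix.of_apply]
  exact BC.neg' ((BC.const _).mul ((hBC p y).mul (hBC y q)))

theorem im_me (hR : T_KR) (E ε σ : ℝ) (hε : 0 < ε) : 0 ≤ (me d L false E ε σ).im := by
  obtain ⟨-, -, -, h4, -, h6, h7, -, -⟩ := hR d L false E ε σ hε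
  have hBC : BC fun V : T d L → ℝ => RE false E ε σ V 0 0 := ⟨h7 0 0, ε⁻¹, fun V => h6 V 0 0⟩
  have h1 : ∀ V : T d L → ℝ, 0 ≤ (RE false E ε σ V 0 0).im := by
    intro V
    have h2 := h4 V (dl 0)
    unfold dl at h2
    rw [form_single] at h2
    rw [← h2]
    exact mul_nonneg hε.le (nsq_nonneg _)
  have h3 : (me d L false E ε σ).im = ∫ V, (RE false E ε σ V 0 0).im ∂(GP (T d L)) := by
    show (∫ V, RE false E ε σ V 0 0 ∂(GP (T d L))).im = _
    exact (integral_im (hBC.integrable _)).symm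
  rw [h3]
  exact integral_nonneg h1

theorem be_mul (hR : T_KR) (b : Bool) (E ε σ : ℝ) (hε : 0 < ε) (k : T d L) :
    be b E ε σ k * (xb b E ε k - (σ : ℂ) ^ 2 * me d L b E ε σ) = 1 := by
  unfold be
  apply inv_mul_cancel₀
  have h0 := im_me (d := d) (L := L) hR E ε σ hε
  have hf : xb false E ε k - (σ : ℂ) ^ 2 * me d L false E ε σ ≠ 0 := by
    intro h
    have h1 := congrArg Complex.im h
    unfold xb at h1
    rw [← Complex.ofReal_pow] at h1
    simp only [cond_false, Complex.sub_im, Complex.ofReal_im, Complex.im_ofReal_mul,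
      Complex.mul_I_im, Complex.ofReal_re, Complex.zero_im] at h1
    have h2 : 0 ≤ σ ^ 2 * (me d L false E ε σ).im := by positivity
    linarith
  cases b
  · exact hf
  · intro h
    apply hf
    have h1 : me d L true E ε σ = star (me d L false E ε σ) := by
      obtain ⟨-, -, -, -, -, -, -, -, -, -, e1⟩ := hR d L true E ε σ hε
      obtain ⟨-, -, -, -, -, -, -, -, -, -, e2⟩ := hR d L false E ε σ hε
      rw [e1, e2]
      rfl
    have h2 : xb true E ε k = star (xb false E ε k) := by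
      unfold xb
      simp only [cond_true, cond_false]
      apply Complex.ext <;> simp
    rw [h1, h2] at h
    have h3 := congrArg star h
    rw [star_sub, star_star, star_mul', star_star, star_zero] at h3
    have h4 : star ((σ : ℂ) ^ 2) = (σ : ℂ) ^ 2 := by
      rw [← Complex.ofReal_pow]; exact Complex.conj_ofReal _
    rw [h4] at h3
    exact h3

/-- the resolvent equation -/
theorem res (hR : T_KR) (b : Bool) (E ε σ : ℝ) (hε : 0 < ε) (V : T d L → ℝ) :
    RE b E ε σ V = Mo (be b E ε σ) - Mo (be b E ε σ) *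
      (Matrix.diagonal (fun x => (σ : ℂ) * V x + (σ : ℂ) ^ 2 * me d L b E ε σ) *
        RE b E ε σ V) := by
  obtain ⟨-, h2, -⟩ := hR d L b E ε σ hε
  have h3 := (h2 V).1
  have h4 : Mo (be b E ε σ) * (Mo fun k : T d L => xb b E ε k - (σ : ℂ) ^ 2 * me d L b E ε σ) =
      1 := by
    rw [mo_mul, ← mo_one]
    congr 1
    funext k
    exact be_mul hR b E ε σ hε k
  have h5 : TX (xb b E ε) σ V = (Mo fun k : T d L => xb b E ε k - (σ : ℂ) ^ 2 * me d L b E ε σ) +
      Matrix.diagonal (fun x => (σ : ℂ) * V x + (σ : ℂ) ^ 2 * me d L b E ε σ) := by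
    unfold TX
    have h6 : (Mo fun k : T d L => xb b E ε k - (σ : ℂ) ^ 2 * me d L b E ε σ) =
        Mo (xb b E ε) - ((σ : ℂ) ^ 2 * me d L b E ε σ) • (1 : Matrix (T d L) (T d L) ℂ) := by
      rw [← mo_one, mo_smul, mo_sub]
      congr 1
      funext k
      rw [mul_one]
    have h7 : Matrix.diagonal (fun x : T d L => (σ : ℂ) * V x + (σ : ℂ) ^ 2 * me d L b E ε σ) =
        Matrix.diagonal (fun x : T d L => ((σ * V x : ℝ) : ℂ)) +
          ((σ : ℂ) ^ 2 * me d L b E ε σ) • (1 : Matrix (T d L) (T d L) ℂ) := by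
      rw [Matrix.smul_one_eq_diagonal, Matrix.diagonal_add]
      congr 1
      funext x
      push_cast
      ring
    rw [h6, h7]
    abel
  rw [h5, add_mul] at h3
  have h6 := congrArg (fun Z => Mo (be b E ε σ) * Z) h3
  simp only [mul_add, mul_one] at h6
  rw [← mul_assoc, h4, one_mul] at h6
  rw [eq_sub_iff_add_eq]
  exact h6

/-- one step of the expansion -/
theorem step (hR : T_KR) (hI : T_IBP) (b : Bool) (E ε σ : ℝ) (hε : 0 < ε)
    {Kf : (T d L → ℝ) → Matrix (T d L) (T d L) ℂ}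
    {KD : T d L → (T d L → ℝ) → Matrix (T d L) (T d L) ℂ} (hK : MD Kf KD) :
    ∫ V, (Kf V * RE b E ε σ V).trace ∂(GP (T d L)) =
      ∫ V, (Kf V * Mo (be b E ε σ)).trace ∂(GP (T d L)) +
      (σ : ℂ) ^ 2 * ∑ x, (∫ V, (RE b E ε σ V x x - me d L b E ε σ) *
        (RE b E ε σ V * Kf V * Mo (be b E ε σ) : Matrix (T d L) (T d L) ℂ) x x ∂(GP (T d L))) -
      (σ : ℂ) * ∑ x, ∫ V, (RE b E ε σ V * KD x V * Mo (be b E ε σ) :
        Matrix (T d L) (T d L) ℂ) x x ∂(GP (T d L)) := by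
  have hP := md (d := d) (L := L) hR b E ε σ hε
  obtain ⟨m, hm⟩ : ∃ m, m = me d L b E ε σ := ⟨_, rfl⟩
  obtain ⟨B, hB⟩ : ∃ B : Matrix (T d L) (T d L) ℂ, B = Mo (be b E ε σ) := ⟨_, rfl⟩
  have hA := (hP.mul hK).mul (MD.const B)
  -- pointwise identity
  have hpt : ∀ V : T d L → ℝ, (Kf V * RE b E ε σ V).trace = (Kf V * B).trace -
      ∑ x, ((σ : ℂ) * ((V x : ℂ) * (RE b E ε σ V * Kf V * B) x x) +
        (σ : ℂ) ^ 2 * m * (RE b E ε σ V * Kf V * B) x x) := by
    intro V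
    have h1 := res hR b E ε σ hε V
    rw [← hm, ← hB] at h1
    have h2 : (Kf V * RE b E ε σ V).trace = (Kf V * B).trace -
        (Kf V * (B * (Matrix.diagonal (fun x => (σ : ℂ) * V x + (σ : ℂ) ^ 2 * m) *
          RE b E ε σ V))).trace := by
      conv_lhs => rw [h1, mul_sub, Matrix.trace_sub]
    rw [h2]
    congr 1
    have h3 : (Kf V * (B * (Matrix.diagonal (fun x => (σ : ℂ) * V x + (σ : ℂ) ^ 2 * m) *
          RE b E ε σ V))).trace = (Matrix.diagonal (fun x => (σ : ℂ) * V x + (σ : ℂ) ^ 2 * m) *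
          (RE b E ε σ V * Kf V * B)).trace := by
      rw [← mul_assoc, Matrix.trace_mul_comm, mul_assoc, mul_assoc]
    rw [h3]
    unfold Matrix.trace
    refine Finset.sum_congr rfl fun x _ => ?_
    rw [Matrix.diag_apply, Matrix.diagonal_mul]
    ring
  have hBA : ∀ x, BC fun V : T d L → ℝ => (RE b E ε σ V * Kf V * B) x x := fun x => (hA x x).bF
  have hBP : ∀ x, BC fun V : T d L → ℝ => RE b E ε σ V x x := fun x => (hP x x).bF
  have hi1 : Integrable (fun V : T d L → ℝ => (Kf V * B).trace) (GP (T d L)) :=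
    ((hK.mul (MD.const B)).trace).bF.integrable _
  have hi2 : ∀ x, Integrable (fun V : T d L → ℝ =>
      (σ : ℂ) * ((V x : ℂ) * (RE b E ε σ V * Kf V * B) x x)) (GP (T d L)) := fun x =>
    (int_coord_mul x (hBA x)).const_mul _
  have hi3 : ∀ x, Integrable (fun V : T d L → ℝ =>
      (σ : ℂ) ^ 2 * m * (RE b E ε σ V * Kf V * B) x x) (GP (T d L)) := fun x =>
    ((hBA x).integrable _).const_mul _
  have h1 : ∫ V, (Kf V * RE b E ε σ V).trace ∂(GP (T d L)) =
      ∫ V, (Kf V * B).trace ∂(GP (T d L)) -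
      ∑ x, ((σ : ℂ) * (∫ V, (V x : ℂ) * (RE b E ε σ V * Kf V * B) x x ∂(GP (T d L))) +
        (σ : ℂ) ^ 2 * m * ∫ V, (RE b E ε σ V * Kf V * B) x x ∂(GP (T d L))) := by
    simp only [hpt]
    have hi4 : ∀ x ∈ Finset.univ, Integrable (fun V : T d L → ℝ =>
        (σ : ℂ) * ((V x : ℂ) * (RE b E ε σ V * Kf V * B) x x) +
        (σ : ℂ) ^ 2 * m * (RE b E ε σ V * Kf V * B) x x) (GP (T d L)) := fun x _ =>
      (hi2 x).add (hi3 x)
    rw [integral_sub hi1 (integrable_finsetSum _ hi4), integral_finsetSum _ hi4]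
    congr 1
    refine Finset.sum_congr rfl fun x _ => ?_
    rw [integral_add (hi2 x) (hi3 x), integral_const_mul, integral_const_mul]
  rw [h1]
  have h2 : ∀ x, (σ : ℂ) * (∫ V, (V x : ℂ) * (RE b E ε σ V * Kf V * B) x x ∂(GP (T d L))) +
        (σ : ℂ) ^ 2 * m * ∫ V, (RE b E ε σ V * Kf V * B) x x ∂(GP (T d L)) =
      -((σ : ℂ) ^ 2 * ∫ V, (RE b E ε σ V x x - m) * (RE b E ε σ V * Kf V * B) x x
        ∂(GP (T d L))) + (σ : ℂ) * ∫ V, (RE b E ε σ V * KD x V * B) x x ∂(GP (T d L)) := by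
    intro x
    rw [ibp' hI (hA x x) x]
    have h3 : ∀ V : T d L → ℝ, (((DR b E ε σ x V * Kf V + RE b E ε σ V * KD x V) * B +
        RE b E ε σ V * Kf V * (0 : Matrix (T d L) (T d L) ℂ)) : Matrix (T d L) (T d L) ℂ) x x =
        -((σ : ℂ) * (RE b E ε σ V x x * (RE b E ε σ V * Kf V * B) x x)) +
          (RE b E ε σ V * KD x V * B) x x := by
      intro V
      have h4 : DR b E ε σ x V * Kf V * B = Matrix.of fun p q =>
          -((σ : ℂ) * (RE b E ε σ V p x * (RE b E ε σ V * Kf V * B) x q)) := by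
        ext p q
        rw [mul_assoc, mul_assoc, Matrix.mul_apply, Matrix.of_apply, Matrix.mul_apply]
        rw [Finset.mul_sum, Finset.mul_sum, ← Finset.sum_neg_distrib]
        refine Finset.sum_congr rfl fun y _ => ?_
        unfold DR
        rw [Matrix.of_apply]
        ring
      rw [mul_zero, add_zero, add_mul, Matrix.add_apply, h4, Matrix.of_apply]
    have h5 : ∫ V, (((DR b E ε σ x V * Kf V + RE b E ε σ V * KD x V) * B +
        RE b E ε σ V * Kf V * (0 : Matrix (T d L) (T d L) ℂ)) : Matrix (T d L) (T d L) ℂ) x x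
        ∂(GP (T d L)) = -((σ : ℂ) * ∫ V, RE b E ε σ V x x * (RE b E ε σ V * Kf V * B) x x
        ∂(GP (T d L))) + ∫ V, (RE b E ε σ V * KD x V * B) x x ∂(GP (T d L)) := by
      simp only [h3]
      have j1 : Integrable (fun V : T d L → ℝ =>
          RE b E ε σ V x x * (RE b E ε σ V * Kf V * B) x x) (GP (T d L)) :=
        ((hBP x).mul (hBA x)).integrable _
      have j2 : BC (fun V : T d L → ℝ => (RE b E ε σ V * KD x V * B) x x) :=
        ((hP.bm.mul (hK.bmD x)).mul (BM.const B)) x x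
      have j3 : Integrable (fun V : T d L → ℝ =>
          -((σ : ℂ) * (RE b E ε σ V x x * (RE b E ε σ V * Kf V * B) x x))) (GP (T d L)) :=
        (j1.const_mul _).neg
      rw [integral_add j3 (j2.integrable _), integral_neg, integral_const_mul]
    rw [h5]
    have h6 : ∫ V, (RE b E ε σ V x x - m) * (RE b E ε σ V * Kf V * B) x x ∂(GP (T d L)) =
        (∫ V, RE b E ε σ V x x * (RE b E ε σ V * Kf V * B) x x ∂(GP (T d L))) -
          m * ∫ V, (RE b E ε σ V * Kf V * B) x x ∂(GP (T d L)) := by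
      simp only [sub_mul]
      have j4 : Integrable (fun V : T d L → ℝ =>
          RE b E ε σ V x x * (RE b E ε σ V * Kf V * B) x x) (GP (T d L)) :=
        ((hBP x).mul (hBA x)).integrable _
      have j5 : Integrable (fun V : T d L → ℝ => m * (RE b E ε σ V * Kf V * B) x x)
          (GP (T d L)) := ((hBA x).integrable _).const_mul _
      rw [integral_sub j4 j5, integral_const_mul]
    rw [h6]
    ring
  simp only [h2]
  rw [Finset.sum_add_distrib, Finset.sum_neg_distrib, ← Finset.mul_sum, ← Finset.mul_sum, ← hm,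
    ← hB]
  ring

/-- translation covariance -/
def TI (A : (T d L → ℝ) → Matrix (T d L) (T d L) ℂ) : Prop :=
  ∀ (V : T d L → ℝ) (a x y : T d L), A (fun z => V (z + a)) x y = A V (x + a) (y + a)

theorem TI.mo (m : T d L → ℂ) : TI fun _ : T d L → ℝ => Mo m := by
  intro V a x y
  simp only [Mo, Matrix.of_apply, add_sub_add_right_eq_sub]

theorem TI.mul {A B : (T d L → ℝ) → Matrix (T d L) (T d L) ℂ} (hA : TI A) (hB : TI B) :
    TI fun V => A V * B V := by
  intro V a x y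
  show (A (fun z => V (z + a)) * B (fun z => V (z + a))) x y = (A V * B V) (x + a) (y + a)
  have h1 := Equiv.sum_comp (Equiv.addRight a) fun z => A V (x + a) z * B V z (y + a)
  rw [Matrix.mul_apply, Matrix.mul_apply, ← h1]
  refine Finset.sum_congr rfl fun z _ => ?_
  rw [hA V a x z, hB V a z y, Equiv.coe_addRight]

theorem TI.re (hR : T_KR) (b : Bool) (E ε σ : ℝ) (hε : 0 < ε) :
    TI fun V : T d L → ℝ => RE b E ε σ V := by
  obtain ⟨-, -, -, -, -, -, -, -, h9, -⟩ := hR d L b E ε σ hε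
  exact h9

theorem sum_tr {A B : (T d L → ℝ) → Matrix (T d L) (T d L) ℂ} (hA : TI A) (hB : TI B)
    (F : ℂ → ℂ → ℂ) :
    ∑ x, ∫ V, F (A V x x) (B V x x) ∂(GP (T d L)) =
      ((NN d L : ℝ) : ℂ) * ∫ V, F (A V 0 0) (B V 0 0) ∂(GP (T d L)) := by
  have h1 : ∀ x : T d L, ∫ V, F (A V x x) (B V x x) ∂(GP (T d L)) =
      ∫ V, F (A V 0 0) (B V 0 0) ∂(GP (T d L)) := by
    intro x
    rw [← (inv d L x).1 fun V => F (A V 0 0) (B V 0 0)]
    congr 1
    funext V
    rw [hA V x 0 0, hB V x 0 0, zero_add]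
  rw [Finset.sum_congr rfl fun x _ => h1 x, Finset.sum_const, Finset.card_univ, nsmul_eq_mul,
    ← Pool.Agent.W788.MFP.Four.card_T]
  push_cast
  rfl

theorem outer (R1 P A B : Matrix (T d L) (T d L) ℂ) (D : Matrix (T d L) (T d L) ℂ) (c : ℂ)
    (x : T d L) (hD : D = Matrix.of fun p q => -(c * (P p x * P x q))) :
    (R1 * (A * D * B)) x x = -(c * ((R1 * A * P) x x * (P * B) x x)) := by
  have h1 : (R1 * (A * D * B)) x x = ((R1 * A) * (D * B)) x x := by
    rw [mul_assoc A D B, mul_assoc R1 A]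
  rw [h1, Matrix.mul_apply]
  have h2 : ∀ p, (D * B) p x = -(c * (P p x * (P * B) x x)) := by
    intro p
    rw [Matrix.mul_apply, Matrix.mul_apply, Finset.mul_sum, Finset.mul_sum,
      ← Finset.sum_neg_distrib]
    refine Finset.sum_congr rfl fun q _ => ?_
    rw [hD, Matrix.of_apply]
    ring
  simp only [h2]
  rw [Matrix.mul_apply (M := R1 * A), Finset.sum_mul, Finset.mul_sum, ← Finset.sum_neg_distrib]
  refine Finset.sum_congr rfl fun p _ => ?_
  ring

end KSDS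

open KSDS in
theorem ksd (hR : T_KR) (_hV : T_KV) (hI : T_IBP) : T_KSD := by
  intro d L _ j i b E₁ E₂ ε σ hε
  have hN : ((NN d L : ℝ) : ℂ) ≠ 0 := by
    exact_mod_cast (Pool.Agent.W788.MFP.Four.NN_pos (d := d) (L := L)).ne'
  obtain ⟨m1, hm1⟩ : ∃ m, m = me d L false E₁ ε σ := ⟨_, rfl⟩
  obtain ⟨m2, hm2⟩ : ∃ m, m = me d L b E₂ ε σ := ⟨_, rfl⟩
  have hP := md (d := d) (L := L) hR b E₂ ε σ hε
  have hK1 : MD (fun V : T d L → ℝ => vv i * RE b E₂ ε σ V * vv j)
      (fun x V => vv i * DR b E₂ ε σ x V * vv j) :=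
    (((MD.const (vv i)).mul hP).mul (MD.const (vv j))).congr' fun y V => by
      simp only [Matrix.zero_mul, Matrix.mul_zero, zero_add, add_zero]
  have s1 := step hR hI false E₁ ε σ hε hK1
  have hK2 : ∀ C : Matrix (T d L) (T d L) ℂ, MD (fun _ : T d L → ℝ => C) (fun _ _ => 0) :=
    fun C => MD.const C
  have s2 := step hR hI b E₂ ε σ hε (hK2 (vv j * Mo (be false E₁ ε σ) * vv i))
  have e1 : ∫ V, Tk b j i E₁ E₂ ε σ V ∂(GP (T d L)) = ((NN d L : ℝ) : ℂ)⁻¹ *
      ∫ V, (vv i * RE b E₂ ε σ V * vv j * RE false E₁ ε σ V : Matrix (T d L) (T d L) ℂ).trace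
        ∂(GP (T d L)) := by
    rw [← integral_const_mul]
    refine integral_congr_ae (Filter.Eventually.of_forall fun V => ?_)
    show Tk b j i E₁ E₂ ε σ V = ((NN d L : ℝ) : ℂ)⁻¹ *
      (vv i * RE b E₂ ε σ V * vv j * RE false E₁ ε σ V : Matrix (T d L) (T d L) ℂ).trace
    unfold Tk
    rw [mul_assoc (vv j * RE false E₁ ε σ V), Matrix.trace_mul_comm, ← mul_assoc]
  have e2 : ∫ V, (vv i * RE b E₂ ε σ V * vv j * Mo (be false E₁ ε σ) :
        Matrix (T d L) (T d L) ℂ).trace ∂(GP (T d L)) =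
      ∫ V, (vv j * Mo (be false E₁ ε σ) * vv i * RE b E₂ ε σ V :
        Matrix (T d L) (T d L) ℂ).trace ∂(GP (T d L)) := by
    refine integral_congr_ae (Filter.Eventually.of_forall fun V => ?_)
    show (vv i * RE b E₂ ε σ V * vv j * Mo (be false E₁ ε σ) :
        Matrix (T d L) (T d L) ℂ).trace = (vv j * Mo (be false E₁ ε σ) * vv i * RE b E₂ ε σ V :
        Matrix (T d L) (T d L) ℂ).trace
    rw [mul_assoc (vv i * RE b E₂ ε σ V), Matrix.trace_mul_comm, ← mul_assoc]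
  have e3 : ∫ V, (vv j * Mo (be false E₁ ε σ) * vv i * Mo (be b E₂ ε σ) :
      Matrix (T d L) (T d L) ℂ).trace ∂(GP (T d L)) =
      ((NN d L : ℝ) : ℂ) * tk d L b j i E₁ E₂ ε σ := by
    have hprob : IsProbabilityMeasure (GP (T d L)) := by
      unfold GP PP
      infer_instance
    rw [integral_const, probReal_univ, one_smul]
    unfold tk vv
    rw [mo_mul, mo_mul, mo_mul, mo_trace, mul_inv_cancel_left₀ hN]
    refine Finset.sum_congr rfl fun k _ => ?_
    ring
  have hTre : ∀ (b : Bool) (E : ℝ), TI fun V : T d L → ℝ => RE b E ε σ V := fun b E =>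
    TI.re hR b E ε σ hε
  have hTv : ∀ i : Fin d, TI fun _ : T d L → ℝ => (vv i : Matrix (T d L) (T d L) ℂ) := fun i =>
    TI.mo _
  -- the sums
  have t1 : ∑ x, (∫ V, (RE false E₁ ε σ V x x - m1) *
        (RE false E₁ ε σ V * (vv i * RE b E₂ ε σ V * vv j) * Mo (be false E₁ ε σ) :
          Matrix (T d L) (T d L) ℂ) x x ∂(GP (T d L))) =
      ((NN d L : ℝ) : ℂ) * ∫ V, (RE false E₁ ε σ V 0 0 - m1) * Zk b j i E₁ E₂ ε σ V
        ∂(GP (T d L)) := by
    rw [sum_tr (hTre false E₁) (((hTre false E₁).mul (((hTv i).mul (hTre b E₂)).mul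
      (hTv j))).mul (TI.mo (be false E₁ ε σ))) fun p q => (p - m1) * q]
    congr 1
    refine integral_congr_ae (Filter.Eventually.of_forall fun V => ?_)
    show _ * (RE false E₁ ε σ V * (vv i * RE b E₂ ε σ V * vv j) * Mo (be false E₁ ε σ) :
          Matrix (T d L) (T d L) ℂ) 0 0 = _ * (RE false E₁ ε σ V * vv i * RE b E₂ ε σ V * vv j *
          Mo (be false E₁ ε σ) : Matrix (T d L) (T d L) ℂ) 0 0
    rw [← mul_assoc, ← mul_assoc]
  have t2 : ∑ x, (∫ V, (RE b E₂ ε σ V x x - m2) *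
        (RE b E₂ ε σ V * (vv j * Mo (be false E₁ ε σ) * vv i) * Mo (be b E₂ ε σ) :
          Matrix (T d L) (T d L) ℂ) x x ∂(GP (T d L))) =
      ((NN d L : ℝ) : ℂ) * ∫ V, (RE b E₂ ε σ V 0 0 - m2) * Yk b j i E₁ E₂ ε σ V
        ∂(GP (T d L)) := by
    rw [sum_tr (hTre b E₂) (((hTre b E₂).mul (((hTv j).mul (TI.mo (be false E₁ ε σ))).mul
      (hTv i))).mul (TI.mo (be b E₂ ε σ))) fun p q => (p - m2) * q]
    congr 1
    refine integral_congr_ae (Filter.Eventually.of_forall fun V => ?_)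
    show _ * (RE b E₂ ε σ V * (vv j * Mo (be false E₁ ε σ) * vv i) * Mo (be b E₂ ε σ) :
          Matrix (T d L) (T d L) ℂ) 0 0 = _ * (RE b E₂ ε σ V * vv j * Mo (be false E₁ ε σ) *
          vv i * Mo (be b E₂ ε σ) : Matrix (T d L) (T d L) ℂ) 0 0
    rw [← mul_assoc, ← mul_assoc]
  have t3 : ∑ x, (∫ V, (RE false E₁ ε σ V * (vv i * DR b E₂ ε σ x V * vv j) *
        Mo (be false E₁ ε σ) : Matrix (T d L) (T d L) ℂ) x x ∂(GP (T d L))) =
      -((σ : ℂ) * (((NN d L : ℝ) : ℂ) * ∫ V, Uk b i E₁ E₂ ε σ V * Wk b j E₁ E₂ ε σ V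
        ∂(GP (T d L)))) := by
    have h1 := sum_tr (((hTre false E₁).mul (hTv i)).mul (hTre b E₂))
      (((hTre b E₂).mul (hTv j)).mul (TI.mo (be false E₁ ε σ))) fun p q => p * q
    have h2 : ∫ V, Uk b i E₁ E₂ ε σ V * Wk b j E₁ E₂ ε σ V ∂(GP (T d L)) =
        ∫ V, (RE false E₁ ε σ V * vv i * RE b E₂ ε σ V : Matrix (T d L) (T d L) ℂ) 0 0 *
          (RE b E₂ ε σ V * vv j * Mo (be false E₁ ε σ) : Matrix (T d L) (T d L) ℂ) 0 0
          ∂(GP (T d L)) := rfl
    rw [h2, ← h1, Finset.mul_sum, ← Finset.sum_neg_distrib]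
    refine Finset.sum_congr rfl fun x _ => ?_
    rw [← integral_const_mul, ← integral_neg]
    refine integral_congr_ae (Filter.Eventually.of_forall fun V => ?_)
    have h3 := outer (RE false E₁ ε σ V) (RE b E₂ ε σ V) (vv i) (vv j * Mo (be false E₁ ε σ))
      (DR b E₂ ε σ x V) (σ : ℂ) x rfl
    rw [← mul_assoc (RE b E₂ ε σ V)] at h3
    refine Eq.trans ?_ h3
    show (RE false E₁ ε σ V * (vv i * DR b E₂ ε σ x V * vv j) *
        Mo (be false E₁ ε σ) : Matrix (T d L) (T d L) ℂ) x x = (RE false E₁ ε σ V *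
        (vv i * DR b E₂ ε σ x V * (vv j * Mo (be false E₁ ε σ))) : Matrix (T d L) (T d L) ℂ) x x
    rw [mul_assoc (RE false E₁ ε σ V), mul_assoc (vv i * DR b E₂ ε σ x V)]
  have t4 : ∑ x : T d L, (∫ V, (RE b E₂ ε σ V * (0 : Matrix (T d L) (T d L) ℂ) *
      Mo (be b E₂ ε σ) : Matrix (T d L) (T d L) ℂ) x x ∂(GP (T d L))) = 0 := by
    simp
  rw [← hm1, t1, t3, e2] at s1
  rw [← hm2, t2, t4, e3] at s2
  rw [e1, s1, s2, ← hm1, ← hm2]
  field_simp
  ring

end Pool.Agent.T2h98.KU
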