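import Pool.Agent.T2h98.KU.Stm
import Pool.Agent.T2h98.QD.MoA

/-! The velocities (KV). -/

set_option autoImplicit false
set_option linter.unusedSectionVars false

open scoped BigOperators Matrix Topology
open MeasureTheory ProbabilityTheory Filter

namespace Pool.Agent.T2h98.KU

open Pool.Agent.W788.MFP.Four (T e NN adj K)
open Pool.Agent.W788.BK (nsq hs PP JJ hi Low cr)
open Pool.Agent.T2h98.QD
open Pool.Agent.T2h98.AC (TX RX mX sy Rb Fk)

namespace KVh

variable {d L : ℕ} [NeZero L]

theorem char_neg (q : ZMod L) :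
    (ZMod.stdAddChar (-q) : ℂ) = (starRingEnd ℂ) (ZMod.stdAddChar q : ℂ) :=
  AddChar.map_neg_eq_conj _ q

theorem char_norm (q : ZMod L) : ‖(ZMod.stdAddChar q : ℂ)‖ = 1 := AddChar.norm_apply _ q

theorem sn_neg (q : ZMod L) : sn (-q) = - sn q := by
  unfold sn
  rw [char_neg, Complex.conj_im]

theorem sn_abs (q : ZMod L) : |sn q| ≤ 1 := by
  unfold sn
  exact (Complex.abs_im_le_norm _).trans (char_norm q).le

theorem rf_rf (i : Fin d) (z : T d L) : rf i (rf i z) = z := by
  unfold rf
  rw [Function.update_idem, Function.update_self, neg_neg, Function.update_eq_self]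

theorem rf_same (i : Fin d) (z : T d L) : rf i z i = -z i := by
  unfold rf
  rw [Function.update_self]

theorem rf_ne {i j : Fin d} (h : j ≠ i) (z : T d L) : rf i z j = z j := by
  unfold rf
  rw [Function.update_of_ne h]

/-- the reflection as a permutation -/
def rfE (i : Fin d) : Equiv.Perm (T d L) := ⟨rf i, rf i, rf_rf i, rf_rf i⟩

theorem rf_sub (i : Fin d) (x y : T d L) : rf i y - rf i x = rf i (y - x) := by
  funext j
  by_cases h : j = i
  · subst h
    rw [Pi.sub_apply, rf_same, rf_same, rf_same, Pi.sub_apply]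
    ring
  · rw [Pi.sub_apply, rf_ne h, rf_ne h, rf_ne h, Pi.sub_apply]

theorem e_rf (i : Fin d) (k z : T d L) : e k (rf i z) = e (rf i k) z := by
  unfold Pool.Agent.W788.MFP.Four.e
  refine congrArg (fun q : ZMod L => (ZMod.stdAddChar q : ℂ)) (Finset.sum_congr rfl fun j _ => ?_)
  by_cases h : j = i
  · subst h
    rw [rf_same, rf_same]
    ring
  · rw [rf_ne h, rf_ne h]

theorem adj_rf (i : Fin d) (k : T d L) : adj (rf i k) = adj k := by
  unfold Pool.Agent.W788.MFP.Four.adj
  refine Finset.sum_congr rfl fun j _ => ?_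
  by_cases h : j = i
  · subst h
    rw [rf_same, char_neg, Complex.conj_re]
  · rw [rf_ne h]

theorem mo_rf (i : Fin d) (m : T d L → ℂ) (x y : T d L) :
    Mo m (rf i x) (rf i y) = Mo (fun k => m (rf i k)) x y := by
  unfold Mo
  rw [Matrix.of_apply, Matrix.of_apply, rf_sub]
  congr 1
  rw [← Equiv.sum_comp (rfE i)]
  refine Finset.sum_congr rfl fun k _ => ?_
  change m (rf i k) * e (rf i k) (rf i (y - x)) = _
  rw [e_rf, rf_rf]

theorem mo_transpose (m : T d L → ℂ) : (Mo m)ᵀ = Mo fun k => m (-k) := by
  ext x y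
  rw [Matrix.transpose_apply]
  unfold Mo
  rw [Matrix.of_apply, Matrix.of_apply]
  congr 1
  rw [← Equiv.sum_comp (Equiv.neg (T d L))]
  refine Finset.sum_congr rfl fun k _ => ?_
  rw [Equiv.neg_apply, Pool.Agent.W788.MFP.Four.e_neg_left, ← Pool.Agent.W788.MFP.Four.e_neg,
    neg_sub]

theorem be_rf (i : Fin d) (b : Bool) (E ε σ : ℝ) (k : T d L) :
    be b E ε σ (rf i k) = be b E ε σ k := by
  unfold be xb
  rw [adj_rf]

theorem vv_apply (i : Fin d) (x y : T d L) : vv i x y =
    Complex.I * ((if y = x + Pi.single i 1 then 1 else 0) -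
      (if y = x - Pi.single i 1 then 1 else 0)) := by
  unfold vv Mo
  rw [Matrix.of_apply]
  have h1 : ∀ k : T d L, ((2 * sn (k i) : ℝ) : ℂ) * e k (y - x) =
      -Complex.I * (e k (y - x + Pi.single i 1) - e k (y - x - Pi.single i 1)) := by
    intro k
    rw [Pool.Agent.W788.MFP.Four.e_add, KQ.e_sub k (y - x), Pool.Agent.W788.MFP.Four.e_single]
    have h2 : ((2 * sn (k i) : ℝ) : ℂ) = -Complex.I * ((ZMod.stdAddChar (k i) : ℂ) -
        (starRingEnd ℂ) (ZMod.stdAddChar (k i) : ℂ)) := by
      rw [Complex.sub_conj]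
      unfold sn
      push_cast
      linear_combination (2 * ((ZMod.stdAddChar (k i) : ℂ).im : ℂ)) * Complex.I_sq
    rw [h2]
    ring
  simp only [h1]
  rw [← Finset.mul_sum, Finset.sum_sub_distrib, Pool.Agent.W788.MFP.Four.sum_e,
    Pool.Agent.W788.MFP.Four.sum_e]
  have hN := KQ.N_ne (d := d) (L := L)
  have e1 : (y - x + Pi.single i 1 = 0) ↔ y = x - Pi.single i 1 := by
    constructor
    · intro h
      have : y = x - Pi.single i 1 + (y - x + Pi.single i 1) := by abel
      rw [this, h, add_zero]
    · intro h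
      rw [h]
      abel
  have e2 : (y - x - Pi.single i 1 = 0) ↔ y = x + Pi.single i 1 := by
    constructor
    · intro h
      have : y = x + Pi.single i 1 + (y - x - Pi.single i 1) := by abel
      rw [this, h, add_zero]
    · intro h
      rw [h]
      abel
  simp only [e1, e2]
  split_ifs <;> field_simp <;> ring

end KVh

open KVh

theorem kv : T_KV := by
  intro d L _ i
  refine ⟨?_, ?_, ?_, ?_, ?_, ?_, ?_, ?_, ?_⟩
  · unfold vv
    rw [mo_transpose]
    ext x y
    rw [Matrix.neg_apply]
    unfold Mo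
    rw [Matrix.of_apply, Matrix.of_apply, ← mul_neg, ← Finset.sum_neg_distrib]
    congr 1
    refine Finset.sum_congr rfl fun k _ => ?_
    beta_reduce
    rw [Pi.neg_apply, sn_neg]
    push_cast
    ring
  · unfold vv
    rw [mo_star]
    simp only [Complex.conj_ofReal]
  · intro w
    unfold vv
    refine nsq_mo _ 4 (fun k => ?_) w
    rw [Complex.norm_real, Real.norm_eq_abs, sq_abs]
    have := sn_abs (k i)
    have h2 := abs_le.1 this
    nlinarith
  · intro a x y
    unfold vv Mo
    rw [Matrix.of_apply, Matrix.of_apply, add_sub_add_right_eq_sub]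
  · intro x y
    unfold vv
    rw [mo_rf]
    unfold Mo
    rw [Matrix.of_apply, Matrix.of_apply, ← mul_neg, ← Finset.sum_neg_distrib]
    congr 1
    refine Finset.sum_congr rfl fun k _ => ?_
    beta_reduce
    rw [rf_same, sn_neg]
    push_cast
    ring
  · intro j hj x y
    unfold vv
    rw [mo_rf]
    simp only [rf_ne hj]
  · intro b E ε σ x y
    rw [mo_rf]
    simp only [be_rf]
  · intro F
    have hmp := measurePreserving_piCongrLeft (α := fun _ : T d L => ℝ)
      (fun _ => gaussianReal 0 1) (rfE i).symm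
    have h := hmp.integral_comp (MeasurableEquiv.measurableEmbedding _) F
    have hTv : ∀ V : T d L → ℝ, MeasurableEquiv.piCongrLeft (fun _ : T d L => ℝ)
        (rfE i).symm V = fun z => V (rf i z) := by
      intro V
      funext z
      have h1 := MeasurableEquiv.piCongrLeft_apply_apply (rfE i).symm
        (β := fun _ : T d L => ℝ) V (rf i z)
      have h2 : (rfE i).symm (rf i z) = z := rf_rf i z
      rw [h2] at h1
      exact h1
    simp only [hTv] at h
    exact h
  · intro w x
    change ∑ y, vv i x y * w y = _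
    simp only [vv_apply, mul_assoc, sub_mul, ite_mul, one_mul, zero_mul]
    rw [← Finset.mul_sum, Finset.sum_sub_distrib, Finset.sum_ite_eq', Finset.sum_ite_eq']
    simp only [Finset.mem_univ, if_true]

end Pool.Agent.T2h98.KU
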