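import Pool.Agent.T2h98.KU.Stm
import Pool.Agent.T2h98.AC.CovH
import Pool.Agent.T2h98.AC.ALG
import Pool.Agent.T2h98.QD.TV

/-! Variance bounds on the good event: common tools (helper38). -/

set_option autoImplicit false
set_option linter.all false

open scoped BigOperators Matrix Topology
open MeasureTheory ProbabilityTheory Filter

namespace Pool.Agent.T2h98.KU.PoH

open Pool.Agent.W788.MFP.Four (T e NN adj K)
open Pool.Agent.W788.BK (nsq hs PP JJ hi Low cr nsq_nonneg)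
open Pool.Agent.W240.BK (BC BM cs_int)
open Pool.Agent.T2h98.QD
open Pool.Agent.T2h98.AC (TX RX mX sy Rb Fk)

variable {d L : ℕ} [NeZero L]

/-- integrals with a bad event -/
theorem ev_int {f g : (T d L → ℝ) → ℝ} {C p0 : ℝ} {Ω : Set (T d L → ℝ)} (hΩ : MeasurableSet Ω)
    (hP : (GP (T d L)).real Ωᶜ ≤ p0) (hf : Integrable f (GP (T d L)))
    (hg : Integrable g (GP (T d L))) (hg0 : ∀ V, 0 ≤ g V) (hC : 0 ≤ C)
    (h1 : ∀ V ∈ Ω, f V ≤ g V) (h2 : ∀ V, f V ≤ C) :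
    ∫ V, f V ∂(GP (T d L)) ≤ ∫ V, g V ∂(GP (T d L)) + C * p0 := by
  have hi : Integrable (Ωᶜ.indicator fun _ : T d L → ℝ => C) (GP (T d L)) :=
    (integrable_const C).indicator hΩ.compl
  have h3 : ∀ V, f V ≤ g V + Ωᶜ.indicator (fun _ : T d L → ℝ => C) V := by
    intro V
    by_cases hV : V ∈ Ω
    · rw [Set.indicator_of_notMem (fun h : V ∈ Ωᶜ => h hV), add_zero]
      exact h1 V hV
    · rw [Set.indicator_of_mem (show V ∈ Ωᶜ from hV)]
      have := h2 V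
      have := hg0 V
      linarith
  refine (integral_mono hf (hg.add hi) h3).trans ?_
  show ∫ V, (g V + Ωᶜ.indicator (fun _ : T d L → ℝ => C) V) ∂(GP (T d L)) ≤ _
  rw [integral_add hg hi, integral_indicator_const C hΩ.compl, smul_eq_mul]
  have := mul_le_mul_of_nonneg_left hP hC
  linarith

/-- the Poincare inequality with a bad event -/
theorem var_ev (hP : T_POIN) {F : (T d L → ℝ) → ℂ} {D : T d L → (T d L → ℝ) → ℂ} (hD : GD F D)
    {g : (T d L → ℝ) → ℝ} {C p0 : ℝ} {Ω : Set (T d L → ℝ)} (hΩ : MeasurableSet Ω)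
    (hp : (GP (T d L)).real Ωᶜ ≤ p0) (hg : Integrable g (GP (T d L))) (hg0 : ∀ V, 0 ≤ g V)
    (hC : 0 ≤ C) (h1 : ∀ V ∈ Ω, ∑ y, ‖D y V‖ ^ 2 ≤ g V) (h2 : ∀ V, ∑ y, ‖D y V‖ ^ 2 ≤ C) :
    ∫ V, ‖F V - ∫ W, F W ∂(GP (T d L))‖ ^ 2 ∂(GP (T d L)) ≤
      ∫ V, g V ∂(GP (T d L)) + C * p0 := by
  have h3 := poin' hP hD
  unfold var at h3
  refine h3.trans ?_
  rw [← integral_finsetSum _ fun y _ => (RC.norm (hD.bD y)).sq.integrable]
  exact ev_int hΩ hp (RC.sum _ fun y _ => (RC.norm (hD.bD y)).sq).integrable hg hg0 hC h1 h2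

/-- derivative of the resolvent -/
noncomputable def DM (b : Bool) (E ε σ : ℝ) (y : T d L) (V : T d L → ℝ) :
    Matrix (T d L) (T d L) ℂ :=
  Matrix.of fun p q => -((σ : ℂ) * (RE b E ε σ V p y * RE b E ε σ V y q))

theorem bc (hR : T_KR) {ε : ℝ} (hε : 0 < ε) (b : Bool) (E σ : ℝ) (x y : T d L) :
    BC fun V : T d L → ℝ => RE b E ε σ V x y := by
  obtain ⟨_, _, _, _, _, r6, r7, _⟩ := hR d L b E ε σ hε
  exact ⟨r7 x y, ε⁻¹, fun V => r6 V x y⟩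

theorem md (hR : T_KR) {ε : ℝ} (hε : 0 < ε) (b : Bool) (E σ : ℝ) :
    MD (fun V : T d L → ℝ => RE b E ε σ V) (DM b E ε σ) := by
  intro p q
  obtain ⟨_, _, _, _, _, r6, r7, r8, _⟩ := hR d L b E ε σ hε
  refine ⟨bc hR hε b E σ p q, fun y => ?_, fun y V => r8 V y p q⟩
  exact BC.neg' ((BC.const (σ : ℂ)).mul ((bc hR hε b E σ p y).mul (bc hR hε b E σ y q)))

theorem dm_vec (b : Bool) (E ε σ : ℝ) (y : T d L) (V : T d L → ℝ) (f : T d L → ℂ) :
    DM b E ε σ y V *ᵥ f = (-((σ : ℂ) * (RE b E ε σ V *ᵥ f) y)) • (RE b E ε σ V *ᵥ dl y) := by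
  funext p
  rw [Pi.smul_apply, smul_eq_mul]
  have h1 : (RE b E ε σ V *ᵥ dl y) p = RE b E ε σ V p y := by
    unfold dl
    rw [Matrix.mulVec_single_one, Matrix.col_apply]
  rw [h1]
  simp only [DM, Matrix.mulVec, dotProduct, Matrix.of_apply]
  rw [Finset.mul_sum, ← Finset.sum_neg_distrib, Finset.sum_mul]
  refine Finset.sum_congr rfl fun q _ => ?_
  ring

theorem entry (A : Matrix (T d L) (T d L) ℂ) (x y : T d L) : (A *ᵥ dl y) x = A x y := by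
  unfold dl
  rw [Matrix.mulVec_single_one, Matrix.col_apply]

theorem smul_vec (A : Matrix (T d L) (T d L) ℂ) (c : ℂ) (w : T d L → ℂ) :
    A *ᵥ (c • w) = c • (A *ᵥ w) := Matrix.mulVec_smul A c w

/-- the antisymmetry of `R₁ v P` -/
theorem anti (hR : T_KR) (hV : T_KV) {ε : ℝ} (hε : 0 < ε) (b : Bool) (E₁ E₂ σ : ℝ) (i : Fin d)
    (V : T d L → ℝ) (x y : T d L) :
    (RE false E₁ ε σ V *ᵥ (vv i *ᵥ (RE b E₂ ε σ V *ᵥ dl y))) x =
      -(RE b E₂ ε σ V *ᵥ (vv i *ᵥ (RE false E₁ ε σ V *ᵥ dl x))) y := by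
  have t1 := (hR d L false E₁ ε σ hε).2.2.1 V
  have t2 := (hR d L b E₂ ε σ hε).2.2.1 V
  have t3 := (hV d L i).1
  rw [Matrix.mulVec_mulVec, Matrix.mulVec_mulVec, Matrix.mulVec_mulVec, Matrix.mulVec_mulVec,
    entry, entry]
  have h1 : ((RE false E₁ ε σ V * (vv i * RE b E₂ ε σ V) : Matrix (T d L) (T d L) ℂ))ᵀ =
      -(RE b E₂ ε σ V * (vv i * RE false E₁ ε σ V)) := by
    rw [Matrix.transpose_mul, Matrix.transpose_mul, t1, t2, t3, Matrix.mul_neg, Matrix.neg_mul,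
      Matrix.mul_assoc]
  have h2 := congrFun (congrFun h1 y) x
  rw [Matrix.transpose_apply, Matrix.neg_apply, ← Matrix.mul_assoc, ← Matrix.mul_assoc] at h2
  exact h2

/-- the derivative of `(R₁ v P f) 0` -/
theorem gdZ (hR : T_KR) (hV : T_KV) {ε : ℝ} (hε : 0 < ε) (b : Bool) (E₁ E₂ σ : ℝ) (i : Fin d)
    (f : T d L → ℂ) :
    GD (fun V : T d L → ℝ => (RE false E₁ ε σ V *ᵥ (vv i *ᵥ (RE b E₂ ε σ V *ᵥ f))) 0)
      (fun y V => -((σ : ℂ) * ((RE false E₁ ε σ V *ᵥ dl 0) y *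
        (RE false E₁ ε σ V *ᵥ (vv i *ᵥ (RE b E₂ ε σ V *ᵥ f))) y -
        (RE b E₂ ε σ V *ᵥ (vv i *ᵥ (RE false E₁ ε σ V *ᵥ dl 0))) y *
          (RE b E₂ ε σ V *ᵥ f) y))) := by
  have h1 := ((md (d := d) (L := L) hR hε false E₁ σ).mul (MD.const (vv i))).mul
    (md (d := d) (L := L) hR hε b E₂ σ)
  have h2 := h1.vec f 0
  simp only [Matrix.mul_assoc, ← Matrix.mulVec_mulVec, Matrix.add_mulVec, Matrix.mul_zero,
    add_zero] at h2
  refine h2.congr' fun y V => ?_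
  rw [Pi.add_apply, dm_vec, dm_vec, smul_vec, smul_vec, Pi.smul_apply, Pi.smul_apply,
    smul_eq_mul, smul_eq_mul, anti hR hV hε]
  have t1 := (hR d L false E₁ ε σ hε).2.2.1 V
  have h3 : (RE false E₁ ε σ V *ᵥ dl y) 0 = (RE false E₁ ε σ V *ᵥ dl 0) y := by
    rw [entry, entry]
    have h4 := congrFun (congrFun t1 y) 0
    rw [Matrix.transpose_apply] at h4
    exact h4
  rw [h3]
  ring

/-- norm of the derivative -/
theorem sumD (σ : ℝ) (a b p q : T d L → ℂ) :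
    ∑ y, ‖-((σ : ℂ) * (a y * b y - p y * q y))‖ ^ 2 ≤
      2 * σ ^ 2 * (∑ y, ‖a y‖ ^ 2 * ‖b y‖ ^ 2 + ∑ y, ‖p y‖ ^ 2 * ‖q y‖ ^ 2) := by
  rw [← Finset.sum_add_distrib, Finset.mul_sum]
  refine Finset.sum_le_sum fun y _ => ?_
  rw [norm_neg, norm_mul, mul_pow, Complex.norm_real, Real.norm_eq_abs, sq_abs]
  have h1 : ‖a y * b y - p y * q y‖ ≤ ‖a y‖ * ‖b y‖ + ‖p y‖ * ‖q y‖ := by
    refine (norm_sub_le _ _).trans (le_of_eq ?_)
    rw [norm_mul, norm_mul]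
  have h2 := pow_le_pow_left₀ (norm_nonneg _) h1 2
  have h3 := mul_le_mul_of_nonneg_left h2 (sq_nonneg σ)
  refine h3.trans ?_
  have h4 : (‖a y‖ * ‖b y‖ + ‖p y‖ * ‖q y‖) ^ 2 ≤
      2 * (‖a y‖ ^ 2 * ‖b y‖ ^ 2 + ‖p y‖ ^ 2 * ‖q y‖ ^ 2) := by
    nlinarith [sq_nonneg (‖a y‖ * ‖b y‖ - ‖p y‖ * ‖q y‖)]
  nlinarith [mul_le_mul_of_nonneg_left h4 (sq_nonneg σ)]

/-- the imaginary part of the diagonal form is nonnegative -/
theorem im_nonneg (hR : T_KR) {ε : ℝ} (hε : 0 < ε) (E σ : ℝ) (V : T d L → ℝ) (f : T d L → ℂ) :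
    0 ≤ (star f ⬝ᵥ (RE false E ε σ V *ᵥ f)).im := by
  rw [← (hR d L false E ε σ hε).2.2.2.1 V f]
  exact mul_nonneg hε.le (nsq_nonneg _)

theorem im_dl (E ε σ : ℝ) (V : T d L → ℝ) :
    (star (dl 0 : T d L → ℂ) ⬝ᵥ (RE false E ε σ V *ᵥ dl 0)).im = (RE false E ε σ V 0 0).im := by
  have h1 : star (dl 0 : T d L → ℂ) ⬝ᵥ (RE false E ε σ V *ᵥ dl 0) =
      (RE false E ε σ V *ᵥ dl 0) 0 := by
    have h2 : star (dl 0 : T d L → ℂ) = dl 0 := by
      unfold dl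
      funext x
      rw [Pi.star_apply]
      by_cases hx : x = 0
      · subst hx
        rw [Pi.single_eq_same, star_one]
      · rw [Pi.single_eq_of_ne hx, star_zero]
    rw [h2]
    unfold dl
    rw [single_dotProduct, one_mul]
  rw [h1, entry]

/-- the second moment of the imaginary part of the diagonal and its mean -/
theorem im_moments (hR : T_KR) {ε g : ℝ} (hε : 0 < ε) (E σ : ℝ)
    (hm : ‖me d L false E ε σ‖ ≤ 2 * g)
    (h7 : ∫ V : T d L → ℝ, ‖RE false E ε σ V 0 0‖ ^ 2 ∂(GP (T d L)) ≤ 7 * g ^ 2) :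
    ∫ V : T d L → ℝ, (RE false E ε σ V 0 0).im ^ 2 ∂(GP (T d L)) ≤ 7 * g ^ 2 ∧
    ∫ V : T d L → ℝ, (RE false E ε σ V 0 0).im ∂(GP (T d L)) ≤ 2 * g := by
  have hb := bc (d := d) (L := L) hR hε false E σ 0 0
  constructor
  · refine (integral_mono (RC.im hb).sq.integrable (RC.norm hb).sq.integrable fun V => ?_).trans h7
    show (RE false E ε σ V 0 0).im ^ 2 ≤ ‖RE false E ε σ V 0 0‖ ^ 2
    rw [← sq_abs (RE false E ε σ V 0 0).im]
    exact pow_le_pow_left₀ (abs_nonneg _) (Complex.abs_im_le_norm _) 2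
  · have h1 : ∫ V : T d L → ℝ, (RE false E ε σ V 0 0).im ∂(GP (T d L)) =
        (me d L false E ε σ).im := by
      unfold me mX
      exact integral_im (hb.integrable _)
    rw [h1]
    exact (Complex.im_le_norm _).trans hm

/-- the norm of the velocity -/
theorem nsq_v (hV : T_KV) (i : Fin d) (w : T d L → ℂ) : nsq (vv i *ᵥ w) ≤ 4 * nsq w :=
  (hV d L i).2.2.1 w

end Pool.Agent.T2h98.KU.PoH
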