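import Pool.Agent.T2h98.AC.Stm

/-! The Kubo-Greenwood conductivity on tori: definitions and statements of the parts. -/

set_option autoImplicit false
set_option linter.unusedSectionVars false

open scoped BigOperators Matrix Topology
open MeasureTheory ProbabilityTheory Filter

namespace Pool.Agent.T2h98.KU

open Pool.Agent.W788.MFP.Four (T e NN adj K)
open Pool.Agent.W788.BK (nsq hs PP JJ hi Low cr)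
open Pool.Agent.T2h98.QD
open Pool.Agent.T2h98.AC (TX RX mX sy Rb Fk)

section

variable {d L : ℕ} [NeZero L]

/-- `sin (2 π q / L)` -/
noncomputable def sn (q : ZMod L) : ℝ := (ZMod.stdAddChar q : ℂ).im

/-- the velocity in direction `i` -/
noncomputable def vv (i : Fin d) : Matrix (T d L) (T d L) ℂ := Mo fun k => ((2 * sn (k i) : ℝ) : ℂ)

/-- the reflection in direction `i` -/
def rf (i : Fin d) (z : T d L) : T d L := Function.update z i (-z i)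

/-- the symbol `adj - E - i ε`, or its complex conjugate -/
noncomputable def xb (b : Bool) (E ε : ℝ) (k : T d L) : ℂ :=
  ((adj k - E : ℝ) : ℂ) - (((bif b then -ε else ε : ℝ)) : ℂ) * Complex.I

/-- the resolvent `(Δ + σ V - E - i ε)⁻¹`, or its adjoint -/
noncomputable def RE (b : Bool) (E ε σ : ℝ) (V : T d L → ℝ) : Matrix (T d L) (T d L) ℂ :=
  RX (xb b E ε) σ V

/-- the mean of the diagonal of the resolvent -/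
noncomputable def me (d L : ℕ) [NeZero L] (b : Bool) (E ε σ : ℝ) : ℂ :=
  mX (d := d) (L := L) (xb b E ε) σ

/-- the symbol of the mean field resolvent -/
noncomputable def be (b : Bool) (E ε σ : ℝ) (k : T d L) : ℂ :=
  (xb b E ε k - (σ : ℂ) ^ 2 * me d L b E ε σ)⁻¹

/-- the width -/
noncomputable def Ga (d L : ℕ) [NeZero L] (E ε σ : ℝ) : ℝ := ε + σ ^ 2 * (me d L false E ε σ).im

/-- the shifted energy -/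
noncomputable def Es (d L : ℕ) [NeZero L] (E ε σ : ℝ) : ℝ := E + σ ^ 2 * (me d L false E ε σ).re

/-- the current at a site -/
noncomputable def Uk (b : Bool) (i : Fin d) (E₁ E₂ ε σ : ℝ) (V : T d L → ℝ) : ℂ :=
  (RE false E₁ ε σ V * vv i * RE b E₂ ε σ V : Matrix (T d L) (T d L) ℂ) 0 0

/-- one resolvent and the mean field resolvent -/
noncomputable def Wk (b : Bool) (j : Fin d) (E₁ E₂ ε σ : ℝ) (V : T d L → ℝ) : ℂ :=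
  (RE b E₂ ε σ V * vv j * Mo (be false E₁ ε σ) : Matrix (T d L) (T d L) ℂ) 0 0

/-- one resolvent and two mean field resolvents -/
noncomputable def Yk (b : Bool) (j i : Fin d) (E₁ E₂ ε σ : ℝ) (V : T d L → ℝ) : ℂ :=
  (RE b E₂ ε σ V * vv j * Mo (be false E₁ ε σ) * vv i * Mo (be b E₂ ε σ) :
    Matrix (T d L) (T d L) ℂ) 0 0

/-- two resolvents and the mean field resolvent -/
noncomputable def Zk (b : Bool) (j i : Fin d) (E₁ E₂ ε σ : ℝ) (V : T d L → ℝ) : ℂ :=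
  (RE false E₁ ε σ V * vv i * RE b E₂ ε σ V * vv j * Mo (be false E₁ ε σ) :
    Matrix (T d L) (T d L) ℂ) 0 0

/-- the mean field value of the product of two resolvents -/
noncomputable def tk (d L : ℕ) [NeZero L] (b : Bool) (j i : Fin d) (E₁ E₂ ε σ : ℝ) : ℂ :=
  ((NN d L : ℝ) : ℂ)⁻¹ * ∑ k : T d L, ((2 * sn (k j) : ℝ) : ℂ) * ((2 * sn (k i) : ℝ) : ℂ) *
    be false E₁ ε σ k * be b E₂ ε σ k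

/-- `v_j R v_i P` per volume, before taking the mean -/
noncomputable def Tk (b : Bool) (j i : Fin d) (E₁ E₂ ε σ : ℝ) (V : T d L → ℝ) : ℂ :=
  ((NN d L : ℝ) : ℂ)⁻¹ *
    (vv j * RE false E₁ ε σ V * vv i * RE b E₂ ε σ V).trace

/-- the imaginary part of the resolvent -/
noncomputable def IR (E ε σ : ℝ) (V : T d L → ℝ) : Matrix (T d L) (T d L) ℂ :=
  (2 * Complex.I)⁻¹ • (RE false E ε σ V - RE true E ε σ V)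

/-- the Kubo-Greenwood expression -/
noncomputable def Fq (j i : Fin d) (E₁ E₂ ε σ : ℝ) (V : T d L → ℝ) : ℂ :=
  ((NN d L : ℝ) : ℂ)⁻¹ * (vv j * IR E₁ ε σ V * vv i * IR E₂ ε σ V).trace

end

/-- hypotheses on the parameters, all energies at once -/
structure ParK (d L : ℕ) [NeZero L] (σ δ ε t Q g p0 : ℝ) (Ω : Set (T d L → ℝ)) : Prop where
  hσ : 0 < σ
  hσ1 : σ ≤ 1
  hε : 0 < ε
  hεσ : ε ≤ σ ^ 2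
  hσδ : σ ^ 2 ≤ δ
  hδ1 : δ ≤ 1
  ht : 0 ≤ t
  hσt : σ * t ≤ 1 / 2
  hQ1 : 1 ≤ Q
  hQ : ∀ (E : ℝ) (a b : T d L → ℂ),
    ∑ y, ‖a y‖ ^ 2 * ‖b y‖ ^ 2 ≤ Q * (qf (J0 E δ) a * qf (J0 E δ) b)
  hg1 : 1 ≤ g
  hg : ∀ E' : ℝ, ∑ k : T d L, (JJ E' δ k)⁻¹ ≤ g * NN d L
  hp0 : 0 ≤ p0
  hp : p0 ≤ ε ^ 12
  hΩ : MeasurableSet Ω
  hP : (GP (T d L)).real Ωᶜ ≤ p0
  hgood : ∀ ξ ∈ Ω, ∀ (E : ℝ) (w : T d L → ℝ), |∑ z, ξ z * w z ^ 2| ≤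
    t * Pool.Agent.W788.MFP.Four.q (JJ E δ) w

/-- smallness of the parameters -/
structure SmK (σ ε δ Q g m0 ζ : ℝ) : Prop where
  hm0 : 0 < m0
  hm1 : m0 ≤ 1
  hζ : 0 < ζ
  hζ1 : ζ ≤ 1 / 4
  k1 : 10 ^ 7 * (σ ^ 2 * Q * (δ / ε) ^ 2) * (σ ^ 2 / ε) * g ^ 4 ≤ m0 ^ 3 * ζ ^ 2
  k2 : 4 * σ ^ 2 * g ≤ ζ
  k3 : (1 + 2 * g) * σ ^ 2 ≤ δ

/-- a good energy: known facts on the mean of the diagonal -/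
structure GE (d L : ℕ) [NeZero L] (σ δ ε g m0 E : ℝ) : Prop where
  h1 : ‖me d L false E ε σ‖ ≤ 2 * g
  h2 : m0 * σ ^ 2 ≤ Ga d L E ε σ
  h3 : Ga d L E ε σ ≤ δ
  h4 : ∑ k : T d L, (JJ (Es d L E ε σ) (Ga d L E ε σ) k)⁻¹ ≤ g * NN d L

/-! ## A. Simple facts -/

/-- the resolvents -/
def T_KR : Prop := ∀ (d L : ℕ) [NeZero L] (b : Bool) (E ε σ : ℝ), 0 < ε →
  (∀ V : T d L → ℝ, RE b E ε σ V =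
    bif b then (Rh (h0 E) σ ε V)ᴴ else Rh (h0 E) σ ε V) ∧
  (∀ V : T d L → ℝ, TX (xb b E ε) σ V * RE b E ε σ V = 1 ∧
    RE b E ε σ V * TX (xb b E ε) σ V = 1) ∧
  (∀ V : T d L → ℝ, (RE b E ε σ V)ᵀ = RE b E ε σ V) ∧
  (∀ (V : T d L → ℝ) (f : T d L → ℂ),
    ε * nsq (RE b E ε σ V *ᵥ f) = (star f ⬝ᵥ (RE false E ε σ V *ᵥ f)).im) ∧
  (∀ (V : T d L → ℝ) (f : T d L → ℂ), nsq (RE b E ε σ V *ᵥ f) ≤ nsq f / ε ^ 2) ∧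
  (∀ (V : T d L → ℝ) (x y : T d L), ‖RE b E ε σ V x y‖ ≤ ε⁻¹) ∧
  (∀ x y : T d L, Continuous fun V : T d L → ℝ => RE b E ε σ V x y) ∧
  (∀ (V : T d L → ℝ) (y p q : T d L),
    HasDerivAt (fun t : ℝ => RE b E ε σ (Function.update V y t) p q)
      (-((σ : ℂ) * (RE b E ε σ V p y * RE b E ε σ V y q))) (V y)) ∧
  (∀ (V : T d L → ℝ) (a x y : T d L), RE b E ε σ (fun z => V (z + a)) x y =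
    RE b E ε σ V (x + a) (y + a)) ∧
  (∀ (V : T d L → ℝ) (i : Fin d) (x y : T d L), RE b E ε σ (fun z => V (rf i z)) x y =
    RE b E ε σ V (rf i x) (rf i y)) ∧
  me d L b E ε σ = (bif b then star (mT d L σ E ε) else mT d L σ E ε)

/-- the velocities -/
def T_KV : Prop := ∀ (d L : ℕ) [NeZero L] (i : Fin d),
  (vv (L := L) i)ᵀ = -vv i ∧ (vv (L := L) i)ᴴ = vv i ∧
  (∀ w : T d L → ℂ, nsq (vv i *ᵥ w) ≤ 4 * nsq w) ∧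
  (∀ a x y : T d L, vv i (x + a) (y + a) = vv i x y) ∧
  (∀ x y : T d L, vv i (rf i x) (rf i y) = -vv i x y) ∧
  (∀ j : Fin d, j ≠ i → ∀ x y : T d L, vv j (rf i x) (rf i y) = vv j x y) ∧
  (∀ (b : Bool) (E ε σ : ℝ) (x y : T d L),
    Mo (be b E ε σ) (rf i x) (rf i y) = Mo (be b E ε σ) x y) ∧
  (∀ (F : (T d L → ℝ) → ℂ), ∫ V, F (fun z => V (rf i z)) ∂(GP (T d L)) =
    ∫ V, F V ∂(GP (T d L))) ∧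
  ∀ (w : T d L → ℂ) (x : T d L),
    (vv i *ᵥ w) x = Complex.I * (w (x + Pi.single i 1) - w (x - Pi.single i 1))

/-- the form bound on the good event -/
def T_KQ2 : Prop := ∀ (d L : ℕ) [NeZero L] (σ δ ε t Q g p0 : ℝ) (Ω : Set (T d L → ℝ)),
  ParK d L σ δ ε t Q g p0 Ω → ∀ V ∈ Ω, ∀ (b : Bool) (E : ℝ) (f : T d L → ℂ),
    qf (J0 E δ) (RE b E ε σ V *ᵥ f) ≤
      4 * (nsq f / δ + (δ / ε) * (star f ⬝ᵥ (RE false E ε σ V *ᵥ f)).im) ∧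
    qf (J0 E δ) (RE b E ε σ V *ᵥ f) ≤ 8 * (δ / ε ^ 2) * nsq f ∧
    qf (J0 E δ) (RE b E ε σ V *ᵥ dl 0) ≤ 4 * (δ / ε) * (g + (RE false E ε σ V 0 0).im)

/-- the Schwinger-Dyson equation for the product of two resolvents -/
def T_KSD : Prop := ∀ (d L : ℕ) [NeZero L] (j i : Fin d) (b : Bool) (E₁ E₂ ε σ : ℝ), 0 < ε →
  ∫ V, Tk b j i E₁ E₂ ε σ V ∂(GP (T d L)) = tk d L b j i E₁ E₂ ε σ +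
    (σ : ℂ) ^ 2 * (∫ V, (RE b E₂ ε σ V 0 0 - me d L b E₂ ε σ) * Yk b j i E₁ E₂ ε σ V
      ∂(GP (T d L))) +
    (σ : ℂ) ^ 2 * (∫ V, (RE false E₁ ε σ V 0 0 - me d L false E₁ ε σ) *
      Zk b j i E₁ E₂ ε σ V ∂(GP (T d L))) +
    (σ : ℂ) ^ 2 * (∫ V, Uk b i E₁ E₂ ε σ V * Wk b j E₁ E₂ ε σ V ∂(GP (T d L)))

/-- means which vanish by symmetry -/
def T_KREF : Prop := ∀ (d L : ℕ) [NeZero L] (j i : Fin d) (b : Bool) (E₁ E₂ ε σ : ℝ), 0 < ε →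
  ∫ V, Uk b i E₁ E₂ ε σ V ∂(GP (T d L)) = 0 ∧ ∫ V, Wk b j E₁ E₂ ε σ V ∂(GP (T d L)) = 0 ∧
  (i ≠ j → tk d L b j i E₁ E₂ ε σ = 0)

/-! ## B. Variances -/

/-- the diagonal of the resolvent -/
def T_KV1 : Prop := ∀ (d L : ℕ) [NeZero L] (σ δ ε t Q g p0 : ℝ) (Ω : Set (T d L → ℝ)),
  ParK d L σ δ ε t Q g p0 Ω → 100 * (σ ^ 2 * Q * (δ / ε) ^ 2) ≤ 1 → ∀ (b : Bool) (E : ℝ),
  ‖me d L false E ε σ‖ ≤ 2 * g →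
  ∫ V, ‖RE b E ε σ V 0 0 - me d L b E ε σ‖ ^ 2 ∂(GP (T d L)) ≤
    1000 * (σ ^ 2 * Q * (δ / ε) ^ 2) * g ^ 2 ∧
  ∫ V, ‖RE b E ε σ V 0 0‖ ^ 2 ∂(GP (T d L)) ≤ 7 * g ^ 2

/-- the symbol of the mean of the resolvent -/
def T_KRB : Prop := ∀ (d L : ℕ) [NeZero L] (σ δ ε t Q g p0 m0 ζ E : ℝ) (Ω : Set (T d L → ℝ)),
  ParK d L σ δ ε t Q g p0 Ω → SmK σ ε δ Q g m0 ζ → GE d L σ δ ε g m0 E →
  (∀ κ : T d L, ‖Rb (xb false E ε) σ κ‖ ≤ 2 / Ga d L E ε σ ∧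
    ‖(σ : ℂ) ^ 2 * Fk (xb false E ε) σ κ‖ ≤ ζ / g) ∧
  ‖me d L false E ε σ - ((NN d L : ℝ) : ℂ)⁻¹ * ∑ k : T d L, be false E ε σ k‖ ≤ ζ

/-- quadratic expressions -/
def T_KXF : Prop := ∀ (d L : ℕ) [NeZero L] (σ δ ε t Q g p0 E : ℝ) (Ω : Set (T d L → ℝ)),
  ParK d L σ δ ε t Q g p0 Ω → 100 * (σ ^ 2 * Q * (δ / ε) ^ 2) ≤ 1 → 0 < Ga d L E ε σ →
  Ga d L E ε σ ≤ δ → (∀ κ : T d L, ‖Rb (xb false E ε) σ κ‖ ≤ 2 / Ga d L E ε σ) →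
  ∀ f : T d L → ℂ,
  ∫ V, (star f ⬝ᵥ (RE false E ε σ V *ᵥ f)).im ^ 2 ∂(GP (T d L)) ≤
    100 * (nsq f / Ga d L E ε σ) ^ 2

/-- the current at a site -/
def T_KU : Prop := ∀ (d L : ℕ) [NeZero L] (σ δ ε t Q g p0 : ℝ) (Ω : Set (T d L → ℝ)),
  ParK d L σ δ ε t Q g p0 Ω → 100 * (σ ^ 2 * Q * (δ / ε) ^ 2) ≤ 1 → ∀ (b : Bool) (i : Fin d)
  (E₁ E₂ : ℝ), ‖me d L false E₁ ε σ‖ ≤ 2 * g → ‖me d L false E₂ ε σ‖ ≤ 2 * g →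
  ∫ V, ‖Uk b i E₁ E₂ ε σ V‖ ^ 2 ∂(GP (T d L)) ≤
    10000 * (σ ^ 2 * Q * (δ / ε) ^ 2) * g ^ 2 / ε ^ 2

/-- one resolvent applied to a vector -/
def T_KW : Prop := ∀ (d L : ℕ) [NeZero L] (σ δ ε t Q g p0 E : ℝ) (Ω : Set (T d L → ℝ)),
  ParK d L σ δ ε t Q g p0 Ω → 100 * (σ ^ 2 * Q * (δ / ε) ^ 2) ≤ 1 → 0 < Ga d L E ε σ →
  Ga d L E ε σ ≤ δ → ‖me d L false E ε σ‖ ≤ 2 * g → ∀ f : T d L → ℂ,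
  ∫ V, (star f ⬝ᵥ (RE false E ε σ V *ᵥ f)).im ^ 2 ∂(GP (T d L)) ≤
    100 * (nsq f / Ga d L E ε σ) ^ 2 → ∀ b : Bool,
  ∫ V, ‖(RE b E ε σ V *ᵥ f) 0 - ∫ W, (RE b E ε σ W *ᵥ f) 0 ∂(GP (T d L))‖ ^ 2 ∂(GP (T d L)) ≤
    2000 * (σ ^ 2 * Q * (δ / ε) ^ 2) * g * nsq f / Ga d L E ε σ ∧
  ∫ V, ‖(RE b E ε σ V *ᵥ f) 0‖ ^ 2 ∂(GP (T d L)) ≤ 3 * g / ε * nsq f

/-- two resolvents applied to a vector -/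
def T_KZ : Prop := ∀ (d L : ℕ) [NeZero L] (σ δ ε t Q g p0 E₁ E₂ : ℝ) (Ω : Set (T d L → ℝ)),
  ParK d L σ δ ε t Q g p0 Ω → 100 * (σ ^ 2 * Q * (δ / ε) ^ 2) ≤ 1 → 0 < Ga d L E₂ ε σ →
  Ga d L E₂ ε σ ≤ δ → ‖me d L false E₁ ε σ‖ ≤ 2 * g → ∀ f : T d L → ℂ,
  ∫ V, (star f ⬝ᵥ (RE false E₂ ε σ V *ᵥ f)).im ^ 2 ∂(GP (T d L)) ≤
    100 * (nsq f / Ga d L E₂ ε σ) ^ 2 → ∀ (b : Bool) (i : Fin d),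
  ∫ V, ‖(RE false E₁ ε σ V *ᵥ (vv i *ᵥ (RE b E₂ ε σ V *ᵥ f))) 0 -
      ∫ W, (RE false E₁ ε σ W *ᵥ (vv i *ᵥ (RE b E₂ ε σ W *ᵥ f))) 0 ∂(GP (T d L))‖ ^ 2
      ∂(GP (T d L)) ≤
    10 ^ 5 * (σ ^ 2 * Q * (δ / ε) ^ 2) * g * nsq f / (ε ^ 2 * Ga d L E₂ ε σ)

/-- the mean field approximation of the conductivity -/
def T_KMAIN : Prop := ∀ (d L : ℕ) [NeZero L] (σ δ ε t Q g p0 m0 ζ E₁ E₂ : ℝ)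
  (Ω : Set (T d L → ℝ)), ParK d L σ δ ε t Q g p0 Ω → SmK σ ε δ Q g m0 ζ →
  GE d L σ δ ε g m0 E₁ → GE d L σ δ ε g m0 E₂ → ∀ (b : Bool) (j i : Fin d),
  ‖∫ V, Tk b j i E₁ E₂ ε σ V ∂(GP (T d L)) - tk d L b j i E₁ E₂ ε σ‖ ≤ ζ / σ ^ 2

/-- the mean of the Kubo-Greenwood expression -/
def T_KEF : Prop := ∀ (d L : ℕ) [NeZero L] (j i : Fin d) (E₁ E₂ ε σ r : ℝ), 0 < ε → 0 ≤ r →
  (∀ (b : Bool) (j i : Fin d),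
    ‖∫ V, Tk b j i E₁ E₂ ε σ V ∂(GP (T d L)) - tk d L b j i E₁ E₂ ε σ‖ ≤ r) →
  ‖∫ V, Fq j i E₁ E₂ ε σ V ∂(GP (T d L)) - (if j = i then
    ((((NN d L)⁻¹ * ∑ k : T d L, 4 * (1 - cr (k i) ^ 2) *
      ((Ga d L E₁ ε σ / ((adj k - Es d L E₁ ε σ) ^ 2 + Ga d L E₁ ε σ ^ 2)) *
      (Ga d L E₂ ε σ / ((adj k - Es d L E₂ ε σ) ^ 2 + Ga d L E₂ ε σ ^ 2))) : ℝ)) : ℂ)
    else 0)‖ ≤ r

/-- concentration -/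
def T_KCONC : Prop := ∀ (d L : ℕ) [NeZero L] (j i : Fin d) (E₁ E₂ ε σ g : ℝ), 0 < ε →
  ‖me d L false E₁ ε σ‖ ≤ 2 * g → ‖me d L false E₂ ε σ‖ ≤ 2 * g →
  (Continuous fun V : T d L → ℝ => Fq j i E₁ E₂ ε σ V) ∧
  ∫ V, ‖Fq j i E₁ E₂ ε σ V - ∫ W, Fq j i E₁ E₂ ε σ W ∂(GP (T d L))‖ ^ 2 ∂(GP (T d L)) ≤
    200 * σ ^ 2 * g / (NN d L * ε ^ 5)

/-- the Kubo-Greenwood formula in terms of the eigenvectors -/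
def T_KEIG : Prop := ∀ (d L : ℕ) [NeZero L] (j i : Fin d) (E₁ E₂ ε σ : ℝ), 0 < ε →
  ∀ (V : T d L → ℝ) (u : T d L → T d L → ℂ) (w : T d L → ℝ),
  (∀ a, HT σ V *ᵥ u a = (w a : ℂ) • u a) →
  (∀ a c, star (u a) ⬝ᵥ u c = if a = c then 1 else 0) →
  Fq j i E₁ E₂ ε σ V = ((NN d L : ℝ) : ℂ)⁻¹ * ∑ a, ∑ c,
    (star (u c) ⬝ᵥ (vv j *ᵥ u a)) * (star (u a) ⬝ᵥ (vv i *ᵥ u c)) *
      ((ε / ((w a - E₁) ^ 2 + ε ^ 2) * (ε / ((w c - E₂) ^ 2 + ε ^ 2)) : ℝ) : ℂ)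

/-! ## C. Sums over the momenta -/

/-- the boundary values of the Cauchy transform of the density of states -/
noncomputable def cn (d : ℕ) (E : ℝ) : ℂ := Complex.I *
  ∫ s in Set.Ioi (0 : ℝ), Complex.exp (((E * s : ℝ) : ℂ) * Complex.I) * jb (-s) ^ d

/-- the boundary values for the squared velocity -/
noncomputable def cw (d : ℕ) (E : ℝ) : ℂ := Complex.I *
  ∫ s in Set.Ioi (0 : ℝ), Complex.exp (((E * s : ℝ) : ℂ) * Complex.I) *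
    (kb (-s) * jb (-s) ^ (d - 1))

/-- Cauchy sums -/
def T_KCAU : Prop := ∀ d : ℕ, 3 ≤ d → (∀ E : ℝ, (cn d E).im = Real.pi * dn d E ∧
    (cw d E).im = Real.pi * dw d E) ∧
  ∀ θ η : ℝ, 0 < θ → 0 < η → ∃ r : ℝ, 0 < r ∧
  ∀ (E E' Γ : ℝ) (L : ℕ) [NeZero L], |E - E'| < r → 0 < Γ → Γ < r →
  1 / (L : ℝ) ≤ Γ ^ (1 + θ) →
  ‖((NN d L : ℝ) : ℂ)⁻¹ * ∑ k : T d L, (((adj k - E' : ℝ) : ℂ) - (Γ : ℂ) * Complex.I)⁻¹ -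
    cn d E‖ ≤ η ∧
  ∀ i : Fin d, ‖((NN d L : ℝ) : ℂ)⁻¹ * ∑ k : T d L, ((4 * (1 - cr (k i) ^ 2) : ℝ) : ℂ) *
    (((adj k - E' : ℝ) : ℂ) - (Γ : ℂ) * Complex.I)⁻¹ - cw d E‖ ≤ η

/-- products of two Lorentz functions -/
def T_KLOR : Prop := ∀ d : ℕ, 3 ≤ d → ∀ θ c0 A η : ℝ, 0 < θ → 0 < c0 → c0 ≤ A → 0 < η →
  ∃ r : ℝ, 0 < r ∧ ∀ (L : ℕ) [NeZero L] (E E₁ E₂ Γ₁ Γ₂ s γ ν : ℝ), 0 < s → s < r →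
  |E - E₁| < r → |E - E₂| < r → c0 ≤ γ → γ ≤ A → |ν| ≤ A → |Γ₁ - s * γ| ≤ r * s →
  |Γ₂ - s * γ| ≤ r * s → |E₂ - E₁ - s * ν| ≤ r * s → 1 / (L : ℝ) ≤ s ^ (1 + θ) → ∀ i : Fin d,
  |s * ((NN d L)⁻¹ * ∑ k : T d L, 4 * (1 - cr (k i) ^ 2) *
      ((Γ₁ / ((adj k - E₁) ^ 2 + Γ₁ ^ 2)) * (Γ₂ / ((adj k - E₂) ^ 2 + Γ₂ ^ 2)))) -
    2 * Real.pi * γ * dw d E / (ν ^ 2 + 4 * γ ^ 2)| ≤ η

/-! ## D. The parameters -/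

/-- the choice of the parameters -/
def T_KSCAL : Prop := ∀ (κ : ℕ) (d : ℕ), 3 ≤ d → ∀ h : ℝ, 0 < h →
  h < (if d = 3 then 1 else 2) / 3 → ∀ a : ℝ, 0 < a →
  ∀ m0 ζ : ℝ, 0 < m0 → m0 ≤ 1 → 0 < ζ → ζ ≤ 1 / 4 → ∀ᶠ σ : ℝ in 𝓝[>] 0,
  ∀ (L : ℕ) [NeZero L], σ ^ (-2 - a) ≤ (L : ℝ) → (L : ℝ) ≤ σ ^ (-(κ : ℝ)) →
  ∃ (δ t Q g p0 : ℝ) (Ω : Set (T d L → ℝ)),
    (∀ E' Γ : ℝ, m0 * σ ^ 2 ≤ Γ → ∑ k : T d L, (JJ E' Γ k)⁻¹ ≤ g * NN d L) ∧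
    g ≤ σ ^ (-(1 / 100) : ℝ) ∧
    ∀ ε : ℝ, σ ^ (2 + h) ≤ ε → ε ≤ σ ^ 2 → ParK d L σ δ ε t Q g p0 Ω ∧ SmK σ ε δ Q g m0 ζ

/-- the mean of the diagonal at good energies, tori of any polynomial size -/
def T_KIMS : Prop := ∀ (κ : ℕ) (d : ℕ), 3 ≤ d → ∀ h a : ℝ, 0 < h →
  h < (if d = 3 then 1 else 2) / (2 + 1 / 2) → 0 < a → ∀ c η : ℝ, 0 < c → 0 < η →
  ∀ᶠ σ : ℝ in 𝓝[>] 0, ∀ (L : ℕ) [NeZero L], σ ^ (-2 - a) ≤ (L : ℝ) →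
  (L : ℝ) ≤ σ ^ (-(κ : ℝ)) → ∀ ε : ℝ, σ ^ (2 + h) ≤ ε → ε ≤ σ ^ 2 → ∀ E : ℝ, c ≤ dn d E →
    |(mT d L σ E ε).im - Real.pi * dn d E| ≤ η

/-- good energies -/
def T_KGE : Prop := ∀ (κ : ℕ) (d : ℕ), 3 ≤ d → ∀ h : ℝ, 0 < h →
  h < (if d = 3 then 1 else 2) / 3 → ∀ a : ℝ, 0 < a → ∀ c ζ : ℝ, 0 < c → 0 < ζ →
  ζ ≤ 1 / 4 → ∃ m0 : ℝ, 0 < m0 ∧ m0 ≤ 1 ∧ ∀ᶠ σ : ℝ in 𝓝[>] 0,
  ∀ (L : ℕ) [NeZero L], σ ^ (-2 - a) ≤ (L : ℝ) → (L : ℝ) ≤ σ ^ (-(κ : ℝ)) →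
  ∃ (δ t Q g p0 : ℝ) (Ω : Set (T d L → ℝ)), g ≤ σ ^ (-(1 / 100) : ℝ) ∧
    ∀ ε : ℝ, σ ^ (2 + h) ≤ ε → ε ≤ σ ^ 2 → ParK d L σ δ ε t Q g p0 Ω ∧
      SmK σ ε δ Q g m0 ζ ∧ ∀ E : ℝ, c ≤ dn d E → GE d L σ δ ε g m0 E ∧
        |(me d L false E ε σ).im - Real.pi * dn d E| ≤ ζ

/-- the mean of the diagonal, complex version -/
def T_KRE : Prop := ∀ (κ : ℕ) (d : ℕ), 3 ≤ d → ∀ h : ℝ, 0 < h →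
  h < (if d = 3 then 1 else 2) / 3 → ∀ a : ℝ, 0 < a → ∀ c η : ℝ, 0 < c → 0 < η →
  ∀ᶠ σ : ℝ in 𝓝[>] 0,
  ∀ (L : ℕ) [NeZero L], σ ^ (-2 - a) ≤ (L : ℝ) → (L : ℝ) ≤ σ ^ (-(κ : ℝ)) →
  ∀ ε : ℝ, σ ^ (2 + h) ≤ ε → ε ≤ σ ^ 2 → ∀ E : ℝ, c ≤ dn d E →
    ‖me d L false E ε σ - cn d E‖ ≤ η

/-- the limit of the mean -/
def T_KLIM : Prop := ∀ (κ : ℕ) (d : ℕ), 3 ≤ d → ∀ h : ℝ, 0 < h →
  h < (if d = 3 then 1 else 2) / 3 → ∀ a : ℝ, 0 < a → ∀ c A η : ℝ, 0 < c → 0 < A → 0 < η →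
  ∀ᶠ σ : ℝ in 𝓝[>] 0,
  ∀ (L : ℕ) [NeZero L], σ ^ (-2 - a) ≤ (L : ℝ) → (L : ℝ) ≤ σ ^ (-(κ : ℝ)) →
  ∀ ε : ℝ, σ ^ (2 + h) ≤ ε → ε ≤ σ ^ 2 → ∀ E ν : ℝ, c ≤ dn d E → |ν| ≤ A → ∀ j i : Fin d,
    ‖(σ : ℂ) ^ 2 * ∫ V, Fq j i E (E + ν * σ ^ 2) ε σ V ∂(GP (T d L)) -
      (if j = i then ((2 * Real.pi * (Real.pi * dn d E + ε / σ ^ 2) * dw d E /
        (ν ^ 2 + 4 * (Real.pi * dn d E + ε / σ ^ 2) ^ 2) : ℝ) : ℂ) else 0)‖ ≤ η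

/-- the conclusion for samples -/
def T_KFIN : Prop := ∀ (κ : ℕ) (d : ℕ), 3 ≤ d → ∀ h : ℝ, 0 < h →
  h < (if d = 3 then 1 else 2) / 3 → ∀ a : ℝ, 0 < a → ∀ c A η : ℝ, 0 < c → 0 < A → 0 < η →
  ∀ᶠ σ : ℝ in 𝓝[>] 0,
  ∀ (L : ℕ) [NeZero L], σ ^ (-2 - a) ≤ (L : ℝ) → (L : ℝ) ≤ σ ^ (-(κ : ℝ)) →
  ∀ ε : ℝ, σ ^ (2 + h) ≤ ε → ε ≤ σ ^ 2 → ∀ E ν : ℝ, c ≤ dn d E → |ν| ≤ A → ∀ j i : Fin d,
  ∃ Ω : Set (T d L → ℝ), MeasurableSet Ω ∧ 1 - η ≤ (GP (T d L)).real Ω ∧ ∀ V ∈ Ω,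
    ‖(σ : ℂ) ^ 2 * Fq j i E (E + ν * σ ^ 2) ε σ V -
      (if j = i then ((2 * Real.pi * (Real.pi * dn d E + ε / σ ^ 2) * dw d E /
        (ν ^ 2 + 4 * (Real.pi * dn d E + ε / σ ^ 2) ^ 2) : ℝ) : ℂ) else 0)‖ ≤ η

end Pool.Agent.T2h98.KU
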